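import Mathlib

open MeasureTheory Filter Topology Set

namespace Pool.Agent.Cov.PNT

noncomputable section

/-- Fejer kernel. -/
def K (v : ℝ) : ℝ := if v = 0 then 1 else 2 * (1 - Real.cos v) / v ^ 2

lemma K_nonneg (v : ℝ) : 0 ≤ K v := by
  unfold K
  split_ifs
  · exact zero_le_one
  · have := Real.cos_le_one v
    apply div_nonneg _ (sq_nonneg v)
    linarith

lemma K_le_one (v : ℝ) : K v ≤ 1 := by
  unfold K
  split_ifs with h
  · exact le_rfl
  · have h2 : 0 < v ^ 2 := by positivity
    rw [div_le_one h2]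
    have := Real.one_sub_sq_div_two_le_cos (x := v)
    linarith

lemma K_mul_sq_le (v : ℝ) : K v * v ^ 2 ≤ 4 := by
  unfold K
  split_ifs with h
  · subst h; norm_num
  · have h2 : v ^ 2 ≠ 0 := by positivity
    rw [div_mul_cancel₀ _ h2]
    have := Real.neg_one_le_cos v
    linarith

lemma K_le (v : ℝ) : K v ≤ 5 * (1 + v ^ 2)⁻¹ := by
  have h1 := K_le_one v
  have h2 := K_mul_sq_le v
  have h3 : 0 < 1 + v ^ 2 := by positivity
  rw [← div_eq_mul_inv, le_div_iff₀ h3]
  nlinarith

lemma K_measurable : Measurable K := by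
  unfold K
  refine Measurable.ite (measurableSet_singleton 0) measurable_const ?_
  fun_prop

lemma K_integrable : Integrable K := by
  refine Integrable.mono' (integrable_inv_one_add_sq.const_mul 5) K_measurable.aestronglyMeasurable ?_
  refine Eventually.of_forall fun v => ?_
  rw [Real.norm_of_nonneg (K_nonneg v)]
  exact K_le v

lemma K_integral_pos : 0 < ∫ v, K v := by
  rw [integral_pos_iff_support_of_nonneg (fun v => K_nonneg v) K_integrable]
  have hsub : Ioo (0:ℝ) 1 ⊆ Function.support K := by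
    intro v hv
    simp only [Function.mem_support]
    unfold K
    rw [if_neg hv.1.ne']
    have hc : Real.cos v < 1 := by
      have := Real.cos_lt_cos_of_nonneg_of_le_pi (x := 0) (y := v) le_rfl
        (by have := Real.pi_gt_three; linarith [hv.2]) hv.1
      simpa using this
    have : 0 < 2 * (1 - Real.cos v) / v ^ 2 := by
      have := hv.1
      apply div_pos (by linarith) (by positivity)
    exact this.ne'
  refine lt_of_lt_of_le ?_ (measure_mono hsub)
  simp

lemma fejer_real (L v : ℝ) (hL : 0 < L) :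
    ∫ y in (0:ℝ)..L, 2 * (1 - y / L) * Real.cos (v * y) = L * K (L * v) := by
  by_cases hv : v = 0
  · subst hv
    simp only [zero_mul, Real.cos_zero, mul_one, mul_zero]
    have : K 0 = 1 := by simp [K]
    rw [this]
    have h1 : ∀ y ∈ uIcc (0:ℝ) L, HasDerivAt (fun y => 2 * y - y ^ 2 / L) (2 * (1 - y / L)) y := by
      intro y _
      have := ((hasDerivAt_id y).const_mul 2).sub (((hasDerivAt_id y).pow 2).div_const L)
      convert! this using 1
      simp
      ring
    rw [intervalIntegral.integral_eq_sub_of_hasDerivAt h1 (by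
      apply Continuous.intervalIntegrable; fun_prop)]
    field_simp
    ring
  · have hLv : L * v ≠ 0 := mul_ne_zero hL.ne' hv
    unfold K
    rw [if_neg hLv]
    have h1 : ∀ y ∈ uIcc (0:ℝ) L, HasDerivAt
        (fun y => 2 * (1 - y / L) * Real.sin (v * y) / v - 2 * Real.cos (v * y) / (L * v ^ 2))
        (2 * (1 - y / L) * Real.cos (v * y)) y := by
      intro y _
      have hs : HasDerivAt (fun y => Real.sin (v * y)) (Real.cos (v * y) * v) y := by
        have := (Real.hasDerivAt_sin (v * y)).comp y ((hasDerivAt_id y).const_mul v)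
        convert! this using 1
        simp
      have hc : HasDerivAt (fun y => Real.cos (v * y)) (-Real.sin (v * y) * v) y := by
        have := (Real.hasDerivAt_cos (v * y)).comp y ((hasDerivAt_id y).const_mul v)
        convert! this using 1
        simp
      have hl : HasDerivAt (fun y => 2 * (1 - y / L)) (2 * (- (1 / L))) y := by
        have := (((hasDerivAt_id y).div_const L).const_sub 1).const_mul 2
        convert! this using 1
      have := ((hl.mul hs).div_const v).sub ((hc.const_mul 2).div_const (L * v ^ 2))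
      convert! this using 1
      field_simp
      ring
    rw [intervalIntegral.integral_eq_sub_of_hasDerivAt h1 (by
      apply Continuous.intervalIntegrable; fun_prop)]
    simp only [mul_zero, Real.sin_zero, Real.cos_zero, zero_div]
    rw [div_self hL.ne']
    rw [mul_comm v L]
    field_simp
    ring

lemma fejer_complex (L v : ℝ) (hL : 0 < L) :
    ∫ y in (-L)..L, ((1 - |y| / L : ℝ) : ℂ) * Complex.exp (Complex.I * ((v * y : ℝ) : ℂ))
      = ((L * K (L * v) : ℝ) : ℂ) := by
  set f : ℝ → ℂ := fun y => ((1 - |y| / L : ℝ) : ℂ) * Complex.exp (Complex.I * ((v * y : ℝ) : ℂ))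
    with hf
  have hfc : Continuous f := by
    rw [hf]; fun_prop
  have h1 : ∫ y in (-L)..L, f y = (∫ y in (0:ℝ)..L, f (-y)) + ∫ y in (0:ℝ)..L, f y := by
    rw [intervalIntegral.integral_comp_neg, neg_zero,
      intervalIntegral.integral_add_adjacent_intervals] <;>
    exact hfc.intervalIntegrable _ _
  have hfc' : Continuous (fun y => f (-y)) := hfc.comp continuous_neg
  rw [h1, ← intervalIntegral.integral_add (hfc'.intervalIntegrable _ _)
    (hfc.intervalIntegrable _ _), ← fejer_real L v hL, ← intervalIntegral.integral_ofReal]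
  refine intervalIntegral.integral_congr fun y hy => ?_
  rw [uIcc_of_le hL.le] at hy
  simp only [hf, abs_neg, abs_of_nonneg hy.1]
  rw [← mul_add]
  push_cast
  rw [Complex.cos]
  have e1 : Complex.I * ((v:ℂ) * -(y:ℂ)) = -((v:ℂ) * y) * Complex.I := by ring
  have e2 : Complex.I * ((v:ℂ) * (y:ℂ)) = ((v:ℂ) * y) * Complex.I := by ring
  rw [e1, e2]
  ring

section main

variable {S : ℝ → ℝ} {A C : ℝ}

/-- the function `S(e^u) e^{-u}` -/
def ff (S : ℝ → ℝ) (u : ℝ) : ℝ := S (Real.exp u) * Real.exp (-u)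

lemma ff_nonneg (hS0 : ∀ x, 0 ≤ S x) (u : ℝ) : 0 ≤ ff S u :=
  mul_nonneg (hS0 _) (Real.exp_pos _).le

lemma ff_le (hSC : ∀ x, 1 ≤ x → S x ≤ C * x) {u : ℝ} (hu : 0 ≤ u) : ff S u ≤ C := by
  unfold ff
  have h1 : 1 ≤ Real.exp u := Real.one_le_exp hu
  have h2 := hSC _ h1
  calc S (Real.exp u) * Real.exp (-u) ≤ C * Real.exp u * Real.exp (-u) :=
        mul_le_mul_of_nonneg_right h2 (Real.exp_pos _).le
    _ = C := by rw [mul_assoc, ← Real.exp_add]; simp

lemma ff_measurable (hmono : Monotone S) : Measurable (ff S) := by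
  unfold ff
  exact (hmono.measurable.comp Real.measurable_exp).mul (by fun_prop)

lemma ff_shift (hmono : Monotone S) {u v : ℝ} (h : u ≤ v) :
    ff S u * Real.exp (-(v - u)) ≤ ff S v := by
  unfold ff
  have h1 : S (Real.exp u) ≤ S (Real.exp v) := hmono (Real.exp_le_exp.mpr h)
  calc S (Real.exp u) * Real.exp (-u) * Real.exp (-(v - u))
      = S (Real.exp u) * Real.exp (-v) := by rw [mul_assoc, ← Real.exp_add]; ring_nf
    _ ≤ S (Real.exp v) * Real.exp (-v) := mul_le_mul_of_nonneg_right h1 (Real.exp_pos _).le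

/-- Fubini step. -/
lemma fubini_step (hmono : Monotone S) (hS0 : ∀ x, 0 ≤ S x) (hSC : ∀ x, 1 ≤ x → S x ≤ C * x)
    (L σ x : ℝ) (hL : 0 < L) (hσ : 0 < σ) :
    ∫ y in (-L)..L, ((1 - |y| / L : ℝ) : ℂ) * Complex.exp (Complex.I * ((x * y : ℝ) : ℂ)) *
      (∫ u in Ioi (0:ℝ), ((ff S u - A : ℝ) : ℂ) * Complex.exp (-((σ:ℂ) + Complex.I * y) * u))
    = ((∫ u in Ioi (0:ℝ), (ff S u - A) * Real.exp (-σ * u) * (L * K (L * (x - u))) : ℝ) : ℂ) := by
  have hLL : -L ≤ L := by linarith
  set g : ℝ → ℝ → ℂ := fun y u => ((1 - |y| / L : ℝ) : ℂ) * Complex.exp (Complex.I * ((x * y : ℝ) : ℂ)) *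
      (((ff S u - A : ℝ) : ℂ) * Complex.exp (-((σ:ℂ) + Complex.I * y) * u)) with hg
  have hff := ff_measurable hmono
  have hgm : Measurable (Function.uncurry g) := by
    have hm : Measurable (fun p : ℝ × ℝ => ff S p.2) := hff.comp measurable_snd
    have : Function.uncurry g = fun p : ℝ × ℝ => ((1 - |p.1| / L : ℝ) : ℂ) *
      Complex.exp (Complex.I * ((x * p.1 : ℝ) : ℂ)) *
      (((ff S p.2 - A : ℝ) : ℂ) * Complex.exp (-((σ:ℂ) + Complex.I * p.1) * p.2)) := by
      ext p; rfl
    rw [this]
    fun_prop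
  have hnorm : ∀ y ∈ Ioc (-L) L, ∀ u ∈ Ioi (0:ℝ), ‖g y u‖ ≤ (C + |A|) * Real.exp (-σ * u) := by
    intro y hy u hu
    have hu' : (0:ℝ) ≤ u := le_of_lt hu
    simp only [hg, norm_mul, Complex.norm_exp, Complex.norm_real]
    have e1 : (Complex.I * ((x * y : ℝ) : ℂ)).re = 0 := by
      simp
    have e2 : (-((σ:ℂ) + Complex.I * y) * u).re = -σ * u := by
      simp
    rw [e1, e2, Real.exp_zero, mul_one]
    have h1 : ‖1 - |y| / L‖ ≤ 1 := by
      have hy1 : |y| ≤ L := abs_le.mpr ⟨hy.1.le, hy.2⟩
      have hy2 : |y| / L ≤ 1 := (div_le_one hL).mpr hy1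
      have hy3 : 0 ≤ |y| / L := by positivity
      rw [Real.norm_eq_abs, abs_le]
      constructor <;> linarith
    have h2 : ‖ff S u - A‖ ≤ C + |A| := by
      have a1 := ff_nonneg hS0 u
      have a2 := ff_le hSC hu'
      calc ‖ff S u - A‖ ≤ ‖ff S u‖ + ‖A‖ := norm_sub_le _ _
        _ ≤ C + |A| := by
          rw [Real.norm_of_nonneg a1, Real.norm_eq_abs]
          linarith
    have h3 := Real.exp_pos (-σ * u)
    calc ‖1 - |y| / L‖ * (‖ff S u - A‖ * Real.exp (-σ * u))
        ≤ 1 * ((C + |A|) * Real.exp (-σ * u)) := by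
          apply mul_le_mul h1 _ (by positivity) zero_le_one
          exact mul_le_mul_of_nonneg_right h2 h3.le
      _ = _ := one_mul _
  have hexp : IntegrableOn (fun u => Real.exp (-σ * u)) (Ioi 0) := by
    exact integrableOn_exp_mul_Ioi (by linarith) 0
  have hint : Integrable (Function.uncurry g)
      ((volume.restrict (Ioc (-L) L)).prod (volume.restrict (Ioi (0:ℝ)))) := by
    have hb : Integrable (fun p : ℝ × ℝ => (1:ℝ) * ((C + |A|) * Real.exp (-σ * p.2)))
        ((volume.restrict (Ioc (-L) L)).prod (volume.restrict (Ioi (0:ℝ)))) := by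
      apply Integrable.mul_prod (f := fun _ : ℝ => (1:ℝ))
        (g := fun u => (C + |A|) * Real.exp (-σ * u))
      · exact integrable_const _
      · exact hexp.const_mul _
    refine Integrable.mono' hb hgm.aestronglyMeasurable ?_
    rw [Measure.prod_restrict]
    refine (ae_restrict_mem (measurableSet_Ioc.prod measurableSet_Ioi)).mono ?_
    intro p hp
    rw [one_mul]
    exact hnorm p.1 hp.1 p.2 hp.2
  rw [intervalIntegral.integral_of_le hLL]
  have step1 : ∫ y in Ioc (-L) L, ((1 - |y| / L : ℝ) : ℂ) * Complex.exp (Complex.I * ((x * y : ℝ) : ℂ)) *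
      (∫ u in Ioi (0:ℝ), ((ff S u - A : ℝ) : ℂ) * Complex.exp (-((σ:ℂ) + Complex.I * y) * u))
      = ∫ y in Ioc (-L) L, ∫ u in Ioi (0:ℝ), g y u := by
    refine integral_congr_ae (Eventually.of_forall fun y => ?_)
    simp only [hg]
    rw [integral_const_mul]
  rw [step1, integral_integral_swap hint, ← integral_complex_ofReal]
  refine integral_congr_ae (Eventually.of_forall fun u => ?_)
  simp only [hg]
  have hfe := fejer_complex L (x - u) hL
  rw [intervalIntegral.integral_of_le hLL] at hfe
  have : ∀ y : ℝ, ((1 - |y| / L : ℝ) : ℂ) * Complex.exp (Complex.I * ((x * y : ℝ) : ℂ)) *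
      (((ff S u - A : ℝ) : ℂ) * Complex.exp (-((σ:ℂ) + Complex.I * y) * u))
      = (((ff S u - A) * Real.exp (-σ * u) : ℝ) : ℂ) *
        (((1 - |y| / L : ℝ) : ℂ) * Complex.exp (Complex.I * (((x - u) * y : ℝ) : ℂ))) := by
    intro y
    have e : Complex.exp (Complex.I * ((x * y : ℝ) : ℂ)) * Complex.exp (-((σ:ℂ) + Complex.I * y) * u)
      = ((Real.exp (-σ * u) : ℝ) : ℂ) * Complex.exp (Complex.I * (((x - u) * y : ℝ) : ℂ)) := by
      rw [← Complex.exp_add, Complex.ofReal_exp, ← Complex.exp_add]
      congr 1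
      push_cast
      ring
    push_cast at e ⊢
    linear_combination (1 - ((|y| : ℝ) : ℂ) / L) * ((ff S u : ℂ) - A) * e
  simp_rw [this]
  rw [integral_const_mul, hfe]
  push_cast
  ring

lemma K_shift_integrable (L x : ℝ) (hL : 0 < L) : Integrable (fun u => L * K (L * (x - u))) := by
  have h1 : Integrable (fun v => K (L * v)) := K_integrable.comp_mul_left' hL.ne'
  exact (h1.comp_sub_left x).const_mul L

/-- limit `σ → 0+` -/
lemma limit_step (hmono : Monotone S) (hS0 : ∀ x, 0 ≤ S x) (hSC : ∀ x, 1 ≤ x → S x ≤ C * x)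
    {Φ : ℂ → ℂ} (hΦ : ContinuousOn Φ {z | 0 ≤ z.re})
    (hE : ∀ σ : ℝ, 0 < σ → ∀ y : ℝ, ∫ u in Ioi (0:ℝ), ((ff S u - A : ℝ) : ℂ) *
      Complex.exp (-((σ:ℂ) + Complex.I * y) * u) = Φ (σ + Complex.I * y))
    (L x : ℝ) (hL : 0 < L) :
    ∫ y in (-L)..L, ((1 - |y| / L : ℝ) : ℂ) * Complex.exp (Complex.I * ((x * y : ℝ) : ℂ)) *
      Φ (Complex.I * y)
     = ((∫ u in Ioi (0:ℝ), (ff S u - A) * (L * K (L * (x - u))) : ℝ) : ℂ) := by
  have hLL : -L ≤ L := by linarith
  have hff := ff_measurable hmono
  have hC : 0 ≤ C := (ff_nonneg hS0 0).trans (ff_le hSC le_rfl)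
  -- left side
  have hl : Tendsto (fun σ : ℝ => ∫ y in (-L)..L, ((1 - |y| / L : ℝ) : ℂ) *
      Complex.exp (Complex.I * ((x * y : ℝ) : ℂ)) * Φ (σ + Complex.I * y)) (𝓝[>] 0)
      (𝓝 (∫ y in (-L)..L, ((1 - |y| / L : ℝ) : ℂ) *
      Complex.exp (Complex.I * ((x * y : ℝ) : ℂ)) * Φ (Complex.I * y))) := by
    have hcont : ContinuousOn (fun p : ℝ × ℝ => Φ ((p.1:ℂ) + Complex.I * p.2))
        (Icc 0 1 ×ˢ Icc (-L) L) := by
      refine hΦ.comp (by fun_prop) ?_
      intro p hp
      simp only [mem_ofPred_eq, Complex.add_re, Complex.ofReal_re, Complex.mul_re, Complex.I_re,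
        zero_mul, Complex.I_im, Complex.ofReal_im, mul_zero, sub_zero, add_zero]
      exact hp.1.1
    obtain ⟨M, hM⟩ := (isCompact_Icc.prod isCompact_Icc).exists_bound_of_continuousOn hcont
    refine intervalIntegral.tendsto_integral_filter_of_dominated_convergence (fun _ => M) ?_ ?_ ?_ ?_
    · filter_upwards [self_mem_nhdsWithin] with σ hσ
      have hσ' : (0:ℝ) ≤ σ := le_of_lt hσ
      refine Continuous.aestronglyMeasurable ?_
      refine Continuous.mul (by fun_prop) ?_
      refine hΦ.comp_continuous (by fun_prop) ?_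
      intro y
      simpa using hσ'
    · have h1 : ∀ᶠ σ : ℝ in 𝓝[>] 0, σ < 1 := nhdsWithin_le_nhds (Iio_mem_nhds one_pos)
      filter_upwards [self_mem_nhdsWithin, h1] with σ hσ hσ1
      have hσ' : (0:ℝ) ≤ σ := le_of_lt hσ
      refine Eventually.of_forall fun y hy => ?_
      rw [uIoc_of_le hLL] at hy
      have hb := hM (σ, y) ⟨⟨hσ', hσ1.le⟩, ⟨hy.1.le, hy.2⟩⟩
      rw [norm_mul, norm_mul, Complex.norm_exp]
      have e1 : (Complex.I * ((x * y : ℝ) : ℂ)).re = 0 := by simp
      rw [e1, Real.exp_zero, mul_one, Complex.norm_real]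
      have hy1 : |y| ≤ L := abs_le.mpr ⟨hy.1.le, hy.2⟩
      have hy2 : |y| / L ≤ 1 := (div_le_one hL).mpr hy1
      have hy3 : 0 ≤ |y| / L := by positivity
      have h1 : ‖1 - |y| / L‖ ≤ 1 := by
        rw [Real.norm_eq_abs, abs_le]
        constructor <;> linarith
      calc ‖1 - |y| / L‖ * ‖Φ (σ + Complex.I * y)‖ ≤ 1 * M :=
            mul_le_mul h1 hb (norm_nonneg _) zero_le_one
        _ = M := one_mul _
    · exact intervalIntegrable_const
    · refine Eventually.of_forall fun y hy => ?_
      refine Tendsto.const_mul _ ?_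
      have hc := hΦ (Complex.I * y) (by simp)
      have : Tendsto (fun σ : ℝ => (σ : ℂ) + Complex.I * y) (𝓝[>] 0)
          (𝓝[{z | 0 ≤ z.re}] (Complex.I * y)) := by
        refine tendsto_nhdsWithin_iff.mpr ⟨?_, ?_⟩
        · have h0 : Continuous (fun σ : ℝ => (σ : ℂ) + Complex.I * y) := by fun_prop
          have := h0.tendsto 0
          simp only [Complex.ofReal_zero, zero_add] at this
          exact this.mono_left nhdsWithin_le_nhds
        · filter_upwards [self_mem_nhdsWithin] with σ hσ
          have hσ' : (0:ℝ) ≤ σ := le_of_lt hσ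
          simpa using hσ'
      exact Tendsto.comp hc this
  have hr : Tendsto (fun σ : ℝ => ∫ u in Ioi (0:ℝ), (ff S u - A) * Real.exp (-σ * u) *
      (L * K (L * (x - u)))) (𝓝[>] 0)
      (𝓝 (∫ u in Ioi (0:ℝ), (ff S u - A) * (L * K (L * (x - u))))) := by
    refine tendsto_integral_filter_of_dominated_convergence
      (fun u => (C + |A|) * (L * K (L * (x - u)))) ?_ ?_ ?_ ?_
    · refine Eventually.of_forall fun σ => ?_
      refine Measurable.aestronglyMeasurable ?_
      have := K_measurable
      fun_prop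
    · filter_upwards [self_mem_nhdsWithin] with σ hσ
      have hσ' : (0:ℝ) < σ := hσ
      refine (ae_restrict_mem measurableSet_Ioi).mono fun u hu => ?_
      have hu' : (0:ℝ) ≤ u := le_of_lt hu
      rw [norm_mul, norm_mul, Real.norm_of_nonneg (Real.exp_pos _).le,
        Real.norm_of_nonneg (mul_nonneg hL.le (K_nonneg _))]
      refine mul_le_mul_of_nonneg_right ?_ (mul_nonneg hL.le (K_nonneg _))
      have a1 := ff_nonneg hS0 u
      have a2 := ff_le hSC hu'
      have h2 : ‖ff S u - A‖ ≤ C + |A| := by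
        calc ‖ff S u - A‖ ≤ ‖ff S u‖ + ‖A‖ := norm_sub_le _ _
          _ ≤ C + |A| := by
            rw [Real.norm_of_nonneg a1, Real.norm_eq_abs]
            linarith
      have h3 : Real.exp (-σ * u) ≤ 1 := by
        rw [Real.exp_le_one_iff]
        have := mul_nonneg hσ'.le hu'
        linarith
      calc ‖ff S u - A‖ * Real.exp (-σ * u) ≤ (C + |A|) * 1 :=
            mul_le_mul h2 h3 (Real.exp_pos _).le (by positivity)
        _ = _ := mul_one _
    · exact ((K_shift_integrable L x hL).const_mul _).integrableOn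
    · refine Eventually.of_forall fun u => ?_
      refine Tendsto.mul_const _ ?_
      have h0 : Continuous (fun σ : ℝ => (ff S u - A) * Real.exp (-σ * u)) := by fun_prop
      have := h0.tendsto 0
      simp only [neg_zero, zero_mul, Real.exp_zero, mul_one] at this
      exact this.mono_left nhdsWithin_le_nhds
  have hr' := (Complex.continuous_ofReal.tendsto _).comp hr
  refine tendsto_nhds_unique hl (hr'.congr' ?_)
  filter_upwards [self_mem_nhdsWithin] with σ hσ
  have hσ' : (0:ℝ) < σ := hσ
  simp only [Function.comp]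
  rw [← fubini_step hmono hS0 hSC L σ x hL hσ']
  refine intervalIntegral.integral_congr fun y _ => ?_
  rw [hE σ hσ' y]

/-- Riemann-Lebesgue step. -/
lemma rl_step (hmono : Monotone S) (hS0 : ∀ x, 0 ≤ S x) (hSC : ∀ x, 1 ≤ x → S x ≤ C * x)
    {Φ : ℂ → ℂ} (hΦ : ContinuousOn Φ {z | 0 ≤ z.re})
    (hE : ∀ σ : ℝ, 0 < σ → ∀ y : ℝ, ∫ u in Ioi (0:ℝ), ((ff S u - A : ℝ) : ℂ) *
      Complex.exp (-((σ:ℂ) + Complex.I * y) * u) = Φ (σ + Complex.I * y))
    (L : ℝ) (hL : 0 < L) :
    Tendsto (fun x : ℝ => ∫ u in Ioi (0:ℝ), (ff S u - A) * (L * K (L * (x - u)))) atTop (𝓝 0) := by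
  have hLL : -L ≤ L := by linarith
  set f : ℝ → ℂ := (Ioc (-L) L).indicator
    (fun y => ((1 - |y| / L : ℝ) : ℂ) * Φ (Complex.I * y)) with hf
  have hrl := Real.tendsto_integral_exp_smul_cocompact f
  have hmap : Tendsto (fun x : ℝ => -x / (2 * Real.pi)) atTop (cocompact ℝ) := by
    refine Tendsto.mono_right ?_ atBot_le_cocompact
    have hpi : 0 < 2 * Real.pi := by positivity
    exact (tendsto_neg_atTop_atBot).atBot_div_const hpi
  have h1 := hrl.comp hmap
  have h2 : (fun w : ℝ => ∫ v : ℝ, Real.fourierChar (-(v * w)) • f v) ∘ (fun x : ℝ => -x / (2 * Real.pi))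
      = fun x : ℝ => ((∫ u in Ioi (0:ℝ), (ff S u - A) * (L * K (L * (x - u))) : ℝ) : ℂ) := by
    ext x
    rw [← limit_step hmono hS0 hSC hΦ hE L x hL, intervalIntegral.integral_of_le hLL,
      ← integral_indicator measurableSet_Ioc]
    simp only [Function.comp]
    refine integral_congr_ae (Eventually.of_forall fun y => ?_)
    simp only [hf]
    by_cases hy : y ∈ Ioc (-L) L
    · rw [indicator_of_mem hy, indicator_of_mem hy, Circle.smul_def, Real.fourierChar_apply,
        smul_eq_mul]
      have e : Complex.exp (2 * Real.pi * (-(y * (-x / (2 * Real.pi))) : ℝ) * Complex.I)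
        = Complex.exp (Complex.I * ((x * y : ℝ) : ℂ)) := by
        congr 1
        have hpi : (Real.pi : ℂ) ≠ 0 := by exact_mod_cast Real.pi_ne_zero
        push_cast
        field_simp
      push_cast at e ⊢
      rw [e]
      ring
    · rw [indicator_of_notMem hy, indicator_of_notMem hy, smul_zero]
  rw [h2] at h1
  have h3 := (Complex.continuous_re.tendsto _).comp h1
  simpa only [Function.comp_def, Complex.ofReal_re, Complex.zero_re] using h3

/-- window mass -/
def J (r : ℝ) : ℝ := ∫ v in (-r)..r, K v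

lemma J_tendsto : Tendsto J atTop (𝓝 (∫ v, K v)) :=
  intervalIntegral_tendsto_integral K_integrable tendsto_neg_atTop_atBot tendsto_id

lemma window (L x δ : ℝ) :
    ∫ u in (x - δ)..(x + δ), L * K (L * (x - u)) = J (L * δ) := by
  have h1 := intervalIntegral.integral_comp_sub_left (a := x - δ) (b := x + δ)
    (fun w => L * K (L * w)) x
  rw [h1]
  have e1 : x - (x + δ) = -δ := by ring
  have e2 : x - (x - δ) = δ := by ring
  rw [e1, e2, intervalIntegral.integral_const_mul, intervalIntegral.mul_integral_comp_mul_left]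
  unfold J
  rw [mul_neg]

lemma Q_tendsto (L : ℝ) (hL : 0 < L) :
    Tendsto (fun x : ℝ => ∫ u in Ioi (0:ℝ), L * K (L * (x - u))) atTop (𝓝 (∫ v, K v)) := by
  have h1 : Integrable (fun v => L * K (L * v)) := (K_integrable.comp_mul_left' hL.ne').const_mul L
  have e : ∀ x : ℝ, ∫ u in Ioi (0:ℝ), L * K (L * (x - u)) = ∫ w in Iio x, L * K (L * w) := by
    intro x
    rw [← integral_indicator measurableSet_Ioi, ← integral_indicator measurableSet_Iio,
      ← integral_sub_left_eq_self _ _ x]
    refine integral_congr_ae (Eventually.of_forall fun u => ?_)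
    simp only
    by_cases hu : u < x
    · rw [indicator_of_mem (show x - u ∈ Ioi 0 from sub_pos.mpr hu),
        indicator_of_mem (show u ∈ Iio x from hu), sub_sub_cancel]
    · rw [indicator_of_notMem (show x - u ∉ Ioi 0 from fun h => hu (sub_pos.mp h)),
        indicator_of_notMem (show u ∉ Iio x from hu)]
  simp_rw [e]
  have h2 := (aecover_Iio (μ := (volume : Measure ℝ)) (tendsto_id (α := ℝ) (x := atTop))).integral_tendsto_of_countably_generated h1
  have h3 : ∫ v, L * K (L * v) = ∫ v, K v := by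
    rw [integral_const_mul, Measure.integral_comp_mul_left, smul_eq_mul, abs_of_pos (inv_pos.mpr hL)]
    field_simp
  rw [h3] at h2
  exact h2

lemma tauber (hmono : Monotone S) (hS0 : ∀ x, 0 ≤ S x) (hSC : ∀ x, 1 ≤ x → S x ≤ C * x)
    (h : ∀ L : ℝ, 0 < L → Tendsto (fun x : ℝ => ∫ u in Ioi (0:ℝ), (ff S u - A) *
      (L * K (L * (x - u)))) atTop (𝓝 0)) :
    Tendsto (ff S) atTop (𝓝 A) := by
  set I : ℝ := ∫ v, K v with hI
  have hIpos : 0 < I := K_integral_pos
  have hff := ff_measurable hmono
  have hC : 0 ≤ C := (ff_nonneg hS0 0).trans (ff_le hSC le_rfl)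
  -- integrability of ff * kernel
  have hPint : ∀ L : ℝ, 0 < L → ∀ x : ℝ,
      IntegrableOn (fun u => ff S u * (L * K (L * (x - u)))) (Ioi 0) := by
    intro L hL x
    refine Integrable.mono' (((K_shift_integrable L x hL).const_mul C).integrableOn) ?_ ?_
    · refine Measurable.aestronglyMeasurable ?_
      have := K_measurable
      fun_prop
    · refine (ae_restrict_mem measurableSet_Ioi).mono fun u hu => ?_
      have hu' : (0:ℝ) ≤ u := le_of_lt hu
      have hk : 0 ≤ L * K (L * (x - u)) := mul_nonneg hL.le (K_nonneg _)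
      rw [norm_mul, Real.norm_of_nonneg (ff_nonneg hS0 u), Real.norm_of_nonneg hk]
      exact mul_le_mul_of_nonneg_right (ff_le hSC hu') hk
  have hP : ∀ L : ℝ, 0 < L → Tendsto (fun x : ℝ => ∫ u in Ioi (0:ℝ), ff S u *
      (L * K (L * (x - u)))) atTop (𝓝 (A * I)) := by
    intro L hL
    have h1 := (h L hL).add ((Q_tendsto L hL).const_mul A)
    rw [zero_add] at h1
    refine h1.congr fun x => ?_
    rw [← integral_const_mul, ← integral_add]
    · refine integral_congr_ae (Eventually.of_forall fun u => ?_)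
      simp only
      ring
    · have e : (fun u => (ff S u - A) * (L * K (L * (x - u))))
        = fun u => ff S u * (L * K (L * (x - u))) - A * (L * K (L * (x - u))) := by
        ext u; ring
      rw [e]
      exact (hPint L hL x).sub (((K_shift_integrable L x hL).const_mul A).integrableOn)
    · exact ((K_shift_integrable L x hL).const_mul A).integrableOn
  have hJ0 : ∀ r, 0 ≤ r → 0 ≤ J r := by
    intro r hr
    exact intervalIntegral.integral_nonneg (by linarith) fun v _ => K_nonneg v
  have hA0 : 0 ≤ A := by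
    have h1 : 0 ≤ A * I := ge_of_tendsto' (hP 1 one_pos) fun x =>
      setIntegral_nonneg measurableSet_Ioi fun u _ =>
        mul_nonneg (ff_nonneg hS0 u) (mul_nonneg one_pos.le (K_nonneg _))
    by_contra hA
    push Not at hA
    have := mul_neg_of_neg_of_pos hA hIpos
    linarith
  -- upper inequality
  have hup : ∀ L δ x : ℝ, 0 < L → 0 < δ → δ ≤ x →
      ff S (x - δ) * Real.exp (-(2 * δ)) * J (L * δ) ≤
        ∫ u in Ioi (0:ℝ), ff S u * (L * K (L * (x - u))) := by
    intro L δ x hL hδ hx
    have hle : x - δ ≤ x + δ := by linarith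
    rw [← window L x δ, ← intervalIntegral.integral_const_mul, intervalIntegral.integral_of_le hle]
    have hsub : Ioc (x - δ) (x + δ) ⊆ Ioi 0 := by
      intro u hu
      have := hu.1
      simp only [mem_Ioi]
      linarith
    calc ∫ u in Ioc (x - δ) (x + δ), ff S (x - δ) * Real.exp (-(2 * δ)) * (L * K (L * (x - u)))
        ≤ ∫ u in Ioc (x - δ) (x + δ), ff S u * (L * K (L * (x - u))) := by
          refine setIntegral_mono_on ((K_shift_integrable L x hL).const_mul _).integrableOn
            ((hPint L hL x).mono_set hsub) measurableSet_Ioc fun u hu => ?_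
          have hk : 0 ≤ L * K (L * (x - u)) := mul_nonneg hL.le (K_nonneg _)
          refine mul_le_mul_of_nonneg_right ?_ hk
          refine le_trans ?_ (ff_shift hmono hu.1.le)
          refine mul_le_mul_of_nonneg_left ?_ (ff_nonneg hS0 _)
          apply Real.exp_le_exp.mpr
          have := hu.2
          linarith
      _ ≤ ∫ u in Ioi (0:ℝ), ff S u * (L * K (L * (x - u))) := by
          refine setIntegral_mono_set (hPint L hL x) ?_ hsub.eventuallyLE
          exact Eventually.of_forall fun u =>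
            mul_nonneg (ff_nonneg hS0 u) (mul_nonneg hL.le (K_nonneg _))
  have hlow : ∀ L δ x : ℝ, 0 < L → 0 < δ → δ ≤ x →
      ∫ u in Ioi (0:ℝ), ff S u * (L * K (L * (x - u))) ≤
        (ff S (x + δ) * Real.exp (2 * δ) - C) * J (L * δ) + C * I := by
    intro L δ x hL hδ hx
    have hle : x - δ ≤ x + δ := by linarith
    have hsub : Ioc (x - δ) (x + δ) ⊆ Ioi 0 := by
      intro u hu
      have := hu.1
      simp only [mem_Ioi]
      linarith
    have hk : ∀ u, 0 ≤ L * K (L * (x - u)) := fun u => mul_nonneg hL.le (K_nonneg _)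
    have hki := K_shift_integrable L x hL
    have h1 : ∫ u in Ioi (0:ℝ), C * (L * K (L * (x - u))) ≤ C * I := by
      have h2 : ∫ u in Ioi (0:ℝ), L * K (L * (x - u)) ≤ I := by
        have h3 : ∫ u in Ioi (0:ℝ), L * K (L * (x - u)) ≤ ∫ u, L * K (L * (x - u)) :=
          setIntegral_le_integral hki (Eventually.of_forall hk)
        have h4 : ∫ u, L * K (L * (x - u)) = I := by
          rw [integral_sub_left_eq_self (fun w => L * K (L * w)) volume x, integral_const_mul,
            Measure.integral_comp_mul_left, smul_eq_mul, abs_of_pos (inv_pos.mpr hL)]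
          field_simp
          rfl
        linarith
      rw [integral_const_mul]
      exact mul_le_mul_of_nonneg_left h2 hC
    have h5 : ∫ u in Ioi (0:ℝ), (Ioc (x - δ) (x + δ)).indicator
        (fun u => (ff S (x + δ) * Real.exp (2 * δ) - C) * (L * K (L * (x - u)))) u
        = (ff S (x + δ) * Real.exp (2 * δ) - C) * J (L * δ) := by
      rw [setIntegral_indicator measurableSet_Ioc, inter_eq_self_of_subset_right hsub,
        integral_const_mul, ← window L x δ, intervalIntegral.integral_of_le hle]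
    calc ∫ u in Ioi (0:ℝ), ff S u * (L * K (L * (x - u)))
        ≤ ∫ u in Ioi (0:ℝ), ((Ioc (x - δ) (x + δ)).indicator
        (fun u => (ff S (x + δ) * Real.exp (2 * δ) - C) * (L * K (L * (x - u)))) u
          + C * (L * K (L * (x - u)))) := by
          refine setIntegral_mono_on (hPint L hL x) ?_ measurableSet_Ioi fun u hu => ?_
          · exact (((hki.const_mul _).indicator measurableSet_Ioc).integrableOn).add
              (hki.const_mul _).integrableOn
          · by_cases huw : u ∈ Ioc (x - δ) (x + δ)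
            · rw [indicator_of_mem huw]
              have h6 : ff S u ≤ ff S (x + δ) * Real.exp (2 * δ) := by
                have h7 := ff_shift hmono huw.2
                have h8 : ff S u = ff S u * Real.exp (-(x + δ - u)) * Real.exp (x + δ - u) := by
                  rw [mul_assoc, ← Real.exp_add]; simp
                rw [h8]
                refine mul_le_mul h7 ?_ (Real.exp_pos _).le (ff_nonneg hS0 _)
                apply Real.exp_le_exp.mpr
                have := huw.1
                linarith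
              have := mul_le_mul_of_nonneg_right h6 (hk u)
              linarith
            · rw [indicator_of_notMem huw, zero_add]
              exact mul_le_mul_of_nonneg_right (ff_le hSC (le_of_lt hu)) (hk u)
      _ = (ff S (x + δ) * Real.exp (2 * δ) - C) * J (L * δ)
          + ∫ u in Ioi (0:ℝ), C * (L * K (L * (x - u))) := by
          rw [integral_add, h5]
          · exact ((hki.const_mul _).indicator measurableSet_Ioc).integrableOn
          · exact (hki.const_mul _).integrableOn
      _ ≤ _ := by linarith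
  -- choice of parameters
  have hJn : Tendsto (fun n : ℕ => J ((n:ℝ) + 1)) atTop (𝓝 I) :=
    J_tendsto.comp (tendsto_atTop_add_const_right _ _ tendsto_natCast_atTop_atTop)
  have hδn : Tendsto (fun n : ℕ => 1 / ((n:ℝ) + 1)) atTop (𝓝 0) :=
    tendsto_one_div_add_atTop_nhds_zero_nat
  have hen : Tendsto (fun n : ℕ => Real.exp (2 * (1 / ((n:ℝ) + 1)))) atTop (𝓝 1) := by
    have := (Real.continuous_exp.tendsto _).comp (hδn.const_mul 2)
    simpa [Function.comp_def] using this
  have hen' : Tendsto (fun n : ℕ => Real.exp (-(2 * (1 / ((n:ℝ) + 1))))) atTop (𝓝 1) := by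
    have := (Real.continuous_exp.tendsto _).comp ((hδn.const_mul 2).neg)
    simpa [Function.comp_def] using this
  have hLδ : ∀ n : ℕ, ((n:ℝ) + 1) ^ 2 * (1 / ((n:ℝ) + 1)) = (n:ℝ) + 1 := by
    intro n
    have : (n:ℝ) + 1 ≠ 0 := by positivity
    field_simp
  rw [Metric.tendsto_atTop]
  intro ε hε
  -- upper
  have hupper : ∀ᶠ y in atTop, ff S y < A + ε := by
    have ha : Tendsto (fun n : ℕ => (A * I) * Real.exp (2 * (1 / ((n:ℝ) + 1))) / J ((n:ℝ) + 1))
        atTop (𝓝 A) := by
      have := ((hen.const_mul (A * I)).div hJn hIpos.ne')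
      rw [mul_one, mul_div_assoc, div_self hIpos.ne', mul_one] at this
      exact this
    obtain ⟨n, hn1, hn2⟩ := ((ha.eventually (gt_mem_nhds (show A < A + ε by linarith))).and
      (hJn.eventually (lt_mem_nhds hIpos))).exists
    set δ : ℝ := 1 / ((n:ℝ) + 1) with hδ
    set L : ℝ := ((n:ℝ) + 1) ^ 2 with hLdef
    have hδ0 : 0 < δ := by positivity
    have hL0 : 0 < L := by positivity
    have hlim : Tendsto (fun x : ℝ => (∫ u in Ioi (0:ℝ), ff S u * (L * K (L * (x - u)))) *
        Real.exp (2 * δ) / J ((n:ℝ) + 1)) atTop (𝓝 ((A * I) * Real.exp (2 * δ) / J ((n:ℝ) + 1))) :=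
      ((hP L hL0).mul_const _).div_const _
    have hev := hlim.eventually (gt_mem_nhds hn1)
    have hshift : Tendsto (fun y : ℝ => y + δ) atTop atTop :=
      tendsto_atTop_add_const_right _ _ tendsto_id
    filter_upwards [hshift.eventually hev, eventually_ge_atTop 0] with y hy hy0
    refine lt_of_le_of_lt ?_ hy
    have h1 := hup L δ (y + δ) hL0 hδ0 (by linarith)
    rw [add_sub_cancel_right, hLdef, hδ, hLδ n, ← hδ, ← hLdef] at h1
    rw [le_div_iff₀ hn2]
    have h2 := mul_le_mul_of_nonneg_right h1 (Real.exp_pos (2 * δ)).le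
    refine le_trans (le_of_eq ?_) h2
    have : Real.exp (-(2 * δ)) * Real.exp (2 * δ) = 1 := by rw [← Real.exp_add]; simp
    linear_combination (-ff S y * J ((n:ℝ) + 1)) * this
  have hlower : ∀ᶠ y in atTop, A - ε < ff S y := by
    have ha : Tendsto (fun n : ℕ => ((A * I) - C * (I - J ((n:ℝ) + 1))) *
        Real.exp (-(2 * (1 / ((n:ℝ) + 1)))) / J ((n:ℝ) + 1)) atTop (𝓝 A) := by
      have h1 : Tendsto (fun n : ℕ => (A * I) - C * (I - J ((n:ℝ) + 1))) atTop (𝓝 (A * I)) := by
        have := (((tendsto_const_nhds (x := I)).sub hJn).const_mul C).const_sub (A * I)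
        simpa using this
      have := ((h1.mul hen').div hJn hIpos.ne')
      rw [mul_one, mul_div_assoc, div_self hIpos.ne', mul_one] at this
      exact this
    obtain ⟨n, hn1, hn2⟩ := ((ha.eventually (lt_mem_nhds (show A - ε < A by linarith))).and
      (hJn.eventually (lt_mem_nhds hIpos))).exists
    set δ : ℝ := 1 / ((n:ℝ) + 1) with hδ
    set L : ℝ := ((n:ℝ) + 1) ^ 2 with hLdef
    have hδ0 : 0 < δ := by positivity
    have hL0 : 0 < L := by positivity
    have hlim : Tendsto (fun x : ℝ => ((∫ u in Ioi (0:ℝ), ff S u * (L * K (L * (x - u))))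
        - C * (I - J ((n:ℝ) + 1))) * Real.exp (-(2 * δ)) / J ((n:ℝ) + 1)) atTop
        (𝓝 (((A * I) - C * (I - J ((n:ℝ) + 1))) * Real.exp (-(2 * δ)) / J ((n:ℝ) + 1))) :=
      (((hP L hL0).sub_const _).mul_const _).div_const _
    have hev := hlim.eventually (lt_mem_nhds hn1)
    have hshift : Tendsto (fun y : ℝ => y - δ) atTop atTop :=
      tendsto_atTop_add_const_right _ _ tendsto_id
    filter_upwards [hshift.eventually hev, eventually_ge_atTop (2 * δ)] with y hy hy0
    refine lt_of_lt_of_le hy ?_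
    have h1 := hlow L δ (y - δ) hL0 hδ0 (by linarith)
    rw [sub_add_cancel, hLdef, hδ, hLδ n, ← hδ, ← hLdef] at h1
    rw [div_le_iff₀ hn2]
    have h2 : (∫ u in Ioi (0:ℝ), ff S u * (L * K (L * (y - δ - u)))) - C * (I - J ((n:ℝ) + 1))
        ≤ ff S y * Real.exp (2 * δ) * J ((n:ℝ) + 1) := by linarith
    have h3 := mul_le_mul_of_nonneg_right h2 (Real.exp_pos (-(2 * δ))).le
    refine le_trans h3 (le_of_eq ?_)
    have : Real.exp (-(2 * δ)) * Real.exp (2 * δ) = 1 := by rw [← Real.exp_add]; simp
    linear_combination (ff S y * J ((n:ℝ) + 1)) * this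
  obtain ⟨N, hN⟩ := (hupper.and hlower).exists_forall_of_atTop
  refine ⟨N, fun y hy => ?_⟩
  have := hN y hy
  rw [Real.dist_eq, abs_lt]
  constructor <;> linarith [this.1, this.2]

end main

/-- Wiener-Ikehara Tauberian theorem for Dirichlet series with nonnegative coefficients and
`O(x)` partial sums. -/
theorem wiener_ikehara (f : ℕ → ℝ) (hf : ∀ n, 0 ≤ f n) (C A : ℝ)
    (hC : ∀ n : ℕ, ∑ k ∈ Finset.Icc 1 n, f k ≤ C * n)
    (F : ℂ → ℂ) (hF : ContinuousOn F {s | 1 ≤ s.re})
    (hFE : ∀ s : ℂ, 1 < s.re → F s = LSeries (fun n => (f n : ℂ)) s - A / (s - 1)) :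
    Tendsto (fun x : ℝ => (∑ k ∈ Finset.Icc 1 ⌊x⌋₊, f k) / x) atTop (𝓝 A) := by
  set S : ℝ → ℝ := fun x => ∑ k ∈ Finset.Icc 1 ⌊x⌋₊, f k with hS
  have hmono : Monotone S := by
    intro x y hxy
    exact Finset.sum_le_sum_of_subset_of_nonneg
      (Finset.Icc_subset_Icc le_rfl (Nat.floor_mono hxy)) fun k _ _ => hf k
  have hS0 : ∀ x, 0 ≤ S x := fun x => Finset.sum_nonneg fun k _ => hf k
  have hC0 : 0 ≤ C := by
    have := (Finset.sum_nonneg fun k _ => hf k).trans (hC 1)
    simpa using this
  have hSC : ∀ x, 1 ≤ x → S x ≤ C * x := by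
    intro x hx
    exact (hC _).trans (mul_le_mul_of_nonneg_left (Nat.floor_le (by linarith)) hC0)
  have hO : (fun n => ∑ k ∈ Finset.Icc 1 n, f k) =O[atTop] fun n : ℕ => (n : ℝ) ^ (1:ℝ) := by
    refine Asymptotics.IsBigO.of_bound C (Eventually.of_forall fun n => ?_)
    rw [Real.rpow_one, Real.norm_of_nonneg (Finset.sum_nonneg fun k _ => hf k),
      Real.norm_of_nonneg (Nat.cast_nonneg n)]
    exact hC n
  have hSm := ff_measurable hmono
  -- Laplace transform
  have hE : ∀ σ : ℝ, 0 < σ → ∀ y : ℝ, ∫ u in Ioi (0:ℝ), ((ff S u - A : ℝ) : ℂ) *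
      Complex.exp (-((σ:ℂ) + Complex.I * y) * u)
      = (fun z : ℂ => (F (1 + z) - A) / (1 + z)) (σ + Complex.I * y) := by
    intro σ hσ y
    set z : ℂ := (σ:ℂ) + Complex.I * y with hz
    have hzre : z.re = σ := by simp [hz]
    have hs1 : 1 < (1 + z).re := by simp [hzre, hσ]
    have hz0 : z ≠ 0 := by
      intro h
      rw [h] at hzre
      simp at hzre
      linarith
    have hz1 : 1 + z ≠ 0 := by
      intro h
      rw [h] at hs1
      simp at hs1
      linarith
    have hL := LSeries_eq_mul_integral_of_nonneg f (r := 1) zero_le_one (s := 1 + z) hs1 hO hf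
    have himg : Real.exp '' (Ioi 0) = Ioi 1 := by
      ext t
      constructor
      · rintro ⟨u, hu, rfl⟩
        exact Real.one_lt_exp_iff.mpr hu
      · intro ht
        have ht' : (1:ℝ) < t := ht
        exact ⟨Real.log t, Real.log_pos ht', Real.exp_log (by linarith)⟩
    have hcv : ∫ t in Ioi (1:ℝ), (∑ k ∈ Finset.Icc 1 ⌊t⌋₊, (f k : ℂ)) * (t : ℂ) ^ (-(1 + z + 1))
        = ∫ u in Ioi (0:ℝ), ((ff S u : ℝ) : ℂ) * Complex.exp (-z * u) := by
      rw [← himg, integral_image_eq_integral_abs_deriv_smul measurableSet_Ioi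
        (fun x _ => (Real.hasDerivAt_exp x).hasDerivWithinAt) (Real.exp_injective.injOn)]
      refine integral_congr_ae (Eventually.of_forall fun u => ?_)
      simp only
      rw [abs_of_pos (Real.exp_pos u)]
      have e1 : ((Real.exp u : ℝ) : ℂ) ^ (-(1 + z + 1)) = Complex.exp (-(1 + z + 1) * u) := by
        rw [Complex.cpow_def_of_ne_zero (by exact_mod_cast (Real.exp_pos u).ne'),
          ← Complex.ofReal_log (Real.exp_pos u).le, Real.log_exp]
        ring_nf
      rw [e1]
      simp only [ff, hS]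
      rw [Complex.real_smul]
      push_cast
      have e2 : Complex.exp (u:ℂ) * Complex.exp (-(1 + z + 1) * u)
          = Complex.exp (-(u:ℂ)) * Complex.exp (-z * u) := by
        rw [← Complex.exp_add, ← Complex.exp_add]
        congr 1
        ring
      linear_combination (∑ k ∈ Finset.Icc 1 ⌊Real.exp u⌋₊, (f k : ℂ)) * e2
    have hLs : ∫ u in Ioi (0:ℝ), ((ff S u : ℝ) : ℂ) * Complex.exp (-z * u)
        = LSeries (fun n => (f n : ℂ)) (1 + z) / (1 + z) := by
      rw [eq_div_iff hz1, ← hcv, hL]
      ring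
    have hexp : ∫ u in Ioi (0:ℝ), Complex.exp (-z * u) = 1 / z := by
      rw [integral_exp_mul_complex_Ioi (by simpa [hzre] using hσ)]
      simp
    have hiexp : IntegrableOn (fun u : ℝ => Complex.exp (-z * u)) (Ioi 0) :=
      integrableOn_exp_mul_complex_Ioi (by simpa [hzre] using hσ) 0
    have hiff : IntegrableOn (fun u : ℝ => ((ff S u : ℝ) : ℂ) * Complex.exp (-z * u)) (Ioi 0) := by
      refine Integrable.mono' (g := fun u => C * Real.exp (-σ * u)) ?_ ?_ ?_
      · exact (integrableOn_exp_mul_Ioi (by linarith) 0).const_mul C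
      · exact Measurable.aestronglyMeasurable (by fun_prop)
      · refine (ae_restrict_mem measurableSet_Ioi).mono fun u hu => ?_
        have hu' : (0:ℝ) ≤ u := le_of_lt hu
        rw [norm_mul, Complex.norm_exp, Complex.norm_real, Real.norm_of_nonneg (ff_nonneg hS0 u)]
        have e2 : (-z * u).re = -σ * u := by simp [hz]
        rw [e2]
        exact mul_le_mul_of_nonneg_right (ff_le hSC hu') (Real.exp_pos _).le
    have hsplit : ∫ u in Ioi (0:ℝ), ((ff S u - A : ℝ) : ℂ) * Complex.exp (-z * u)
        = (∫ u in Ioi (0:ℝ), ((ff S u : ℝ) : ℂ) * Complex.exp (-z * u))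
          - A * ∫ u in Ioi (0:ℝ), Complex.exp (-z * u) := by
      rw [← integral_const_mul, ← integral_sub hiff (hiexp.const_mul _)]
      refine integral_congr_ae (Eventually.of_forall fun u => ?_)
      simp only
      push_cast
      ring
    rw [hsplit, hLs, hexp]
    simp only
    rw [hFE _ hs1]
    have h2 : 1 + z - 1 = z := by ring
    rw [h2]
    field_simp
    ring
  have hΦ : ContinuousOn (fun z : ℂ => (F (1 + z) - A) / (1 + z)) {z | 0 ≤ z.re} := by
    refine ContinuousOn.div ?_ (by fun_prop) ?_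
    · refine ContinuousOn.sub ?_ continuousOn_const
      refine hF.comp (by fun_prop) ?_
      intro z hz
      simp only [mem_ofPred_eq] at hz ⊢
      simp only [Complex.add_re, Complex.one_re]
      linarith
    · intro z hz h
      simp only [mem_ofPred_eq] at hz
      have : (1 + z).re = 0 := by rw [h]; simp
      simp only [Complex.add_re, Complex.one_re] at this
      linarith
  have hT := tauber hmono hS0 hSC fun L hL => rl_step hmono hS0 hSC hΦ hE L hL
  have h1 := hT.comp Real.tendsto_log_atTop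
  refine h1.congr' ?_
  filter_upwards [eventually_gt_atTop 0] with x hx
  simp only [Function.comp, ff]
  rw [Real.exp_log hx, Real.exp_neg, Real.exp_log hx, div_eq_mul_inv]

/-- Prime number theorem in arithmetic progressions, von Mangoldt form. -/
theorem pnt_residueClass {q : ℕ} [NeZero q] {a : ZMod q} (ha : IsUnit a) :
    Tendsto (fun x : ℝ => (∑ k ∈ Finset.Icc 1 ⌊x⌋₊,
      ArithmeticFunction.vonMangoldt.residueClass a k) / x) atTop (𝓝 ((q.totient : ℝ)⁻¹)) := by
  refine wiener_ikehara _ (ArithmeticFunction.vonMangoldt.residueClass_nonneg a) (Real.log 4 + 4) _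
    ?_ (ArithmeticFunction.vonMangoldt.LFunctionResidueClassAux a)
    (ArithmeticFunction.vonMangoldt.continuousOn_LFunctionResidueClassAux a) ?_
  · intro n
    have h1 : ∑ k ∈ Finset.Icc 1 n, ArithmeticFunction.vonMangoldt.residueClass a k
        ≤ Chebyshev.psi n := by
      unfold Chebyshev.psi
      rw [Nat.floor_natCast]
      exact Finset.sum_le_sum fun k _ => ArithmeticFunction.vonMangoldt.residueClass_le a k
    exact h1.trans (Chebyshev.psi_le_const_mul_self (Nat.cast_nonneg n))
  · intro s hs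
    rw [ArithmeticFunction.vonMangoldt.eqOn_LFunctionResidueClassAux ha hs]
    push_cast
    rfl

/-- Prime number theorem, `ψ(x) ~ x`. -/
theorem psi_div_tendsto : Tendsto (fun x : ℝ => Chebyshev.psi x / x) atTop (𝓝 1) := by
  have h := pnt_residueClass (q := 1) (a := 1) isUnit_one
  simp only [Nat.totient_one, Nat.cast_one, inv_one] at h
  refine h.congr fun x => ?_
  congr 1
  unfold Chebyshev.psi
  refine Finset.sum_congr rfl fun k _ => ?_
  unfold ArithmeticFunction.vonMangoldt.residueClass
  rw [indicator_of_mem]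
  simp only [mem_ofPred_eq]
  exact Subsingleton.elim _ _

/-- Prime number theorem, `θ(x) ~ x`. -/
theorem theta_div_tendsto : Tendsto (fun x : ℝ => Chebyshev.theta x / x) atTop (𝓝 1) := by
  have h1 : Tendsto (fun x : ℝ => (Chebyshev.psi x - Chebyshev.theta x) / x) atTop (𝓝 0) := by
    obtain ⟨C, hC⟩ := Chebyshev.psi_sub_theta_le_mul_sqrt
    have h2 : Tendsto (fun x : ℝ => C * (Real.sqrt x)⁻¹) atTop (𝓝 0) := by
      have := (tendsto_inv_atTop_zero.comp Real.tendsto_sqrt_atTop).const_mul C
      simpa [Function.comp_def] using this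
    refine squeeze_zero' ?_ ?_ h2
    · filter_upwards [eventually_gt_atTop 0] with x hx
      exact div_nonneg (sub_nonneg.mpr (Chebyshev.theta_le_psi x)) hx.le
    · filter_upwards [eventually_gt_atTop 0] with x hx
      rw [div_le_iff₀ hx]
      refine (hC x).trans (le_of_eq ?_)
      have hs : 0 < Real.sqrt x := Real.sqrt_pos.mpr hx
      have hx2 : Real.sqrt x * Real.sqrt x = x := Real.mul_self_sqrt hx.le
      field_simp
      rw [sq, hx2]
  have h3 := psi_div_tendsto.sub h1
  simp only [sub_zero] at h3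
  refine h3.congr fun x => ?_
  ring

/-- Prime number theorem, `π(x) log x / x → 1`. -/
theorem pi_tendsto : Tendsto (fun x : ℝ => (Nat.primeCounting ⌊x⌋₊ : ℝ) * Real.log x / x)
    atTop (𝓝 1) := by
  have h1 := Chebyshev.primeCounting_sub_theta_div_log_isBigO
  obtain ⟨c, hc⟩ := h1.bound
  have h2 : Tendsto (fun x : ℝ => c * (Real.log x)⁻¹) atTop (𝓝 0) := by
    have := (tendsto_inv_atTop_zero.comp Real.tendsto_log_atTop).const_mul c
    simpa [Function.comp_def] using this
  have h3 : Tendsto (fun x : ℝ => (Nat.primeCounting ⌊x⌋₊ : ℝ) * Real.log x / x -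
      Chebyshev.theta x / x) atTop (𝓝 0) := by
    refine squeeze_zero_norm' ?_ h2
    filter_upwards [hc, eventually_gt_atTop 1] with x hx hx1
    have hl : 0 < Real.log x := Real.log_pos hx1
    have hx0 : 0 < x := by linarith
    have e : (Nat.primeCounting ⌊x⌋₊ : ℝ) * Real.log x / x - Chebyshev.theta x / x
      = ((Nat.primeCounting ⌊x⌋₊ : ℝ) - Chebyshev.theta x / Real.log x) * (Real.log x / x) := by
      field_simp
    rw [e, norm_mul, Real.norm_of_nonneg (div_pos hl hx0).le]
    have hx' : ‖(Nat.primeCounting ⌊x⌋₊ : ℝ) - Chebyshev.theta x / Real.log x‖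
        ≤ c * (x / Real.log x ^ 2) := by
      have := hx
      rw [Real.norm_of_nonneg (show 0 ≤ x / Real.log x ^ 2 by positivity)] at this
      exact this
    calc _ ≤ c * (x / Real.log x ^ 2) * (Real.log x / x) :=
          mul_le_mul_of_nonneg_right hx' (div_pos hl hx0).le
      _ = c * (Real.log x)⁻¹ := by field_simp
  have h4 := h3.add theta_div_tendsto
  simp only [zero_add, sub_add_cancel] at h4
  exact h4

end

end Pool.Agent.Cov.PNT
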