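import Mathlib

/-! Divergence of the sum of reciprocals over a set of primes of positive lower density. -/

set_option autoImplicit false

namespace Pool.Agent.W723.SecC

open Filter Topology Finset

lemma abel (d w : ℕ → ℝ) (hw : Antitone w) (hw0 : ∀ n, 0 ≤ w n) (C : ℝ)
    (hC : ∀ N, -C ≤ ∑ n ∈ range N, d n) (N : ℕ) :
    -C * w 0 ≤ ∑ n ∈ range N, d n * w n := by
  have key : ∀ N, -C * (w 0 - w N) ≤ ∑ n ∈ range N, d n * w n - (∑ n ∈ range N, d n) * w N := by
    intro N
    induction N with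
    | zero => simp
    | succ N ih =>
      rw [sum_range_succ (fun n => d n * w n)]
      have h1 := hC (N + 1)
      have h2 : w (N + 1) ≤ w N := hw (Nat.le_succ N)
      have h3 : ∑ n ∈ range (N + 1), d n = ∑ n ∈ range N, d n + d N := sum_range_succ _ _
      have h4 : -C * (w N - w (N + 1)) ≤ (∑ n ∈ range (N + 1), d n) * (w N - w (N + 1)) :=
        mul_le_mul_of_nonneg_right h1 (sub_nonneg.mpr h2)
      rw [h3] at h4 ⊢
      nlinarith
  have h1 := key N
  have h2 := mul_le_mul_of_nonneg_right (hC N) (hw0 N)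
  nlinarith

/-- a set of primes `S` with `#(S ∩ [0,N)) ≥ δ π(N) - C` has a divergent sum of reciprocals -/
lemma diverge (S : Set ℕ) (δ C : ℝ) (hδ : 0 < δ)
    (hS : ∀ N : ℕ, δ * (∑ n ∈ range N, Set.indicator {p | p.Prime} (fun _ => (1 : ℝ)) n) - C ≤
      ∑ n ∈ range N, Set.indicator S (fun _ => (1 : ℝ)) n) (B : ℝ) :
    ∃ N : ℕ, B ≤ ∑ n ∈ range N, Set.indicator S (fun _ => (1 : ℝ)) n * (1 / ((n : ℝ) + 1)) := by
  set w : ℕ → ℝ := fun n => 1 / ((n : ℝ) + 1) with hw
  have hwa : Antitone w := by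
    intro a b hab
    simp only [hw]
    apply one_div_le_one_div_of_le (by positivity)
    have : (a : ℝ) ≤ b := by exact_mod_cast hab
    linarith
  have hw0 : ∀ n, 0 ≤ w n := fun n => by simp only [hw]; positivity
  -- divergence for the primes
  have hP : ¬ Summable (fun n : ℕ => Set.indicator {p | p.Prime} (fun _ => (1 : ℝ)) n * w n) := by
    intro h
    apply not_summable_one_div_on_primes
    refine Summable.of_nonneg_of_le (fun n => Set.indicator_nonneg (fun _ _ => by positivity) _)
      (fun n => ?_) (h.mul_left 2)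
    by_cases hn : n ∈ {p : ℕ | p.Prime}
    · rw [Set.indicator_of_mem hn, Set.indicator_of_mem hn]
      have h2 : 1 ≤ n := (Nat.Prime.one_lt hn).le
      have h3 : (1 : ℝ) ≤ n := by exact_mod_cast h2
      simp only [hw, one_mul]
      rw [mul_one_div, div_le_div_iff₀ (by linarith) (by linarith)]
      linarith
    · rw [Set.indicator_of_notMem hn, Set.indicator_of_notMem hn]
      simp
  have hdiv : Tendsto (fun N => ∑ n ∈ range N,
      Set.indicator {p | p.Prime} (fun _ => (1 : ℝ)) n * w n) atTop atTop := by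
    refine (not_summable_iff_tendsto_nat_atTop_of_nonneg (fun n => ?_)).mp hP
    exact mul_nonneg (Set.indicator_nonneg (fun _ _ => zero_le_one) _) (hw0 n)
  obtain ⟨N, hN⟩ := (hdiv.eventually_ge_atTop ((B + C) / δ)).exists
  refine ⟨N, ?_⟩
  have h1 := abel (fun n => Set.indicator S (fun _ => (1 : ℝ)) n -
    δ * Set.indicator {p | p.Prime} (fun _ => (1 : ℝ)) n) w hwa hw0 C (fun N => by
      have := hS N
      rw [sum_sub_distrib, ← mul_sum]
      linarith) N
  have h2 : ∑ n ∈ range N, (Set.indicator S (fun _ => (1 : ℝ)) n -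
    δ * Set.indicator {p | p.Prime} (fun _ => (1 : ℝ)) n) * w n =
    ∑ n ∈ range N, Set.indicator S (fun _ => (1 : ℝ)) n * w n -
    δ * ∑ n ∈ range N, Set.indicator {p | p.Prime} (fun _ => (1 : ℝ)) n * w n := by
    rw [mul_sum, ← sum_sub_distrib]
    refine sum_congr rfl fun n _ => by ring
  have h3 : w 0 = 1 := by simp [hw]
  simp only at h1
  rw [h2, h3] at h1
  have h4 : B + C ≤ δ * ∑ n ∈ range N, Set.indicator {p | p.Prime} (fun _ => (1 : ℝ)) n * w n := by
    rw [div_le_iff₀ hδ] at hN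
    linarith
  linarith

/-- small products -/
lemma prod_small {ι : Type*} (T : Finset ι) (t : ι → ℝ) (ht : ∀ i ∈ T, t i ≤ 1) :
    ∏ i ∈ T, (1 - t i) ≤ Real.exp (- ∑ i ∈ T, t i) := by
  rw [← sum_neg_distrib, Real.exp_sum]
  refine prod_le_prod (fun i hi => by linarith [ht i hi]) (fun i _ => ?_)
  have := Real.add_one_le_exp (- t i)
  linarith

end Pool.Agent.W723.SecC
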