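import Mathlib
import Pool.Agent.H11.V.R_seed8_W723_SecC_D1a
import Pool.Agent.H11.V.R_seed8_Helper923_HMertens
import Pool.Agent.H11.V.R_seed8_Cov_PNT

/-! Lower bound for the number of squarefree integers composed of primes of a set of given lower
density. -/

set_option autoImplicit false

namespace Pool.Agent.W5h36.EL

open Finset Filter Topology

/-- truncation of the product over a set of primes -/
lemma trunc_aux (A : Finset ℕ) (hA : ∀ p ∈ A, p.Prime) :
    ∑ B ∈ A.powerset, (∏ p ∈ B, (1 / (p : ℝ))) * ∑ p ∈ B, Real.log p ≤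
      (∑ p ∈ A, Real.log p / p) * ∏ p ∈ A, (1 + 1 / (p : ℝ)) := by
  classical
  induction A using Finset.induction_on with
  | empty => simp
  | insert q A hq ih =>
    have ih' := ih (fun p hp => hA p (mem_insert_of_mem hp))
    rw [sum_powerset_insert hq, sum_insert hq, prod_insert hq]
    have h1 : ∑ B ∈ A.powerset, (∏ p ∈ insert q B, (1 / (p : ℝ))) * ∑ p ∈ insert q B, Real.log p =
        (1 / (q : ℝ)) * (∑ B ∈ A.powerset, (∏ p ∈ B, (1 / (p : ℝ))) * ∑ p ∈ B, Real.log p) +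
        (Real.log q / q) * ∏ p ∈ A, (1 + 1 / (p : ℝ)) := by
      rw [Finset.prod_one_add, mul_sum, mul_sum, ← sum_add_distrib]
      refine sum_congr rfl fun B hB => ?_
      have hqB : q ∉ B := fun h => hq (mem_powerset.1 hB h)
      rw [prod_insert hqB, sum_insert hqB]
      ring
    rw [h1]
    have hq0 : 0 < (q : ℝ) := by exact_mod_cast (hA q (mem_insert_self _ _)).pos
    have hG : 0 ≤ ∏ p ∈ A, (1 + 1 / (p : ℝ)) := prod_nonneg fun p _ => by positivity
    have hS : 0 ≤ ∑ p ∈ A, Real.log p / p := sum_nonneg fun p _ =>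
      div_nonneg (Real.log_natCast_nonneg p) (Nat.cast_nonneg p)
    have hlq : 0 ≤ Real.log q / q := div_nonneg (Real.log_natCast_nonneg q) hq0.le
    set F := ∑ B ∈ A.powerset, (∏ p ∈ B, (1 / (p : ℝ))) * ∑ p ∈ B, Real.log p
    set G := ∏ p ∈ A, (1 + 1 / (p : ℝ))
    set S := ∑ p ∈ A, Real.log p / p
    have e1 : (1 / (q : ℝ)) * F ≤ (1 / (q : ℝ)) * (S * G) :=
      mul_le_mul_of_nonneg_left ih' (by positivity)
    have e2 : 0 ≤ Real.log q / q * (1 / (q : ℝ)) * G := by positivity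
    nlinarith

/-- truncation of the product over a set of primes -/
lemma trunc (A : Finset ℕ) (hA : ∀ p ∈ A, p.Prime) (T : ℝ) (hT : 1 < T)
    (hS : ∑ p ∈ A, Real.log p / p ≤ Real.log T / 2) :
    (1 / 2) * ∏ p ∈ A, (1 + 1 / (p : ℝ)) ≤
      ∑ B ∈ A.powerset.filter (fun B => ((∏ p ∈ B, p : ℕ) : ℝ) ≤ T), (1 / ((∏ p ∈ B, p : ℕ) : ℝ)) := by
  classical
  have hlT : 0 < Real.log T := Real.log_pos hT
  have h1 := trunc_aux A hA
  set G := ∏ p ∈ A, (1 + 1 / (p : ℝ)) with hG
  have hG0 : 0 ≤ G := prod_nonneg fun p _ => by positivity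
  have h2 : ∀ B ∈ A.powerset, (∏ p ∈ B, (1 / (p : ℝ))) * (1 - (∑ p ∈ B, Real.log p) / Real.log T) ≤
      if ((∏ p ∈ B, p : ℕ) : ℝ) ≤ T then (1 / ((∏ p ∈ B, p : ℕ) : ℝ)) else 0 := by
    intro B hB
    have hBp : ∀ p ∈ B, p.Prime := fun p hp => hA p (mem_powerset.1 hB hp)
    have h3 : (∏ p ∈ B, (1 / (p : ℝ))) = 1 / ((∏ p ∈ B, p : ℕ) : ℝ) := by
      rw [prod_div_distrib, prod_const_one, Nat.cast_prod]
    have h4 : ∑ p ∈ B, Real.log p = Real.log ((∏ p ∈ B, p : ℕ) : ℝ) := by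
      rw [Nat.cast_prod, Real.log_prod]
      intro p hp
      exact_mod_cast (hBp p hp).ne_zero
    have h5 : 0 < ((∏ p ∈ B, p : ℕ) : ℝ) := by
      exact_mod_cast prod_pos fun p hp => (hBp p hp).pos
    have h6 : 0 ≤ ∑ p ∈ B, Real.log p := sum_nonneg fun p _ => Real.log_natCast_nonneg p
    rw [h3]
    split_ifs with h
    · have : 1 - (∑ p ∈ B, Real.log p) / Real.log T ≤ 1 := by
        have := div_nonneg h6 hlT.le
        linarith
      have h7 : 0 ≤ 1 / ((∏ p ∈ B, p : ℕ) : ℝ) := by positivity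
      nlinarith
    · push Not at h
      have h8 : Real.log T ≤ ∑ p ∈ B, Real.log p := by
        rw [h4]
        exact Real.log_le_log (by linarith) h.le
      have h9 : 1 - (∑ p ∈ B, Real.log p) / Real.log T ≤ 0 := by
        have := (one_le_div hlT).2 h8
        linarith
      exact mul_nonpos_of_nonneg_of_nonpos (by positivity) h9
  rw [sum_filter]
  refine le_trans ?_ (sum_le_sum h2)
  have h3 : ∑ B ∈ A.powerset, (∏ p ∈ B, (1 / (p : ℝ))) * (1 - (∑ p ∈ B, Real.log p) / Real.log T) =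
      G - (∑ B ∈ A.powerset, (∏ p ∈ B, (1 / (p : ℝ))) * ∑ p ∈ B, Real.log p) / Real.log T := by
    rw [hG, Finset.prod_one_add, sum_div, ← sum_sub_distrib]
    refine sum_congr rfl fun B _ => ?_
    ring
  rw [h3]
  have h4 : (∑ B ∈ A.powerset, (∏ p ∈ B, (1 / (p : ℝ))) * ∑ p ∈ B, Real.log p) / Real.log T ≤
      (1 / 2) * G := by
    rw [div_le_iff₀ hlT]
    calc _ ≤ (∑ p ∈ A, Real.log p / p) * G := h1
      _ ≤ (Real.log T / 2) * G := mul_le_mul_of_nonneg_right hS hG0
      _ = _ := by ring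
  linarith

/-- the product is large -/
lemma prod_ge (A : Finset ℕ) (hA : ∀ p ∈ A, p.Prime) :
    Real.exp (∑ p ∈ A, 1 / ((p : ℝ) + 1)) ≤ ∏ p ∈ A, (1 + 1 / (p : ℝ)) := by
  rw [Real.exp_sum]
  refine prod_le_prod (fun p _ => (Real.exp_pos _).le) fun p hp => ?_
  have hp0 : 0 < (p : ℝ) := by exact_mod_cast (hA p hp).pos
  rw [← Real.le_log_iff_exp_le (by positivity)]
  refine le_trans (le_of_eq ?_) (Real.one_sub_inv_le_log_of_pos (by positivity))
  field_simp
  ring

/-- primes of `P` in `(z, N]` -/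
noncomputable def PZ (P : Set ℕ) (z N : ℕ) : Finset ℕ :=
  open scoped Classical in (range (N + 1)).filter (fun p => p ∈ P ∧ z < p)

/-- squarefree numbers up to `Y` composed of primes of `P` larger than `z` -/
noncomputable def SF (P : Set ℕ) (z Y : ℕ) : Finset ℕ :=
  open scoped Classical in (Icc 1 Y).filter (fun n => Squarefree n ∧
    ∀ p : ℕ, p.Prime → p ∣ n → p ∈ P ∧ z < p)

lemma mem_PZ {P : Set ℕ} {z N p : ℕ} : p ∈ PZ P z N ↔ p ≤ N ∧ p ∈ P ∧ z < p := by
  classical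
  unfold PZ
  rw [mem_filter, mem_range, Nat.lt_succ_iff]

lemma mem_SF {P : Set ℕ} {z Y n : ℕ} : n ∈ SF P z Y ↔ 1 ≤ n ∧ n ≤ Y ∧ Squarefree n ∧
    ∀ p : ℕ, p.Prime → p ∣ n → p ∈ P ∧ z < p := by
  classical
  unfold SF
  rw [mem_filter, mem_Icc, and_assoc]

open scoped Classical in
lemma card_PZ (P : Set ℕ) (z N : ℕ) (β C : ℝ)
    (hD : β * (Nat.primeCounting N : ℝ) - C ≤ (((range (N + 1)).filter (fun p => p ∈ P)).card : ℝ)) :
    β * (Nat.primeCounting N : ℝ) - (C + z + 1) ≤ ((PZ P z N).card : ℝ) := by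
  have h : (range (N + 1)).filter (fun p => p ∈ P) ⊆ PZ P z N ∪ range (z + 1) := by
    intro p hp
    rw [mem_filter, mem_range] at hp
    rw [mem_union, mem_PZ, mem_range]
    by_cases h : z < p
    · left; exact ⟨by omega, hp.2, h⟩
    · right; omega
  have h2 := (card_le_card h).trans (card_union_le _ _)
  rw [card_range] at h2
  have h3 : (((range (N + 1)).filter (fun p => p ∈ P)).card : ℝ) ≤ (PZ P z N).card + (z + 1) := by
    exact_mod_cast h2
  linarith

lemma telesc (X : ℕ) : ∑ p ∈ range X, (1 : ℝ) / (((p : ℝ) + 1) * (p + 2)) ≤ 1 := by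
  have h : ∀ X : ℕ, ∑ p ∈ range X, (1 : ℝ) / (((p : ℝ) + 1) * (p + 2)) = 1 - 1 / ((X : ℝ) + 1) := by
    intro X
    induction X with
    | zero => simp
    | succ n ih =>
      rw [sum_range_succ, ih]
      push_cast
      field_simp
      ring
  rw [h]
  have : (0 : ℝ) ≤ 1 / ((X : ℝ) + 1) := by positivity
  linarith

/-- Mertens -/
lemma mert_low : ∃ C : ℝ, ∀ N : ℕ, 3 ≤ N → Real.log (Real.log N) - C ≤
    ∑ p ∈ (range (N + 1)).filter Nat.Prime, (1 : ℝ) / ((p : ℝ) + 1) := by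
  obtain ⟨C, hC0, hC⟩ := Helper923.HMertens.mertens_ratio
  refine ⟨C / Real.log 2 + 1 + |Real.log (Real.log 2)|, fun N hN => ?_⟩
  have h1 := (abs_le.1 (hC 2 N le_rfl (by omega))).1
  have hl2 : 0 < Real.log 2 := Real.log_pos (by norm_num)
  have hlN : 0 < Real.log N := Real.log_pos (by exact_mod_cast (by omega : 1 < N))
  have e : Real.log (Real.log (N : ℝ) / Real.log ((2 : ℕ) : ℝ)) =
      Real.log (Real.log N) - Real.log (Real.log 2) := by
    push_cast
    exact Real.log_div hlN.ne' hl2.ne'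
  rw [e] at h1
  push_cast at h1
  have h2 : ∑ p ∈ (Ioc 2 N).filter Nat.Prime, (1 : ℝ) / p - 1 ≤
      ∑ p ∈ (Ioc 2 N).filter Nat.Prime, (1 : ℝ) / ((p : ℝ) + 1) := by
    have h3 : ∑ p ∈ (Ioc 2 N).filter Nat.Prime, (1 : ℝ) / p -
        ∑ p ∈ (Ioc 2 N).filter Nat.Prime, (1 : ℝ) / ((p : ℝ) + 1) ≤ 1 := by
      rw [← sum_sub_distrib]
      refine le_trans ?_ (telesc N)
      have h4 : ∀ p ∈ (Ioc 2 N).filter Nat.Prime, (1 : ℝ) / p - 1 / ((p : ℝ) + 1) =
          (fun q : ℕ => (1 : ℝ) / (((q : ℝ) + 1) * (q + 2))) (p - 1) := by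
        intro p hp
        rw [mem_filter, mem_Ioc] at hp
        obtain ⟨q, rfl⟩ : ∃ q, p = q + 1 := ⟨p - 1, by omega⟩
        simp only [Nat.add_sub_cancel]
        push_cast
        field_simp
        ring
      rw [sum_congr rfl h4]
      rw [← sum_image (f := fun q : ℕ => (1 : ℝ) / (((q : ℝ) + 1) * (q + 2)))
        (g := fun p => p - 1)]
      · refine sum_le_sum_of_subset_of_nonneg ?_ fun _ _ _ => by positivity
        intro q hq
        rw [mem_image] at hq
        obtain ⟨p, hp, rfl⟩ := hq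
        rw [mem_filter, mem_Ioc] at hp
        rw [mem_range]
        omega
      · intro a ha b hb hab
        rw [mem_coe, mem_filter, mem_Ioc] at ha hb
        simp only at hab
        omega
    linarith
  have h3 : ∑ p ∈ (Ioc 2 N).filter Nat.Prime, (1 : ℝ) / ((p : ℝ) + 1) ≤
      ∑ p ∈ (range (N + 1)).filter Nat.Prime, (1 : ℝ) / ((p : ℝ) + 1) := by
    refine sum_le_sum_of_subset_of_nonneg ?_ fun _ _ _ => by positivity
    intro p hp
    rw [mem_filter, mem_Ioc] at hp
    rw [mem_filter, mem_range]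
    exact ⟨by omega, hp.2⟩
  have h4 := neg_abs_le (Real.log (Real.log 2))
  have h5 := le_abs_self (Real.log (Real.log 2))
  linarith

open scoped Classical in
/-- the sum of the reciprocals -/
lemma sum_PZ (P : Set ℕ) (β C : ℝ) (hβ : 0 ≤ β)
    (hD : ∀ N : ℕ, β * (Nat.primeCounting N : ℝ) - C ≤
      (((range (N + 1)).filter (fun p => p ∈ P)).card : ℝ)) (z : ℕ) :
    ∃ C' : ℝ, ∀ N : ℕ, 3 ≤ N → β * Real.log (Real.log N) - C' ≤
      ∑ p ∈ PZ P z N, (1 : ℝ) / ((p : ℝ) + 1) := by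
  obtain ⟨C1, hC1⟩ := mert_low
  set w : ℕ → ℝ := fun n => 1 / ((n : ℝ) + 1) with hw
  have hwa : Antitone w := by
    intro a b hab
    simp only [hw]
    apply one_div_le_one_div_of_le (by positivity)
    have : (a : ℝ) ≤ b := by exact_mod_cast hab
    linarith
  have hw0 : ∀ n, 0 ≤ w n := fun n => by simp only [hw]; positivity
  have hC0 : 0 ≤ C + z + 1 := by
    have h := hD 0
    have h1 : ((range (0 + 1)).filter (fun p => p ∈ P)).card ≤ 1 :=
      (card_filter_le _ _).trans (by simp)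
    have h2 : (((range (0 + 1)).filter (fun p => p ∈ P)).card : ℝ) ≤ 1 := by exact_mod_cast h1
    rw [Nat.primeCounting_zero, Nat.cast_zero, mul_zero] at h
    have h3 : (0 : ℝ) ≤ z := Nat.cast_nonneg _
    linarith
  have hsum : ∀ N : ℕ, -(C + z + 1) ≤ ∑ n ∈ range N, ((if n ∈ P ∧ z < n then (1 : ℝ) else 0) -
      β * (if n.Prime then (1 : ℝ) else 0)) := by
    intro N
    rcases N with _ | N
    · simp only [range_zero, sum_empty]
      linarith
    · rw [sum_sub_distrib, ← mul_sum, ← sum_filter, ← sum_filter, sum_const, sum_const,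
        nsmul_eq_mul, nsmul_eq_mul, mul_one, mul_one]
      have h1 := card_PZ P z N β C (hD N)
      have h2 : ((range (N + 1)).filter Nat.Prime).card = Nat.primeCounting N := by
        unfold Nat.primeCounting Nat.primeCounting'
        rw [Nat.count_eq_card_filter_range]
      rw [h2]
      have h3 : (PZ P z N).card = ((range (N + 1)).filter (fun n => n ∈ P ∧ z < n)).card := by
        congr 1
      rw [← h3]
      linarith
  refine ⟨β * C1 + (C + z + 1), fun N hN => ?_⟩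
  have h := Pool.Agent.W723.SecC.abel _ w hwa hw0 (C + z + 1) hsum (N + 1)
  have hw1 : w 0 = 1 := by simp [hw]
  rw [hw1] at h
  have h1 : ∑ n ∈ range (N + 1), ((if n ∈ P ∧ z < n then (1 : ℝ) else 0) -
      β * (if n.Prime then (1 : ℝ) else 0)) * w n =
      ∑ p ∈ PZ P z N, (1 : ℝ) / ((p : ℝ) + 1) -
        β * ∑ p ∈ (range (N + 1)).filter Nat.Prime, (1 : ℝ) / ((p : ℝ) + 1) := by
    have e1 : PZ P z N = (range (N + 1)).filter (fun n => n ∈ P ∧ z < n) := by
      ext p
      rw [mem_PZ, mem_filter, mem_range, Nat.lt_succ_iff]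
    rw [e1, sum_filter, sum_filter, mul_sum, ← sum_sub_distrib]
    refine sum_congr rfl fun n _ => ?_
    simp only [hw]
    split_ifs <;> ring
  rw [h1] at h
  have h2 := mul_le_mul_of_nonneg_left (hC1 N hN) hβ
  linarith

end Pool.Agent.W5h36.EL
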