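import Mathlib
import Pool.Agent.H11.V.R_seed8_H921R2_TatePole_Base

set_option autoImplicit false

open Complex Filter Topology NumberField IsDedekindDomain

namespace Pool.Agent.H921R2.TatePole

section
variable {K : Type} [Field K] [NumberField K] {J : Type} [Fintype J]

/-- Euler product over the primes of `K` -/
noncomputable def kL (c : HeightOneSpectrum (𝓞 K) → J → ℂ) (s : ℂ) : ℂ :=
  ∏' v : HeightOneSpectrum (𝓞 K), ∏ j : J, (1 - c v j * ((Ideal.absNorm v.asIdeal : ℕ) : ℂ) ^ (-s))⁻¹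

lemma nm_cpow_norm (v : HeightOneSpectrum (𝓞 K)) (s : ℂ) :
    ‖((nm v : ℕ) : ℂ) ^ (-s)‖ = (nm v : ℝ) ^ (-s.re) := by
  rw [Complex.norm_natCast_cpow_of_pos (by have := two_le_nm v; omega)]
  simp

lemma kL_aux {c : HeightOneSpectrum (𝓞 K) → J → ℂ} (hc : ∀ v j, ‖c v j‖ ≤ 1) {s : ℂ}
    (hs : 1 < s.re) :
    (∀ v j, ‖c v j * ((nm v : ℕ) : ℂ) ^ (-s)‖ ≤ (nm v : ℝ) ^ (-s.re)) ∧
    (∀ v j, ‖c v j * ((nm v : ℕ) : ℂ) ^ (-s)‖ ≤ 1 / 2) ∧
    (∀ v j, 1 - c v j * ((nm v : ℕ) : ℂ) ^ (-s) ≠ 0) := by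
  have hz : ∀ v j, ‖c v j * ((nm v : ℕ) : ℂ) ^ (-s)‖ ≤ (nm v : ℝ) ^ (-s.re) := by
    intro v j
    rw [norm_mul, nm_cpow_norm]
    exact mul_le_of_le_one_left (by positivity) (hc v j)
  have hz2 : ∀ v j, ‖c v j * ((nm v : ℕ) : ℂ) ^ (-s)‖ ≤ 1 / 2 := fun v j =>
    (hz v j).trans (nm_rpow_le_half v hs.le)
  refine ⟨hz, hz2, ?_⟩
  intro v j h
  have h1 : c v j * ((nm v : ℕ) : ℂ) ^ (-s) = 1 := (sub_eq_zero.mp h).symm
  have := hz2 v j
  rw [h1] at this
  norm_num at this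

lemma kL_summable {c : HeightOneSpectrum (𝓞 K) → J → ℂ} (hc : ∀ v j, ‖c v j‖ ≤ 1) {s : ℂ}
    (hs : 1 < s.re) :
    Summable (fun v : HeightOneSpectrum (𝓞 K) =>
      ∑ j, -log (1 - c v j * ((nm v : ℕ) : ℂ) ^ (-s))) := by
  obtain ⟨hz, _, _⟩ := kL_aux hc hs
  refine summable_sum fun j _ => ?_
  exact (Summable.of_norm_bounded (nm_summable hs) (fun v => hz v j)).clog_one_sub.neg

lemma kL_multipliable {c : HeightOneSpectrum (𝓞 K) → J → ℂ} (hc : ∀ v j, ‖c v j‖ ≤ 1) {s : ℂ}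
    (hs : 1 < s.re) :
    Multipliable (fun v : HeightOneSpectrum (𝓞 K) =>
      ∏ j : J, (1 - c v j * ((nm v : ℕ) : ℂ) ^ (-s))⁻¹) := by
  obtain ⟨_, _, hne⟩ := kL_aux hc hs
  refine (kL_summable hc hs).hasSum.cexp.multipliable.congr fun v => ?_
  simp only [Function.comp_apply]
  rw [Complex.exp_sum]
  refine Finset.prod_congr rfl fun j _ => ?_
  rw [Complex.exp_neg, Complex.exp_log (hne v j)]

lemma kL_exp {c : HeightOneSpectrum (𝓞 K) → J → ℂ} (hc : ∀ v j, ‖c v j‖ ≤ 1) {s : ℂ}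
    (hs : 1 < s.re) :
    kL c s = exp (∑' v : HeightOneSpectrum (𝓞 K),
      ∑ j, -log (1 - c v j * ((nm v : ℕ) : ℂ) ^ (-s))) := by
  obtain ⟨_, _, hne⟩ := kL_aux hc hs
  have H := (kL_summable hc hs).hasSum.cexp.tprod_eq
  rw [← H]
  unfold kL
  refine tprod_congr fun v => ?_
  simp only [Function.comp_apply]
  rw [Complex.exp_sum]
  refine Finset.prod_congr rfl fun j _ => ?_
  rw [Complex.exp_neg, Complex.exp_log (hne v j)]
  rfl

lemma kL_log {c : HeightOneSpectrum (𝓞 K) → J → ℂ} (hc : ∀ v j, ‖c v j‖ ≤ 1) {x : ℝ}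
    (hx : 1 < x) :
    kL c (x : ℂ) ≠ 0 ∧
    |Real.log ‖kL c (x : ℂ)‖ -
      ∑' v : HeightOneSpectrum (𝓞 K), (∑ j, c v j).re * (nm v : ℝ) ^ (-x)| ≤
        Fintype.card J * CK K := by
  classical
  have hs : (1 : ℝ) < ((x : ℂ)).re := by simpa using hx
  obtain ⟨hz, hz2, hne⟩ := kL_aux hc hs
  have hlog := kL_summable hc hs
  have hexp := kL_exp hc hs
  refine ⟨by rw [hexp]; exact Complex.exp_ne_zero _, ?_⟩
  rw [hexp, Complex.norm_exp, Real.log_exp, Complex.re_tsum hlog]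
  have hr1 : Summable (fun v : HeightOneSpectrum (𝓞 K) =>
      (∑ j, -log (1 - c v j * ((nm v : ℕ) : ℂ) ^ (-(x : ℂ)))).re) :=
    (Complex.hasSum_re hlog.hasSum).summable
  have hcr : ∀ v, |(∑ j, c v j).re| ≤ (Fintype.card J : ℝ) := by
    intro v
    refine (Complex.abs_re_le_norm _).trans ((norm_sum_le _ _).trans ?_)
    calc ∑ j, ‖c v j‖ ≤ ∑ _j : J, (1 : ℝ) := Finset.sum_le_sum fun j _ => hc v j
      _ = Fintype.card J := by simp
  have hr2 : Summable (fun v : HeightOneSpectrum (𝓞 K) =>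
      (∑ j, c v j).re * (nm v : ℝ) ^ (-x)) := by
    refine Summable.of_norm_bounded ((nm_summable hx).mul_left (Fintype.card J : ℝ)) fun v => ?_
    rw [norm_mul, Real.norm_eq_abs, Real.norm_eq_abs, abs_of_nonneg (a := (nm v : ℝ) ^ (-x))
      (by positivity)]
    exact mul_le_mul_of_nonneg_right (hcr v) (by positivity)
  rw [← Summable.tsum_sub hr1 hr2]
  have hbd : ∀ v : HeightOneSpectrum (𝓞 K),
      |(∑ j, -log (1 - c v j * ((nm v : ℕ) : ℂ) ^ (-(x : ℂ)))).re -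
      (∑ j, c v j).re * (nm v : ℝ) ^ (-x)| ≤ Fintype.card J * (nm v : ℝ) ^ (-(2 * x)) := by
    intro v
    have hreal : ((nm v : ℕ) : ℂ) ^ (-(x : ℂ)) = (((nm v : ℝ) ^ (-x) : ℝ) : ℂ) := by
      rw [Complex.ofReal_cpow (by positivity)]
      simp
    have e1 : (∑ j, -log (1 - c v j * ((nm v : ℕ) : ℂ) ^ (-(x : ℂ)))).re -
      (∑ j, c v j).re * (nm v : ℝ) ^ (-x) =
      ∑ j, (-Real.log ‖1 - c v j * ((nm v : ℕ) : ℂ) ^ (-(x : ℂ))‖ -
        (c v j * ((nm v : ℕ) : ℂ) ^ (-(x : ℂ))).re) := by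
      rw [Complex.re_sum, Complex.re_sum, Finset.sum_mul, ← Finset.sum_sub_distrib]
      refine Finset.sum_congr rfl fun j _ => ?_
      rw [Complex.neg_re, Complex.log_re, hreal, Complex.re_mul_ofReal]
    rw [e1]
    calc |∑ j, (-Real.log ‖1 - c v j * ((nm v : ℕ) : ℂ) ^ (-(x : ℂ))‖ -
        (c v j * ((nm v : ℕ) : ℂ) ^ (-(x : ℂ))).re)|
        ≤ ∑ j, |-Real.log ‖1 - c v j * ((nm v : ℕ) : ℂ) ^ (-(x : ℂ))‖ -
        (c v j * ((nm v : ℕ) : ℂ) ^ (-(x : ℂ))).re| := Finset.abs_sum_le_sum_abs _ _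
      _ ≤ ∑ j : J, (nm v : ℝ) ^ (-(2 * x)) := by
          refine Finset.sum_le_sum fun j _ => ?_
          refine (log_norm_one_sub (hz2 v j)).trans ?_
          rw [← rpow_sq']
          have := hz v j
          rw [Complex.ofReal_re] at this
          exact pow_le_pow_left₀ (norm_nonneg _) this 2
      _ = Fintype.card J * (nm v : ℝ) ^ (-(2 * x)) := by simp
  have := tsum_of_norm_bounded (f := fun v : HeightOneSpectrum (𝓞 K) =>
      ((∑ j, -log (1 - c v j * ((nm v : ℕ) : ℂ) ^ (-(x : ℂ)))).re -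
        (∑ j, c v j).re * (nm v : ℝ) ^ (-x)))
      ((nm_summable (K := K) (x := 2 * x) (by linarith)).mul_left (Fintype.card J : ℝ)).hasSum
      (fun v => by rw [Real.norm_eq_abs]; exact hbd v)
  rw [Real.norm_eq_abs, tsum_mul_left] at this
  exact this.trans (mul_le_mul_of_nonneg_left (tsum_nm_two_mul_le hx) (by positivity))

/-- the sum over the primes with `R(p)` -/
lemma sum_R_bdd : Bdd (fun x => ∑' p : Nat.Primes, ((R K p : ℝ) - 1) * w x p) := by
  have h1 := prime_sum_bdd (K := K)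
  have h2 := W_sub_Lam_bdd
  have h3 : Bdd (fun x => ∑' v : HeightOneSpectrum (𝓞 K), (nm v : ℝ) ^ (-x) -
      ∑' p : Nat.Primes, (R K p : ℝ) * w x p) := by
    refine ⟨1 * Module.finrank ℚ K * C0, ?_⟩
    filter_upwards [self_mem_nhdsWithin] with x hx
    have h := deg_two_bound (K := K) hx (g := fun _ => 1) (C := 1) (fun v => by simp)
    simp only [one_mul] at h ⊢
    refine le_trans (le_of_eq ?_) h
    congr 2
    refine tsum_congr fun p => ?_
    unfold R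
    rw [Finset.card_filter]
    push_cast
    rfl
  refine ((h1.sub h3).sub h2).congr fun x hx => ?_
  have hs1 : Summable (fun p : Nat.Primes => (R K p : ℝ) * w x p) :=
    bddmul_summable hx (C := Module.finrank ℚ K) fun p => by
      rw [abs_of_nonneg (by positivity)]; exact_mod_cast R_le p
  have e : ∀ p : Nat.Primes, ((R K p : ℝ) - 1) * w x p = (R K p : ℝ) * w x p - w x p :=
    fun p => by ring
  rw [tsum_congr e, Summable.tsum_sub hs1 (w_summable hx)]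
  have : W x = ∑' p, w x p := rfl
  rw [this]
  ring

open Classical in
variable (K) in
/-- `∑ p^{-x}` over the primes without a degree one prime above -/
noncomputable def D0 (x : ℝ) : ℝ := ∑' p : Nat.Primes, (if R K p = 0 then 1 else 0) * w x p


end

end Pool.Agent.H921R2.TatePole
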