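import Mathlib
import Pool.Agent.H11.V.R_seed8_H474R2_PG_HomsLower

set_option autoImplicit false

/-! # Mertens type upper bound for the homomorphisms of a ring of integers to `𝔽_p` -/

namespace Pool.Agent.H474R2.GE

open Polynomial Finset NumberField Filter Topology
open Pool.Agent.H921R2.TatePole Pool.Agent.H474R2.PG

theorem homs_upper (K : Type) [Field K] [NumberField K] : ∃ C : ℝ, ∀ w : ℝ, 3 ≤ w →
    ∑ p ∈ PR w, (Nat.card (𝓞 K →+* ZMod p) : ℝ) / (p : ℝ) ≤ Real.log (Real.log w) + C := by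
  obtain ⟨CR, hCR⟩ := sum_R_bdd (K := K)
  obtain ⟨CW, hCW⟩ := W_sub_Lam_bdd
  obtain ⟨M1, hM1⟩ := Pool.Agent.Helper256.KM.mertens_log
  have hM10 : 0 ≤ M1 := (abs_nonneg _).trans (hM1 1 le_rfl)
  have hboth := hCR.and hCW
  obtain ⟨u, hu1, hu⟩ := mem_nhdsGT_iff_exists_Ioo_subset.1 hboth
  simp only [Set.mem_Ioi] at hu1
  set n : ℝ := (Module.finrank ℚ K : ℝ) with hn
  have hn0 : 0 ≤ n := by positivity
  set S0 : ℝ := ∑ p ∈ PR (Real.exp (1 / (u - 1))),
    (Nat.card (𝓞 K →+* ZMod p) : ℝ) / (p : ℝ) with hS0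
  refine ⟨max (CR + CW + n * (1 + M1)) S0, fun w hw => ?_⟩
  have hlog1 : 1 ≤ Real.log w := by
    have h1 : Real.exp 1 ≤ w := by
      have := Real.exp_one_lt_d9
      linarith
    have := Real.log_le_log (Real.exp_pos 1) h1
    rwa [Real.log_exp] at this
  have hlog0 : 0 < Real.log w := by linarith
  have hll : 0 ≤ Real.log (Real.log w) := Real.log_nonneg hlog1
  by_cases hsm : Real.log w ≤ 1 / (u - 1)
  · have h1 : ∑ p ∈ PR w, (Nat.card (𝓞 K →+* ZMod p) : ℝ) / (p : ℝ) ≤ S0 := by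
      rw [hS0]
      apply Finset.sum_le_sum_of_subset_of_nonneg
      · have h2 : w ≤ Real.exp (1 / (u - 1)) := by
          rw [← Real.exp_log (show (0 : ℝ) < w by linarith)]
          exact Real.exp_le_exp.2 hsm
        unfold PR
        apply Finset.filter_subset_filter
        exact Finset.Icc_subset_Icc_right (Nat.floor_le_floor h2)
      · intro p _ _
        positivity
    have h2 := le_max_right (CR + CW + n * (1 + M1)) S0
    linarith
  push Not at hsm
  have hu0 : 0 < u - 1 := by linarith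
  set x : ℝ := 1 + 1 / Real.log w with hx
  have hx1 : 1 < x := by rw [hx]; linarith [show (0 : ℝ) < 1 / Real.log w by positivity]
  have hxu : x < u := by
    have : 1 / Real.log w < u - 1 := by
      rw [div_lt_iff₀ hlog0]
      rw [div_lt_iff₀ hu0] at hsm
      linarith
    rw [hx]; linarith
  obtain ⟨hA, hB⟩ := hu ⟨hx1, hxu⟩
  rw [abs_le] at hA hB
  simp only at hA hB
  have hLam : Lam x = Real.log (Real.log w) := by
    unfold Lam
    rw [hx]
    congr 1
    field_simp
    ring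
  rw [hLam] at hB
  obtain ⟨hN3, hNlow, hNlog⟩ := P1_floor hw
  set N := ⌊w⌋₊ with hNdef
  set s : Finset Nat.Primes := Finset.subtype Nat.Prime (Finset.Icc 1 N) with hs
  have htrans : ∀ f : ℕ → ℝ, ∑ p ∈ s, f p = ∑ p ∈ PR w, f p := by
    intro f
    exact Finset.sum_subtype_eq_sum_filter (s := Finset.Icc 1 N) (p := Nat.Prime) f
  have hwdef : ∀ p : Nat.Primes, Pool.Agent.H921R2.TatePole.w x p = ((p : ℕ) : ℝ) ^ (-x) :=
    fun p => rfl
  have hwsum := w_summable hx1
  have hRsum : Summable (fun p : Nat.Primes => (R K p : ℝ) * Pool.Agent.H921R2.TatePole.w x p) :=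
    bddmul_summable hx1 (C := Module.finrank ℚ K) fun p => by
      rw [abs_of_nonneg (by positivity)]; exact_mod_cast R_le p
  have hSR : ∑' p : Nat.Primes, ((R K p : ℝ) - 1) * Pool.Agent.H921R2.TatePole.w x p =
      ∑' p : Nat.Primes, (R K p : ℝ) * Pool.Agent.H921R2.TatePole.w x p - W x := by
    have e : ∀ p : Nat.Primes, ((R K p : ℝ) - 1) * Pool.Agent.H921R2.TatePole.w x p =
      (R K p : ℝ) * Pool.Agent.H921R2.TatePole.w x p - Pool.Agent.H921R2.TatePole.w x p :=
      fun p => by ring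
    rw [tsum_congr e, Summable.tsum_sub hRsum hwsum]
    rfl
  rw [hSR] at hA
  have hcc : ∑ p ∈ s, (R K p : ℝ) * Pool.Agent.H921R2.TatePole.w x p ≤
      ∑' p : Nat.Primes, (R K p : ℝ) * Pool.Agent.H921R2.TatePole.w x p :=
    Summable.sum_le_tsum s (fun p _ => by
      have h2 := w_nonneg x p
      positivity) hRsum
  have hd : ∑ p ∈ PR w, (Nat.card (𝓞 K →+* ZMod p) : ℝ) / (p : ℝ) ≤
      ∑ p ∈ s, (R K p : ℝ) * Pool.Agent.H921R2.TatePole.w x p +
        n * ((∑ p ∈ PR w, Real.log p / p) / Real.log w) := by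
    rw [← htrans (fun p => (Nat.card (𝓞 K →+* ZMod p) : ℝ) / (p : ℝ)),
      ← htrans (fun p => Real.log p / p), Finset.sum_div, Finset.mul_sum,
      ← Finset.sum_add_distrib]
    refine Finset.sum_le_sum fun p _ => ?_
    have hp0 : (0 : ℝ) < ((p : ℕ) : ℝ) := by exact_mod_cast p.2.pos
    have hp1 : (1 : ℝ) ≤ ((p : ℕ) : ℝ) := by exact_mod_cast p.2.one_lt.le
    have e1 : Pool.Agent.H921R2.TatePole.w x p =
        (1 / ((p : ℕ) : ℝ)) * Real.exp (-(Real.log p / Real.log w)) := by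
      rw [hwdef, Real.rpow_def_of_pos hp0, hx,
        show Real.log p * -(1 + 1 / Real.log w) = -Real.log p + -(Real.log p / Real.log w) by ring,
        Real.exp_add, Real.exp_neg, Real.exp_log hp0]
      simp
    have h3 := Real.add_one_le_exp (-(Real.log p / Real.log w))
    have hR : (Nat.card (𝓞 K →+* ZMod p) : ℝ) = (R K p : ℝ) := by
      rw [R_eq_hc]; rfl
    rw [hR, e1]
    have h4 : (R K p : ℝ) ≤ n := by rw [hn]; exact_mod_cast R_le p
    have h5 : (0 : ℝ) ≤ (R K p : ℝ) := by positivity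
    have h6 : (0 : ℝ) ≤ 1 / ((p : ℕ) : ℝ) := by positivity
    have h7 : (0 : ℝ) ≤ Real.log p / Real.log w :=
      div_nonneg (Real.log_nonneg hp1) hlog0.le
    have h8 : (R K p : ℝ) / ((p : ℕ) : ℝ) - (R K p : ℝ) * (1 / ((p : ℕ) : ℝ) *
        Real.exp (-(Real.log p / Real.log w))) ≤
        (R K p : ℝ) * (1 / ((p : ℕ) : ℝ)) * (Real.log p / Real.log w) := by
      have h9 : (R K p : ℝ) / ((p : ℕ) : ℝ) - (R K p : ℝ) * (1 / ((p : ℕ) : ℝ) *
        Real.exp (-(Real.log p / Real.log w))) =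
        (R K p : ℝ) * (1 / ((p : ℕ) : ℝ)) * (1 - Real.exp (-(Real.log p / Real.log w))) := by ring
      rw [h9]
      refine mul_le_mul_of_nonneg_left ?_ (by positivity)
      linarith
    have h10 : (R K p : ℝ) * (1 / ((p : ℕ) : ℝ)) * (Real.log p / Real.log w) ≤
        n * (1 / ((p : ℕ) : ℝ)) * (Real.log p / Real.log w) := by
      gcongr
    have h11 : n * (1 / ((p : ℕ) : ℝ)) * (Real.log p / Real.log w) =
        n * (Real.log p / p / Real.log w) := by ring
    linarith
  have h6 : (∑ p ∈ PR w, Real.log p / p) / Real.log w ≤ 1 + M1 := by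
    have h4 := (abs_le.1 (hM1 N (by omega))).2
    have e4 : ∑ p ∈ PR w, Real.log p / p =
        ∑ p ∈ (Finset.Icc 1 N).filter Nat.Prime, Real.log p / p := rfl
    rw [← e4] at h4
    rw [div_le_iff₀ hlog0]
    nlinarith
  have h7 : n * ((∑ p ∈ PR w, Real.log p / p) / Real.log w) ≤ n * (1 + M1) :=
    mul_le_mul_of_nonneg_left h6 hn0
  have hmax := le_max_left (CR + CW + n * (1 + M1)) S0
  linarith [hA.2, hB.2]

end Pool.Agent.H474R2.GE
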