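import Mathlib
import Pool.Agent.H11.V.R_seed8_H474R2_GE_HomsUpper
import Pool.Agent.H11.V.R_seed8_H474R2_GE_RhoHoms
import Pool.Agent.H11.V.R_seed8_H474R2_PG_MertensF
import Pool.Agent.H11.V.R_seed8_H474R2_PG_Defs
import Pool.Agent.H11.V.R_seed8_Helper923_HMertens

set_option autoImplicit false

/-! # Number theoretic input for polynomial values -/

namespace Pool.Agent.H474R2.GE

open Polynomial Finset NumberField
open Pool.Agent.H474R2.PG

open Classical in
/-- counting residues with prescribed local conditions -/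
lemma card_crt (S : Finset ℕ) (hS : ∀ p ∈ S, p.Prime) (E : ℕ → ℕ → Prop) :
    ((range (∏ p ∈ S, p)).filter (fun b => ∀ p ∈ S, E p (b % p))).card =
      ∏ p ∈ S, ((range p).filter (E p)).card := by
  induction S using Finset.induction_on with
  | empty => simp
  | insert p S hp ih =>
    have ih' := ih (fun q hq => hS q (Finset.mem_insert_of_mem hq))
    have hpp := hS p (Finset.mem_insert_self _ _)
    rw [Finset.prod_insert hp, Finset.prod_insert hp, ← ih', ← Finset.card_product]
    set W := ∏ q ∈ S, q with hW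
    have hW0 : 0 < W := Finset.prod_pos fun q hq => (hS q (Finset.mem_insert_of_mem hq)).pos
    have hcop : Nat.Coprime p W := by
      refine Nat.Coprime.prod_right fun q hq => ?_
      exact (Nat.coprime_primes hpp (hS q (Finset.mem_insert_of_mem hq))).2
        (fun h => hp (h ▸ hq))
    have hdvd : ∀ q ∈ S, q ∣ W := fun q hq => Finset.dvd_prod_of_mem _ hq
    refine Finset.card_bij (fun b _ => (b % p, b % W)) ?_ ?_ ?_
    · intro b hb
      rw [Finset.mem_filter] at hb
      rw [Finset.mem_product, Finset.mem_filter, Finset.mem_filter, Finset.mem_range,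
        Finset.mem_range]
      refine ⟨⟨Nat.mod_lt _ hpp.pos, hb.2 p (Finset.mem_insert_self _ _)⟩, Nat.mod_lt _ hW0, ?_⟩
      intro q hq
      show E q (b % W % q)
      rw [Nat.mod_mod_of_dvd b (hdvd q hq)]
      exact hb.2 q (Finset.mem_insert_of_mem hq)
    · intro b hb b' hb' h
      rw [Finset.mem_filter, Finset.mem_range] at hb hb'
      have h1 : b ≡ b' [MOD p] := (Prod.mk.inj h).1
      have h2 : b ≡ b' [MOD W] := (Prod.mk.inj h).2
      exact Nat.ModEq.eq_of_lt_of_lt ((Nat.modEq_and_modEq_iff_modEq_mul hcop).1 ⟨h1, h2⟩) hb.1 hb'.1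
    · rintro ⟨c, d⟩ hcd
      rw [Finset.mem_product, Finset.mem_filter, Finset.mem_filter, Finset.mem_range,
        Finset.mem_range] at hcd
      obtain ⟨⟨hc, hEc⟩, hd, hEd⟩ := hcd
      simp only at hc hEc hd hEd
      obtain ⟨k, hk1, hk2⟩ := Nat.chineseRemainder hcop c d
      have hk3 : k % (p * W) % p = c := by
        rw [Nat.mod_mod_of_dvd k (Nat.dvd_mul_right p W)]
        have : k % p = c % p := hk1
        rw [this, Nat.mod_eq_of_lt hc]
      have hk4 : k % (p * W) % W = d := by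
        rw [Nat.mod_mod_of_dvd k (Nat.dvd_mul_left W p)]
        have : k % W = d % W := hk2
        rw [this, Nat.mod_eq_of_lt hd]
      refine ⟨k % (p * W), ?_, by rw [hk3, hk4]⟩
      rw [Finset.mem_filter, Finset.mem_range]
      refine ⟨Nat.mod_lt _ (Nat.mul_pos hpp.pos hW0), ?_⟩
      intro q hq
      rcases Finset.mem_insert.1 hq with h | h
      · rw [h, hk3]; exact hEc
      · rw [← Nat.mod_mod_of_dvd (k % (p * W)) (hdvd q h), hk4]
        exact hEd q h

/-- primes up to H -/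
def SS (H : ℕ) : Finset ℕ := (range (H + 1)).filter Nat.Prime

lemma prod_SS (H : ℕ) : ∏ p ∈ SS H, p = primorial H := rfl





/-- two-sided Mertens theorem for the roots of a polynomial -/
theorem mertens_rho (f : ℤ[X]) (hf : Irreducible f) (hd : 0 < f.natDegree) :
    ∃ C : ℝ, 0 ≤ C ∧ ∀ w : ℝ, 3 ≤ w → |Sg (rho f) w - Real.log (Real.log w)| ≤ C := by
  obtain ⟨C1, hC1⟩ := mertens_lower f hf hd
  obtain ⟨K, iF, iN, B, hB⟩ := rho_le_homs f hf hd
  obtain ⟨C2, hC2⟩ := homs_upper K
  set S0 : ℝ := ∑ p ∈ PR B, (rho f p : ℝ) / (p : ℝ) with hS0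
  have hS00 : 0 ≤ S0 := Finset.sum_nonneg fun p _ => by positivity
  refine ⟨max C1 0 + max C2 0 + S0, by positivity, fun w hw => ?_⟩
  have h1 := hC1 w hw
  have h2 := hC2 w hw
  have h3 : Sg (rho f) w ≤ S0 + ∑ p ∈ PR w, (Nat.card (𝓞 K →+* ZMod p) : ℝ) / (p : ℝ) := by
    unfold Sg
    rw [← Finset.sum_filter_add_sum_filter_not (PR w) (fun p => p ≤ B)]
    apply add_le_add
    · rw [hS0]
      apply Finset.sum_le_sum_of_subset_of_nonneg
      · intro p hp
        rw [Finset.mem_filter, PR, Finset.mem_filter, Finset.mem_Icc] at hp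
        rw [PR, Finset.mem_filter, Finset.mem_Icc, Nat.floor_natCast]
        exact ⟨⟨hp.1.1.1, hp.2⟩, hp.1.2⟩
      · intro p _ _
        positivity
    · calc ∑ p ∈ (PR w).filter (fun p => ¬ p ≤ B), (rho f p : ℝ) / (p : ℝ)
          ≤ ∑ p ∈ (PR w).filter (fun p => ¬ p ≤ B),
              (Nat.card (𝓞 K →+* ZMod p) : ℝ) / (p : ℝ) := by
            apply Finset.sum_le_sum
            intro p hp
            rw [Finset.mem_filter] at hp
            have hpp : p.Prime := (Finset.mem_filter.1 hp.1).2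
            have h3 : (rho f p : ℝ) ≤ (Nat.card (𝓞 K →+* ZMod p) : ℝ) := by
              exact_mod_cast hB p hpp (not_le.1 hp.2)
            exact div_le_div_of_nonneg_right h3 (by positivity)
        _ ≤ ∑ p ∈ PR w, (Nat.card (𝓞 K →+* ZMod p) : ℝ) / (p : ℝ) := by
            apply Finset.sum_le_sum_of_subset_of_nonneg (Finset.filter_subset _ _)
            intro p _ _
            positivity
  have h4 := le_max_left C1 0
  have h5 := le_max_left C2 0
  have h6 := le_max_right C1 0
  have h7 := le_max_right C2 0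
  rw [abs_le]
  constructor <;> linarith

lemma PR_nat (H : ℕ) : PR (H : ℝ) = SS H := by
  unfold PR SS
  rw [Nat.floor_natCast]
  ext p
  simp only [Finset.mem_filter, Finset.mem_Icc, Finset.mem_range]
  constructor
  · rintro ⟨⟨h1, h2⟩, h3⟩
    exact ⟨by omega, h3⟩
  · rintro ⟨h1, h2⟩
    exact ⟨⟨h2.one_lt.le, by omega⟩, h2⟩



/-- the densities -/
noncomputable def qf (f : ℤ[X]) (p : ℕ) : ℝ := (p : ℝ) / (rho f p : ℝ)

lemma one_div_qf (f : ℤ[X]) (p : ℕ) : 1 / qf f p = (rho f p : ℝ) / p := by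
  unfold qf
  rw [one_div_div]


/-- the hit classes -/
noncomputable def Hf (f : ℤ[X]) (p x : ℕ) : Finset ℕ :=
  (range p).filter (fun c : ℕ => (p : ℤ) ∣ f.eval ((c : ℤ) + Equiv.intEquivNat.symm x))





/-- values of polynomials -/
lemma eval_bound (g : ℤ[X]) : ∃ K : ℝ, 1 ≤ K ∧ ∀ (x : ℤ) (y : ℝ), 1 ≤ y → |(x : ℝ)| ≤ y →
    |((g.eval x : ℤ) : ℝ)| ≤ K * y ^ g.natDegree := by
  refine ⟨1 + ∑ i ∈ range (g.natDegree + 1), |((g.coeff i : ℤ) : ℝ)|, ?_, ?_⟩
  · have : 0 ≤ ∑ i ∈ range (g.natDegree + 1), |((g.coeff i : ℤ) : ℝ)| :=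
      sum_nonneg fun i _ => abs_nonneg _
    linarith
  · intro x y hy hx
    rw [eval_eq_sum_range]
    push_cast
    refine (abs_sum_le_sum_abs _ _).trans ?_
    have h1 : ∑ i ∈ range (g.natDegree + 1), |((g.coeff i : ℤ) : ℝ) * (x : ℝ) ^ i| ≤
        (∑ i ∈ range (g.natDegree + 1), |((g.coeff i : ℤ) : ℝ)|) * y ^ g.natDegree := by
      rw [sum_mul]
      refine sum_le_sum fun i hi => ?_
      rw [abs_mul, abs_pow]
      refine mul_le_mul_of_nonneg_left ?_ (abs_nonneg _)
      calc |(x : ℝ)| ^ i ≤ y ^ i := pow_le_pow_left₀ (abs_nonneg _) hx i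
        _ ≤ y ^ g.natDegree := pow_le_pow_right₀ hy (by simpa [Nat.lt_succ_iff] using hi)
    have h2 : 0 ≤ y ^ g.natDegree := by positivity
    linarith

end Pool.Agent.H474R2.GE
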