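import Mathlib
import Pool.Agent.H11.V.R_seed8_W262_RK_Defs

/-!
# Quadratic twists of hyperelliptic curves: definitions

Project TW (helper262), problems MP_d37f77_nt and MP_10e784_ag.
-/

namespace Pool.Agent.W262.TW

open Finset Pool.Agent.W262.RK Polynomial

/-- `d` is squarefree and all its prime factors are larger than `z` -/
def Rg (z d : ℕ) : Prop := Squarefree d ∧ ∀ p : ℕ, p.Prime → p ∣ d → z < p

/-- the multiplicative function `∏_{p ∣ n} b p` -/
noncomputable def mf (b : ℕ → ℝ) (n : ℕ) : ℝ := ∏ p ∈ n.primeFactors, b p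

open Classical in
/-- tuples of pairwise coprime squarefree `z`-rough numbers with product at most `Y`, such that the
product over each group `g = i` is larger than `V` -/
noncomputable def TT {ι I : Type} [Fintype ι] [DecidableEq ι] (g : ι → I) (z Y V : ℕ) :
    Finset (ι → ℕ) :=
  (Fintype.piFinset (fun _ : ι => Icc 1 Y)).filter (fun e => (∀ a, Rg z (e a)) ∧
    (∀ a b, a ≠ b → (e a).Coprime (e b)) ∧ ∏ a, e a ≤ Y ∧
    ∀ i, V < ∏ a ∈ univ.filter (fun a => g a = i), e a)

section K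

variable {K : Type} [Fintype K] [DecidableEq K]

/-- the set of the `k ≠ i` such that the symbol `(a k / p)` is `-1` -/
def ngs (a : K → ℤ) (i : K) (p : ℕ) : Finset K :=
  univ.filter (fun k => k ≠ i ∧ jacobiSym (a k) p = -1)

open Classical in
/-- the number of the tuples `D` of pairwise coprime squarefree `z`-rough numbers `> V` with product
at most `Y` such that for `p ∣ D i` the signs `(κ k * D k / p)`, `k ≠ i`, are prescribed by `Θ i p` -/
noncomputable def cnt (z Y V : ℕ) (κ : K → ℤ) (Θ : K → ℕ → Finset (Finset K)) : ℕ :=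
  ((Fintype.piFinset (fun _ : K => Icc 1 Y)).filter (fun D => (∀ i, Rg z (D i) ∧ V < D i) ∧
    (∀ i j, i ≠ j → (D i).Coprime (D j)) ∧ ∏ i, D i ≤ Y ∧
    ∀ i, ∀ p ∈ (D i).primeFactors, ngs (fun k => κ k * D k) i p ∈ Θ i p)).card

/-- the Fourier coefficients of the indicator function of `Θ i p` -/
noncomputable def bb (Θ : K → ℕ → Finset (Finset K)) (a : K × Finset K) (p : ℕ) : ℝ :=
  if a.1 ∈ a.2 then 0 else (∑ N ∈ Θ a.1 p, (-1 : ℝ) ^ (a.2 ∩ N).card) / 2 ^ (Fintype.card K - 1)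

/-- the symbol `(d a / d b)` occurs -/
def LK (a b : K × Finset K) : Bool := decide (a.1 ∈ b.2 ∧ a.1 ≠ b.1)

/-- the constants -/
def κK (κ : K → ℤ) (a : K × Finset K) : ℤ := ∏ k ∈ a.2.erase a.1, κ k

/-- the signs `(f k (θ) / p)`, `k ≠ i`, for the zeros `θ` of `f i` modulo `p` -/
def Th (f : K → ℤ[X]) (i : K) (p : ℕ) : Finset (Finset K) :=
  ((range p).filter (fun θ : ℕ => (p : ℤ) ∣ (f i).eval (θ : ℤ))).image
    (fun θ : ℕ => ngs (fun k => (f k).eval (θ : ℤ)) i p)

end K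

/-- the homogeneous polynomial of `f` -/
noncomputable def hom (f : ℤ[X]) {R : Type*} [CommRing R] (x w : R) : R :=
  ∑ i ∈ range (f.natDegree + 1), (f.coeff i : R) * x ^ i * w ^ (f.natDegree - i)

/-- the curve `f k (x, w) = δ k * y k ^ 2` (`k ∈ K`) has a point over the field `F` -/
def HasPt {K : Type} (f : K → ℤ[X]) (δ : K → ℤ) (F : Type) [Field F] : Prop :=
  ∃ x w : F, (x ≠ 0 ∨ w ≠ 0) ∧ ∀ k, ∃ y : F, hom (f k) x w = δ k * y ^ 2

/-- some covering `f k (x, w) = δ k * y k ^ 2` of the curve `d * y ^ 2 = ∏ k, f k (x, w)` has points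
everywhere locally -/
def Sel {K : Type} [Fintype K] (f : K → ℤ[X]) (d : ℤ) : Prop :=
  ∃ δ : K → ℤ, (∀ k, δ k ≠ 0) ∧ IsSquare (d * ∏ k, δ k) ∧ HasPt f δ ℝ ∧
    ∀ (p : ℕ) [Fact p.Prime], HasPt f δ ℚ_[p]

/-- the squarefree integers without prime factors `> z` -/
def EE (z : ℕ) : Finset ℤ :=
  (primorial z).divisors.image (fun n : ℕ => (n : ℤ)) ∪
    (primorial z).divisors.image (fun n : ℕ => -(n : ℤ))

end Pool.Agent.W262.TW
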