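import Mathlib
import Pool.Agent.H11.V.R_seed8_W262_TW_Defs
import Pool.Agent.H11.V.R_seed8_W723_SecC_D1a
import Pool.Agent.H11.V.R_seed8_H474R2_GE_FA

/-! Squarefree integers without prime factors in a set of primes of positive lower density. -/

set_option autoImplicit false

namespace Pool.Agent.R925.FD

open Finset Polynomial Pool.Agent.W262.RK Pool.Agent.W262.TW

/-- the sum of the reciprocals of the primes -/
lemma mert : ∃ C : ℝ, ∀ x : ℕ, 3 ≤ x →
    ∑ p ∈ PS 0 x, (1 : ℝ) / p ≤ Real.log (Real.log x) + C := by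
  obtain ⟨C, -, hC⟩ := Pool.Agent.H474R2.GE.mertens_rho (X : ℤ[X]) irreducible_X (by simp)
  refine ⟨C, fun x hx => ?_⟩
  have hx3 : (3 : ℝ) ≤ (x : ℝ) := by exact_mod_cast hx
  have h := (abs_le.1 (hC x hx3)).2
  have h1 : Pool.Agent.H474R2.PG.Sg (Pool.Agent.H474R2.PG.rho (X : ℤ[X])) x =
      ∑ p ∈ PS 0 x, (1 : ℝ) / p := by
    unfold Pool.Agent.H474R2.PG.Sg Pool.Agent.H474R2.PG.PR PS
    rw [Nat.floor_natCast]
    have e : (Finset.Icc 1 x) = Finset.Ioc 0 x := by
      ext n; simp [Finset.mem_Icc, Finset.mem_Ioc, Nat.succ_le_iff]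
    rw [e]
    refine sum_congr rfl fun p hp => ?_
    have hpp : p.Prime := (mem_filter.1 hp).2
    have h2 : Pool.Agent.H474R2.PG.rho (X : ℤ[X]) p = 1 := by
      unfold Pool.Agent.H474R2.PG.rho
      rw [Finset.card_eq_one]
      refine ⟨0, ?_⟩
      ext a
      simp only [eval_X, mem_filter, mem_range, mem_singleton]
      constructor
      · rintro ⟨h3, h4⟩
        have h5 : p ∣ a := by exact_mod_cast h4
        exact Nat.eq_zero_of_dvd_of_lt h5 h3
      · rintro rfl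
        exact ⟨hpp.pos, by simp⟩
    rw [h2, Nat.cast_one]
  rw [h1] at h
  linarith

lemma telesc (X : ℕ) : ∑ p ∈ Ioc 0 X, (1 : ℝ) / ((p : ℝ) * (p + 1)) ≤ 1 := by
  have h : ∀ X : ℕ, ∑ p ∈ Ioc 0 X, (1 : ℝ) / ((p : ℝ) * (p + 1)) = 1 - 1 / ((X : ℝ) + 1) := by
    intro X
    induction X with
    | zero => simp
    | succ n ih =>
      rw [← Finset.insert_Ioc_right_eq_Ioc_add_one (Nat.zero_le n), sum_insert (by simp), ih]
      have : (0 : ℝ) < (n : ℝ) + 1 := by positivity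
      push_cast
      field_simp
      ring
  rw [h]
  have : (0 : ℝ) ≤ 1 / ((X : ℝ) + 1) := by positivity
  linarith

open Classical in
/-- the primes not in `P` -/
lemma sum_not (P : Set ℕ) (hP : ∀ p ∈ P, p.Prime) (δ C : ℝ) (hδ : 0 < δ)
    (hcount : ∀ N : ℕ, δ * (∑ n ∈ range N, Set.indicator {p | p.Prime} (fun _ => (1 : ℝ)) n) - C ≤
      ∑ n ∈ range N, Set.indicator P (fun _ => (1 : ℝ)) n) :
    ∃ κ : ℝ, 0 < κ ∧ κ ≤ 1 ∧ ∃ C' : ℝ, ∀ x : ℕ, 3 ≤ x →
      ∑ p ∈ PS 0 x, (if p ∈ P then (0 : ℝ) else 1) / p ≤ (1 - κ) * Real.log (Real.log x) + C' := by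
  obtain ⟨C1, hC1⟩ := mert
  obtain ⟨κ, hκ⟩ : ∃ κ : ℝ, κ = min δ 1 := ⟨_, rfl⟩
  have hκ0 : 0 < κ := by rw [hκ]; exact lt_min hδ one_pos
  have hκ1 : κ ≤ 1 := by rw [hκ]; exact min_le_right _ _
  have hκδ : κ ≤ δ := by rw [hκ]; exact min_le_left _ _
  refine ⟨κ, hκ0, hκ1, (1 - κ) * C1 + 1 + |C|, fun x hx => ?_⟩
  set w : ℕ → ℝ := fun n => 1 / ((n : ℝ) + 1) with hw
  have hwa : Antitone w := by
    intro a b hab
    simp only [hw]
    apply one_div_le_one_div_of_le (by positivity)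
    have : (a : ℝ) ≤ b := by exact_mod_cast hab
    linarith
  have hw0 : ∀ n, 0 ≤ w n := fun n => by simp only [hw]; positivity
  have hpn : ∀ N : ℕ, 0 ≤ ∑ n ∈ range N, Set.indicator {p | p.Prime} (fun _ => (1 : ℝ)) n :=
    fun N => sum_nonneg fun n _ => Set.indicator_nonneg (fun _ _ => zero_le_one) n
  have h1 := Pool.Agent.W723.SecC.abel (fun n => Set.indicator P (fun _ => (1 : ℝ)) n -
    κ * Set.indicator {p | p.Prime} (fun _ => (1 : ℝ)) n) w hwa hw0 |C| (fun N => by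
      have h2 := hcount N
      have h3 := mul_le_mul_of_nonneg_right hκδ (hpn N)
      have h4 := le_abs_self C
      rw [sum_sub_distrib, ← mul_sum]
      linarith) (x + 1)
  have hw00 : w 0 = 1 := by simp [hw]
  rw [hw00, mul_one] at h1
  have h2 : ∑ n ∈ range (x + 1), (Set.indicator P (fun _ => (1 : ℝ)) n -
      κ * Set.indicator {p | p.Prime} (fun _ => (1 : ℝ)) n) * w n =
      ∑ p ∈ PS 0 x, ((if p ∈ P then (1 : ℝ) else 0) - κ) * w p := by
    have e : PS 0 x = (range (x + 1)).filter (fun n => n.Prime) := by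
      unfold PS
      ext n
      simp only [mem_filter, mem_Ioc, mem_range]
      constructor
      · rintro ⟨h, h'⟩; exact ⟨by omega, h'⟩
      · rintro ⟨h, h'⟩; exact ⟨⟨h'.pos, by omega⟩, h'⟩
    rw [e, sum_filter]
    refine sum_congr rfl fun n _ => ?_
    by_cases hn : n.Prime
    · have e1 : Set.indicator {p | p.Prime} (fun _ => (1 : ℝ)) n = 1 :=
        Set.indicator_of_mem (by exact hn) _
      rw [if_pos hn, e1]
      by_cases hnP : n ∈ P
      · rw [Set.indicator_of_mem hnP, if_pos hnP, mul_one]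
      · rw [Set.indicator_of_notMem hnP, if_neg hnP, mul_one]
    · have e1 : Set.indicator {p | p.Prime} (fun _ => (1 : ℝ)) n = 0 :=
        Set.indicator_of_notMem (by exact hn) _
      rw [if_neg hn, e1, Set.indicator_of_notMem (fun h => hn (hP n h))]
      ring
  rw [h2] at h1
  have h3 : ∀ p ∈ PS 0 x, (if p ∈ P then (0 : ℝ) else 1) / p ≤
      (1 - κ) * (1 / p) + 1 / ((p : ℝ) * (p + 1)) - ((if p ∈ P then (1 : ℝ) else 0) - κ) * w p := by
    intro p hp
    have hpp : p.Prime := (mem_filter.1 hp).2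
    have hp0 : (0 : ℝ) < p := by exact_mod_cast hpp.pos
    have e1 : (1 : ℝ) / ((p : ℝ) * (p + 1)) = 1 / p - w p := by
      simp only [hw]
      field_simp
      ring
    have e2 : w p ≤ 1 / p := by
      simp only [hw]
      exact one_div_le_one_div_of_le hp0 (by linarith)
    have e3 := hw0 p
    rw [e1]
    by_cases hpP : p ∈ P
    · rw [if_pos hpP, if_pos hpP, zero_div]
      nlinarith
    · rw [if_neg hpP, if_neg hpP]
      have e4 : (0 : ℝ) ≤ 1 / p := by positivity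
      nlinarith
  refine (sum_le_sum h3).trans ?_
  rw [sum_sub_distrib, sum_add_distrib, ← mul_sum]
  have h4 : ∑ p ∈ PS 0 x, (1 : ℝ) / ((p : ℝ) * (p + 1)) ≤ 1 := by
    refine (sum_le_sum_of_subset_of_nonneg ?_ fun p _ _ => by positivity).trans (telesc x)
    unfold PS
    exact filter_subset _ _
  have h5 := mul_le_mul_of_nonneg_left (hC1 x hx) (sub_nonneg.2 hκ1)
  linarith


end Pool.Agent.R925.FD
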