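import Mathlib
import Pool.Agent.H11.V.R_seed8_H921R2_TatePole_Homs

set_option autoImplicit false

open NumberField IsDedekindDomain Pool.Agent.H921R2.TatePole Finset

namespace H332.PIT

section
variable {K : Type*} [Field K] [NumberField K]

variable (K) in
/-- ideals of norm `n` -/
noncomputable def idN (n : ℕ) : Finset (Ideal (𝓞 K)) :=
  (Ideal.finite_setOfPred_absNorm_eq (S := 𝓞 K) n).toFinset

lemma mem_idN (n : ℕ) (I : Ideal (𝓞 K)) : I ∈ idN K n ↔ Ideal.absNorm I = n := by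
  unfold idN; simp

lemma aK_eq_card (n : ℕ) : aK K n = (idN K n).card := by
  unfold aK
  congr 1
  rw [Nat.subtype_card (idN K n) (p := fun I => Ideal.absNorm I = n) (mem_idN n)]

lemma primesLE_finite (n : ℕ) : {v : HeightOneSpectrum (𝓞 K) | nm v ≤ n}.Finite := by
  have h := Ideal.finite_setOfPred_absNorm_le (S := 𝓞 K) n
  refine Set.Finite.of_finite_image (f := fun v : HeightOneSpectrum (𝓞 K) => v.asIdeal)
    (h.subset ?_) ?_
  · rintro _ ⟨v, hv, rfl⟩
    exact hv
  · intro v _ u _ h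
    exact HeightOneSpectrum.ext h

variable (K) in
/-- primes of norm at most `n` -/
noncomputable def prLE (n : ℕ) : Finset (HeightOneSpectrum (𝓞 K)) :=
  (primesLE_finite (K := K) n).toFinset

lemma mem_prLE (n : ℕ) (v : HeightOneSpectrum (𝓞 K)) : v ∈ prLE K n ↔ nm v ≤ n := by
  unfold prLE; simp

variable (K) in
/-- the coefficient of the logarithmic derivative -/
noncomputable def LamK (n : ℕ) : ℝ :=
  ∑ v ∈ prLE K n, ∑ k ∈ Icc 1 n, if nm v ^ k = n then Real.log (nm v) else 0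

lemma log_nm_nonneg (v : HeightOneSpectrum (𝓞 K)) : 0 ≤ Real.log (nm v) :=
  Real.log_nonneg (by exact_mod_cast (by have := two_le_nm v; omega : 1 ≤ nm v))

lemma LamK_nonneg (n : ℕ) : 0 ≤ LamK K n := by
  unfold LamK
  refine sum_nonneg fun v _ => sum_nonneg fun k _ => ?_
  split_ifs
  · exact log_nm_nonneg v
  · exact le_rfl

lemma nm_le_of_pow {v : HeightOneSpectrum (𝓞 K)} {k n : ℕ} (hk : 1 ≤ k) (h : nm v ^ k = n) :
    nm v ≤ n ∧ k ≤ n := by
  have h2 := two_le_nm v
  constructor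
  · rw [← h]; exact Nat.le_self_pow (by omega) _
  · rw [← h]; exact (Nat.lt_pow_self (by omega)).le

/-- the cut-offs can be enlarged -/
lemma LamK_eq {n N : ℕ} (h : n ≤ N) :
    LamK K n = ∑ v ∈ prLE K N, ∑ k ∈ Icc 1 N, if nm v ^ k = n then Real.log (nm v) else 0 := by
  unfold LamK
  have h1 : ∀ v : HeightOneSpectrum (𝓞 K),
      ∑ k ∈ Icc 1 n, (if nm v ^ k = n then Real.log (nm v) else 0) =
      ∑ k ∈ Icc 1 N, if nm v ^ k = n then Real.log (nm v) else 0 := by
    intro v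
    refine sum_subset (Icc_subset_Icc le_rfl h) fun k hk hk2 => ?_
    rw [if_neg]
    intro h3
    exact hk2 (mem_Icc.mpr ⟨(mem_Icc.mp hk).1, (nm_le_of_pow (mem_Icc.mp hk).1 h3).2⟩)
  simp_rw [h1]
  refine sum_subset (fun v hv => ?_) fun v hv hv2 => ?_
  · rw [mem_prLE] at hv ⊢; omega
  · refine sum_eq_zero fun k hk => ?_
    rw [if_neg]
    intro h3
    exact hv2 ((mem_prLE _ _).mpr (nm_le_of_pow (mem_Icc.mp hk).1 h3).1)

lemma finmult (v : HeightOneSpectrum (𝓞 K)) {I : Ideal (𝓞 K)} (hI : I ≠ ⊥) :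
    FiniteMultiplicity v.asIdeal I :=
  FiniteMultiplicity.of_prime_left v.prime (by rw [Ideal.zero_eq_bot]; exact hI)

lemma pow_mult_le (v : HeightOneSpectrum (𝓞 K)) {I : Ideal (𝓞 K)} (_hI : I ≠ ⊥) {k : ℕ}
    (hk : v.asIdeal ^ k ∣ I) : nm v ^ k ∣ Ideal.absNorm I := by
  have := map_dvd Ideal.absNorm hk
  rwa [map_pow] at this

lemma absNorm_ne_zero {I : Ideal (𝓞 K)} (hI : I ≠ ⊥) : Ideal.absNorm I ≠ 0 := by
  rw [Ne, Ideal.absNorm_eq_zero_iff]; exact hI

/-- `log N(I) = ∑_{v, k ≥ 1, v^k ∣ I} log N(v)` -/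
lemma log_absNorm {I : Ideal (𝓞 K)} (hI : I ≠ ⊥) {n : ℕ} (hn : Ideal.absNorm I = n) :
    Real.log n = ∑ v ∈ prLE K n, (multiplicity v.asIdeal I : ℝ) * Real.log (nm v) := by
  classical
  have h0 : I ≠ 0 := by rw [Ideal.zero_eq_bot]; exact hI
  have h1 : ∏ v ∈ prLE K n, v.asIdeal ^ multiplicity v.asIdeal I = I := by
    conv_rhs => rw [← Ideal.finprod_heightOneSpectrum_factorization h0]
    rw [finprod_eq_prod_of_mulSupport_subset (s := prLE K n)]
    · refine prod_congr rfl fun v _ => ?_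
      rw [HeightOneSpectrum.maxPowDividing_eq_pow_multiplicity h0]
    · intro v hv
      rw [Function.mem_mulSupport, HeightOneSpectrum.maxPowDividing_eq_pow_multiplicity h0] at hv
      rw [mem_coe, mem_prLE]
      have h2 : v.asIdeal ∣ I := by
        by_contra h3
        apply hv
        rw [multiplicity_eq_zero.mpr h3, pow_zero]
      have h4 : nm v ∣ Ideal.absNorm I := map_dvd Ideal.absNorm h2
      rw [← hn]
      exact Nat.le_of_dvd (Nat.pos_of_ne_zero (absNorm_ne_zero hI)) h4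
  have h2 : (n : ℝ) = ∏ v ∈ prLE K n, (nm v : ℝ) ^ multiplicity v.asIdeal I := by
    rw [← hn]
    conv_lhs => rw [← h1]
    rw [map_prod]
    push_cast
    rw [hn]
    refine prod_congr rfl fun v _ => ?_
    rw [map_pow]
    push_cast
    rfl
  rw [h2, Real.log_prod]
  · refine sum_congr rfl fun v _ => ?_
    rw [Real.log_pow]
  · intro v _
    have := nm_ne_zero v
    positivity

lemma mult_eq_sum (v : HeightOneSpectrum (𝓞 K)) {I : Ideal (𝓞 K)} (hI : I ≠ ⊥) {n : ℕ}
    (hn : Ideal.absNorm I = n) [DecidablePred fun k => v.asIdeal ^ k ∣ I] :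
    (multiplicity v.asIdeal I : ℝ) = ∑ k ∈ Icc 1 n, if v.asIdeal ^ k ∣ I then (1 : ℝ) else 0 := by
  rw [sum_boole]
  congr 1
  have h1 : ((Icc 1 n).filter fun k => v.asIdeal ^ k ∣ I) = Icc 1 (multiplicity v.asIdeal I) := by
    ext k
    simp only [mem_filter, mem_Icc]
    rw [(finmult v hI).pow_dvd_iff_le_multiplicity]
    constructor
    · rintro ⟨⟨h1, _⟩, h2⟩
      exact ⟨h1, h2⟩
    · rintro ⟨h1, h2⟩
      refine ⟨⟨h1, ?_⟩, h2⟩
      have h3 := Nat.le_of_dvd (Nat.pos_of_ne_zero (absNorm_ne_zero hI))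
        (pow_mult_le v hI (((finmult v hI).pow_dvd_iff_le_multiplicity).mpr h2))
      rw [hn] at h3
      have h4 : k < nm v ^ k := Nat.lt_pow_self (by have := two_le_nm v; omega)
      omega
  rw [h1, Nat.card_Icc]
  omega

/-- ideals of norm `n` divisible by `v^k` -/
lemma card_dvd (v : HeightOneSpectrum (𝓞 K)) (k : ℕ) {n : ℕ} (hn : n ≠ 0)
    [DecidablePred fun I : Ideal (𝓞 K) => v.asIdeal ^ k ∣ I] :
    (((idN K n).filter fun I => v.asIdeal ^ k ∣ I).card : ℝ) =
      if nm v ^ k ∣ n then aK K (n / nm v ^ k) else 0 := by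
  have hpos : 0 < nm v ^ k := pow_pos (by have := two_le_nm v; omega) _
  split_ifs with h
  · rw [aK_eq_card]
    congr 1
    symm
    refine card_bij (fun J _ => v.asIdeal ^ k * J) ?_ ?_ ?_
    · intro J hJ
      rw [mem_idN] at hJ
      rw [mem_filter, mem_idN, map_mul, map_pow, hJ]
      exact ⟨Nat.mul_div_cancel' h, dvd_mul_right _ _⟩
    · intro J _ J' _ h2
      have hv : v.asIdeal ^ k ≠ 0 := pow_ne_zero _ v.ne_bot
      exact mul_left_cancel₀ hv h2
    · intro I hI
      rw [mem_filter, mem_idN] at hI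
      obtain ⟨J, rfl⟩ := hI.2
      refine ⟨J, ?_, rfl⟩
      rw [mem_idN, ← hI.1, map_mul, map_pow]
      exact (Nat.mul_div_cancel_left _ hpos).symm
  · rw [Nat.cast_eq_zero, card_eq_zero, filter_eq_empty_iff]
    intro I hI h2
    apply h
    rw [mem_idN] at hI
    rw [← hI]
    exact pow_mult_le v (by
      intro h3
      rw [h3, Ideal.absNorm_bot] at hI
      exact hn hI.symm) h2

/-- the convolution identity `log · a_K = Λ_K * a_K` -/
theorem conv_id {n : ℕ} (hn : n ≠ 0) :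
    Real.log n * aK K n = ∑ d ∈ n.divisorsAntidiagonal, LamK K d.1 * aK K d.2 := by
  classical
  have hLHS : Real.log n * aK K n = ∑ v ∈ prLE K n, ∑ k ∈ Icc 1 n,
      Real.log (nm v) * (if nm v ^ k ∣ n then aK K (n / nm v ^ k) else 0) := by
    calc Real.log n * aK K n = ∑ I ∈ idN K n, Real.log n := by
          rw [sum_const, aK_eq_card, nsmul_eq_mul, mul_comm]
      _ = ∑ I ∈ idN K n, ∑ v ∈ prLE K n, ∑ k ∈ Icc 1 n,
            (if v.asIdeal ^ k ∣ I then (1 : ℝ) else 0) * Real.log (nm v) := by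
          refine sum_congr rfl fun I hI => ?_
          rw [mem_idN] at hI
          have hI0 : I ≠ ⊥ := by
            intro h3
            rw [h3, Ideal.absNorm_bot] at hI
            exact hn hI.symm
          rw [log_absNorm hI0 hI]
          refine sum_congr rfl fun v _ => ?_
          rw [mult_eq_sum v hI0 hI, sum_mul]
      _ = ∑ v ∈ prLE K n, ∑ k ∈ Icc 1 n, ∑ I ∈ idN K n,
            (if v.asIdeal ^ k ∣ I then (1 : ℝ) else 0) * Real.log (nm v) := by
          rw [sum_comm]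
          refine sum_congr rfl fun v _ => ?_
          rw [sum_comm]
      _ = _ := by
          refine sum_congr rfl fun v _ => sum_congr rfl fun k _ => ?_
          rw [← sum_mul, sum_boole, card_dvd v k hn, mul_comm]
  rw [hLHS, Nat.sum_divisorsAntidiagonal (fun a b => LamK K a * aK K b)]
  have h2 : ∀ d ∈ n.divisors, LamK K d * aK K (n / d) = ∑ v ∈ prLE K n, ∑ k ∈ Icc 1 n,
      (if nm v ^ k = d then Real.log (nm v) else 0) * aK K (n / d) := by
    intro d hd
    rw [LamK_eq (Nat.le_of_dvd (Nat.pos_of_ne_zero hn) (Nat.dvd_of_mem_divisors hd)), sum_mul]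
    refine sum_congr rfl fun v _ => ?_
    rw [sum_mul]
  rw [sum_congr rfl h2]
  symm
  rw [sum_comm]
  refine sum_congr rfl fun v _ => ?_
  rw [sum_comm]
  refine sum_congr rfl fun k _ => ?_
  simp_rw [ite_mul, zero_mul]
  rw [sum_ite_eq]
  by_cases h3 : nm v ^ k ∣ n
  · rw [if_pos h3, if_pos (Nat.mem_divisors.mpr ⟨h3, hn⟩)]
  · rw [if_neg h3, if_neg (fun h4 => h3 (Nat.dvd_of_mem_divisors h4)), mul_zero]

end

end H332.PIT
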