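import Mathlib
import Pool.Agent.H11.V.R_seed8_H332R2_PIT_Bound
import Pool.Agent.H11.V.R_seed8_Helper923_PNT

set_option autoImplicit false

open Complex Filter Topology NumberField IsDedekindDomain Pool.Agent.H921R2.TatePole

namespace H332.PIT

/-- asymptotics of the logarithmic derivative at a point of analyticity -/
lemma logderiv_asymp {g : ℂ → ℂ} {z0 : ℂ} (hg : AnalyticAt ℂ g z0)
    (hne : ¬ ∀ᶠ z in 𝓝 z0, g z = 0) :
    ∃ m : ℕ, Tendsto (fun z => (z - z0) * (deriv g z / g z)) (𝓝[≠] z0) (𝓝 (m : ℂ)) ∧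
      (g z0 = 0 ↔ m ≠ 0) ∧ ∀ᶠ z in 𝓝[≠] z0, g z ≠ 0 := by
  obtain ⟨m, h, hh, hh0, hgh⟩ := (hg.exists_eventuallyEq_pow_smul_nonzero_iff).mpr hne
  have e1 : ∀ᶠ z in 𝓝 z0, ∀ᶠ w in 𝓝 z, g w = (w - z0) ^ m • h w := hgh.eventually_nhds
  have e2 : ∀ᶠ z in 𝓝 z0, h z ≠ 0 := hh.continuousAt.eventually_ne hh0
  have e3 : ∀ᶠ z in 𝓝 z0, DifferentiableAt ℂ h z :=
    hh.eventually_analyticAt.mono fun z hz => hz.differentiableAt
  refine ⟨m, ?_, ?_, ?_⟩
  · have h1 : ∀ᶠ z in 𝓝[≠] z0,
        (m : ℂ) + (z - z0) * (deriv h z / h z) = (z - z0) * (deriv g z / g z) := by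
      filter_upwards [e1.filter_mono nhdsWithin_le_nhds, e2.filter_mono nhdsWithin_le_nhds,
        e3.filter_mono nhdsWithin_le_nhds, self_mem_nhdsWithin] with z h1 h2 h3 hz
      have hz0 : z - z0 ≠ 0 := sub_ne_zero.mpr hz
      have hd : deriv g z = m * (z - z0) ^ (m - 1) * h z + (z - z0) ^ m * deriv h z := by
        rw [Filter.EventuallyEq.deriv_eq (f := fun w => (w - z0) ^ m * h w) h1]
        have h4 : HasDerivAt (fun w : ℂ => (w - z0) ^ m) (m * (z - z0) ^ (m - 1)) z := by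
          have h5 := ((hasDerivAt_id z).sub_const z0).pow m
          simp only [id, mul_one] at h5
          exact h5
        exact (h4.mul h3.hasDerivAt).deriv
      have hm : (m : ℂ) * (z - z0) ^ (m - 1) * (z - z0) = m * (z - z0) ^ m := by
        rcases m with _ | m
        · simp
        · rw [Nat.add_sub_cancel, mul_assoc, ← pow_succ]
      have hgz : g z = (z - z0) ^ m * h z := by
        have := h1.self_of_nhds
        simpa using this
      have hpow : (z - z0) ^ m ≠ 0 := pow_ne_zero _ hz0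
      rw [hgz, hd]
      field_simp
      linear_combination (-(h z)) * hm
    refine Tendsto.congr' h1 ?_
    have h2 : Tendsto (fun z => (m : ℂ) + (z - z0) * (deriv h z / h z)) (𝓝 z0)
        (𝓝 ((m : ℂ) + (z0 - z0) * (deriv h z0 / h z0))) := by
      refine tendsto_const_nhds.add (Tendsto.mul ?_ ?_)
      · exact (continuous_id.sub continuous_const).continuousAt
      · exact (hh.deriv.continuousAt.div hh.continuousAt hh0)
    rw [sub_self, zero_mul, add_zero] at h2
    exact h2.mono_left nhdsWithin_le_nhds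
  · have h3 : g z0 = (z0 - z0) ^ m • h z0 := hgh.self_of_nhds
    rw [h3, sub_self, smul_eq_mul, mul_eq_zero]
    constructor
    · rintro (h4 | h4)
      · exact fun h5 => by rw [h5] at h4; simp at h4
      · exact absurd h4 hh0
    · intro h4
      exact Or.inl (zero_pow h4)
  · filter_upwards [hgh.filter_mono nhdsWithin_le_nhds, e2.filter_mono nhdsWithin_le_nhds,
      self_mem_nhdsWithin] with z h1 h2 hz
    rw [h1, smul_eq_mul]
    exact mul_ne_zero (pow_ne_zero _ (sub_ne_zero.mpr hz)) h2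

section
variable {K : Type*} [Field K] [NumberField K]

lemma one_le_ZK {x : ℝ} (hx : 1 < x) : 1 ≤ ZK K x := by
  have h := prod_one_add_le (K := K) hx ∅
  rwa [Finset.prod_empty] at h

lemma isOpen_re : IsOpen {s : ℂ | 1 < s.re} := isOpen_lt continuous_const Complex.continuous_re

lemma zeta_analyticAt {s : ℂ} (hs : 1 < s.re) : AnalyticAt ℂ (dedekindZeta K) s := by
  have h : DifferentiableOn ℂ (dedekindZeta K) {s : ℂ | 1 < s.re} := fun z hz =>
    (zeta_diffAt hz).differentiableWithinAt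
  exact h.analyticAt (isOpen_re.mem_nhds hs)

lemma LL_analyticAt {s : ℂ} (hs : 1 < s.re) : AnalyticAt ℂ (LL K) s := by
  have h : DifferentiableOn ℂ (LL K) {s : ℂ | 1 < s.re} := fun z hz =>
    (LL_diffAt hz).differentiableWithinAt
  exact h.analyticAt (isOpen_re.mem_nhds hs)

/-- `ζ_K` does not vanish on `Re s > 1` -/
theorem zeta_ne_zero {s : ℂ} (hs : 1 < s.re) : dedekindZeta K s ≠ 0 := by
  intro h0
  have hev : ¬ ∀ᶠ z in 𝓝 s, dedekindZeta K z = 0 := by
    intro h
    have hpre : IsPreconnected {s : ℂ | 1 < s.re} := (convex_halfSpace_re_gt 1).isPreconnected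
    have h1 := AnalyticOnNhd.eqOn_zero_of_preconnected_of_eventuallyEq_zero
      (f := dedekindZeta K) (U := {s : ℂ | 1 < s.re}) (fun z hz => zeta_analyticAt hz) hpre hs h
    have h2 : dedekindZeta K ((2 : ℝ) : ℂ) = 0 := h1 (by simp)
    rw [dedekindZeta_real] at h2
    have h3 := one_le_ZK (K := K) (x := 2) (by norm_num)
    have h4 : ZK K 2 = 0 := by exact_mod_cast h2
    linarith
  obtain ⟨m, hm, hm0, hmn⟩ := logderiv_asymp (zeta_analyticAt hs) hev
  have h1 : ∀ᶠ z in 𝓝[≠] s, -((z - s) * LL K z) =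
      (z - s) * (deriv (dedekindZeta K) z / dedekindZeta K z) := by
    filter_upwards [hmn, (isOpen_re.mem_nhds hs |> mem_nhdsWithin_of_mem_nhds)] with z hz hz1
    rw [deriv_zeta hz1]
    field_simp
  have h2 : Tendsto (fun z => -((z - s) * LL K z)) (𝓝[≠] s) (𝓝 0) := by
    have h3 : Tendsto (fun z => -((z - s) * LL K z)) (𝓝 s) (𝓝 (-((s - s) * LL K s))) := by
      refine Tendsto.neg (Tendsto.mul ?_ (LL_analyticAt hs).continuousAt)
      exact (continuous_id.sub continuous_const).continuousAt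
    rw [sub_self, zero_mul, neg_zero] at h3
    exact h3.mono_left nhdsWithin_le_nhds
  have h3 := tendsto_nhds_unique (h2.congr' h1) hm
  have h4 : m = 0 := by exact_mod_cast h3.symm
  exact (hm0.mp h0) h4

/-- the real part of a term -/
lemma term_re (n : ℕ) (σ t : ℝ) :
    (LSeries.term (fun n => (LamK K n : ℂ)) ((σ : ℂ) + t * I) n).re =
      (if n = 0 then 0 else LamK K n * Real.exp (-(σ * Real.log n))) * Real.cos (t * Real.log n) := by
  rcases eq_or_ne n 0 with rfl | hn
  · simp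
  · rw [LSeries.term_of_ne_zero hn, if_neg hn]
    have hn' : (n : ℂ) ≠ 0 := by exact_mod_cast hn
    have h1 : (LamK K n : ℂ) / (n : ℂ) ^ ((σ : ℂ) + t * I) =
        (LamK K n : ℂ) * Complex.exp (((-(σ * Real.log n) : ℝ) : ℂ) +
          ((-(t * Real.log n) : ℝ) : ℂ) * I) := by
      rw [div_eq_mul_inv, ← Complex.cpow_neg, Complex.cpow_def_of_ne_zero hn',
        ← Complex.natCast_log]
      congr 2
      push_cast
      ring
    rw [h1, Complex.re_ofReal_mul, Complex.exp_re]
    simp only [Complex.add_re, Complex.ofReal_re, Complex.mul_re, Complex.I_re, mul_zero,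
      Complex.ofReal_im, Complex.I_im, mul_one, sub_self, add_zero, Complex.add_im, Complex.mul_im,
      zero_add]
    rw [Real.cos_neg]
    ring

/-- the 3-4-1 inequality -/
lemma three_four_one {σ : ℝ} (hσ : 1 < σ) (t : ℝ) :
    0 ≤ 3 * (LL K (σ : ℂ)).re + 4 * (LL K ((σ : ℂ) + t * I)).re +
      (LL K ((σ : ℂ) + (2 * t : ℝ) * I)).re := by
  have h0 := LamK_summable (K := K) (s := (σ : ℂ) + (0 : ℝ) * I) (by simpa using hσ)
  have h1 := LamK_summable (K := K) (s := (σ : ℂ) + t * I) (by simpa using hσ)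
  have h2 := LamK_summable (K := K) (s := (σ : ℂ) + (2 * t : ℝ) * I) (by simpa using hσ)
  have g0 := Complex.reCLM.hasSum h0.hasSum
  have g1 := Complex.reCLM.hasSum h1.hasSum
  have g2 := Complex.reCLM.hasSum h2.hasSum
  have e0 : (σ : ℂ) = (σ : ℂ) + (0 : ℝ) * I := by simp
  have h3 := ((g0.mul_left 3).add (g1.mul_left 4)).add g2
  have h4 := h3.nonneg (fun n => by
    simp only [Complex.reCLM_apply]
    rw [term_re, term_re, term_re]
    set c := Real.cos (t * Real.log n) with hc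
    have h5 : Real.cos (2 * t * Real.log n) = 2 * c ^ 2 - 1 := by
      rw [mul_assoc, Real.cos_two_mul]
    rw [h5, zero_mul, Real.cos_zero]
    have h6 : (0 : ℝ) ≤ (if n = 0 then 0 else LamK K n * Real.exp (-(σ * Real.log n))) := by
      split_ifs
      · exact le_rfl
      · exact mul_nonneg (LamK_nonneg n) (Real.exp_pos _).le
    nlinarith [mul_nonneg h6 (sq_nonneg (1 + c))])
  unfold LL LSeries
  rw [e0]
  simpa using h4

/-- the continuation hypothesis -/
def Cont (K : Type*) [Field K] [NumberField K] : Prop :=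
  ∀ t : ℝ, ∃ g : ℂ → ℂ, AnalyticAt ℂ g (1 + t * I) ∧
    ∀ᶠ z in 𝓝 ((1 : ℂ) + t * I), 1 < z.re → g z = (z - 1) * dedekindZeta K z

lemma path_tendsto (t : ℝ) :
    Tendsto (fun σ : ℝ => (σ : ℂ) + t * I) (𝓝[>] 1) (𝓝 (1 + t * I)) := by
  have h : Continuous fun σ : ℝ => (σ : ℂ) + t * I := by fun_prop
  have := h.tendsto 1
  simp only [ofReal_one] at this
  exact this.mono_left nhdsWithin_le_nhds

lemma path_tendsto_ne (t : ℝ) :
    Tendsto (fun σ : ℝ => (σ : ℂ) + t * I) (𝓝[>] 1) (𝓝[≠] (1 + t * I)) := by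
  refine tendsto_nhdsWithin_iff.mpr ⟨path_tendsto t, ?_⟩
  filter_upwards [self_mem_nhdsWithin] with σ hσ h
  have h1 : ((σ : ℂ) + t * I).re = ((1 : ℂ) + t * I).re := by rw [h]
  simp at h1
  have : (1 : ℝ) < σ := hσ
  linarith

/-- the logarithmic derivative of the continuation -/
lemma logderiv_cont {t : ℝ} {g : ℂ → ℂ}
    (hgz : ∀ᶠ z in 𝓝 ((1 : ℂ) + t * I), 1 < z.re → g z = (z - 1) * dedekindZeta K z) :
    ∀ᶠ z in 𝓝 ((1 : ℂ) + t * I), 1 < z.re → deriv g z / g z = 1 / (z - 1) - LL K z := by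
  filter_upwards [hgz.eventually_nhds] with z hz hre
  have h1 : g =ᶠ[𝓝 z] fun w => (w - 1) * dedekindZeta K w := by
    filter_upwards [hz, isOpen_re.mem_nhds hre] with w hw hw1
    exact hw hw1
  have h2 : HasDerivAt (fun w => (w - 1) * dedekindZeta K w)
      (1 * dedekindZeta K z + (z - 1) * deriv (dedekindZeta K) z) z :=
    ((hasDerivAt_id z).sub_const 1).mul (zeta_diffAt hre).hasDerivAt
  have hz0 := zeta_ne_zero (K := K) hre
  have hz1 : z - 1 ≠ 0 := by
    intro h
    have : z = 1 := sub_eq_zero.mp h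
    rw [this] at hre
    simp at hre
  rw [h1.deriv_eq, h2.deriv, h1.eq_of_nhds, deriv_zeta hre]
  field_simp
  ring

lemma cont_not_zero {t : ℝ} {g : ℂ → ℂ}
    (hgz : ∀ᶠ z in 𝓝 ((1 : ℂ) + t * I), 1 < z.re → g z = (z - 1) * dedekindZeta K z) :
    ¬ ∀ᶠ z in 𝓝 ((1 : ℂ) + t * I), g z = 0 := by
  intro h
  have h1 := (path_tendsto t).eventually (hgz.and h)
  obtain ⟨σ, ⟨h2, h3⟩, hσ⟩ := (h1.and self_mem_nhdsWithin).exists
  have hre : 1 < ((σ : ℂ) + t * I).re := by simpa using hσ
  rw [h2 hre] at h3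
  have hz0 := zeta_ne_zero (K := K) hre
  have hz1 : ((σ : ℂ) + t * I) - 1 ≠ 0 := by
    intro h
    have : ((σ : ℂ) + t * I) = 1 := sub_eq_zero.mp h
    rw [this] at hre
    simp at hre
  exact mul_ne_zero hz1 hz0 h3

/-- the limit of `(σ - 1) L(σ + i t)` -/
lemma LL_limit (hK : Cont K) (t : ℝ) : ∃ m : ℕ,
    Tendsto (fun σ : ℝ => ((σ : ℂ) - 1) * LL K (σ + t * I)) (𝓝[>] 1)
      (𝓝 ((if t = 0 then 1 else 0) - (m : ℂ))) ∧
    (∀ g : ℂ → ℂ, AnalyticAt ℂ g (1 + t * I) →
      (∀ᶠ z in 𝓝 ((1 : ℂ) + t * I), 1 < z.re → g z = (z - 1) * dedekindZeta K z) →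
      (g (1 + t * I) = 0 ↔ m ≠ 0)) := by
  obtain ⟨g, hg, hgz⟩ := hK t
  obtain ⟨m, hm, hm0, _⟩ := logderiv_asymp hg (cont_not_zero hgz)
  refine ⟨m, ?_, ?_⟩
  · have h1 := hm.comp (path_tendsto_ne t)
    have h2 : Tendsto (fun σ : ℝ => ((σ : ℂ) - 1) / ((σ : ℂ) + t * I - 1)) (𝓝[>] 1)
        (𝓝 (if t = 0 then 1 else 0)) := by
      split_ifs with ht
      · refine Tendsto.congr' ?_ tendsto_const_nhds
        filter_upwards [self_mem_nhdsWithin] with σ hσ
        have h3 : (σ : ℂ) - 1 ≠ 0 := by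
          intro h
          have : (σ : ℂ) = 1 := sub_eq_zero.mp h
          have h4 : σ = 1 := by exact_mod_cast this
          have h5 : (1 : ℝ) < σ := hσ
          linarith
        rw [ht]
        simp only [ofReal_zero, zero_mul, add_zero]
        exact (div_self h3).symm
      · have h3 : Tendsto (fun σ : ℝ => ((σ : ℂ) - 1) / ((σ : ℂ) + t * I - 1)) (𝓝 1)
            (𝓝 ((((1 : ℝ) : ℂ) - 1) / (((1 : ℝ) : ℂ) + t * I - 1))) := by
          have hc : ContinuousAt (fun σ : ℝ => ((σ : ℂ) - 1) / ((σ : ℂ) + t * I - 1)) 1 := by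
            refine ContinuousAt.div (by fun_prop) (by fun_prop) ?_
            simp only [ofReal_one, add_sub_cancel_left]
            exact mul_ne_zero (by exact_mod_cast ht) I_ne_zero
          exact hc
        simp only [ofReal_one, sub_self, zero_div] at h3
        exact h3.mono_left nhdsWithin_le_nhds
    have h3 := h2.sub h1
    refine h3.congr' ?_
    filter_upwards [(path_tendsto t).eventually (logderiv_cont hgz), self_mem_nhdsWithin]
      with σ hσ hσ1
    have hre : 1 < ((σ : ℂ) + t * I).re := by simpa using hσ1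
    have hz1 : ((σ : ℂ) + t * I) - 1 ≠ 0 := by
      intro h
      have : ((σ : ℂ) + t * I) = 1 := sub_eq_zero.mp h
      rw [this] at hre
      simp at hre
    simp only [Function.comp]
    rw [hσ hre]
    have e : (σ : ℂ) + t * I - (1 + t * I) = σ - 1 := by ring
    rw [e]
    field_simp
    ring
  · intro g' hg' hgz'
    obtain ⟨m', hm', hm0', _⟩ := logderiv_asymp hg' (cont_not_zero hgz')
    have h1 := hm.comp (path_tendsto_ne t)
    have h2 := hm'.comp (path_tendsto_ne t)
    have h3 : Tendsto ((fun z => (z - (1 + t * I)) * (deriv g z / g z)) ∘ fun σ : ℝ => (σ : ℂ) + t * I)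
        (𝓝[>] 1) (𝓝 (m' : ℂ)) := by
      refine h2.congr' ?_
      filter_upwards [(path_tendsto t).eventually (logderiv_cont hgz),
        (path_tendsto t).eventually (logderiv_cont hgz'), self_mem_nhdsWithin] with σ hσ hσ' hσ1
      have hre : 1 < ((σ : ℂ) + t * I).re := by simpa using hσ1
      simp only [Function.comp]
      rw [hσ hre, hσ' hre]
    have h4 := tendsto_nhds_unique h1 h3
    have h5 : m = m' := by exact_mod_cast h4
    rw [h5]
    exact hm0'

lemma cont_zero_ne {g : ℂ → ℂ} (hg : AnalyticAt ℂ g (1 + (0 : ℝ) * I))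
    (hgz : ∀ᶠ z in 𝓝 ((1 : ℂ) + (0 : ℝ) * I), 1 < z.re → g z = (z - 1) * dedekindZeta K z) :
    g (1 + (0 : ℝ) * I) ≠ 0 := by
  have h1 := hg.continuousAt.tendsto.comp (path_tendsto 0)
  have h2 : Tendsto (fun s : ℝ ↦ ((s : ℂ) - 1) * dedekindZeta K s) (𝓝[>] 1)
      (𝓝 (g (1 + (0 : ℝ) * I))) := by
    refine h1.congr' ?_
    filter_upwards [(path_tendsto 0).eventually hgz, self_mem_nhdsWithin] with σ hσ hσ1
    have hre : 1 < ((σ : ℂ) + (0 : ℝ) * I).re := by simpa using hσ1
    simp only [Function.comp]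
    rw [hσ hre]
    simp
  have h3 := tendsto_sub_one_mul_dedekindZeta_nhdsGT K
  have h4 := tendsto_nhds_unique h2 h3
  rw [h4]
  exact_mod_cast dedekindZeta_residue_ne_zero K

/-- no zeros on the line `Re s = 1` -/
theorem cont_ne_zero (hK : Cont K) (t : ℝ) {g : ℂ → ℂ} (hg : AnalyticAt ℂ g (1 + t * I))
    (hgz : ∀ᶠ z in 𝓝 ((1 : ℂ) + t * I), 1 < z.re → g z = (z - 1) * dedekindZeta K z) :
    g (1 + t * I) ≠ 0 := by
  by_cases ht : t = 0
  · subst ht
    exact cont_zero_ne hg hgz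
  · obtain ⟨m0, hm0, hm0'⟩ := LL_limit hK 0
    obtain ⟨m1, hm1, hm1'⟩ := LL_limit hK t
    obtain ⟨m2, hm2, hm2'⟩ := LL_limit hK (2 * t)
    have hz0 : m0 = 0 := by
      obtain ⟨g0, hg0, hgz0⟩ := hK 0
      have := cont_zero_ne hg0 hgz0
      by_contra h
      exact this ((hm0' g0 hg0 hgz0).mpr h)
    rw [if_neg ht] at hm1
    rw [if_neg (by simpa using ht)] at hm2
    rw [if_pos rfl, hz0] at hm0
    have h1 := ((hm0.const_mul 3).add (hm1.const_mul 4)).add hm2
    have h2 := (Complex.continuous_re.tendsto _).comp h1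
    have h3 : ∀ᶠ σ : ℝ in 𝓝[>] 1, 0 ≤ (Complex.re ∘ fun x : ℝ =>
        3 * (((x : ℂ) - 1) * LL K (x + (0 : ℝ) * I)) + 4 * (((x : ℂ) - 1) * LL K (x + t * I)) +
        ((x : ℂ) - 1) * LL K (x + (2 * t : ℝ) * I)) σ := by
      filter_upwards [self_mem_nhdsWithin] with σ hσ
      have hσ1 : (1 : ℝ) < σ := hσ
      have h4 := three_four_one (K := K) hσ1 t
      have h5 : (3 * (((σ : ℂ) - 1) * LL K (σ + (0 : ℝ) * I)) + 4 * (((σ : ℂ) - 1) * LL K (σ + t * I)) +
        ((σ : ℂ) - 1) * LL K (σ + (2 * t : ℝ) * I)) = ((σ - 1 : ℝ) : ℂ) *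
          (((3 : ℝ) : ℂ) * LL K σ + ((4 : ℝ) : ℂ) * LL K (σ + t * I) + LL K (σ + (2 * t : ℝ) * I)) := by
        push_cast
        simp only [zero_mul, add_zero]
        ring
      simp only [Function.comp]
      rw [h5, Complex.re_ofReal_mul, Complex.add_re, Complex.add_re, Complex.re_ofReal_mul,
        Complex.re_ofReal_mul]
      exact mul_nonneg (by linarith) h4
    have h4 := ge_of_tendsto h2 h3
    have h5 : (3 * (1 - ((0 : ℕ) : ℂ)) + 4 * (0 - (m1 : ℂ)) + (0 - (m2 : ℂ))).re =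
        3 - 4 * (m1 : ℝ) - m2 := by
      simp
      ring
    rw [h5] at h4
    intro h6
    have h7 : m1 ≠ 0 := (hm1' g hg hgz).mp h6
    have h8 : (1 : ℝ) ≤ m1 := by exact_mod_cast Nat.one_le_iff_ne_zero.mpr h7
    have h9 : (0 : ℝ) ≤ m2 := Nat.cast_nonneg _
    linarith

/-- the boundary values -/
lemma boundary (hK : Cont K) {s : ℂ} (hs : 1 ≤ s.re) :
    ∃ y, Tendsto (fun s => LL K s - 1 / (s - 1)) (𝓝[{s : ℂ | 1 < s.re}] s) (𝓝 y) := by
  rcases hs.eq_or_lt with h | h
  · have hs' : s = 1 + (s.im : ℝ) * I := by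
      apply Complex.ext <;> simp [← h]
    obtain ⟨g, hg, hgz⟩ := hK s.im
    have hne := cont_ne_zero hK s.im hg hgz
    rw [hs']
    refine ⟨-(deriv g (1 + s.im * I) / g (1 + s.im * I)), ?_⟩
    have h1 : Tendsto (fun z => -(deriv g z / g z)) (𝓝[{s : ℂ | 1 < s.re}] (1 + s.im * I))
        (𝓝 (-(deriv g (1 + s.im * I) / g (1 + s.im * I)))) :=
      ((hg.deriv.continuousAt.div hg.continuousAt hne).neg).mono_left nhdsWithin_le_nhds
    refine h1.congr' ?_
    filter_upwards [(logderiv_cont hgz).filter_mono nhdsWithin_le_nhds, self_mem_nhdsWithin]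
      with z hz hre
    rw [hz hre]
    ring
  · refine ⟨LL K s - 1 / (s - 1), ?_⟩
    have hs1 : s - 1 ≠ 0 := by
      intro h1
      have : s = 1 := sub_eq_zero.mp h1
      rw [this] at h
      simp at h
    have h1 : ContinuousAt (fun s => LL K s - 1 / (s - 1)) s :=
      (LL_analyticAt h).continuousAt.sub
        (continuousAt_const.div (continuous_id.sub continuous_const).continuousAt hs1)
    exact h1.mono_left nhdsWithin_le_nhds

theorem sum_LamK (hK : Cont K) :
    Tendsto (fun x : ℝ => (∑ k ∈ Finset.Icc 1 ⌊x⌋₊, LamK K k) / x) atTop (𝓝 1) := by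
  set f : ℂ → ℂ := fun s => LL K s - 1 / (s - 1) with hf
  refine Pool.Agent.Helper923.PNT.wiener_ikehara (LamK K) LamK_nonneg
    ((Module.finrank ℚ K : ℝ) ^ 2 * (Real.log 4 + 4)) 1 ?_
    (extendFrom {s : ℂ | 1 < s.re} f) ?_ ?_
  · intro n
    have h1 : ∑ k ∈ Finset.Icc 1 n, LamK K k ≤
        (Module.finrank ℚ K : ℝ) ^ 2 * Chebyshev.psi n := by
      unfold Chebyshev.psi
      rw [Nat.floor_natCast, Finset.mul_sum]
      exact Finset.sum_le_sum fun k _ => LamK_le k
    refine h1.trans ?_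
    rw [mul_assoc]
    exact mul_le_mul_of_nonneg_left (Chebyshev.psi_le_const_mul_self (Nat.cast_nonneg n))
      (by positivity)
  · refine continuousOn_extendFrom ?_ fun s hs => boundary hK hs
    intro s hs
    rw [Metric.mem_closure_iff]
    intro ε hε
    refine ⟨s + ((ε / 2 : ℝ) : ℂ), ?_, ?_⟩
    · have : (1 : ℝ) ≤ s.re := hs
      simp only [Set.mem_ofPred_eq, Complex.add_re, Complex.ofReal_re]
      linarith
    · rw [dist_eq_norm, sub_add_cancel_left, norm_neg, Complex.norm_real, Real.norm_eq_abs,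
        abs_of_pos (by linarith)]
      linarith
  · intro s hs
    have h1 : ContinuousOn f {s : ℂ | 1 < s.re} := by
      intro z hz
      have hz1 : z - 1 ≠ 0 := by
        intro h1
        have h2 : z = 1 := sub_eq_zero.mp h1
        have h3 : 1 < z.re := hz
        rw [h2] at h3
        simp at h3
      exact ((LL_analyticAt hz).continuousAt.sub
        (continuousAt_const.div (continuous_id.sub continuous_const).continuousAt
          hz1)).continuousWithinAt
    rw [extendFrom_extends h1 s hs, hf]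
    simp only [ofReal_one]
    rfl

end

end H332.PIT
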