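import Mathlib
import Pool.Agent.H11.V.R_seed8_H332R2_PIT_Analytic

set_option autoImplicit false

open Filter Topology NumberField IsDedekindDomain Pool.Agent.H921R2.TatePole Finset

namespace H332.PIT

section
variable {K : Type} [Field K] [NumberField K]

lemma hc_cast_le {p : ℕ} (hp : p.Prime) :
    (Nat.card (𝓞 K →+* ZMod p) : ℝ) ≤ Module.finrank ℚ K := by
  have h1 := R_eq_hc (K := K) ⟨p, hp⟩
  have h2 := R_le (K := K) ⟨p, hp⟩
  rw [h1] at h2
  exact_mod_cast h2

lemma LamK_prime' {p : ℕ} (hp : p.Prime) :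
    LamK K p = (Nat.card (𝓞 K →+* ZMod p) : ℝ) * Real.log p := by
  have h := LamK_prime (K := K) ⟨p, hp⟩
  have h2 := R_eq_hc (K := K) ⟨p, hp⟩
  rw [h2] at h
  exact h

/-- sum over degree one primes with logarithmic weights -/
noncomputable def TT (K : Type) [Field K] [NumberField K] (N : ℕ) : ℝ :=
  ∑ p ∈ (range (N + 1)).filter Nat.Prime, (Nat.card (𝓞 K →+* ZMod p) : ℝ) * Real.log p

lemma Icc_eq (N : ℕ) : (Icc 1 N).filter Nat.Prime = (range (N + 1)).filter Nat.Prime := by
  ext p
  simp only [mem_filter, mem_Icc, mem_range]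
  constructor
  · rintro ⟨⟨_, h⟩, hp⟩; exact ⟨by omega, hp⟩
  · rintro ⟨h, hp⟩; exact ⟨⟨hp.one_lt.le, by omega⟩, hp⟩

lemma theta_eq (N : ℕ) : Chebyshev.theta N = ∑ p ∈ (range (N + 1)).filter Nat.Prime, Real.log p := by
  unfold Chebyshev.theta
  rw [Nat.floor_natCast, ← Icc_eq]
  rfl

lemma psi_eq (N : ℕ) : Chebyshev.psi N = ∑ n ∈ Icc 1 N, ArithmeticFunction.vonMangoldt n := by
  unfold Chebyshev.psi
  rw [Nat.floor_natCast]
  rfl

lemma TT_le (N : ℕ) : 0 ≤ ∑ k ∈ Icc 1 N, LamK K k - TT K N ∧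
    ∑ k ∈ Icc 1 N, LamK K k - TT K N ≤
      (Module.finrank ℚ K : ℝ) ^ 2 * (Chebyshev.psi N - Chebyshev.theta N) := by
  have h1 : TT K N = ∑ k ∈ (Icc 1 N).filter Nat.Prime, LamK K k := by
    unfold TT
    rw [Icc_eq]
    refine sum_congr rfl fun p hp => ?_
    rw [LamK_prime' (mem_filter.mp hp).2]
  have h2 : ∑ k ∈ Icc 1 N, LamK K k - TT K N =
      ∑ k ∈ (Icc 1 N).filter (fun k => ¬ Nat.Prime k), LamK K k := by
    rw [h1, ← sum_filter_add_sum_filter_not (Icc 1 N) Nat.Prime]
    ring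
  have h3 : Chebyshev.psi N - Chebyshev.theta N =
      ∑ k ∈ (Icc 1 N).filter (fun k => ¬ Nat.Prime k), ArithmeticFunction.vonMangoldt k := by
    rw [psi_eq, theta_eq, ← Icc_eq, ← sum_filter_add_sum_filter_not (Icc 1 N) Nat.Prime]
    have h4 : ∑ k ∈ (Icc 1 N).filter Nat.Prime, ArithmeticFunction.vonMangoldt k =
        ∑ p ∈ (Icc 1 N).filter Nat.Prime, Real.log p := by
      refine sum_congr rfl fun p hp => ?_
      rw [ArithmeticFunction.vonMangoldt_apply_prime (mem_filter.mp hp).2]
    rw [h4]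
    ring
  rw [h2, h3, mul_sum]
  exact ⟨sum_nonneg fun k _ => LamK_nonneg k, sum_le_sum fun k _ => LamK_le k⟩

lemma TT_tendsto (hK : Cont K) : Tendsto (fun N : ℕ => TT K N / N) atTop (𝓝 1) := by
  have h1 : Tendsto (fun N : ℕ => (∑ k ∈ Icc 1 N, LamK K k) / (N : ℝ)) atTop (𝓝 1) := by
    have := (sum_LamK hK).comp (tendsto_natCast_atTop_atTop (R := ℝ))
    refine this.congr fun N => ?_
    simp only [Function.comp, Nat.floor_natCast]
  have h2 : Tendsto (fun N : ℕ => (Module.finrank ℚ K : ℝ) ^ 2 *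
      (Chebyshev.psi N / N - Chebyshev.theta N / N)) atTop (𝓝 0) := by
    have a := Pool.Agent.Helper923.PNT.psi_div_tendsto.comp (tendsto_natCast_atTop_atTop (R := ℝ))
    have b := Pool.Agent.Helper923.PNT.theta_div_tendsto.comp (tendsto_natCast_atTop_atTop (R := ℝ))
    have := (a.sub b).const_mul ((Module.finrank ℚ K : ℝ) ^ 2)
    simpa [Function.comp_def] using this
  have h3 : Tendsto (fun N : ℕ => (∑ k ∈ Icc 1 N, LamK K k) / (N : ℝ) - TT K N / N) atTop (𝓝 0) := by
    refine squeeze_zero' ?_ ?_ h2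
    · filter_upwards with N
      rw [← sub_div]
      exact div_nonneg (TT_le N).1 (Nat.cast_nonneg _)
    · filter_upwards with N
      rw [← sub_div, ← sub_div, ← mul_div_assoc]
      exact div_le_div_of_nonneg_right (TT_le N).2 (Nat.cast_nonneg _)
  have h4 := h1.sub h3
  rw [sub_zero] at h4
  exact h4.congr fun N => by ring

/-- **Prime ideal theorem** in the form used: the average number of roots modulo `p`. -/
theorem pit_of_cont (hK : Cont K) :
    Tendsto (fun N : ℕ => (∑ p ∈ (Finset.range (N + 1)).filter Nat.Prime,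
      (Nat.card (𝓞 K →+* ZMod p) : ℝ)) / (Nat.primeCounting N : ℝ)) atTop (𝓝 1) := by
  set A : ℕ → ℝ := fun N => ∑ p ∈ (Finset.range (N + 1)).filter Nat.Prime,
      (Nat.card (𝓞 K →+* ZMod p) : ℝ) with hA
  set d : ℝ := (Module.finrank ℚ K : ℝ) with hd
  have hpi : Tendsto (fun N : ℕ => (Nat.primeCounting N : ℝ) * Real.log N / N) atTop (𝓝 1) := by
    have := Pool.Agent.Helper923.PNT.pi_tendsto.comp (tendsto_natCast_atTop_atTop (R := ℝ))
    refine this.congr fun N => ?_
    simp only [Function.comp, Nat.floor_natCast]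
  have hth : Tendsto (fun N : ℕ => Chebyshev.theta N / N) atTop (𝓝 1) :=
    Pool.Agent.Helper923.PNT.theta_div_tendsto.comp (tendsto_natCast_atTop_atTop (R := ℝ))
  have hdiff : ∀ N : ℕ, 0 ≤ A N * Real.log N - TT K N ∧ A N * Real.log N - TT K N ≤
      d * ((Nat.primeCounting N : ℝ) * Real.log N - Chebyshev.theta N) := by
    intro N
    have e1 : A N * Real.log N - TT K N = ∑ p ∈ (Finset.range (N + 1)).filter Nat.Prime,
        (Nat.card (𝓞 K →+* ZMod p) : ℝ) * (Real.log N - Real.log p) := by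
      rw [hA]
      unfold TT
      rw [sum_mul, ← sum_sub_distrib]
      exact sum_congr rfl fun p _ => by ring
    have e2 : (Nat.primeCounting N : ℝ) * Real.log N - Chebyshev.theta N =
        ∑ p ∈ (Finset.range (N + 1)).filter Nat.Prime, (Real.log N - Real.log p) := by
      rw [theta_eq, sum_sub_distrib, sum_const, nsmul_eq_mul]
      congr 3
      unfold Nat.primeCounting Nat.primeCounting'
      rw [Nat.count_eq_card_filter_range]
    have hlog : ∀ p ∈ (Finset.range (N + 1)).filter Nat.Prime, 0 ≤ Real.log N - Real.log p := by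
      intro p hp
      rw [mem_filter, mem_range] at hp
      have h1 : (0 : ℝ) < p := by exact_mod_cast hp.2.pos
      have h2 : (p : ℝ) ≤ N := by exact_mod_cast Nat.lt_succ_iff.mp hp.1
      have := Real.log_le_log h1 h2
      linarith
    rw [e1, e2, mul_sum]
    refine ⟨sum_nonneg fun p hp => mul_nonneg (Nat.cast_nonneg _) (hlog p hp),
      sum_le_sum fun p hp => mul_le_mul_of_nonneg_right ?_ (hlog p hp)⟩
    exact hc_cast_le (mem_filter.mp hp).2
  have h0 : Tendsto (fun N : ℕ => d * ((Nat.primeCounting N : ℝ) * Real.log N / N -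
      Chebyshev.theta N / N)) atTop (𝓝 0) := by
    have := (hpi.sub hth).const_mul d
    simpa using this
  have h1 : Tendsto (fun N : ℕ => A N * Real.log N / N - TT K N / N) atTop (𝓝 0) := by
    refine squeeze_zero' ?_ ?_ h0
    · filter_upwards with N
      rw [← sub_div]
      exact div_nonneg (hdiff N).1 (Nat.cast_nonneg _)
    · filter_upwards with N
      rw [← sub_div, ← sub_div, ← mul_div_assoc]
      exact div_le_div_of_nonneg_right (hdiff N).2 (Nat.cast_nonneg _)
  have h2 : Tendsto (fun N : ℕ => A N * Real.log N / N) atTop (𝓝 1) := by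
    have := h1.add (TT_tendsto hK)
    rw [zero_add] at this
    exact this.congr fun N => by ring
  have h3 := h2.div hpi one_ne_zero
  rw [div_one] at h3
  refine h3.congr' ?_
  filter_upwards [eventually_ge_atTop 2] with N hN
  have hl : 0 < Real.log N := Real.log_pos (by exact_mod_cast hN)
  have hN0 : (0 : ℝ) < N := by positivity
  have hp : (0 : ℝ) < Nat.primeCounting N := by
    have : Nat.primeCounting N ≠ 0 := by
      rw [Ne, Nat.primeCounting_eq_zero_iff]
      omega
    positivity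
  simp only [Pi.div_apply]
  field_simp
  rfl

/-- the form requested: continuation implies the prime ideal theorem -/
theorem pit_of_continuation
    (h : ∀ t : ℝ, ∃ g : ℂ → ℂ, AnalyticAt ℂ g (1 + t * Complex.I) ∧
      ∀ᶠ z in 𝓝 ((1 : ℂ) + t * Complex.I), 1 < z.re → g z = (z - 1) * dedekindZeta K z) :
    Tendsto (fun N : ℕ => (∑ p ∈ (Finset.range (N + 1)).filter Nat.Prime,
      (Nat.card (𝓞 K →+* ZMod p) : ℝ)) / (Nat.primeCounting N : ℝ)) atTop (𝓝 1) :=
  pit_of_cont h

end

end H332.PIT
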