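import Mathlib

/-! The mean value recursion. -/

set_option autoImplicit false
open Polynomial NumberField Module Filter Topology

namespace Pool.Agent.H484R2

/-- the prime ideal theorem, in the form used -/
def PIT : Prop := ∀ (K : Type) [Field K] [NumberField K],
    Tendsto (fun N : ℕ => (∑ p ∈ (Finset.range (N + 1)).filter Nat.Prime,
      (Nat.card (𝓞 K →+* ZMod p) : ℝ)) / (Nat.primeCounting N : ℝ)) atTop (𝓝 1)

/-- `φ_0 = 1`, `φ_{n+1} = φ_n - φ_n^2/2` -/
noncomputable def phi : ℕ → ℝ
  | 0 => 1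
  | n + 1 => phi n - phi n ^ 2 / 2

lemma phi_bounds (n : ℕ) : 0 ≤ phi n ∧ phi n ≤ 1 := by
  induction n with
  | zero => simp [phi]
  | succ n ih =>
    obtain ⟨h0, h1⟩ := ih
    simp only [phi]
    constructor
    · nlinarith
    · nlinarith

lemma phi_tendsto : Tendsto phi atTop (𝓝 0) := by
  have hanti : Antitone phi := antitone_nat_of_succ_le fun n => by
    simp only [phi]
    nlinarith [sq_nonneg (phi n)]
  have hbdd : BddBelow (Set.range phi) := ⟨0, by
    rintro _ ⟨n, rfl⟩
    exact (phi_bounds n).1⟩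
  have h := tendsto_atTop_ciInf hanti hbdd
  set l := ⨅ i, phi i with hl
  have h1 : Tendsto (fun n => phi (n + 1)) atTop (𝓝 l) := h.comp (tendsto_add_atTop_nat 1)
  have h2 : Tendsto (fun n => phi n - phi n ^ 2 / 2) atTop (𝓝 (l - l ^ 2 / 2)) :=
    h.sub ((h.pow 2).div_const 2)
  have h3 : l = l - l ^ 2 / 2 := tendsto_nhds_unique h1 h2
  have h4 : l = 0 := by nlinarith
  rwa [h4] at h

lemma primeCounting_tendsto_real :
    Tendsto (fun N : ℕ => (Nat.primeCounting N : ℝ)) atTop atTop :=
  tendsto_natCast_atTop_atTop.comp Nat.tendsto_primeCounting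


/-- measure of a list -/
def mu {α : Type} (L : List (ℕ × α)) : ℕ := (L.map fun q => 3 ^ q.1).sum




end Pool.Agent.H484R2
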