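import Mathlib
import Pool.Agent.H11.V.R_seed8_H484R2_Cont
import Pool.Agent.H11.V.R_seed8_H484R2_Psi2

/-! The lattice data attached to a nonzero ideal. -/

set_option autoImplicit false
open Filter Topology NumberField NumberField.InfinitePlace NumberField.Units
open NumberField.Units.dirichletUnitTheorem Module

namespace Pool.Agent.H484R2

variable (K : Type) [Field K] [NumberField K]

/-- index type of bases -/
abbrev Idx := Free.ChooseBasisIndex ℤ (𝓞 K)

lemma card_idx : Fintype.card (Idx K) = finrank ℚ K := by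
  rw [← finrank_eq_card_chooseBasisIndex, RingOfIntegers.rank]

variable (J : Ideal (𝓞 K)) (hJ : J ≠ ⊥)

/-- a `ℤ`-basis of `J` -/
noncomputable def bJ : Basis (Idx K) ℤ J := J.selfBasis (RingOfIntegers.basis K) hJ

/-- the element of `J` with given coordinates -/
noncomputable def xJ (a : Idx K → ℤ) : J := (bJ K J hJ).equivFun.symm a

/-- the same in `K` -/
noncomputable def xK (a : Idx K → ℤ) : K := ((xJ K J hJ a : 𝓞 K) : K)

lemma xK_add (a b : Idx K → ℤ) : xK K J hJ (a + b) = xK K J hJ a + xK K J hJ b := by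
  unfold xK xJ
  rw [map_add]
  simp

lemma xK_smul (m : ℤ) (a : Idx K → ℤ) : xK K J hJ (m • a) = m * xK K J hJ a := by
  unfold xK xJ
  rw [map_smul]
  simp

lemma xK_eq_sum (a : Idx K → ℤ) :
    xK K J hJ a = ∑ i, (a i : K) * (((bJ K J hJ i : J) : 𝓞 K) : K) := by
  unfold xK xJ
  rw [Basis.equivFun_symm_apply]
  simp

lemma xK_ne_zero {a : Idx K → ℤ} (ha : a ≠ 0) : xK K J hJ a ≠ 0 := by
  unfold xK
  intro h
  have h1 : (xJ K J hJ a : 𝓞 K) = 0 := by
    exact (RingOfIntegers.coe_eq_zero_iff).mp h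
  have h2 : xJ K J hJ a = 0 := Subtype.ext h1
  unfold xJ at h2
  exact ha ((LinearEquiv.map_eq_zero_iff _).mp h2)

/-- upper bound for the size -/
lemma exists_upper : ∃ Λ : ℝ, 1 ≤ Λ ∧ ∀ (a : Idx K → ℤ) (w : InfinitePlace K),
    w (xK K J hJ a) ≤ Λ * ‖a‖ := by
  refine ⟨1 + ∑ w : InfinitePlace K, ∑ i, w (((bJ K J hJ i : J) : 𝓞 K) : K),
    by
      have : 0 ≤ ∑ w : InfinitePlace K, ∑ i, w (((bJ K J hJ i : J) : 𝓞 K) : K) :=
        Finset.sum_nonneg fun w _ => Finset.sum_nonneg fun i _ => apply_nonneg _ _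
      linarith, fun a w => ?_⟩
  rw [xK_eq_sum]
  have h1 : w (∑ i, (a i : K) * (((bJ K J hJ i : J) : 𝓞 K) : K)) ≤
      ∑ i, w ((a i : K) * (((bJ K J hJ i : J) : 𝓞 K) : K)) := by
    simp_rw [← norm_embedding_eq w]
    rw [map_sum]
    exact norm_sum_le _ _
  refine h1.trans ?_
  have h2 : ∀ i, w ((a i : K) * (((bJ K J hJ i : J) : 𝓞 K) : K)) ≤
      w (((bJ K J hJ i : J) : 𝓞 K) : K) * ‖a‖ := by
    intro i
    rw [map_mul, mul_comm]
    gcongr
    have h3 : w (a i : K) = |(a i : ℝ)| := by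
      simp [Int.norm_eq_abs]
    rw [h3]
    have := norm_le_pi_norm a i
    rwa [Int.norm_eq_abs] at this
  refine (Finset.sum_le_sum fun i _ => h2 i).trans ?_
  rw [← Finset.sum_mul]
  gcongr
  have h4 : ∑ i, w (((bJ K J hJ i : J) : 𝓞 K) : K) ≤
      ∑ w : InfinitePlace K, ∑ i, w (((bJ K J hJ i : J) : 𝓞 K) : K) :=
    Finset.single_le_sum (f := fun w : InfinitePlace K => ∑ i, w (((bJ K J hJ i : J) : 𝓞 K) : K))
      (fun w _ => Finset.sum_nonneg fun i _ => apply_nonneg _ _) (Finset.mem_univ w)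
  linarith

/-- lower bound for the size -/
lemma exists_lower : ∃ ε : ℝ, 0 < ε ∧ ∀ (a : Idx K → ℤ), ∃ w : InfinitePlace K,
    ε * ‖a‖ ≤ w (xK K J hJ a) := by
  classical
  let φ : J →ₗ[ℤ] mixedEmbedding.mixedSpace K :=
    ((mixedEmbedding K).comp (algebraMap (𝓞 K) K)).toIntAlgHom.toLinearMap ∘ₗ
      (J.subtype.restrictScalars ℤ)
  have hφ : Function.Injective φ := by
    intro x y h
    have h1 : mixedEmbedding K ((x : 𝓞 K) : K) = mixedEmbedding K ((y : 𝓞 K) : K) := h
    have h2 := NumberField.mixedEmbedding_injective K h1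
    exact Subtype.ext (RingOfIntegers.coe_injective h2)
  let L : Submodule ℤ (mixedEmbedding.mixedSpace K) := LinearMap.range φ
  have hL : (L : Set (mixedEmbedding.mixedSpace K)) ⊆ mixedEmbedding.integerLattice K := by
    rintro _ ⟨x, rfl⟩
    exact ⟨(x : 𝓞 K), rfl⟩
  have : DiscreteTopology L :=
    DiscreteTopology.of_subset (inferInstance : DiscreteTopology (mixedEmbedding.integerLattice K)) hL
  let e : J ≃ₗ[ℤ] L := LinearEquiv.ofInjective φ hφ
  let b : Basis (Idx K) ℤ L := (bJ K J hJ).map e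
  obtain ⟨ε, hε, h⟩ := ZLattice.exists_forall_abs_repr_le_norm b
  refine ⟨ε, hε, fun a => ?_⟩
  have h1 : ∀ i, ε * |(a i : ℝ)| ≤ ‖mixedEmbedding K (xK K J hJ a)‖ := by
    intro i
    have h2 := h (e (xJ K J hJ a)) i
    have h3 : (b.repr (e (xJ K J hJ a))) i = a i := by
      simp only [b, Basis.map_repr, LinearEquiv.trans_apply, LinearEquiv.symm_apply_apply]
      change (bJ K J hJ).equivFun (xJ K J hJ a) i = a i
      unfold xJ
      rw [LinearEquiv.apply_symm_apply]
    rw [h3] at h2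
    exact_mod_cast h2
  have hne : Nonempty (InfinitePlace K) := inferInstance
  obtain ⟨w, -, hw⟩ := Finset.exists_mem_eq_sup' (Finset.univ_nonempty (α := InfinitePlace K))
    (fun w => mixedEmbedding.normAtPlace w (mixedEmbedding K (xK K J hJ a)))
  refine ⟨w, ?_⟩
  rw [mixedEmbedding.normAtPlace_apply] at hw
  rw [← hw, ← mixedEmbedding.norm_eq_sup'_normAtPlace]
  -- ‖a‖ is attained
  rw [← le_div_iff₀' hε]
  refine (pi_norm_le_iff_of_nonneg (by positivity)).mpr fun i => ?_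
  rw [le_div_iff₀' hε, Int.norm_eq_abs]
  exact h1 i

end Pool.Agent.H484R2
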