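import Mathlib
import Pool.Agent.H11.V.R_seed8_H484R2_Inst3

/-! The Dedekind zeta function as a sum of the lattice series; continuation. -/

set_option autoImplicit false
open Filter Topology NumberField NumberField.InfinitePlace NumberField.Units
open NumberField.Units.dirichletUnitTheorem Module nonZeroDivisors Ideal

namespace Pool.Agent.H484R2

variable (K : Type) [Field K] [NumberField K]

/-- weight function on `K` -/
noncomputable def Fw (x : K) (s : ℂ) : ℂ := (psi K x : ℂ) * Complex.exp (-(s * (lN K x : ℂ)))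

/-- the type of nonzero ideals -/
abbrev NZI := {I : Ideal (𝓞 K) // I ≠ ⊥}

/-- the class of a nonzero ideal -/
noncomputable def cls (I : NZI K) : ClassGroup (𝓞 K) :=
  ClassGroup.mk0 ⟨I.1, mem_nonZeroDivisors_of_ne_zero I.2⟩

variable (J : Ideal (𝓞 K)) (hJ : J ≠ ⊥)

/-- nonzero elements of `J` -/
abbrev XJ := {x : 𝓞 K // x ∈ J ∧ x ≠ 0}

include hJ in
lemma hasSum_XJ {s : ℂ} (hs : 1 < s.re) :
    HasSum (fun x : XJ K J => Fw K (x.1 : K) s) (∑' a, gJ K J hJ a s) := by
  classical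
  have h := ((dataJ K J hJ).summable hs).hasSum
  -- the map `a ↦ x_a` from nonzero `a`
  let e : {a : Idx K → ℤ // a ≠ 0} ≃ XJ K J :=
    { toFun := fun a => ⟨(xJ K J hJ a.1 : 𝓞 K), (xJ K J hJ a.1).2, by
        have := xK_ne_zero K J hJ a.2
        unfold xK at this
        exact RingOfIntegers.coe_ne_zero_iff.mp this⟩
      invFun := fun x => ⟨(bJ K J hJ).equivFun ⟨x.1, x.2.1⟩, by
        intro h0
        have := (LinearEquiv.map_eq_zero_iff _).mp h0
        exact x.2.2 (congrArg Subtype.val this)⟩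
      left_inv := by
        intro a
        apply Subtype.ext
        simp only [xJ]
        exact LinearEquiv.apply_symm_apply _ _
      right_inv := by
        intro x
        apply Subtype.ext
        simp only [xJ]
        rw [LinearEquiv.symm_apply_apply] }
  rw [← e.hasSum_iff]
  have h2 : HasSum ((fun a : Idx K → ℤ => gJ K J hJ a s) ∘ (Subtype.val : {a : Idx K → ℤ // a ≠ 0} → _))
      (∑' a, gJ K J hJ a s) := by
    refine (Function.Injective.hasSum_iff Subtype.val_injective ?_).mpr h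
    intro a ha
    have : a = 0 := by
      by_contra h0
      exact ha ⟨⟨a, h0⟩, rfl⟩
    rw [this, gJ_zero]
  convert h2 using 1
  funext a
  simp only [Function.comp_apply]
  rw [gJ_ne K J hJ a.2]
  rfl

include hJ in
/-- the ideal `I` with `I * J = (x)` -/
lemma exists_quot (x : XJ K J) : ∃ I : NZI K, I.1 * J = span {x.1} := by
  have h1 : J ∣ span {x.1} := by
    rw [Ideal.dvd_iff_le, Ideal.span_singleton_le_iff_mem]
    exact x.2.1
  obtain ⟨I, hI⟩ := h1
  refine ⟨⟨I, ?_⟩, by rw [hI, mul_comm]⟩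
  rintro rfl
  rw [Ideal.mul_bot] at hI
  exact x.2.2 (by simpa using hI)

/-- choice of the quotient ideal -/
noncomputable def qI (x : XJ K J) : NZI K := (exists_quot K J hJ x).choose

lemma qI_spec (x : XJ K J) : (qI K J hJ x).1 * J = span {x.1} := (exists_quot K J hJ x).choose_spec

lemma qI_eq_iff (x : XJ K J) (I : NZI K) : qI K J hJ x = I ↔ I.1 * J = span {x.1} := by
  have h4 := qI_spec K J hJ x
  constructor
  · intro h
    rw [← h]
    exact h4
  · intro h
    rw [← h4] at h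
    exact Subtype.ext (mul_right_cancel₀ hJ h).symm

lemma qI_eq_iff' (x : XJ K J) (I : NZI K) (x₀ : 𝓞 K) (hx₀ : I.1 * J = span {x₀}) :
    qI K J hJ x = I ↔ span {x.1} = span {x₀} := by
  rw [qI_eq_iff, hx₀]
  exact eq_comm

lemma lN_unit_mul (u : (𝓞 K)ˣ) {x : K} (hx : x ≠ 0) : lN K ((u : K) * x) = lN K x := by
  have hu : (u : K) ≠ 0 := by simp
  rw [lN_mul K hu hx, lN_unit, zero_add]

lemma lN_absNorm {x : 𝓞 K} (hx : x ≠ 0) : lN K (x : K) = Real.log (absNorm (span {x})) := by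
  have hx' : (x : K) ≠ 0 := RingOfIntegers.coe_ne_zero_iff.mpr hx
  rw [lN_eq K hx', absNorm_span_singleton]
  congr 1
  have h1 : (Algebra.norm ℚ (x : K)) = ((Algebra.norm ℤ x : ℤ) : ℚ) := (Algebra.coe_norm_int x).symm
  rw [h1, Rat.cast_intCast, Nat.cast_natAbs]
  push_cast
  rfl

/-- sum over the generators of a principal ideal -/
lemma hasSum_gen_fiber (x₀ : XJ K J) (s : ℂ) :
    HasSum (fun x : {x : XJ K J // span {x.1} = span {x₀.1}} => Fw K (x.1.1 : K) s)
      ((torsionOrder K : ℂ) * Complex.exp (-(s * (Real.log (absNorm (span {x₀.1})) : ℂ)))) := by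
  have hx₀ : ((x₀.1 : 𝓞 K) : K) ≠ 0 := RingOfIntegers.coe_ne_zero_iff.mpr x₀.2.2
  let e : (𝓞 K)ˣ ≃ {x : XJ K J // span {x.1} = span {x₀.1}} :=
    Equiv.ofBijective (fun u => ⟨⟨(u : 𝓞 K) * x₀.1, J.mul_mem_left _ x₀.2.1,
      mul_ne_zero u.ne_zero x₀.2.2⟩, by
        rw [Ideal.span_singleton_eq_span_singleton]
        exact associated_unit_mul_left _ _ u.isUnit⟩) (by
      constructor
      · intro u v huv
        have h1 := congrArg (fun z : {x : XJ K J // span {x.1} = span {x₀.1}} => z.1.1) huv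
        simp only at h1
        exact Units.ext (mul_right_cancel₀ x₀.2.2 h1)
      · rintro ⟨x, hx⟩
        rw [Ideal.span_singleton_eq_span_singleton] at hx
        obtain ⟨u, hu⟩ := hx.symm
        refine ⟨u, ?_⟩
        apply Subtype.ext
        apply Subtype.ext
        simp only
        rw [mul_comm]
        exact hu)
  rw [← e.hasSum_iff]
  have h1 : HasSum (fun u : (𝓞 K)ˣ => (psi K ((u : K) * (x₀.1 : K)) : ℂ)) (torsionOrder K : ℂ) := by
    have := Complex.hasSum_ofReal.mpr (hasSum_psi K hx₀)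
    rw [Complex.ofReal_natCast] at this
    exact this
  have h2 := h1.mul_right (Complex.exp (-(s * (Real.log (absNorm (span {x₀.1})) : ℂ))))
  have hf : (fun x : {x : XJ K J // span {x.1} = span {x₀.1}} => Fw K (x.1.1 : K) s) ∘ e =
      fun u : (𝓞 K)ˣ => (psi K ((u : K) * (x₀.1 : K)) : ℂ) *
        Complex.exp (-(s * (Real.log (absNorm (span {x₀.1})) : ℂ))) := by
    funext u
    simp only [Function.comp_apply, Fw]
    have h3 : ((e u).1.1 : K) = (u : K) * (x₀.1 : K) := by
      change (((u : 𝓞 K) * x₀.1 : 𝓞 K) : K) = _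
      simp
    rw [h3, lN_unit_mul K u hx₀, lN_absNorm K x₀.2.2]
  rw [hf]
  exact h2

lemma exp_log_absNorm {A B : ℕ} (hA : A ≠ 0) (hB : B ≠ 0) (s : ℂ) :
    Complex.exp (-(s * (Real.log ((A * B : ℕ) : ℝ) : ℂ))) = (A : ℂ) ^ (-s) * (B : ℂ) ^ (-s) := by
  have hA' : (A : ℂ) ≠ 0 := by exact_mod_cast hA
  have hB' : (B : ℂ) ≠ 0 := by exact_mod_cast hB
  have h9 : (Real.log ((A * B : ℕ) : ℝ) : ℂ) = Complex.log A + Complex.log B := by
    push_cast
    have a1 : (A : ℝ) ≠ 0 := by exact_mod_cast hA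
    have a2 : (B : ℝ) ≠ 0 := by exact_mod_cast hB
    rw [Real.log_mul a1 a2]
    push_cast
    rfl
  rw [h9, Complex.cpow_def_of_ne_zero hA', Complex.cpow_def_of_ne_zero hB', ← Complex.exp_add]
  congr 1
  ring

/-- the fiber over an ideal in the right class -/
lemma tsum_fiber_pos (I : NZI K) (x₀ : 𝓞 K) (hx₀ : I.1 * J = span {x₀}) (s : ℂ) :
    ∑' b : (qI K J hJ ⁻¹' {I} : Set (XJ K J)), Fw K ((b : XJ K J).1 : K) s =
      (torsionOrder K : ℂ) * ((absNorm I.1 : ℂ) ^ (-s) * (absNorm J : ℂ) ^ (-s)) := by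
  have hx₀ne : x₀ ≠ 0 := by
    rintro rfl
    have : I.1 * J = ⊥ := by rw [hx₀]; simp
    exact (mul_ne_zero I.2 hJ) this
  have hx₀J : x₀ ∈ J :=
    (Ideal.mul_le_right (I := I.1) (J := J)) (hx₀.symm.le (Ideal.mem_span_singleton_self x₀))
  have hset : (qI K J hJ ⁻¹' {I} : Set (XJ K J)) = {x : XJ K J | span {x.1} = span {x₀}} := by
    ext x
    exact qI_eq_iff' K J hJ x I x₀ hx₀
  rw [hset]
  have h5 := (hasSum_gen_fiber K J ⟨x₀, hx₀J, hx₀ne⟩ s).tsum_eq
  have h7 : absNorm (span {x₀}) = absNorm I.1 * absNorm J := by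
    rw [← hx₀, map_mul]
  have hI0 : absNorm I.1 ≠ 0 := by rw [Ne, absNorm_eq_zero_iff]; exact I.2
  have hJ0 : absNorm J ≠ 0 := by rwa [Ne, absNorm_eq_zero_iff]
  rw [← exp_log_absNorm hI0 hJ0 s, ← h7]
  exact h5

lemma tsum_fiber_neg (I : NZI K) (hI : ¬ (I.1 * J).IsPrincipal) (s : ℂ) :
    ∑' b : (qI K J hJ ⁻¹' {I} : Set (XJ K J)), Fw K ((b : XJ K J).1 : K) s = 0 := by
  have hempty : (qI K J hJ ⁻¹' {I} : Set (XJ K J)) = ∅ := by
    ext x
    simp only [Set.mem_preimage, Set.mem_singleton_iff, Set.mem_empty_iff_false, iff_false]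
    intro h
    rw [qI_eq_iff] at h
    exact hI ⟨x.1, h⟩
  rw [hempty]
  simp

lemma principal_iff (C : ClassGroup (𝓞 K))
    (hC : ClassGroup.mk0 ⟨J, mem_nonZeroDivisors_of_ne_zero hJ⟩ = C⁻¹) (I : NZI K) :
    (I.1 * J).IsPrincipal ↔ cls K I = C := by
  have hne : I.1 * J ≠ 0 := mul_ne_zero I.2 hJ
  rw [← ClassGroup.mk0_eq_one_iff (mem_nonZeroDivisors_of_ne_zero hne)]
  have hkey : ClassGroup.mk0 ⟨I.1 * J, mem_nonZeroDivisors_of_ne_zero hne⟩ = cls K I * C⁻¹ := by
    rw [← hC, cls, ← map_mul]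
    rfl
  rw [hkey, mul_inv_eq_one]

/-- the sum over one ideal class -/
lemma hasSum_class (C : ClassGroup (𝓞 K))
    (hC : ClassGroup.mk0 ⟨J, mem_nonZeroDivisors_of_ne_zero hJ⟩ = C⁻¹) {s : ℂ} (hs : 1 < s.re) :
    HasSum (fun I : NZI K => open scoped Classical in
      if cls K I = C then (absNorm I.1 : ℂ) ^ (-s) else 0)
      ((absNorm J : ℂ) ^ s / (torsionOrder K : ℂ) * ∑' a, gJ K J hJ a s) := by
  classical
  have h2 := (hasSum_XJ K J hJ hs).tsum_fiberwise (qI K J hJ)
  have hJ0 : (absNorm J : ℂ) ≠ 0 := by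
    have : absNorm J ≠ 0 := by rwa [Ne, absNorm_eq_zero_iff]
    exact_mod_cast this
  have hw : (torsionOrder K : ℂ) ≠ 0 := by exact_mod_cast torsionOrder_ne_zero K
  have h3 := h2.mul_left ((absNorm J : ℂ) ^ s / (torsionOrder K : ℂ))
  have hf : (fun I : NZI K => if cls K I = C then (absNorm I.1 : ℂ) ^ (-s) else 0) =
      fun I : NZI K => (absNorm J : ℂ) ^ s / (torsionOrder K : ℂ) *
        ∑' b : (qI K J hJ ⁻¹' {I} : Set (XJ K J)), Fw K ((b : XJ K J).1 : K) s := by
    funext I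
    split_ifs with hI
    · rw [← principal_iff K J hJ C hC] at hI
      obtain ⟨x₀, hx₀⟩ := hI
      rw [tsum_fiber_pos K J hJ I x₀ hx₀]
      rw [Complex.cpow_neg (absNorm J : ℂ)]
      have hJs : (absNorm J : ℂ) ^ s ≠ 0 := by
        rw [Complex.cpow_def_of_ne_zero hJ0]
        exact Complex.exp_ne_zero _
      field_simp
    · rw [← principal_iff K J hJ C hC] at hI
      rw [tsum_fiber_neg K J hJ I hI, mul_zero]
  rw [hf]
  exact h3

/-- representative of the inverse class -/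
lemma exists_rep (C : ClassGroup (𝓞 K)) : ∃ J : NZI K,
    ClassGroup.mk0 ⟨J.1, mem_nonZeroDivisors_of_ne_zero J.2⟩ = C⁻¹ := by
  obtain ⟨J, hJ⟩ := ClassGroup.mk0_surjective C⁻¹
  exact ⟨⟨J.1, nonZeroDivisors.ne_zero J.2⟩, hJ⟩

/-- representative of the inverse class -/
noncomputable def rep (C : ClassGroup (𝓞 K)) : NZI K := (exists_rep K C).choose

lemma rep_spec (C : ClassGroup (𝓞 K)) :
    ClassGroup.mk0 ⟨(rep K C).1, mem_nonZeroDivisors_of_ne_zero (rep K C).2⟩ = C⁻¹ :=
  (exists_rep K C).choose_spec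

/-- sum over all nonzero ideals -/
lemma hasSum_ideals {s : ℂ} (hs : 1 < s.re) :
    HasSum (fun I : NZI K => (absNorm I.1 : ℂ) ^ (-s))
      (∑ C : ClassGroup (𝓞 K), (absNorm (rep K C).1 : ℂ) ^ s / (torsionOrder K : ℂ) *
        ∑' a, gJ K (rep K C).1 (rep K C).2 a s) := by
  classical
  have h := hasSum_sum (s := (Finset.univ : Finset (ClassGroup (𝓞 K))))
    (fun C _ => hasSum_class K (rep K C).1 (rep K C).2 C (rep_spec K C) hs)
  have hf : (fun I : NZI K => (absNorm I.1 : ℂ) ^ (-s)) = fun I : NZI K =>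
      ∑ C : ClassGroup (𝓞 K), if cls K I = C then (absNorm I.1 : ℂ) ^ (-s) else 0 := by
    funext I
    rw [Finset.sum_ite_eq]
    simp
  rw [hf]
  exact h

lemma zeta_eq {s : ℂ} (hs : 1 < s.re) : dedekindZeta K s =
    ∑ C : ClassGroup (𝓞 K), (absNorm (rep K C).1 : ℂ) ^ s / (torsionOrder K : ℂ) *
        ∑' a, gJ K (rep K C).1 (rep K C).2 a s := by
  have h := (hasSum_ideals K hs).tsum_fiberwise (fun I : NZI K => absNorm I.1)
  rw [← h.tsum_eq, dedekindZeta, LSeries]
  refine tsum_congr fun n => ?_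
  by_cases hn : n = 0
  · subst hn
    rw [LSeries.term_zero]
    have : ((fun I : NZI K => absNorm I.1) ⁻¹' {0} : Set (NZI K)) = ∅ := by
      ext I
      simp only [Set.mem_preimage, Set.mem_singleton_iff, Set.mem_empty_iff_false, iff_false]
      rw [absNorm_eq_zero_iff]
      exact I.2
    rw [this]
    simp
  · rw [LSeries.term_of_ne_zero hn]
    have h1 : ∑' b : ((fun I : NZI K => absNorm I.1) ⁻¹' {n} : Set (NZI K)),
        (absNorm (b : NZI K).1 : ℂ) ^ (-s) =
        ∑' b : ((fun I : NZI K => absNorm I.1) ⁻¹' {n} : Set (NZI K)), (n : ℂ) ^ (-s) := by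
      refine tsum_congr fun b => ?_
      have : absNorm (b : NZI K).1 = n := b.2
      rw [this]
    rw [h1]
    let e : {I : Ideal (𝓞 K) // absNorm I = n} ≃
        ((fun I : NZI K => absNorm I.1) ⁻¹' {n} : Set (NZI K)) :=
      { toFun := fun I => ⟨⟨I.1, by
          rintro h0
          have := I.2
          rw [h0, absNorm_bot] at this
          exact hn this.symm⟩, I.2⟩
        invFun := fun I => ⟨I.1.1, I.2⟩
        left_inv := fun I => rfl
        right_inv := fun I => rfl }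
    have hfin : Finite {I : Ideal (𝓞 K) // absNorm I = n} := by
      have := Ideal.finite_setOfPred_absNorm_eq (S := 𝓞 K) n
      exact this.to_subtype
    have hfin2 : Finite ((fun I : NZI K => absNorm I.1) ⁻¹' {n} : Set (NZI K)) :=
      Finite.of_equiv _ e
    have : Fintype ((fun I : NZI K => absNorm I.1) ⁻¹' {n} : Set (NZI K)) := Fintype.ofFinite _
    rw [tsum_fintype, Finset.sum_const, Finset.card_univ, Nat.card_congr e,
      Nat.card_eq_fintype_card, nsmul_eq_mul, Complex.cpow_neg, div_eq_mul_inv]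

/-- **PIT-A**: continuation of the Dedekind zeta function across `Re s = 1`. -/
theorem continuation (t : ℝ) :
    ∃ g : ℂ → ℂ, AnalyticAt ℂ g (1 + t * Complex.I) ∧
      ∀ᶠ z in 𝓝 ((1 : ℂ) + t * Complex.I), 1 < z.re → g z = (z - 1) * dedekindZeta K z := by
  classical
  have h := fun C : ClassGroup (𝓞 K) =>
    (dataJ K (rep K C).1 (rep K C).2).continuation t
  choose g hg1 hg2 using h
  refine ⟨fun z => ∑ C : ClassGroup (𝓞 K),
    (absNorm (rep K C).1 : ℂ) ^ z / (torsionOrder K : ℂ) * g C z, ?_, ?_⟩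
  · refine Finset.analyticAt_fun_sum _ fun C _ => ?_
    have hJ0 : (absNorm (rep K C).1 : ℂ) ≠ 0 := by
      have : absNorm (rep K C).1 ≠ 0 := by
        rw [Ne, absNorm_eq_zero_iff]
        exact (rep K C).2
      exact_mod_cast this
    refine AnalyticAt.mul ?_ (hg1 C)
    refine AnalyticAt.div ?_ analyticAt_const ?_
    · have hd : Differentiable ℂ fun z : ℂ => (absNorm (rep K C).1 : ℂ) ^ z := by
        intro z
        exact DifferentiableAt.const_cpow differentiableAt_id (Or.inl hJ0)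
      exact hd.analyticAt _
    · exact_mod_cast torsionOrder_ne_zero K
  · have h3 : ∀ᶠ z in 𝓝 ((1 : ℂ) + t * Complex.I), ∀ C : ClassGroup (𝓞 K),
        1 < z.re → g C z = (z - 1) * ∑' a, gJ K (rep K C).1 (rep K C).2 a z :=
      Filter.eventually_all.mpr fun C => hg2 C
    filter_upwards [h3] with z hz hz1
    rw [zeta_eq K hz1, Finset.mul_sum]
    refine Finset.sum_congr rfl fun C _ => ?_
    rw [hz C hz1]
    ring

end Pool.Agent.H484R2
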