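import Mathlib

/-!
# Chebotarev's density theorem (natural density): statements of the parts

For a Galois number field `L / ℚ`, a prime `p` and `σ ∈ Gal(L/ℚ)`, a ring homomorphism
`φ : 𝓞 L → F̄_p` *has Frobenius* `σ` if `φ (σ x) = φ x ^ p` for all `x`.
-/

set_option autoImplicit false

namespace Pool.Agent.W401.Cheb

open NumberField Filter Topology

/-- `φ : 𝓞 L → k` has Frobenius `σ` -/
def HasFrob {L : Type} [Field L] [NumberField L] {k : Type} [Field k] (p : ℕ)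
    (φ : 𝓞 L →+* k) (σ : Gal(L/ℚ)) : Prop :=
  ∀ x : 𝓞 L, φ (σ • x) = φ x ^ p

/-- the number of ring homomorphisms `𝓞 L → F̄_p` with Frobenius `σ` (`0` if `p` is not prime) -/
noncomputable def xp (L : Type) [Field L] [NumberField L] (σ : Gal(L/ℚ)) (p : ℕ) : ℕ :=
  open scoped Classical in
  if hp : p.Prime then
    haveI : Fact p.Prime := ⟨hp⟩
    Nat.card {φ : 𝓞 L →+* AlgebraicClosure (ZMod p) // HasFrob p φ σ}
  else 0

/-- the primes up to `N` -/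
def pr (N : ℕ) : Finset ℕ := (Finset.range (N + 1)).filter Nat.Prime

/-- **CH-CONT.** Continuation of the Dedekind zeta function twisted by an even Dirichlet character
of the norm. -/
def TaskCont : Prop := ∀ (K : Type) [Field K] [NumberField K] (q : ℕ) [NeZero q]
  (χ : DirichletCharacter ℂ q), χ (-1) = 1 → ∀ t : ℝ,
  ∃ g : ℂ → ℂ, AnalyticAt ℂ g (1 + t * Complex.I) ∧
    ∀ᶠ z in 𝓝 ((1 : ℂ) + t * Complex.I), 1 < z.re → g z = (z - 1) *
      LSeries (fun n => χ n * (Nat.card {I : Ideal (𝓞 K) // Ideal.absNorm I = n} : ℂ)) z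

/-- **CH-MEAN.** If the degree one primes of `K` with `χ(p) = 1` have a natural density which is
neither `0` nor `1`, then the mean value of `χ` over the degree one primes of `K` is `0`. -/
def TaskMean : Prop := ∀ (K : Type) [Field K] [NumberField K] (q : ℕ) [NeZero q]
  (χ : DirichletCharacter ℂ q), χ (-1) = 1 → ∀ δ : ℝ, 0 < δ → δ < 1 →
  Tendsto (fun N : ℕ => (∑ p ∈ pr N, open scoped Classical in
    if χ p = 1 then (Nat.card (𝓞 K →+* ZMod p) : ℝ) else 0) / (Nat.primeCounting N : ℝ)) atTop (𝓝 δ) →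
  Tendsto (fun N : ℕ => (∑ p ∈ pr N, χ p * (Nat.card (𝓞 K →+* ZMod p) : ℂ)) /
    (Nat.primeCounting N : ℂ)) atTop (𝓝 0)

/-- **CH-TOR.** For all but finitely many `p` the homomorphisms `𝓞 L → F̄_p` form a torsor under
`Gal(L/ℚ)`, and the homomorphisms `𝓞 E → F_p`, `E` the fixed field of `H`, correspond to the
`H`-orbits of homomorphisms with Frobenius in `H`. -/
def TaskTor : Prop := ∀ (L : Type) [Field L] [NumberField L] [IsGalois ℚ L],
  ∃ D : ℕ, 0 < D ∧ ∀ (p : ℕ) [Fact p.Prime], ¬ p ∣ D →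
    Nat.card (𝓞 L →+* AlgebraicClosure (ZMod p)) = Nat.card Gal(L/ℚ) ∧
    (∀ φ φ' : 𝓞 L →+* AlgebraicClosure (ZMod p), ∃! σ : Gal(L/ℚ), ∀ x, φ' x = φ (σ • x)) ∧
    (∀ H : Subgroup Gal(L/ℚ),
      Nat.card H * Nat.card (𝓞 (IntermediateField.fixedField H) →+* ZMod p) =
      Nat.card {φ : 𝓞 L →+* AlgebraicClosure (ZMod p) // ∃ h ∈ H, HasFrob p φ h})

/-- **CH-AUX.** The auxiliary cyclotomic extension. -/
def TaskAux : Prop := ∀ (L : Type) [Field L] [NumberField L] [IsGalois ℚ L] (r : ℕ), 0 < r →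
  ∃ (q : ℕ) (_ : NeZero q) (χ : DirichletCharacter ℂ q) (L' : Type) (_ : Field L')
    (_ : NumberField L') (_ : IsGalois ℚ L') (_ : Algebra L L') (ω : Gal(L'/ℚ) →* ℂˣ)
    (res : Gal(L'/ℚ) →* Gal(L/ℚ)),
    χ (-1) = 1 ∧
    (∀ (σ : Gal(L'/ℚ)) (x : L), algebraMap L L' (res σ x) = σ (algebraMap L L' x)) ∧
    (∀ σ, ω σ ^ r = 1) ∧
    (∀ (g : Gal(L/ℚ)) (ζ : ℂˣ), ζ ^ r = 1 → ∃ σ, res σ = g ∧ ω σ = ζ) ∧
    ∃ D : ℕ, 0 < D ∧ ∀ (p : ℕ) [Fact p.Prime], ¬ p ∣ D →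
      ∀ (φ : 𝓞 L' →+* AlgebraicClosure (ZMod p)) (σ : Gal(L'/ℚ)), HasFrob p φ σ →
        (ω σ : ℂ) = χ p

/-- **Chebotarev's density theorem** (natural density), for Galois extensions of `ℚ`. -/
def Chebotarev : Prop := ∀ (L : Type) [Field L] [NumberField L] [IsGalois ℚ L] (g : Gal(L/ℚ)),
  Tendsto (fun N : ℕ => (∑ p ∈ pr N, (xp L g p : ℝ)) / (Nat.primeCounting N : ℝ)) atTop (𝓝 1)

end Pool.Agent.W401.Cheb
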