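import Mathlib
import Pool.Agent.H11.V.R_seed8_W401_Cheb_Asm

/-! Assembly of Chebotarev's theorem: distribution of the values of the auxiliary character. -/

set_option autoImplicit false
set_option linter.unusedSectionVars false

namespace Pool.Agent.W401.Cheb

open NumberField Filter Topology Finset

lemma card_pow_one {r : ℕ} (ζ : ℂˣ) (hr : 0 < r) (hζ : ζ ^ r = 1) [DecidablePred fun i : ℕ => ζ ^ i = 1] :
    (((range r).filter fun i => ζ ^ i = 1).card : ℂ) = r / orderOf ζ := by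
  have ho : orderOf ζ ∣ r := orderOf_dvd_of_pow_eq_one hζ
  have ho0 : 0 < orderOf ζ := Nat.pos_of_dvd_of_pos ho hr
  have h1 : ((range r).filter fun i => ζ ^ i = 1).card = r / orderOf ζ := by
    rw [← Nat.Ioc_filter_dvd_card_eq_div]
    refine card_bij (fun i _ => if i = 0 then r else i) ?_ ?_ ?_
    · intro i hi
      rw [mem_filter, mem_range] at hi
      rw [mem_filter, mem_Ioc]
      split_ifs with h0
      · exact ⟨⟨hr, le_rfl⟩, ho⟩
      · exact ⟨⟨Nat.pos_of_ne_zero h0, hi.1.le⟩, orderOf_dvd_of_pow_eq_one hi.2⟩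
    · intro i hi j hj
      rw [mem_filter, mem_range] at hi hj
      split_ifs with h0 h1 h1
      · intro _; omega
      · intro h; omega
      · intro h; omega
      · intro h; exact h
    · intro j hj
      rw [mem_filter, mem_Ioc] at hj
      rcases hj.1.2.eq_or_lt with h | h
      · refine ⟨0, ?_, ?_⟩
        · rw [mem_filter, mem_range]; exact ⟨hr, pow_zero _⟩
        · rw [if_pos rfl, h]
      · refine ⟨j, ?_, ?_⟩
        · rw [mem_filter, mem_range]; exact ⟨h, orderOf_dvd_iff_pow_eq_one.mp hj.2⟩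
        · rw [if_neg (by omega)]
  rw [h1, Nat.cast_div ho (by exact_mod_cast ho0.ne')]

lemma upo {z : ℂˣ} {i : ℕ} (h : z ^ i = 1) : (z : ℂ) ^ i = 1 := by
  rw [← Units.val_pow_eq_pow_val, h, Units.val_one]

section
variable {L L' : Type} [Field L] [NumberField L] [IsGalois ℚ L] [Field L'] [NumberField L']
  [IsGalois ℚ L'] [Algebra L L']
variable {res : Gal(L'/ℚ) →* Gal(L/ℚ)} {ω : Gal(L'/ℚ) →* ℂˣ} {r : ℕ} (hr : 0 < r)
  (hω : ∀ σ, ω σ ^ r = 1)
  (hsurj : ∀ (g : Gal(L/ℚ)) (ζ : ℂˣ), ζ ^ r = 1 → ∃ σ, res σ = g ∧ ω σ = ζ)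
  {g : Gal(L/ℚ)} {ζ : ℂˣ} (hζ : ζ ^ r = 1) (hf : orderOf g ∣ orderOf ζ)
  (hres : ∀ (σ : Gal(L'/ℚ)) (x : L), algebraMap L L' (res σ x) = σ (algebraMap L L' x))

/-- smaller subgroup -/
lemma count2 (p : ℕ) [Fact p.Prime] (h' : TorAt L' p) {z : ℂˣ}
    (hz : ∀ (φ : 𝓞 L' →+* AlgebraicClosure (ZMod p)) (σ : Gal(L'/ℚ)), HasFrob p φ σ → ω σ = z)
    (T : Subgroup Gal(L'/ℚ)) (i : ℕ) [Decidable (z ^ i = 1)] :
    (Nat.card (T ⊓ ((powMonoidHom i).comp ω).ker : Subgroup Gal(L'/ℚ)) : ℝ) *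
      hc (IntermediateField.fixedField (T ⊓ ((powMonoidHom i).comp ω).ker)) p =
      if z ^ i = 1 then (Nat.card T : ℝ) * hc (IntermediateField.fixedField T) p else 0 := by
  obtain ⟨φ⟩ := nonempty_hom h'
  obtain ⟨τ, hτ⟩ := exists_frob h' φ
  have hωτ := hz φ τ hτ
  have hconj : ∀ σ : Gal(L'/ℚ), ω (σ⁻¹ * τ * σ) = z := by
    intro σ
    rw [map_mul, map_mul, map_inv, mul_comm (ω σ)⁻¹, mul_assoc, inv_mul_cancel, mul_one, hωτ]
  have h1 := card_fixed h' hτ (T ⊓ ((powMonoidHom i).comp ω).ker)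
  have h2 := card_fixed h' hτ T
  have h3 : ∀ σ : Gal(L'/ℚ), σ⁻¹ * τ * σ ∈ T ⊓ ((powMonoidHom i).comp ω).ker ↔
      σ⁻¹ * τ * σ ∈ T ∧ z ^ i = 1 := by
    intro σ
    rw [Subgroup.mem_inf, MonoidHom.mem_ker, MonoidHom.comp_apply, hconj]
    rfl
  unfold hc
  split_ifs with h
  · have h4 : Nat.card {σ : Gal(L'/ℚ) // σ⁻¹ * τ * σ ∈ T ⊓ ((powMonoidHom i).comp ω).ker} =
        Nat.card {σ : Gal(L'/ℚ) // σ⁻¹ * τ * σ ∈ T} :=
      Nat.card_congr (Equiv.subtypeEquivRight fun σ => by rw [h3]; exact and_iff_left h)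
    rw [h4, ← h2] at h1
    exact_mod_cast h1
  · have h4 : Nat.card {σ : Gal(L'/ℚ) // σ⁻¹ * τ * σ ∈ T ⊓ ((powMonoidHom i).comp ω).ker} = 0 := by
      have : IsEmpty {σ : Gal(L'/ℚ) // σ⁻¹ * τ * σ ∈ T ⊓ ((powMonoidHom i).comp ω).ker} :=
        ⟨fun σ => h ((h3 _).mp σ.2).2⟩
      exact Nat.card_of_isEmpty
    rw [h4] at h1
    exact_mod_cast h1

variable {q : ℕ} [NeZero q] (χ : DirichletCharacter ℂ q) (hχ : χ (-1) = 1) {D : ℕ} (hD : 0 < D)
  (hTor : ∀ (p : ℕ) [Fact p.Prime], ¬ p ∣ D → TorAt L p)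
  (hTor' : ∀ (p : ℕ) [Fact p.Prime], ¬ p ∣ D → TorAt L' p)
  (hFr : ∀ (p : ℕ) [Fact p.Prime], ¬ p ∣ D →
      ∀ (φ : 𝓞 L' →+* AlgebraicClosure (ZMod p)) (σ : Gal(L'/ℚ)), HasFrob p φ σ →
        (ω σ : ℂ) = χ p)

include hTor' hFr in
lemma exists_z (p : ℕ) [Fact p.Prime] (hp : ¬ p ∣ D) : ∃ z : ℂˣ, (z : ℂ) = χ p ∧
    ∀ (φ : 𝓞 L' →+* AlgebraicClosure (ZMod p)) (σ : Gal(L'/ℚ)), HasFrob p φ σ → ω σ = z := by
  obtain ⟨φ⟩ := nonempty_hom (hTor' p hp)
  obtain ⟨τ, hτ⟩ := exists_frob (hTor' p hp) φ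
  exact ⟨ω τ, hFr p hp φ τ hτ, fun ψ σ h => Units.ext (by rw [hFr p hp ψ σ h, hFr p hp φ τ hτ])⟩

include hr hω hsurj hζ hf hres hχ hD hTor hTor' hFr in
/-- the distribution of the values of `χ` over the degree one primes of the fixed field -/
lemma distr (hMean : TaskMean) : Tendsto (M fun p => open scoped Classical in
    if χ p = ζ then hc (IntermediateField.fixedField (TT res ω g ζ)) p else 0) atTop
    (𝓝 (1 / (orderOf ζ : ℝ))) := by
  classical
  set T := TT res ω g ζ with hT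
  set E := IntermediateField.fixedField T with hE
  have ho : 0 < orderOf ζ := Nat.pos_of_dvd_of_pos (orderOf_dvd_of_pow_eq_one hζ) hr
  have hr0 : (r : ℂ) ≠ 0 := by exact_mod_cast hr.ne'
  let a : ℕ → ℕ → ℂ := fun i p => if ζ ^ i = 1 then (hc E p : ℂ) else (χ ^ i) p * (hc E p : ℂ)
  -- each mean
  have ha : ∀ i, Tendsto (Mc (a i)) atTop (𝓝 (if ζ ^ i = 1 then 1 else 0)) := by
    intro i
    split_ifs with h
    · have : Mc (a i) = fun N => (M (hc E) N : ℂ) := by
        funext N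
        rw [← Mc_ofReal]
        simp only [a, if_pos h]
      rw [this]
      exact_mod_cast (Complex.continuous_ofReal.tendsto 1).comp (pit_M E)
    · have hi0 : i ≠ 0 := by rintro rfl; exact h (pow_zero _)
      have hev : (χ ^ i) (-1) = 1 := by
        rw [MulChar.pow_apply' _ hi0, hχ, one_pow]
      set S := T ⊓ ((powMonoidHom i).comp ω).ker with hS
      have hTc : (0 : ℝ) < Nat.card T := by exact_mod_cast Nat.card_pos
      have hSc : (0 : ℝ) < Nat.card S := by exact_mod_cast Nat.card_pos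
      have hlt : (Nat.card S : ℝ) < Nat.card T := by
        have h1 : S < T := by
          refine lt_of_le_of_ne inf_le_left fun h2 => ?_
          obtain ⟨σ, h3, h4⟩ := hsurj g ζ hζ
          have h5 : σ ∈ T := mem_TT.mpr ⟨1, by rw [zpow_one, h3], by rw [zpow_one, h4]⟩
          rw [← h2, hS, Subgroup.mem_inf, MonoidHom.mem_ker, MonoidHom.comp_apply, h4] at h5
          exact h h5.2
        have h2 := Set.ncard_lt_ncard (s := (S : Set Gal(L'/ℚ))) (t := (T : Set Gal(L'/ℚ))) h1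
          (Set.toFinite _)
        exact_mod_cast h2
      have hmean := hMean E q (χ ^ i) hev (Nat.card S / Nat.card T) (by positivity)
        (by rw [div_lt_one hTc]; exact hlt) ?_
      · have e : Mc (a i) = fun N : ℕ => (∑ p ∈ pr N, (χ ^ i) p * (Nat.card (𝓞 E →+* ZMod p) : ℂ)) /
            (Nat.primeCounting N : ℂ) := by
          funext N
          unfold Mc
          congr 1
          refine sum_congr rfl fun p _ => ?_
          simp only [a, if_neg h, hc]
          push_cast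
          rfl
        rw [e]
        exact hmean
      · have h1 : Tendsto (M fun p => (Nat.card S / Nat.card T : ℝ) *
            hc (IntermediateField.fixedField S) p) atTop (𝓝 (Nat.card S / Nat.card T)) := by
          have := (pit_M (IntermediateField.fixedField S)).const_mul (Nat.card S / Nat.card T : ℝ)
          rw [mul_one] at this
          exact this.congr fun N => (M_smul _ _ N).symm
        refine M_congr (D := D) hD (fun p hp hpD => ?_) h1
        have : Fact p.Prime := ⟨hp⟩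
        obtain ⟨z, hz1, hz2⟩ := exists_z χ hTor' hFr p hpD
        have h2 := count2 p (hTor' p hpD) hz2 T i
        rw [← hS] at h2
        have h3 : ((χ ^ i) p = 1) ↔ z ^ i = 1 := by
          rw [MulChar.pow_apply' _ hi0, ← hz1]
          constructor
          · intro h4; exact Units.ext (by push_cast; exact h4)
          · intro h4; exact upo h4
        by_cases h4 : z ^ i = 1
        · rw [if_pos (h3.mpr h4)]
          rw [if_pos h4] at h2
          change hc E p = _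
          rw [div_mul_eq_mul_div, h2, mul_div_assoc, mul_comm, div_mul_cancel₀]
          exact hTc.ne'
        · rw [if_neg (fun h5 => h4 (h3.mp h5))]
          rw [if_neg h4] at h2
          rw [div_mul_eq_mul_div, h2, zero_div]
  -- orthogonality
  have hsum : Tendsto (Mc fun p => ∑ i ∈ range r, ((1 / r : ℂ) * ((ζ⁻¹ : ℂˣ) : ℂ) ^ i) * a i p) atTop
      (𝓝 (1 / (orderOf ζ : ℂ))) := by
    have h1 : ∀ N, Mc (fun p => ∑ i ∈ range r, ((1 / r : ℂ) * ((ζ⁻¹ : ℂˣ) : ℂ) ^ i) * a i p) N =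
        ∑ i ∈ range r, ((1 / r : ℂ) * ((ζ⁻¹ : ℂˣ) : ℂ) ^ i) * Mc (a i) N := by
      intro N
      rw [Mc_sum]
      exact sum_congr rfl fun i _ => Mc_smul _ _ N
    have h2 : Tendsto (fun N => ∑ i ∈ range r, ((1 / r : ℂ) * ((ζ⁻¹ : ℂˣ) : ℂ) ^ i) * Mc (a i) N) atTop
        (𝓝 (∑ i ∈ range r, ((1 / r : ℂ) * ((ζ⁻¹ : ℂˣ) : ℂ) ^ i) * (if ζ ^ i = 1 then 1 else 0))) :=
      tendsto_finsetSum _ fun i _ => (ha i).const_mul _
    have h3 : (∑ i ∈ range r, ((1 / r : ℂ) * ((ζ⁻¹ : ℂˣ) : ℂ) ^ i) * (if ζ ^ i = 1 then 1 else 0)) =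
        1 / (orderOf ζ : ℂ) := by
      have h4 : ∀ i ∈ range r, ((1 / r : ℂ) * ((ζ⁻¹ : ℂˣ) : ℂ) ^ i) * (if ζ ^ i = 1 then 1 else 0) =
          (1 / r : ℂ) * (if ζ ^ i = 1 then 1 else 0) := by
        intro i _
        split_ifs with h5
        · have h6 : ((ζ⁻¹ : ℂˣ) : ℂ) ^ i = 1 := by
            have : (ζ⁻¹ : ℂˣ) ^ i = 1 := by rw [inv_pow, h5, inv_one]
            exact upo this
          rw [h6, mul_one]
        · rw [mul_zero, mul_zero]
      rw [sum_congr rfl h4, ← mul_sum, sum_boole, card_pow_one ζ hr hζ]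
      have ho' : (orderOf ζ : ℂ) ≠ 0 := by exact_mod_cast ho.ne'
      field_simp
    rw [h3] at h2
    exact h2.congr fun N => (h1 N).symm
  have hfin : Tendsto (Mc fun p => (((if χ p = ζ then hc E p else 0 : ℝ)) : ℂ)) atTop
      (𝓝 (1 / (orderOf ζ : ℂ))) := by
    refine Mc_congr hD (fun p hp hpD => ?_) hsum
    have : Fact p.Prime := ⟨hp⟩
    obtain ⟨z, hz1, hz2⟩ := exists_z χ hTor' hFr p hpD
    obtain ⟨_, hc2, hc3⟩ := count hr hω hsurj hζ hf hres p (hTor p hpD) (hTor' p hpD) hz2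
    have h1 : ∀ i ∈ range r, ((1 / r : ℂ) * ((ζ⁻¹ : ℂˣ) : ℂ) ^ i) * a i p =
        ((1 / r : ℂ) * (hc E p : ℂ)) * ((ζ⁻¹ * z : ℂˣ) : ℂ) ^ i := by
      intro i _
      have e : a i p = (z : ℂ) ^ i * (hc E p : ℂ) := by
        simp only [a]
        split_ifs with h2
        · by_cases h3 : hc E p = 0
          · rw [h3]; simp
          · obtain ⟨j, hj⟩ := hc2 h3
            have h4 : z ^ i = 1 := by
              rw [← hj, ← zpow_natCast, ← zpow_mul, mul_comm, zpow_mul, zpow_natCast, h2, one_zpow]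
            have h5 : (z : ℂ) ^ i = 1 := upo h4
            rw [h5, one_mul]
        · have hi0 : i ≠ 0 := by rintro rfl; exact h2 (pow_zero _)
          rw [MulChar.pow_apply' _ hi0, ← hz1]
      rw [e]
      push_cast
      rw [mul_pow]
      ring
    rw [sum_congr rfl h1, ← mul_sum, geom_root (r := r) (by
      have : (ζ⁻¹ * z : ℂˣ) ^ r = 1 := by rw [mul_pow, inv_pow, hζ, hc3, inv_one, mul_one]
      exact upo this)]
    have h6 : (((ζ⁻¹ * z : ℂˣ) : ℂ) = 1) ↔ (χ p = ζ) := by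
      rw [← hz1]
      constructor
      · intro h7
        have h8 : ζ⁻¹ * z = 1 := Units.ext h7
        rw [inv_mul_eq_one.mp h8]
      · intro h7
        have h8 : z = ζ := Units.ext h7
        rw [h8]
        simp
    by_cases h9 : χ p = ζ
    · rw [if_pos h9, if_pos (h6.mpr h9)]
      field_simp
    · rw [if_neg h9, if_neg (fun h10 => h9 (h6.mp h10))]
      simp
  have h2 : Tendsto (fun N => ((M (fun p => if χ p = ζ then hc E p else 0) N : ℝ) : ℂ)) atTop
      (𝓝 (((1 / (orderOf ζ : ℝ) : ℝ)) : ℂ)) := by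
    push_cast
    refine hfin.congr fun N => ?_
    rw [Mc_ofReal]
  exact_mod_cast (Complex.continuous_re.tendsto _).comp h2

include hr hω hsurj hζ hf hres hχ hD hTor hTor' hFr in
/-- the key: the part of the mean value of `xp L g` with `χ p = ζ` -/
theorem key (hMean : TaskMean) : Tendsto (M fun p => open scoped Classical in
    if χ p = ζ then (xp L g p : ℝ) else 0) atTop (𝓝 (1 / (r : ℝ))) := by
  classical
  have ho : 0 < orderOf ζ := Nat.pos_of_dvd_of_pos (orderOf_dvd_of_pow_eq_one hζ) hr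
  have ho' : (orderOf ζ : ℝ) ≠ 0 := by exact_mod_cast ho.ne'
  have hr' : (r : ℝ) ≠ 0 := by exact_mod_cast hr.ne'
  have h1 := (distr hr hω hsurj hζ hf hres χ hχ hD hTor hTor' hFr hMean).const_mul
    ((orderOf ζ : ℝ) / r)
  have h2 : (orderOf ζ : ℝ) / r * (1 / (orderOf ζ : ℝ)) = 1 / r := by field_simp
  rw [h2] at h1
  have h3 := h1.congr fun N => (M_smul _ _ N).symm
  refine M_congr hD (fun p hp hpD => ?_) h3
  have : Fact p.Prime := ⟨hp⟩
  obtain ⟨z, hz1, hz2⟩ := exists_z χ hTor' hFr p hpD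
  obtain ⟨hc1, _, _⟩ := count hr hω hsurj hζ hf hres p (hTor p hpD) (hTor' p hpD) hz2
  split_ifs with h4
  · have h5 : z = ζ := Units.ext (by rw [hz1, h4])
    have h6 := hc1 h5
    field_simp
    linarith
  · rw [mul_zero]

end

end Pool.Agent.W401.Cheb
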