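import Mathlib
import Pool.Agent.H11.V.R_seed8_W401_Cheb_Defs

set_option autoImplicit false

/-!
# The auxiliary cyclotomic extension
-/

namespace Pool.Agent.W540.CH

open NumberField Pool.Agent.W401.Cheb IntermediateField

/-- a character of a cyclic group of units, onto the `r`-th roots of unity and even -/
theorem exists_char {q r : ℕ} (hq : q.Prime) (hr : 0 < r) (hqr : 2 * r ∣ q - 1) :
    ∃ χ : DirichletCharacter ℂ q, χ (-1) = 1 ∧ (∀ u : (ZMod q)ˣ, χ.toUnitHom u ^ r = 1) ∧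
      ∀ ζ : ℂˣ, ζ ^ r = 1 → ∃ u : (ZMod q)ˣ, χ.toUnitHom u = ζ := by
  have : Fact q.Prime := ⟨hq⟩
  have hr1 : r ∣ Fintype.card (ZMod q) - 1 := by
    rw [ZMod.card]
    exact (Dvd.intro_left 2 rfl).trans hqr
  obtain ⟨χ, hχ⟩ := MulChar.exists_mulChar_orderOf (ZMod q) hr1
    (Complex.isPrimitiveRoot_exp r hr.ne')
  have hpow : ∀ u : (ZMod q)ˣ, χ.toUnitHom u ^ r = 1 := by
    intro u
    have h1 : χ ^ r = 1 := by rw [← hχ]; exact pow_orderOf_eq_one χ
    have h2 : (χ ^ r) u = 1 := by rw [h1]; exact MulChar.one_apply_coe u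
    rw [MulChar.pow_apply_coe] at h2
    apply Units.ext
    rw [Units.val_pow_eq_pow_val, MulChar.coe_toUnitHom, h2, Units.val_one]
  obtain ⟨g, hg⟩ := IsCyclic.exists_generator (α := (ZMod q)ˣ)
  have hgo : orderOf g = q - 1 := by
    rw [orderOf_eq_card_of_forall_mem_zpowers hg, Nat.card_eq_fintype_card,
      ZMod.card_units_eq_totient, Nat.totient_prime hq]
  have hq1 : 0 < q - 1 := by have := hq.two_le; omega
  have hord : orderOf (χ.toUnitHom g) = r := by
    apply Nat.dvd_antisymm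
    · exact orderOf_dvd_of_pow_eq_one (hpow g)
    · rw [← hχ]
      apply orderOf_dvd_of_pow_eq_one
      apply MulChar.ext
      intro u
      obtain ⟨i, rfl⟩ := Subgroup.mem_zpowers_iff.1 (hg u)
      rw [MulChar.one_apply_coe, MulChar.pow_apply_coe, ← MulChar.coe_toUnitHom,
        ← Units.val_pow_eq_pow_val, map_zpow, ← zpow_natCast, ← zpow_mul, mul_comm, zpow_mul,
        zpow_natCast, pow_orderOf_eq_one, one_zpow, Units.val_one]
  refine ⟨χ, ?_, hpow, ?_⟩
  · obtain ⟨i, hi⟩ := (Submonoid.mem_powers_iff _ _).1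
      ((mem_powers_iff_mem_zpowers).2 (hg (-1)))
    have h1 : g ^ (i * 2) = 1 := by
      rw [pow_mul, hi]
      simp
    have h2 : q - 1 ∣ i * 2 := by
      rw [← hgo]; exact orderOf_dvd_of_pow_eq_one h1
    have h3 : r ∣ i := by
      have h4 : 2 * r ∣ 2 * i := by rw [mul_comm 2 i]; exact hqr.trans h2
      exact (Nat.mul_dvd_mul_iff_left (by norm_num)).1 h4
    obtain ⟨j, rfl⟩ := h3
    have h5 : χ ((-1 : (ZMod q)ˣ) : ZMod q) = 1 := by
      rw [← MulChar.coe_toUnitHom, ← hi, map_pow, pow_mul, hpow, one_pow, Units.val_one]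
    simpa using h5
  · intro ζ hζ
    have h1 : IsPrimitiveRoot (χ.toUnitHom g) r := by
      rw [← hord]; exact IsPrimitiveRoot.orderOf _
    have h2 : IsPrimitiveRoot ((χ.toUnitHom g : ℂˣ) : ℂ) r := IsPrimitiveRoot.coe_units_iff.2 h1
    have : NeZero r := ⟨hr.ne'⟩
    have h3 : (ζ : ℂ) ^ r = 1 := by rw [← Units.val_pow_eq_pow_val, hζ, Units.val_one]
    obtain ⟨i, -, hi⟩ := h2.eq_pow_of_pow_eq_one h3
    refine ⟨g ^ i, Units.ext ?_⟩
    rw [map_pow, Units.val_pow_eq_pow_val, hi]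

section

variable {L L' : Type} [Field L] [NumberField L] [Field L'] [NumberField L']
  [Algebra L L'] {q : ℕ} [hq : Fact q.Prime] [IsCyclotomicExtension {q} L L']

instance (priority := low) tower : IsScalarTower ℚ L L' :=
  IsScalarTower.of_algebraMap_eq' (Subsingleton.elim _ _)

/-- the image of `L` -/
noncomputable def F1 (L L' : Type) [Field L] [NumberField L] [Field L'] [NumberField L']
    [Algebra L L'] : IntermediateField ℚ L' := (IsScalarTower.toAlgHom ℚ L L').fieldRange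

noncomputable def e1 (L L' : Type) [Field L] [NumberField L] [Field L'] [NumberField L']
    [Algebra L L'] : L ≃ₐ[ℚ] F1 L L' := AlgEquiv.ofInjectiveField _

theorem sup_eq_top {ζ : L'} (hζ : IsPrimitiveRoot ζ q) : F1 L L' ⊔ ℚ⟮ζ⟯ = ⊤ := by
  rw [eq_top_iff]
  intro x _
  have h1 : x ∈ Algebra.adjoin L ({ζ} : Set L') := by
    rw [IsCyclotomicExtension.adjoin_primitive_root_eq_top hζ]; trivial
  refine Algebra.adjoin_induction (p := fun x _ => x ∈ F1 L L' ⊔ ℚ⟮ζ⟯) ?_ ?_ ?_ ?_ h1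
  · intro y hy
    rw [Set.mem_singleton_iff.1 hy]
    exact (le_sup_right : ℚ⟮ζ⟯ ≤ F1 L L' ⊔ ℚ⟮ζ⟯) (mem_adjoin_simple_self ℚ ζ)
  · intro y
    exact (le_sup_left : F1 L L' ≤ F1 L L' ⊔ ℚ⟮ζ⟯) ⟨y, rfl⟩
  · intro a b _ _ ha hb
    exact add_mem ha hb
  · intro a b _ _ ha hb
    exact mul_mem ha hb

theorem normal_gen (F L L' : Type) [Field F] [Field L] [Field L'] [Algebra F L] [Algebra F L']
    [Algebra L L'] [IsScalarTower F L L'] [Normal F L] [Algebra.IsIntegral F L'] (q : ℕ) [NeZero q]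
    [IsCyclotomicExtension {q} L L'] (ζ : L') (hζ : IsPrimitiveRoot ζ q) : Normal F L' := by
  set A : IntermediateField F L' := (IsScalarTower.toAlgHom F L L').fieldRange with hA
  have h1 : Normal F A := Normal.of_algEquiv (AlgEquiv.ofInjectiveField _)
  have h2 : IsCyclotomicExtension {q} F F⟮ζ⟯ := hζ.intermediateField_adjoin_isCyclotomicExtension F
  have h3 : Normal F F⟮ζ⟯ := (IsCyclotomicExtension.isGalois {q} F _).to_normal
  have htop : A ⊔ F⟮ζ⟯ = ⊤ := by
    rw [eq_top_iff]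
    intro x _
    have h1 : x ∈ Algebra.adjoin L ({ζ} : Set L') := by
      rw [IsCyclotomicExtension.adjoin_primitive_root_eq_top hζ]; trivial
    refine Algebra.adjoin_induction (p := fun x _ => x ∈ A ⊔ F⟮ζ⟯) ?_ ?_ ?_ ?_ h1
    · intro y hy
      rw [Set.mem_singleton_iff.1 hy]
      exact (le_sup_right : F⟮ζ⟯ ≤ A ⊔ F⟮ζ⟯) (mem_adjoin_simple_self F ζ)
    · intro y
      exact (le_sup_left : A ≤ A ⊔ F⟮ζ⟯) ⟨y, rfl⟩
    · intro a b _ _ ha hb
      exact add_mem ha hb
    · intro a b _ _ ha hb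
      exact mul_mem ha hb
  have h4 : Normal F (A ⊔ F⟮ζ⟯ : IntermediateField F L') := inferInstance
  rw [htop] at h4
  exact Normal.of_algEquiv IntermediateField.topEquiv

theorem isGalois' (L L' : Type) [Field L] [NumberField L] [IsGalois ℚ L] [Field L']
    [NumberField L'] [Algebra L L'] (q : ℕ) [hq : Fact q.Prime]
    [IsCyclotomicExtension {q} L L'] : IsGalois ℚ L' := by
  have h5 : Normal ℚ L' := normal_gen ℚ L L' q _ (IsCyclotomicExtension.zeta_spec q L L')
  exact ⟨⟩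

theorem finrank_eq (L L' : Type) [Field L] [NumberField L] [IsGalois ℚ L] [Field L']
    [NumberField L'] [Algebra L L'] (q : ℕ) [hq : Fact q.Prime]
    [IsCyclotomicExtension {q} L L'] (hqL : ¬ (q : ℤ) ∣ discr L) :
    Module.finrank ℚ L' = Module.finrank ℚ L * (q - 1) := by
  have hζ := IsCyclotomicExtension.zeta_spec q L L'
  set ζ := IsCyclotomicExtension.zeta q L L'
  have h1 : IsGalois ℚ (F1 L L') := IsGalois.of_algEquiv (e1 L L')
  have h2 : IsCyclotomicExtension {q} ℚ ℚ⟮ζ⟯ := hζ.intermediateField_adjoin_isCyclotomicExtension ℚ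
  have hcop : IsCoprime (discr (F1 L L')) (discr ℚ⟮ζ⟯) := by
    rw [← discr_eq_discr_of_algEquiv L (e1 L L'), IsCyclotomicExtension.Rat.discr_prime q ℚ⟮ζ⟯]
    have hp : Prime (q : ℤ) := Nat.prime_iff_prime_int.1 hq.out
    have h3 : IsCoprime (discr L) (q : ℤ) := by
      rw [isCoprime_comm]
      exact (Prime.coprime_iff_not_dvd hp).2 hqL
    refine IsCoprime.mul_right ?_ (h3.pow_right)
    exact (isCoprime_one_right.neg_right).pow_right
  have hld := linearDisjoint_of_isGalois_isCoprime_discr L' (F1 L L') ℚ⟮ζ⟯ hcop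
  have h4 := hld.finrank_sup
  rw [sup_eq_top hζ, IntermediateField.finrank_top', ← (e1 L L').toLinearEquiv.finrank_eq,
    IsCyclotomicExtension.Rat.finrank q ℚ⟮ζ⟯, Nat.totient_prime hq.out] at h4
  exact h4

theorem res_cyc_bij {L L' : Type} [Field L] [NumberField L] [IsGalois ℚ L] [Field L']
    [NumberField L'] [Algebra L L'] [IsGalois ℚ L'] {q : ℕ} [hq : Fact q.Prime]
    [IsCyclotomicExtension {q} L L'] (hqL : ¬ (q : ℤ) ∣ discr L) {ζ : L'}
    (hζ : IsPrimitiveRoot ζ q) :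
    Function.Bijective ((AlgEquiv.restrictNormalHom (F := ℚ) (K₁ := L') L).prod
      (hζ.autToPow ℚ)) := by
  have hinj : Function.Injective ((AlgEquiv.restrictNormalHom (F := ℚ) (K₁ := L') L).prod
      (hζ.autToPow ℚ)) := by
    rw [injective_iff_map_eq_one]
    intro σ hσ
    rw [MonoidHom.prod_apply, Prod.mk_eq_one] at hσ
    obtain ⟨h1, h2⟩ := hσ
    have h3 : σ ζ = ζ := by
      rw [← hζ.autToPow_spec ℚ σ, h2, Units.val_one, ZMod.val_one'' hq.out.ne_one, pow_one]
    have h4 : ∀ x : L, σ (algebraMap L L' x) = algebraMap L L' x := by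
      intro x
      have := AlgEquiv.restrictNormal_commutes σ L x
      change algebraMap L L' (AlgEquiv.restrictNormalHom L σ x) = _ at this
      rw [h1] at this
      exact this.symm
    let f : L' →ₐ[L] L' := { (σ : L' →+* L') with commutes' := h4 }
    have h5 : f = AlgHom.id L L' := by
      apply (hζ.powerBasis L).algHom_ext
      rw [IsPrimitiveRoot.powerBasis_gen]
      exact h3
    ext x
    exact DFunLike.congr_fun h5 x
  apply hinj.bijective_of_nat_card_le
  rw [Nat.card_prod, IsGalois.card_aut_eq_finrank, IsGalois.card_aut_eq_finrank,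
    finrank_eq L L' q hqL, Nat.card_eq_fintype_card, ZMod.card_units_eq_totient,
    Nat.totient_prime hq.out]

theorem frob {L' : Type} [Field L'] [NumberField L'] {q : ℕ} [hq : Fact q.Prime]
    {ζ : L'} (hζ : IsPrimitiveRoot ζ q) {p : ℕ} [hp : Fact p.Prime] (hpq : ¬ p ∣ q)
    (φ : 𝓞 L' →+* AlgebraicClosure (ZMod p)) (σ : Gal(L'/ℚ)) (h : HasFrob p φ σ) :
    ((hζ.autToPow ℚ σ : (ZMod q)ˣ) : ZMod q) = p := by
  have hζ' : IsPrimitiveRoot hζ.toInteger q := hζ.toInteger_isPrimitiveRoot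
  set k := AlgebraicClosure (ZMod p)
  have h1 : σ • hζ.toInteger = hζ.toInteger ^ ((hζ.autToPow ℚ σ : (ZMod q)ˣ) : ZMod q).val := by
    apply RingOfIntegers.ext
    exact (hζ.autToPow_spec ℚ σ).symm
  have h2 := h hζ.toInteger
  rw [h1, map_pow] at h2
  have hz : orderOf (φ hζ.toInteger) = q := by
    apply orderOf_eq_prime
    · rw [← map_pow, hζ'.pow_eq_one, map_one]
    · intro h3
      have h4 := hζ'.geom_sum_eq_zero hq.out.one_lt
      have h5 := congrArg φ h4
      rw [map_sum, map_zero] at h5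
      simp only [map_pow, h3, one_pow, Finset.sum_const, Finset.card_range, nsmul_eq_mul,
        mul_one] at h5
      exact hpq ((CharP.cast_eq_zero_iff k p q).1 h5)
  have hfo : IsOfFinOrder (φ hζ.toInteger) := orderOf_pos_iff.1 (by rw [hz]; exact hq.out.pos)
  have h3 := hfo.pow_eq_pow_iff_modEq.1 h2
  rw [hz] at h3
  have h4 := (ZMod.natCast_eq_natCast_iff _ _ _).2 h3
  rw [ZMod.natCast_zmod_val] at h4
  exact h4

theorem main : TaskAux := by
  intro L _ _ _ r hr
  obtain ⟨q, hq, hlt, hmod⟩ := Nat.exists_prime_gt_modEq_one (k := 2 * r) (discr L).natAbs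
    (by omega)
  have hqf : Fact q.Prime := ⟨hq⟩
  have hqr : 2 * r ∣ q - 1 := (Nat.modEq_iff_dvd' hq.one_lt.le).1 hmod.symm
  have hqL : ¬ (q : ℤ) ∣ discr L := by
    intro h
    have h1 := Int.natAbs_dvd_natAbs.2 h
    rw [Int.natAbs_natCast] at h1
    exact absurd (Nat.le_of_dvd (Int.natAbs_pos.2 (discr_ne_zero L)) h1) (by omega)
  obtain ⟨χ, hχ1, hχ2, hχ3⟩ := exists_char hq hr hqr
  let L' := CyclotomicField q L
  have hNF : NumberField L' := IsCyclotomicExtension.numberField {q} L L'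
  have hG : IsGalois ℚ L' := isGalois' L L' q
  have hζ : IsPrimitiveRoot (IsCyclotomicExtension.zeta q L L') q :=
    IsCyclotomicExtension.zeta_spec q L L'
  have hbij := res_cyc_bij (L := L) (L' := L') hqL hζ
  refine ⟨q, inferInstance, χ, L', inferInstance, hNF, hG, inferInstance,
    χ.toUnitHom.comp (hζ.autToPow ℚ), AlgEquiv.restrictNormalHom L, hχ1, ?_, ?_, ?_, q,
    hq.pos, ?_⟩
  · intro σ x
    exact AlgEquiv.restrictNormal_commutes σ L x
  · intro σ
    exact hχ2 _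
  · intro g z hz
    obtain ⟨u, hu⟩ := hχ3 z hz
    obtain ⟨σ, hσ⟩ := hbij.2 (g, u)
    rw [MonoidHom.prod_apply, Prod.mk.injEq] at hσ
    refine ⟨σ, hσ.1, ?_⟩
    rw [MonoidHom.comp_apply, hσ.2, hu]
  · intro p hp hpq φ σ hφ
    rw [MonoidHom.comp_apply, MulChar.coe_toUnitHom, frob hζ hpq φ σ hφ]

end

end Pool.Agent.W540.CH
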