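import Mathlib
import Pool.Agent.H11.V.R_pool_sql_team_seeded_9f66d723_W5h36_EL_Cnt
import Pool.Agent.H11.V.R_seed8_W401_Cheb_Main
import Pool.Agent.H11.V.R_seed8_R925_FD_Sieve

/-! Natural densities of sets of primes. -/

set_option autoImplicit false

namespace Pool.Agent.W5h36.EL

open Finset Filter Topology NumberField
open Pool.Agent.W401.Cheb Pool.Agent.W262.RK

lemma card_pr (N : ℕ) : ((pr N).card : ℝ) = Nat.primeCounting N := by
  unfold pr Nat.primeCounting Nat.primeCounting'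
  rw [Nat.count_eq_card_filter_range]

/-- an upper bound for the mean values gives an upper bound for the sum with weights `1 / p` -/
lemma dens_up (a : ℕ → ℝ) (H α : ℝ) (h0 : ∀ p, 0 ≤ a p) (hH : ∀ p, a p ≤ H)
    (hM : ∀ᶠ N in atTop, M a N ≤ α) :
    ∃ C : ℝ, ∀ x : ℕ, 3 ≤ x → ∑ p ∈ PS 0 x, a p / p ≤ α * Real.log (Real.log x) + C := by
  obtain ⟨N0, hN0⟩ := eventually_atTop.1 hM
  have hH0 : 0 ≤ H := (h0 0).trans (hH 0)
  have hα : 0 ≤ α := (M_nonneg (fun p _ => h0 p) N0).trans (hN0 N0 le_rfl)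
  obtain ⟨C1, hC1⟩ := Pool.Agent.R925.FD.mert
  set C0 : ℝ := H * (N0 + 1) with hC0
  have hC00 : 0 ≤ C0 := by positivity
  have hsum : ∀ N : ℕ, ∑ p ∈ pr N, a p ≤ α * Nat.primeCounting N + C0 := by
    intro N
    by_cases hN : N0 ≤ N
    · have h1 := hN0 N hN
      unfold M at h1
      rcases Nat.eq_zero_or_pos (Nat.primeCounting N) with h | h
      · have h2 : pr N = ∅ := by
          rw [← card_eq_zero]
          have := card_pr N
          rw [h, Nat.cast_zero] at this
          exact_mod_cast this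
        rw [h2, sum_empty, h, Nat.cast_zero]
        linarith
      · have h2 : (0 : ℝ) < Nat.primeCounting N := by exact_mod_cast h
        rw [div_le_iff₀ h2] at h1
        linarith
    · push Not at hN
      have h1 : ∑ p ∈ pr N, a p ≤ ∑ _p ∈ pr N, H := sum_le_sum fun p _ => hH p
      rw [sum_const, nsmul_eq_mul] at h1
      have h2 : ((pr N).card : ℝ) ≤ N0 + 1 := by
        have h3 : (pr N).card ≤ N + 1 := (card_filter_le _ _).trans (by rw [card_range])
        exact_mod_cast h3.trans (by omega)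
      have h3 : ((pr N).card : ℝ) * H ≤ (N0 + 1) * H := mul_le_mul_of_nonneg_right h2 hH0
      have h4 : 0 ≤ α * Nat.primeCounting N := by positivity
      rw [hC0]
      linarith
  set w : ℕ → ℝ := fun n => 1 / ((n : ℝ) + 1) with hw
  have hwa : Antitone w := by
    intro a b hab
    simp only [hw]
    apply one_div_le_one_div_of_le (by positivity)
    have : (a : ℝ) ≤ b := by exact_mod_cast hab
    linarith
  have hw0 : ∀ n, 0 ≤ w n := fun n => by simp only [hw]; positivity
  refine ⟨α * C1 + C0 + H, fun x hx => ?_⟩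
  have h := Pool.Agent.W723.SecC.abel (fun n => (if n.Prime then α - a n else 0)) w hwa hw0 C0
    (fun N => by
      rcases N with _ | N
      · simp only [range_zero, sum_empty]
        linarith
      · rw [← sum_filter]
        change -C0 ≤ ∑ n ∈ pr N, (α - a n)
        rw [sum_sub_distrib, sum_const, nsmul_eq_mul, card_pr]
        have := hsum N
        linarith) (x + 1)
  have hw1 : w 0 = 1 := by simp [hw]
  rw [hw1] at h
  have e1 : ∑ n ∈ range (x + 1), (if n.Prime then α - a n else 0) * w n =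
      ∑ p ∈ PS 0 x, (α - a p) * w p := by
    have e2 : PS 0 x = (range (x + 1)).filter Nat.Prime := by
      unfold PS
      ext p
      rw [mem_filter, mem_filter, mem_Ioc, mem_range]
      constructor
      · rintro ⟨h1, h2⟩
        exact ⟨by omega, h2⟩
      · rintro ⟨h1, h2⟩
        exact ⟨⟨h2.pos, by omega⟩, h2⟩
    rw [e2, sum_filter]
    refine sum_congr rfl fun n _ => ?_
    split_ifs <;> simp
  rw [e1] at h
  have e3 : ∑ p ∈ PS 0 x, (α - a p) * w p = α * ∑ p ∈ PS 0 x, w p - ∑ p ∈ PS 0 x, a p * w p := by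
    rw [mul_sum, ← sum_sub_distrib]
    exact sum_congr rfl fun p _ => by ring
  rw [e3] at h
  have e4 : ∑ p ∈ PS 0 x, w p ≤ ∑ p ∈ PS 0 x, (1 : ℝ) / p := by
    refine sum_le_sum fun p hp => ?_
    have hp0 : (0 : ℝ) < p := by
      unfold PS at hp
      exact_mod_cast (mem_filter.1 hp).2.pos
    exact one_div_le_one_div_of_le hp0 (by linarith)
  have e5 : ∑ p ∈ PS 0 x, a p / p ≤ ∑ p ∈ PS 0 x, a p * w p + H := by
    have e6 := Pool.Agent.R925.FD.telesc x
    have e7 : ∑ p ∈ PS 0 x, a p / p - ∑ p ∈ PS 0 x, a p * w p ≤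
        ∑ p ∈ PS 0 x, H * ((1 : ℝ) / ((p : ℝ) * (p + 1))) := by
      rw [← sum_sub_distrib]
      refine sum_le_sum fun p hp => ?_
      have hp0 : (0 : ℝ) < p := by
        unfold PS at hp
        exact_mod_cast (mem_filter.1 hp).2.pos
      have e8 : a p / p - a p * w p = a p * ((1 : ℝ) / ((p : ℝ) * (p + 1))) := by
        simp only [hw]
        field_simp
        ring
      rw [e8]
      exact mul_le_mul_of_nonneg_right (hH p) (by positivity)
    have e8 : ∑ p ∈ PS 0 x, H * ((1 : ℝ) / ((p : ℝ) * (p + 1))) ≤ H * 1 := by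
      rw [← mul_sum]
      refine mul_le_mul_of_nonneg_left (le_trans ?_ e6) hH0
      unfold PS
      exact sum_le_sum_of_subset_of_nonneg (filter_subset _ _) fun p _ _ => by positivity
    linarith
  have h2 := hC1 x hx
  have h3 : α * ∑ p ∈ PS 0 x, w p ≤ α * (Real.log (Real.log x) + C1) :=
    mul_le_mul_of_nonneg_left (e4.trans h2) hα
  linarith

open scoped Classical in
/-- a lower bound for the natural density -/
lemma dens_low (P : Set ℕ) (hP : ∀ p ∈ P, p.Prime) (β : ℝ) (hβ : 0 ≤ β)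
    (hM : ∀ᶠ N in atTop, β ≤ M (fun p => if p ∈ P then 1 else 0) N) :
    ∃ C : ℝ, ∀ N : ℕ, β * (Nat.primeCounting N : ℝ) - C ≤
      (((range (N + 1)).filter (fun p => p ∈ P)).card : ℝ) := by
  obtain ⟨N0, hN0⟩ := eventually_atTop.1 hM
  refine ⟨β * (N0 + 1), fun N => ?_⟩
  have h2 : (((range (N + 1)).filter (fun p => p ∈ P)).card : ℝ) =
      ∑ p ∈ pr N, if p ∈ P then (1 : ℝ) else 0 := by
    rw [← sum_filter, sum_const, nsmul_eq_mul, mul_one]
    congr 2
    unfold pr
    rw [filter_filter]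
    refine filter_congr fun p _ => ?_
    exact ⟨fun h => ⟨hP p h, h⟩, fun h => h.2⟩
  rw [h2]
  have h3 : 0 ≤ ∑ p ∈ pr N, if p ∈ P then (1 : ℝ) else 0 :=
    sum_nonneg fun p _ => by split_ifs <;> norm_num
  by_cases hN : N0 ≤ N
  · have h1 := hN0 N hN
    unfold M at h1
    rcases Nat.eq_zero_or_pos (Nat.primeCounting N) with h | h
    · rw [h, Nat.cast_zero]
      have : 0 ≤ β * (N0 + 1) := by positivity
      linarith
    · have h4 : (0 : ℝ) < Nat.primeCounting N := by exact_mod_cast h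
      rw [le_div_iff₀ h4] at h1
      have : 0 ≤ β * ((N0 : ℝ) + 1) := by positivity
      linarith
  · push Not at hN
    have h4 : (Nat.primeCounting N : ℝ) ≤ N0 + 1 := by
      rw [← card_pr]
      have h3 : (pr N).card ≤ N + 1 := (card_filter_le _ _).trans (by rw [card_range])
      exact_mod_cast h3.trans (by omega)
    have := mul_le_mul_of_nonneg_left h4 hβ
    linarith

/-- **Chebotarev** for functions of the Frobenius element -/
theorem cheb_mean (L : Type) [Field L] [NumberField L] [IsGalois ℚ L] (F : Gal(L/ℚ) → ℝ)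
    (a : ℕ → ℝ) (D : ℕ) (hD : 0 < D)
    (h : ∀ (p : ℕ) [Fact p.Prime], ¬ p ∣ D → ∀ (φ : 𝓞 L →+* AlgebraicClosure (ZMod p))
      (g : Gal(L/ℚ)), HasFrob p φ g → a p = F g) :
    Tendsto (M a) atTop (𝓝 ((∑ g : Gal(L/ℚ), F g) / Nat.card Gal(L/ℚ))) := by
  classical
  obtain ⟨D', hD', hT⟩ := torsor L
  have hG : (0 : ℝ) < Nat.card Gal(L/ℚ) := by exact_mod_cast Nat.card_pos
  have hb : Tendsto (M fun p => ∑ g : Gal(L/ℚ), (F g / Nat.card Gal(L/ℚ)) * (xp L g p : ℝ)) atTop
      (𝓝 ((∑ g : Gal(L/ℚ), F g) / Nat.card Gal(L/ℚ))) := by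
    have h1 : ∀ N, M (fun p => ∑ g : Gal(L/ℚ), (F g / Nat.card Gal(L/ℚ)) * (xp L g p : ℝ)) N =
        ∑ g : Gal(L/ℚ), (F g / Nat.card Gal(L/ℚ)) * M (fun p => (xp L g p : ℝ)) N := by
      intro N
      rw [M_sum univ (fun g p => (F g / Nat.card Gal(L/ℚ)) * (xp L g p : ℝ))]
      exact sum_congr rfl fun g _ => M_smul _ _ _
    have h2 : (∑ g : Gal(L/ℚ), F g) / Nat.card Gal(L/ℚ) =
        ∑ g : Gal(L/ℚ), (F g / Nat.card Gal(L/ℚ)) * 1 := by
      rw [sum_div]
      simp
    rw [h2]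
    refine Tendsto.congr (fun N => (h1 N).symm) ?_
    exact tendsto_finset_sum _ fun g _ => (chebotarev L g).const_mul _
  refine M_congr (D := D * D') (Nat.mul_pos hD hD') ?_ hb
  intro p hp hpD
  haveI : Fact p.Prime := ⟨hp⟩
  have h1 : ¬ p ∣ D := fun h => hpD (h.mul_right _)
  have h2 : ¬ p ∣ D' := fun h => hpD (h.mul_left _)
  have hTp : TorAt L p := hT p h2
  have h3 : ∀ g : Gal(L/ℚ), F g * (xp L g p : ℝ) = a p * (xp L g p : ℝ) := by
    intro g
    by_cases hx : xp L g p = 0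
    · rw [hx, Nat.cast_zero, mul_zero, mul_zero]
    · unfold xp at hx
      rw [dif_pos hp] at hx
      have hne : Nonempty {φ : 𝓞 L →+* AlgebraicClosure (ZMod p) // HasFrob p φ g} :=
        (Nat.card_pos_iff.1 (Nat.pos_of_ne_zero hx)).1
      obtain ⟨φ, hφ⟩ := hne
      rw [h p h1 φ g hφ]
  have h4 : ∑ g : Gal(L/ℚ), (xp L g p : ℝ) = Nat.card Gal(L/ℚ) := by
    have := sum_xp hTp
    exact_mod_cast this
  have h5 : ∑ g : Gal(L/ℚ), (F g / Nat.card Gal(L/ℚ)) * (xp L g p : ℝ) =
      (∑ g : Gal(L/ℚ), F g * (xp L g p : ℝ)) / Nat.card Gal(L/ℚ) := by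
    rw [sum_div]
    exact sum_congr rfl fun g _ => by ring
  rw [h5, sum_congr rfl fun g _ => h3 g, ← mul_sum, h4, mul_div_assoc, div_self hG.ne', mul_one]

end Pool.Agent.W5h36.EL
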