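import Mathlib
import Pool.Agent.H11.V.R_seed8_W401_Cheb_Main
import Pool.Agent.H11.V.R_seed8_W723_SecC_D1a

/-! Frobenius elements: primes modulo which given algebraic integers are rational only if they are
fixed by a given automorphism. -/

set_option autoImplicit false

namespace Pool.Agent.R925.FD

open Polynomial NumberField
open Pool.Agent.W401.Cheb Pool.Agent.W723.SecC

/-- A Galois number field that contains a given finite set. -/
lemma exL_aux (Ω : Type) [Field Ω] [Algebra ℚ Ω] [IsGalois ℚ Ω] (σ : Ω ≃ₐ[ℚ] Ω) (s : Set Ω)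
    (hs : s.Finite) :
    ∃ (L : Type) (_ : Field L) (_ : NumberField L) (_ : IsGalois ℚ L) (j : L →+* Ω)
      (τ : L ≃ₐ[ℚ] L), (∀ x ∈ s, ∃ y, j y = x) ∧ ∀ x, j (τ x) = σ (j x) := by
  classical
  have : Finite s := hs
  let LL := FiniteGaloisIntermediateField.adjoin ℚ s
  have hsub : s ⊆ LL.toIntermediateField := FiniteGaloisIntermediateField.subset_adjoin ℚ s
  let L := LL.toIntermediateField
  have hcz : CharZero Ω := algebraRat.charZero Ω
  have hEq : (DivisionRing.toRatAlgebra : Algebra ℚ L) = L.algebra' := Subsingleton.elim _ _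
  have hga : IsGalois ℚ L := by
    have h := LL.isGalois
    rw [hEq]
    exact h
  have hn : NumberField L :=
    { to_charZero := inferInstance
      to_finiteDimensional := by
        have h := LL.finiteDimensional
        rw [hEq]
        exact h }
  have hnorm : @Normal ℚ L _ _ L.algebra' := by
    have h := LL.isGalois
    exact h.to_normal
  have hτex : ∃ τ' : L ≃+* L, ∀ x : L, ((τ' x : L) : Ω) = σ x := by
    let _ : Algebra ℚ L := L.algebra'
    have : Normal ℚ L := hnorm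
    exact ⟨(σ.restrictNormal L).toRingEquiv, fun x => σ.restrictNormal_commutes L x⟩
  obtain ⟨τ', hτ'⟩ := hτex
  let τ : L ≃ₐ[ℚ] L := AlgEquiv.ofRingEquiv (f := τ') (fun r => by
    rw [eq_ratCast, map_ratCast])
  refine ⟨L, inferInstance, inferInstance, inferInstance, L.val, τ, fun x hx => ?_, fun x => ?_⟩
  · exact ⟨⟨x, hsub hx⟩, rfl⟩
  · exact hτ' x

lemma exL (σ : AlgebraicClosure ℚ ≃ₐ[ℚ] AlgebraicClosure ℚ) (s : Set (AlgebraicClosure ℚ))
    (hs : s.Finite) :
    ∃ (L : Type) (_ : Field L) (_ : NumberField L) (_ : IsGalois ℚ L)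
      (j : L →+* AlgebraicClosure ℚ) (τ : L ≃ₐ[ℚ] L),
      (∀ x ∈ s, ∃ y, j y = x) ∧ ∀ x, j (τ x) = σ (j x) :=
  @exL_aux (AlgebraicClosure ℚ) _ (AlgebraicClosure.instAlgebra ℚ) inferInstance σ s hs

lemma nz (L : Type) [Field L] [NumberField L] (E : 𝓞 L) (hE : E ≠ 0) :
    ∃ m : ℕ, 0 < m ∧ ∀ (k : Type) [Field k] (φ : 𝓞 L →+* k), (m : k) ≠ 0 → φ E ≠ 0 := by
  refine ⟨Ideal.absNorm (Ideal.span {E}), ?_, ?_⟩
  · rw [Nat.pos_iff_ne_zero, Ne, Ideal.absNorm_eq_zero_iff, Ideal.span_singleton_eq_bot]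
    exact hE
  · intro k _ φ hm h0
    obtain ⟨y, hy⟩ := Ideal.mem_span_singleton.mp (Ideal.absNorm_mem (Ideal.span {E}))
    apply hm
    rw [← map_natCast φ, hy, map_mul, h0, zero_mul]


/-- A monic polynomial which splits over `L`: each zero modulo `p` is the reduction of a zero. -/
lemma lift_root (L : Type) [Field L] [NumberField L] (F : (𝓞 L)[X]) (hF : F.Monic)
    (hs : (F.map (algebraMap (𝓞 L) L)).Splits) {k : Type} [Field k] (φ : 𝓞 L →+* k) (r : k)
    (hr : eval₂ φ r F = 0) : ∃ y : 𝓞 L, F.eval y = 0 ∧ φ y = r := by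
  classical
  set FL := F.map (algebraMap (𝓞 L) L) with hFL
  have hinj : Function.Injective (algebraMap (𝓞 L) L) := FaithfulSMul.algebraMap_injective _ _
  have hFLm : FL.Monic := hF.map _
  have hroot : ∀ θ ∈ FL.roots, FL.eval θ = 0 := fun θ hθ => (mem_roots hFLm.ne_zero).mp hθ
  have hint : ∀ θ ∈ FL.roots, IsIntegral ℤ θ := by
    intro θ hθ
    have h1 : IsIntegral (𝓞 L) θ := ⟨F, hF, by
      have h2 := hroot θ hθ
      rw [hFL, eval_map] at h2
      exact h2⟩
    exact isIntegral_trans (R := ℤ) (A := 𝓞 L) _ h1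
  have hηex : ∀ θ : L, ∃ y : 𝓞 L, θ ∈ FL.roots → ((y : 𝓞 L) : L) = θ := by
    intro θ
    by_cases hθ : θ ∈ FL.roots
    · exact ⟨⟨_, hint θ hθ⟩, fun _ => rfl⟩
    · exact ⟨0, fun h => absurd h hθ⟩
  choose η hη using hηex
  have hprod : F = (FL.roots.map fun θ => X - C (η θ)).prod := by
    apply Polynomial.map_injective _ hinj
    rw [← hFL]
    have h2 : FL = (FL.roots.map fun θ => X - C θ).prod := by
      have h3 := hs.eq_prod_roots
      rwa [hFLm.leadingCoeff, C_1, one_mul] at h3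
    conv_lhs => rw [h2]
    rw [Polynomial.map_multiset_prod, Multiset.map_map]
    congr 1
    refine Multiset.map_congr rfl fun θ hθ => ?_
    simp only [Function.comp_apply, Polynomial.map_sub, map_X, map_C]
    congr 2
    exact (hη θ hθ).symm
  have h0 : ((FL.roots.map fun θ => (X - C (η θ) : (𝓞 L)[X])).map (fun q => eval₂ φ r q)).prod = 0 := by
    have h4 := hr
    rw [hprod] at h4
    rw [← coe_eval₂RingHom, map_multiset_prod] at h4
    exact h4
  rw [Multiset.prod_eq_zero_iff, Multiset.map_map, Multiset.mem_map] at h0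
  obtain ⟨θ, hθ, h5⟩ := h0
  simp only [Function.comp_apply, eval₂_sub, eval₂_X, eval₂_C] at h5
  refine ⟨η θ, ?_, (sub_eq_zero.1 h5).symm⟩
  apply hinj
  rw [map_zero, ← eval₂_at_apply, ← eval_map, ← hFL]
  change FL.eval ((η θ : 𝓞 L) : L) = 0
  rw [hη θ hθ]
  exact hroot θ hθ

end Pool.Agent.R925.FD
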