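import Mathlib
import Pool.Agent.H11.V.R_seed8_R925_FD_Cheb

/-! Primes modulo which a covering has no points over the zeros of `h`. -/

set_option autoImplicit false

namespace Pool.Agent.R925.FD

open Finset Polynomial NumberField
open Pool.Agent.W401.Cheb Pool.Agent.W723.SecC


lemma algMap_pow {p : ℕ} [Fact p.Prime] (z : ZMod p) :
    (algebraMap (ZMod p) (AlgebraicClosure (ZMod p)) z) ^ p =
      algebraMap (ZMod p) (AlgebraicClosure (ZMod p)) z := by
  rw [← map_pow, ZMod.pow_card]


end Pool.Agent.R925.FD
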