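import Mathlib
import Pool.Agent.H11.V.R_seed8_W262_TW_Defs

/-!
# Part TW-LOC3: local analysis of the coverings at a large prime
-/

set_option autoImplicit false

namespace Pool.Agent.W975.TW

open Finset Polynomial
open Pool.Agent.W262.TW

/-! ### Clearing denominators -/

theorem clear (a : ℚ[X]) : ∃ (m : ℤ) (A : ℤ[X]), m ≠ 0 ∧
    A.map (Int.castRingHom ℚ) = C (m : ℚ) * a := by
  obtain ⟨b, hb⟩ := IsLocalization.integerNormalization_map_to_map (nonZeroDivisors ℤ) a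
  refine ⟨b, IsLocalization.integerNormalization (nonZeroDivisors ℤ) a,
    nonZeroDivisors.coe_ne_zero b, ?_⟩
  have h1 : algebraMap ℤ ℚ = Int.castRingHom ℚ := rfl
  rw [h1] at hb
  rw [hb]
  ext i
  simp [Polynomial.coeff_smul]

theorem bez (f g : ℤ[X]) (hf : Irreducible (f.map (Int.castRingHom ℚ)))
    (hg : Irreducible (g.map (Int.castRingHom ℚ)))
    (h : ¬ Associated (f.map (Int.castRingHom ℚ)) (g.map (Int.castRingHom ℚ))) :
    ∃ (R : ℤ) (A B : ℤ[X]), R ≠ 0 ∧ A * f + B * g = C R := by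
  have hc : IsCoprime (f.map (Int.castRingHom ℚ)) (g.map (Int.castRingHom ℚ)) := by
    rw [hf.coprime_iff_not_dvd]
    exact fun hd => h ((hf.dvd_irreducible_iff_associated hg).1 hd)
  obtain ⟨a, b, hab⟩ := hc
  obtain ⟨m, A, hm, hA⟩ := clear a
  obtain ⟨m', B, hm', hB⟩ := clear b
  refine ⟨m * m', C m' * A, C m * B, mul_ne_zero hm hm', ?_⟩
  apply Polynomial.map_injective (Int.castRingHom ℚ) (Int.cast_injective)
  have e1 : ∀ t : ℤ, (C t : ℤ[X]).map (Int.castRingHom ℚ) = C (t : ℚ) := fun t => by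
    rw [Polynomial.map_C]; rfl
  rw [Polynomial.map_add, Polynomial.map_mul, Polynomial.map_mul, Polynomial.map_mul,
    Polynomial.map_mul, hA, hB, e1, e1, e1, Int.cast_mul]
  have : C ((m' : ℚ)) * (C (m : ℚ) * a) * f.map (Int.castRingHom ℚ) +
      C (m : ℚ) * (C (m' : ℚ) * b) * g.map (Int.castRingHom ℚ) =
      C ((m : ℚ) * m') * (a * f.map (Int.castRingHom ℚ) + b * g.map (Int.castRingHom ℚ)) := by
    rw [C_mul]; ring
  rw [this, hab, mul_one]

/-! ### The homogeneous polynomial -/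

theorem hom_map {R S : Type*} [CommRing R] [CommRing S] (φ : R →+* S) (f : ℤ[X]) (x w : R) :
    φ (hom f x w) = hom f (φ x) (φ w) := by
  simp [hom, map_sum]

theorem hom_smul {R : Type*} [CommRing R] (f : ℤ[X]) (c x w : R) :
    hom f (c * x) (c * w) = c ^ f.natDegree * hom f x w := by
  unfold hom
  rw [Finset.mul_sum]
  refine Finset.sum_congr rfl fun i hi => ?_
  have hi' : i ≤ f.natDegree := by have := mem_range.1 hi; omega
  rw [mul_pow, mul_pow]
  have : c ^ f.natDegree = c ^ i * c ^ (f.natDegree - i) := by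
    rw [← pow_add]; congr 1; omega
  rw [this]; ring

theorem hom_one {R : Type*} [CommRing R] (f : ℤ[X]) (x : R) :
    hom f x 1 = f.eval₂ (Int.castRingHom R) x := by
  unfold hom
  rw [eval₂_eq_sum_range]
  refine Finset.sum_congr rfl fun i _ => ?_
  simp

theorem hom_lc {R : Type*} [CommRing R] (f : ℤ[X]) :
    hom f (1 : R) 0 = (f.leadingCoeff : R) := by
  unfold hom
  rw [Finset.sum_eq_single f.natDegree]
  · simp
  · intro i hi hne
    have : f.natDegree - i ≠ 0 := by have := mem_range.1 hi; omega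
    rw [zero_pow this, mul_zero]
  · intro h; simp at h

/-! ### `p`-adic facts -/

variable {p : ℕ} [hp : Fact p.Prime]

theorem toZ_iff (z : ℤ_[p]) : PadicInt.toZMod z = 0 ↔ ‖z‖ < 1 := by
  rw [← RingHom.mem_ker, PadicInt.ker_toZMod, IsLocalRing.mem_maximalIdeal, PadicInt.mem_nonunits]

theorem par (δ : ℤ) (hδ : Squarefree δ) (hd : (p : ℤ) ∣ δ) (y : ℚ_[p])
    (h : ‖(δ : ℚ_[p]) * y ^ 2‖ ≤ 1) : ‖(δ : ℚ_[p]) * y ^ 2‖ < 1 := by
  by_cases hy : y = 0
  · subst hy; simp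
  have hp1 : (1 : ℝ) < p := by exact_mod_cast hp.out.one_lt
  have hp0 : (0 : ℝ) < p := by linarith
  have hδ0 : (δ : ℚ_[p]) ≠ 0 := by exact_mod_cast hδ.ne_zero
  have h1 : ‖(δ : ℚ_[p])‖ = (p : ℝ) ^ (-(δ : ℚ_[p]).valuation) :=
    Padic.norm_eq_zpow_neg_valuation hδ0
  have h2 : ‖y‖ = (p : ℝ) ^ (-y.valuation) := Padic.norm_eq_zpow_neg_valuation hy
  have h3 : ‖(δ : ℚ_[p])‖ ≤ (p : ℝ) ^ (-(1 : ℕ) : ℤ) := by
    rw [Padic.norm_int_le_pow_iff_dvd]; simpa using hd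
  have h4 : ¬ ‖(δ : ℚ_[p])‖ ≤ (p : ℝ) ^ (-(2 : ℕ) : ℤ) := by
    rw [Padic.norm_int_le_pow_iff_dvd]
    intro h5
    have h6 : IsUnit (p : ℤ) := hδ _ (by
      have : ((p : ℤ) ^ 2) ∣ δ := by exact_mod_cast h5
      rwa [pow_two] at this)
    have h7 := Int.isUnit_iff.1 h6
    have h8 := hp.out.two_le
    omega
  rw [h1, zpow_le_zpow_iff_right₀ hp1] at h3 h4
  have hv : (δ : ℚ_[p]).valuation = 1 := by push_cast at h3 h4; omega
  rw [norm_mul, norm_pow, h1, h2, hv, ← zpow_natCast, ← zpow_mul, ← zpow_add₀ hp0.ne'] at h ⊢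
  rw [← zpow_zero (p : ℝ)] at h ⊢
  rw [zpow_le_zpow_iff_right₀ hp1] at h
  rw [zpow_lt_zpow_iff_right₀ hp1]
  push_cast at h ⊢
  omega

theorem ev_toZ (f : ℤ[X]) (u : ℤ_[p]) :
    PadicInt.toZMod (f.eval₂ (Int.castRingHom ℤ_[p]) u) =
      (((f.eval ((PadicInt.toZMod u).val : ℤ)) : ℤ) : ZMod p) := by
  have h1 := hom_eval₂ f (Int.castRingHom ℤ_[p]) (PadicInt.toZMod (p := p)) u
  have h2 := hom_eval₂ f (RingHom.id ℤ) (Int.castRingHom (ZMod p)) ((PadicInt.toZMod u).val : ℤ)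
  rw [h1]
  have h3 : ((f.eval ((PadicInt.toZMod u).val : ℤ) : ℤ) : ZMod p) =
      (Int.castRingHom (ZMod p)) (f.eval₂ (RingHom.id ℤ) ((PadicInt.toZMod u).val : ℤ)) := rfl
  rw [h3, h2]
  congr 1
  · exact RingHom.ext_int _ _
  · rw [eq_intCast, Int.cast_natCast, ZMod.natCast_zmod_val]


end Pool.Agent.W975.TW
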