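import Mathlib
import Pool.Agent.H11.V.R_seed8_W262_TW_Defs

set_option autoImplicit false

namespace Pool.Agent.W311.TW

open Finset Polynomial
open Pool.Agent.W262.TW

/-- the `z`-rough part of a squarefree integer -/
noncomputable def Dz (z : ℕ) (s : ℤ) : ℕ := ∏ p ∈ s.natAbs.primeFactors.filter (fun p => z < p), p

theorem dvd_Dz {z : ℕ} {s : ℤ} (hs : Squarefree s) {p : ℕ} (hp : p.Prime) :
    p ∣ Dz z s ↔ z < p ∧ (p : ℤ) ∣ s := by
  have hs0 : s.natAbs ≠ 0 := by
    intro h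
    rw [Int.natAbs_eq_zero] at h
    exact hs.ne_zero h
  unfold Dz
  rw [Prime.dvd_finset_prod_iff hp.prime]
  constructor
  · rintro ⟨q, hq, hpq⟩
    rw [Finset.mem_filter, Nat.mem_primeFactors] at hq
    have : p = q := (Nat.prime_dvd_prime_iff_eq hp hq.1.1).mp hpq
    subst this
    exact ⟨hq.2, Int.natCast_dvd.mpr hq.1.2.1⟩
  · rintro ⟨h1, h2⟩
    refine ⟨p, ?_, dvd_rfl⟩
    rw [Finset.mem_filter, Nat.mem_primeFactors]
    exact ⟨⟨hp, Int.natCast_dvd.mp h2, hs0⟩, h1⟩

theorem Dz_sqf {z : ℕ} {s : ℤ} (hs : Squarefree s) : Rg z (Dz z s) := by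
  refine ⟨?_, fun p hp h => ((dvd_Dz hs hp).mp h).1⟩
  have h1 : Squarefree s.natAbs := Int.squarefree_natAbs.mpr hs
  have h2 : Dz z s ∣ s.natAbs := by
    conv_rhs => rw [← Nat.prod_primeFactors_of_squarefree h1]
    exact Finset.prod_dvd_prod_of_subset _ _ _ (Finset.filter_subset _ _)
  exact h1.squarefree_of_dvd h2

theorem Dz_pos {z : ℕ} {s : ℤ} : 0 < Dz z s := by
  unfold Dz
  apply Finset.prod_pos
  intro p hp
  rw [Finset.mem_filter, Nat.mem_primeFactors] at hp
  exact hp.1.1.pos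

theorem Dz_le {z : ℕ} {s : ℤ} (hs : Squarefree s) : Dz z s ≤ s.natAbs := by
  have h1 : Squarefree s.natAbs := Int.squarefree_natAbs.mpr hs
  have h2 : Dz z s ∣ s.natAbs := by
    conv_rhs => rw [← Nat.prod_primeFactors_of_squarefree h1]
    exact Finset.prod_dvd_prod_of_subset _ _ _ (Finset.filter_subset _ _)
  exact Nat.le_of_dvd (Nat.pos_of_ne_zero h1.ne_zero) h2

theorem exists_EE {z : ℕ} {s : ℤ} (hs : Squarefree s) : ∃ κ ∈ EE z, s = κ * (Dz z s : ℤ) := by
  have h1 : Squarefree s.natAbs := Int.squarefree_natAbs.mpr hs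
  have h2 : s.natAbs = (∏ p ∈ s.natAbs.primeFactors.filter (fun p => ¬ z < p), p) * Dz z s := by
    unfold Dz
    rw [mul_comm, Finset.prod_filter_mul_prod_filter_not, Nat.prod_primeFactors_of_squarefree h1]
  set E := ∏ p ∈ s.natAbs.primeFactors.filter (fun p => ¬ z < p), p with hE
  have h3 : E ∈ (primorial z).divisors := by
    rw [Nat.mem_divisors]
    refine ⟨?_, (primorial_pos z).ne'⟩
    unfold primorial
    rw [hE]
    apply Finset.prod_dvd_prod_of_subset
    intro p hp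
    rw [Finset.mem_filter, Nat.mem_primeFactors] at hp
    rw [Finset.mem_filter, Finset.mem_range]
    exact ⟨by omega, hp.1.1⟩
  rcases Int.natAbs_eq s with h | h
  · refine ⟨(E : ℤ), ?_, ?_⟩
    · unfold EE
      rw [Finset.mem_union]
      left
      exact Finset.mem_image_of_mem _ h3
    · conv_lhs => rw [h, h2]
      push_cast
      ring
  · refine ⟨-(E : ℤ), ?_, ?_⟩
    · unfold EE
      rw [Finset.mem_union]
      right
      exact Finset.mem_image_of_mem (fun n : ℕ => -(n : ℤ)) h3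
    · conv_lhs => rw [h, h2]
      push_cast
      ring

theorem exists_sqf (n : ℤ) (hn : n ≠ 0) : ∃ s t : ℤ, t ≠ 0 ∧ Squarefree s ∧ n = s * t ^ 2 := by
  obtain ⟨a, b, hab, ha⟩ := Nat.sq_mul_squarefree n.natAbs
  have hb : b ≠ 0 := by
    rintro rfl
    apply hn
    rw [← Int.natAbs_eq_zero, ← hab]
    simp
  rcases Int.natAbs_eq n with h | h
  · refine ⟨(a : ℤ), (b : ℤ), by exact_mod_cast hb, ?_, ?_⟩
    · rw [← Int.squarefree_natAbs]; simpa using ha
    · rw [h, ← hab]; push_cast; ring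
  · refine ⟨-(a : ℤ), (b : ℤ), by exact_mod_cast hb, ?_, ?_⟩
    · rw [← Int.squarefree_natAbs]; simpa using ha
    · rw [h, ← hab]; push_cast; ring


end Pool.Agent.W311.TW
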