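import Mathlib
import Pool.Agent.H11.V.R_pool_sql_team_seeded_9f66d723_W5h36_EL_Cnt2
import Pool.Agent.H11.V.R_pool_sql_team_seeded_9f66d723_W5h36_EL_Loc
import Pool.Agent.H11.V.R_seed8_W311_TW_Red3

/-! Lower bound for the number of the quadratic twists with points everywhere locally. -/

set_option autoImplicit false

namespace Pool.Agent.W5h36.EL

open Finset Polynomial Filter Topology
open Pool.Agent.W262.TW

lemma coprime_of_SF {P : Set ℕ} {z Y n k : ℕ} (hn : n ∈ SF P z Y) (hk : 0 < k) (hkz : k ≤ z) :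
    n.Coprime k := by
  rw [Nat.coprime_iff_gcd_eq_one]
  by_contra hg
  obtain ⟨p, hp, hpd⟩ := Nat.exists_prime_and_dvd hg
  have h1 := (mem_SF.1 hn).2.2.2 p hp (hpd.trans (Nat.gcd_dvd_left _ _))
  have h2 := Nat.le_of_dvd hk (hpd.trans (Nat.gcd_dvd_right _ _))
  omega

open scoped Classical in
theorem els_lower {K : Type} [Fintype K] [Nonempty K] (f : K → ℤ[X])
    (hf1 : ∀ k, Irreducible ((f k).map (Int.castRingHom ℚ)))
    (hf3 : ∀ k l, k ≠ l →
      ¬ Associated ((f k).map (Int.castRingHom ℚ)) ((f l).map (Int.castRingHom ℚ)))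
    (β C : ℝ) (hβ : 0 < β) (hβ1 : β ≤ 1)
    (hD : ∀ N : ℕ, β * (Nat.primeCounting N : ℝ) - C ≤
      (((range (N + 1)).filter (fun p => p ∈ RP f)).card : ℝ)) :
    ∃ c : ℝ, 0 < c ∧ ∀ᶠ X : ℕ in atTop, c * X * (Real.log X) ^ (β - 1) ≤
      ({d : ℤ | d.natAbs ≤ X ∧ Squarefree d ∧ ELS f d}.ncard : ℝ) := by
  obtain ⟨z0, hz0⟩ := els f hf1 hf3
  set g : ℤ[X] := ∏ k, f k with hg
  have hg0 : g ≠ 0 := by
    rw [hg, prod_ne_zero_iff]
    intro k _ h
    have := (hf1 k).ne_zero
    rw [h, Polynomial.map_zero] at this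
    exact this rfl
  obtain ⟨x0, hx0⟩ : ∃ x0 : ℤ, g.eval x0 ≠ 0 := by
    by_contra h
    push Not at h
    exact hg0 (Polynomial.funext fun x => by rw [h x, eval_zero])
  obtain ⟨s, t, ht, hs, hst⟩ := Pool.Agent.W311.TW.exists_sqf _ hx0
  have hs0 : s ≠ 0 := hs.ne_zero
  set z : ℕ := max z0 s.natAbs with hz
  set P : Set ℕ := RP f with hP
  have hPp : ∀ p ∈ P, p.Prime := fun p hp => hp.1
  set Q : ℕ := 8 * z.factorial with hQ
  have hQ0 : 0 < Q := by positivity
  haveI : NeZero Q := ⟨hQ0.ne'⟩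
  let Good : ℕ → Prop := fun n => n ≠ 0 ∧ Squarefree n ∧ ∀ p : ℕ, p.Prime → p ∣ n → p ∈ P ∧ z < p
  have hrep : ∀ h : ZMod Q, ∃ r : ℕ, Good r ∧ ((∃ n : ℕ, Good n ∧ (n : ZMod Q) = h) → (r : ZMod Q) = h) := by
    intro h
    by_cases hh : ∃ n : ℕ, Good n ∧ (n : ZMod Q) = h
    · obtain ⟨n, hn, hnh⟩ := hh
      exact ⟨n, hn, fun _ => hnh⟩
    · refine ⟨1, ⟨one_ne_zero, squarefree_one, fun p hp hp1 => ?_⟩, fun h' => absurd h' hh⟩
      exact absurd (Nat.dvd_one.1 hp1) hp.one_lt.ne'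
  choose rep hrepG hrep1 using hrep
  set M : ℕ := ∑ h : ZMod Q, rep h with hM
  have hrepM : ∀ h, rep h ≤ M := fun h => single_le_sum (f := rep) (fun _ _ => Nat.zero_le _) (mem_univ h)
  have hrep0 : ∀ h, 0 < rep h := fun h => Nat.pos_of_ne_zero (hrepG h).1
  have hM0 : 0 < M := (hrep0 0).trans_le (hrepM 0)
  set z2 : ℕ := max z M with hz2
  obtain ⟨c, hc, hev⟩ := SF_ge P hPp β C hβ hD z2
  set k : ℕ := M * s.natAbs with hk
  have hsn : 0 < s.natAbs := Int.natAbs_pos.2 hs0
  have hk0 : 0 < k := Nat.mul_pos hM0 hsn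
  have htend : Tendsto (fun X : ℕ => X / k) atTop atTop := by
    refine tendsto_atTop.2 fun b => ?_
    filter_upwards [eventually_ge_atTop (b * k)] with X hX
    exact (Nat.le_div_iff_mul_le hk0).2 hX
  refine ⟨c / (2 * k), by positivity, ?_⟩
  filter_upwards [htend.eventually hev, eventually_ge_atTop (2 * k), eventually_ge_atTop (3 * k)]
    with X hX hX2 hX3
  set Y : ℕ := X / k with hY
  have hY3 : 3 ≤ Y := (Nat.le_div_iff_mul_le hk0).2 hX3
  have hXpos : 0 < X := by omega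
  have hlY : 0 < Real.log Y := Real.log_pos (by exact_mod_cast (by omega : 1 < Y))
  have hYX : Y ≤ X := Nat.div_le_self _ _
  have hlYX : Real.log Y ≤ Real.log X :=
    Real.log_le_log (by exact_mod_cast (by omega : 0 < Y)) (by exact_mod_cast hYX)
  have hlow : c / (2 * k) * X * (Real.log X) ^ (β - 1) ≤ c * Y * (Real.log Y) ^ (β - 1) := by
    have h1 : (Real.log X) ^ (β - 1) ≤ (Real.log Y) ^ (β - 1) :=
      Real.rpow_le_rpow_of_nonpos hlY hlYX (by linarith)
    have h2 : (X : ℝ) / (2 * k) ≤ Y := by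
      have h3 : X < k * (Y + 1) := Nat.lt_mul_div_succ X hk0
      have h4 : (X : ℝ) < k * ((Y : ℝ) + 1) := by exact_mod_cast h3
      have h5 : (1 : ℝ) ≤ Y := by exact_mod_cast (by omega : 1 ≤ Y)
      have hk0' : (0 : ℝ) < k := by exact_mod_cast hk0
      rw [div_le_iff₀ (by positivity)]
      nlinarith
    have h3 : 0 ≤ (Real.log X) ^ (β - 1) := Real.rpow_nonneg (hlY.le.trans hlYX) _
    calc c / (2 * k) * X * (Real.log X) ^ (β - 1) = c * ((X : ℝ) / (2 * k)) * (Real.log X) ^ (β - 1) := by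
          ring
      _ ≤ c * Y * (Real.log Y) ^ (β - 1) :=
          mul_le_mul (mul_le_mul_of_nonneg_left h2 hc.le) h1 h3 (by positivity)
  refine hlow.trans (hX.trans ?_)
  -- the injection
  have hfin : {d : ℤ | d.natAbs ≤ X ∧ Squarefree d ∧ ELS f d}.Finite := by
    apply (Set.finite_Icc (-(X : ℤ)) X).subset
    intro d hd
    have h1 : d.natAbs ≤ X := hd.1
    rw [Set.mem_Icc]
    omega
  have hcard : (SF P z2 Y).card ≤ {d : ℤ | d.natAbs ≤ X ∧ Squarefree d ∧ ELS f d}.ncard := by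
    rw [← Set.ncard_coe_finset]
    refine Set.ncard_le_ncard_of_injOn (fun n : ℕ => s * ((n * rep (n : ZMod Q) : ℕ) : ℤ)) ?_ ?_ hfin
    · intro n hn
      have hn' := hn
      rw [mem_coe, mem_SF] at hn
      obtain ⟨hn1, hnY, hnsq, hnp⟩ := hn
      have hnG : Good n := ⟨by omega, hnsq, fun p hp hpn =>
        ⟨(hnp p hp hpn).1, (le_max_left z M).trans_lt (hnp p hp hpn).2⟩⟩
      set r := rep (n : ZMod Q) with hr
      have hrn : (r : ZMod Q) = n := hrep1 _ ⟨n, hnG, rfl⟩
      have hrG : Good r := hrepG _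
      have hcop : n.Coprime r := coprime_of_SF (mem_coe.1 hn') (hrep0 _)
        ((hrepM _).trans (le_max_right z M))
      have hm0 : n * r ≠ 0 := mul_ne_zero hnG.1 hrG.1
      have hmsq : Squarefree (n * r) := (Nat.squarefree_mul hcop).2 ⟨hnsq, hrG.2.1⟩
      have hmp : ∀ p : ℕ, p.Prime → p ∣ n * r → p ∈ P ∧ z < p := by
        intro p hp hpd
        rcases (hp.dvd_mul).1 hpd with h | h
        · exact hnG.2.2 p hp h
        · exact hrG.2.2 p hp h
      refine ⟨?_, ?_, ?_⟩
      · rw [Int.natAbs_mul, Int.natAbs_natCast]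
        have h1 : r ≤ M := hrepM _
        calc s.natAbs * (n * r) = n * (r * s.natAbs) := by ring
          _ ≤ Y * (M * s.natAbs) := Nat.mul_le_mul hnY (Nat.mul_le_mul_right _ h1)
          _ = Y * k := by rw [hk]
          _ ≤ X := Nat.div_mul_le_self X k
      · rw [← Int.squarefree_natAbs, Int.natAbs_mul, Int.natAbs_natCast]
        rw [Nat.squarefree_mul]
        · exact ⟨Int.squarefree_natAbs.2 hs, hmsq⟩
        · rw [Nat.coprime_iff_gcd_eq_one]
          by_contra hgc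
          obtain ⟨p, hp, hpd⟩ := Nat.exists_prime_and_dvd hgc
          have h1 := (hmp p hp (hpd.trans (Nat.gcd_dvd_right _ _))).2
          have h2 := Nat.le_of_dvd hsn (hpd.trans (Nat.gcd_dvd_left _ _))
          have h3 : s.natAbs ≤ z := le_max_right _ _
          omega
      · refine hz0 s t x0 hs0 ht hst.symm z (le_max_left _ _) (le_max_right _ _) (n * r) hm0 hmp
          (r : ℤ) ?_ ?_
        · intro p hp hpz hpr
          have h1 := (hrG.2.2 p hp (by exact_mod_cast hpr)).2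
          omega
        · rw [← hQ]
          have h1 : (((n * r : ℕ) : ℤ) - (r : ℤ) ^ 2 : ℤ) = (r : ℤ) * ((n : ℤ) - r) := by
            push_cast; ring
          rw [h1]
          refine Dvd.dvd.mul_left ?_ _
          rw [← ZMod.intCast_zmod_eq_zero_iff_dvd]
          push_cast
          rw [hrn, sub_self]
    · intro n hn n' hn' heq
      simp only at heq
      have h1 : n * rep (n : ZMod Q) = n' * rep (n' : ZMod Q) := by
        have := mul_left_cancel₀ hs0 heq
        exact_mod_cast this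
      have e1 : n ∣ n' := by
        have hcop := coprime_of_SF (mem_coe.1 hn) (hrep0 (n' : ZMod Q)) ((hrepM _).trans (le_max_right z M))
        exact hcop.dvd_of_dvd_mul_right (Dvd.intro _ h1)
      have e2 : n' ∣ n := by
        have hcop := coprime_of_SF (mem_coe.1 hn') (hrep0 (n : ZMod Q)) ((hrepM _).trans (le_max_right z M))
        exact hcop.dvd_of_dvd_mul_right (Dvd.intro _ h1.symm)
      exact Nat.dvd_antisymm e1 e2
  exact_mod_cast hcard

end Pool.Agent.W5h36.EL
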