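import Mathlib
import Pool.Agent.H11.V.R_seed8_W262_TW_Defs

/-! Project TW: final estimate for factors of even degree. -/

namespace Pool.Agent.W262.TW

open Finset Pool.Agent.W262.RK Polynomial

section K

variable {K : Type} [Fintype K] [DecidableEq K]

lemma ngs_subset (a : K → ℤ) (i : K) (p : ℕ) : ngs a i p ⊆ univ.erase i := by
  intro k hk
  unfold ngs at hk
  rw [mem_filter] at hk
  exact mem_erase.2 ⟨hk.2.1, mem_univ _⟩

lemma Th_subset (f : K → ℤ[X]) (i : K) (p : ℕ) : Th f i p ⊆ (univ.erase i).powerset := by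
  intro N hN
  unfold Th at hN
  rw [mem_image] at hN
  obtain ⟨θ, _, rfl⟩ := hN
  exact mem_powerset.2 (ngs_subset _ _ _)

lemma EE_prime {z : ℕ} {e : ℤ} (he : e ∈ EE z) : ∀ p : ℕ, p.Prime → (p : ℤ) ∣ e → p ≤ z := by
  intro p hp h
  have key : ∀ n ∈ (primorial z).divisors, (p : ℤ) ∣ (n : ℤ) → p ≤ z := by
    intro n hn h
    have h1 : p ∣ primorial z := (Int.natCast_dvd_natCast.1 h).trans (Nat.dvd_of_mem_divisors hn)
    unfold primorial at h1
    obtain ⟨q, hq, hpq⟩ := (hp.prime.dvd_finsetProd_iff _).1 h1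
    rw [mem_filter, mem_range] at hq
    rw [(Nat.prime_dvd_prime_iff_eq hp hq.2).1 hpq]
    omega
  unfold EE at he
  rw [mem_union, mem_image, mem_image] at he
  rcases he with ⟨n, hn, rfl⟩ | ⟨n, hn, rfl⟩
  · exact key n hn h
  · exact key n hn ((dvd_neg).1 h)

end K

/-- FIN3: the final estimate -/
def FIN3 : Prop := ∀ (K : Type) [Fintype K] [DecidableEq K] (f : K → ℤ[X]),
  (∀ k, Irreducible ((f k).map (Int.castRingHom ℚ))) → (∀ k, Even (f k).natDegree) →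
  (∀ k l, k ≠ l → ¬ Associated ((f k).map (Int.castRingHom ℚ)) ((f l).map (Int.castRingHom ℚ))) →
  ∃ δ : ℝ, 0 < δ ∧ ∃ C : ℝ, ∀ X : ℕ, 3 ≤ X →
    ({d : ℤ | d.natAbs ≤ X ∧ Squarefree d ∧ Sel f d}.ncard : ℝ) ≤
      C * X * (Real.log X) ^ (-δ)

lemma one_lt_log {X : ℕ} (hX : 3 ≤ X) : 1 < Real.log X := by
  rw [Real.lt_log_iff_exp_lt (by positivity)]
  have h1 : (3 : ℝ) ≤ X := by exact_mod_cast hX
  have := Real.exp_one_lt_d9
  linarith


end Pool.Agent.W262.TW
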