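import Mathlib
import Pool.Agent.H11.V.R_pool_sql_team_seeded_9f66d723_W5h36_EL_Sets

/-! Almost all twists with points everywhere locally have no locally soluble covering. -/

set_option autoImplicit false

namespace Pool.Agent.W5h36.EL

open Polynomial Filter Topology Finset
open Pool.Agent.W401.Cheb Pool.Agent.W262.TW Pool.Agent.W262.RK

section K

variable {K : Type} [Fintype K] [DecidableEq K]

/-- almost all twists with points everywhere locally have no locally soluble covering -/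
def AA (f : K → ℤ[X]) : Prop :=
  ∃ η : ℝ, 0 < η ∧ ∃ C : ℝ, ∀ᶠ X : ℕ in atTop,
    ({d : ℤ | d.natAbs ≤ X ∧ Squarefree d ∧ ELS f d ∧ Sel f d}.ncard : ℝ) ≤
      C * (Real.log X) ^ (-η) * ({d : ℤ | d.natAbs ≤ X ∧ Squarefree d ∧ ELS f d}.ncard : ℝ) ∧
    (X : ℝ) / Real.log X ≤ ({d : ℤ | d.natAbs ≤ X ∧ Squarefree d ∧ ELS f d}.ncard : ℝ)

lemma fin_le (X : ℕ) (P : ℤ → Prop) : {d : ℤ | d.natAbs ≤ X ∧ P d}.Finite := by
  apply (Set.finite_Icc (-(X : ℤ)) X).subset
  intro d hd
  have h1 : d.natAbs ≤ X := hd.1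
  rw [Set.mem_Icc]
  omega


open scoped Classical in
/-- the density of the primes modulo which there is a zero -/
lemma dens_RP (f : K → ℤ[X]) (ν : Finset K → ℝ) (h1 : ∑ T, ν T = 1)
    (h2 : ∀ F : Finset K → ℝ, Tendsto (M fun p => F (SR f p)) atTop (𝓝 (∑ T, F T * ν T))) :
    Tendsto (M fun p => if p ∈ RP f then (1 : ℝ) else 0) atTop (𝓝 (1 - ν ∅)) := by
  have h3 := h2 (fun T => if T.Nonempty then 1 else 0)
  have e1 : ∑ T, (if T.Nonempty then (1 : ℝ) else 0) * ν T = 1 - ν ∅ := by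
    have e2 := Finset.sum_erase_eq_sub (f := ν) (mem_univ (∅ : Finset K))
    rw [h1] at e2
    rw [← e2, ← Finset.add_sum_erase univ _ (mem_univ (∅ : Finset K))]
    rw [if_neg (by simp), zero_mul, zero_add]
    refine sum_congr rfl fun T hT => ?_
    rw [if_pos (nonempty_iff_ne_empty.2 (ne_of_mem_erase hT)), one_mul]
  rw [e1] at h3
  refine M_congr (D := 1) one_pos (fun p hp _ => ?_) h3
  by_cases h : p ∈ RP f
  · rw [if_pos h, if_pos ((mem_RP f hp).1 h)]
  · rw [if_neg h, if_neg (fun h4 => h ((mem_RP f hp).2 h4))]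


end K

end Pool.Agent.W5h36.EL
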