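import Mathlib
import Pool.Agent.H11.V.R_pool_sql_team_seeded_3997aac3_Q51_EL_Def

/-!
# Project EL (helper51): the Hasse principle fails for 100% of the everywhere locally soluble twists

GOAL.  `f ∈ ℤ[X]` irreducible over `ℚ`, of even degree `n ≥ 6`.  For all but a proportion
`O((log X) ^ (-δ))` of the squarefree `D`, `|D| ≤ X`, for which `C_D : D y² = F(x, w)` is everywhere
locally soluble, no 2-covering of `C_D` is everywhere locally soluble (`¬ Sel f D`); so these `C_D` are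
counterexamples to the Hasse principle.

PROOF.  `L = ℚ(θ)`.  Let `x - θ w = δ η²` be an everywhere locally soluble covering of `C_D`.  After a
modification of `δ` by rational numbers, squares, the class group and squares of units we get an
`α ∈ 𝓞 L` in the box `|σ α| ≤ C |D| ^ (1/n)`, which satisfies the local conditions `Good` (`S_DESC`), and
which determines `D`.  The number of these `α` is bounded by the large sieve in dimension `n`
(`S_SIEVE`, `S_CNT`), and this gives `≤ C X exp (- ∑_{l ≤ X} (N1 l - tau l) / l)`.  The number of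
everywhere locally soluble twists is `≥ c X / log X * exp (∑ 1/l)`, the sum over the primes `l ≤ X`
modulo which `f` has a zero (`S_LOW`).  Now `∑ N1 l / l ~ log log X` (`S_M1`), `tau l ≤ 1` if `N1 l ≥ 1`,
and `tau l ≤ 3/8` for the primes which split completely (`S_M2`).
-/

set_option autoImplicit false

namespace Pool.Agent.Q51.EL

open Polynomial NumberField IsDedekindDomain Finset

/-! ## Part A: sieve -/

/-- JOB LSV. The arithmetic large sieve in dimension `k` with variable densities. -/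
def S_LSV : Prop := ∀ (k N Q : ℕ) (a : Fin k → ℕ) (P : Finset ℕ) (Z : Finset (Fin k → ℕ))
  (Om : (t : ℕ) → Finset (Fin k → ZMod t)) (η : ℕ → ℝ), 1 ≤ N → Q ^ 2 ≤ N → (∀ t ∈ P, t.Prime) →
  (∀ z ∈ Z, ∀ i, z i ∈ Ioc (a i) (a i + N)) → (∀ t ∈ P, 0 < η t) →
  (∀ t ∈ P, ((Om t).card : ℝ) ≤ (1 - η t) * (t : ℝ) ^ k) →
  (∀ z ∈ Z, ∀ t ∈ P, (fun i => ((z i : ℕ) : ZMod t)) ∈ Om t) →
  (Z.card : ℝ) * ∑ D ∈ P.powerset.filter (fun D => ∏ t ∈ D, t ≤ Q), ∏ t ∈ D, η t ≤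
    (12 * (N : ℝ)) ^ k

open Classical in
/-- JOB SIEVE. The large sieve in a number field.
Proof (from `S_LSV`).  Let `n = [L : ℚ]`, `b` the basis `RingOfIntegers.basis L` of `𝓞 L`, indexed by
`Fin n` (reindex).  The coordinates of `β ∈ 𝓞 L` are at most `C1 * max_σ |σ β|` (the linear map
`β ↦ (σ β)_σ` of `L` into `ℂ ^ n` is injective on `ℝ ⊗ L`; for instance: the coordinates are
`Tr(β b'_i) = ∑ σ(β) σ(b'_i)`, `b'` the dual basis for the trace form).  Let `Y ≥ 1`,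
`M = ⌈C1 Y⌉₊ + ⌈Y⌉₊`, `N = 2 M + 1`, `Z` the set of the vectors `(coordinates of β) + M + 1 ∈ [1, N]^n`
of the `β ∈ T` with `|σ β| ≤ Y`, `a = 0`, `Q = ⌊√Y⌋₊`, so `Q ^ 2 ≤ Y ≤ N`; `D` with `(∏ t)^2 ≤ Y` is the
same as `∏ t ≤ Q`.  `Om t` = the set of the reductions of the `z ∈ Z` modulo `t`; it has at most as many
elements as the image of `T` in `𝓞 L / t` (`x ↦ ∑ (x_i - (M+1)) b_i` induces a bijection of
`(ℤ/t)^n` with `𝓞 L / t`).  `S_LSV` gives the bound `(12 N)^n ≤ (C Y)^n`. -/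
def S_SIEVE : Prop := ∀ (L : Type) [Field L] [NumberField L], ∃ C : ℝ, 0 < C ∧
  ∀ (Y : ℝ) (P : Finset ℕ) (T : Set (𝓞 L)) (η : ℕ → ℝ), 1 ≤ Y → (∀ t ∈ P, t.Prime) →
  (∀ t ∈ P, 0 < η t ∧ (((Ideal.Quotient.mk (Ideal.span {(t : 𝓞 L)}) '' T).ncard : ℕ) : ℝ) ≤
    (1 - η t) * (t : ℝ) ^ Module.finrank ℚ L) →
  {β ∈ T | ∀ σ : L →+* ℂ, ‖σ (β : L)‖ ≤ Y}.Finite ∧
  (({β ∈ T | ∀ σ : L →+* ℂ, ‖σ (β : L)‖ ≤ Y}.ncard : ℕ) : ℝ) *
    ∑ D ∈ P.powerset.filter (fun D => (((∏ t ∈ D, t : ℕ) : ℝ)) ^ 2 ≤ Y), ∏ t ∈ D, η t ≤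
    C * Y ^ Module.finrank ℚ L

/-- JOB SUMS. A lower bound for sums over squarefree numbers (Rankin's trick).
Proof.  Let `Q ≥ 2`, `s ≥ 1` a large constant (in terms of `A`), `z = Q ^ (1/s)`, `P' = {t ∈ P : t ≤ z}`,
`κ = 1 / log z` (if `z < 2`, `Q` is bounded by a constant and `D = ∅` suffices, as then
`∑_{t ≤ Q} A/t` is bounded).  The sum over all `D ⊆ P'` is `Π = ∏_{t ∈ P'} (1 + η t)`; the sum over the
`D ⊆ P'` with `∏ t > Q` is at most
`Q ^ (-κ) ∏ (1 + η t t^κ) ≤ e ^ (-s) Π ∏ (1 + η t (t^κ - 1)) ≤ e ^ (-s) Π exp (∑ η t (t^κ - 1))`,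
and `t^κ - 1 ≤ (e - 1) κ log t` for `t ≤ z` (convexity), so the last sum is
`≤ A (e - 1) κ ∑_{t ≤ z} log t / t ≤ A (e - 1) (1 + C / log z)` (Mertens' first theorem, upper bound).
So for large `s` the tail is `≤ Π / 2`.  Finally `Π ≥ exp (∑_{P'} (η t - η t ^ 2))`
(`1 + x ≥ exp (x - x²)` for `x ≥ 0`), `∑ η t ^ 2 ≤ A² ∑ 1/t²`, and
`∑_{z < t ≤ Q} η t ≤ A ∑_{z < t ≤ Q} 1 / t ≤ A (log s + C)` (Mertens' second theorem; both theorems of
Mertens are in the library, search for Mertens). -/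
def S_SUMS : Prop := ∀ A : ℝ, 0 < A → ∃ c : ℝ, 0 < c ∧ ∀ (Q : ℕ) (P : Finset ℕ) (η : ℕ → ℝ),
  1 ≤ Q → (∀ t ∈ P, t.Prime) → (∀ t ∈ P, t ≤ Q) → (∀ t ∈ P, 0 ≤ η t ∧ η t ≤ A / t) →
  c * Real.exp (∑ t ∈ P, η t) ≤
    ∑ D ∈ P.powerset.filter (fun D => ∏ t ∈ D, t ≤ Q), ∏ t ∈ D, η t

/-- JOB CNT. The number of the residue classes modulo `l` allowed by the local conditions.
Proof.  Let `q_1, .., q_r` be the primes above `l` (the ideal `(l)` is their product, as it is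
squarefree), `k_i = 𝓞/q_i`, `N = N1 L l` of them have norm `l`; `𝓞/l = ∏ k_i` has `l^n` elements.
The elements of the first kind are units at all `q_i`: at most `∏ (|k_i| - 1) ≤ (l - 1)^N l^(n-N)
= l^n (1 - 1/l)^N ≤ l^n (1 - N/l + n²/l²)` classes.  The elements of the second kind with `v0 = q_1` (one
of the `N` primes of norm `l`): their images lie in `{0} × ∏_{i ≥ 2} k_i^*`; fix one of them, `β'`;
by `Ty2` every other one, `β`, satisfies `β = c' g² / β'` in `R = ∏_{i ≥ 2} k_i` (`c' = 1/c`), so the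
images lie in the image of the homomorphism of groups `F_l^* × R^* → R^*`, `(c, g) ↦ c g²`, up to the
factor `β'⁻¹`.  The kernel of this homomorphism contains the elements `(u^(-2), u e)`, `u ∈ F_l^*`,
`e = (±1, .., ±1) ∈ R^*`; these are `(l - 1) 2^(r-1) / 2` different elements if `r ≥ 2` (`(u, e)` and
`(-u, -e)` give the same).  So there are at most
`(l-1) |R^*| / ((l-1) 2^(r-2)) = 2^(2-r) |R^*| ≤ 2^(2-r) l^(n-1)` classes (for `r = 1`: one class, and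
`n = 1`, since `q_1` has norm `l`; then `2^(2-r) = 2` is fine, too).  Altogether
`≤ l^n (1 - N/l + n²/l²) + N 2^(2-r) l^(n-1)`.  If `1 ≤ N < n` then `r ≥ N + 1` and
`N 2^(2-r) ≤ N 2^(1-N) ≤ 1`; if `N = n` then `r ≥ n`. -/
def S_CNT : Prop := ∀ (L : Type) [Field L] [NumberField L] (l : ℕ), l.Prime → l ≠ 2 →
  Squarefree (Ideal.span {(l : 𝓞 L)}) → ∀ T : Set (𝓞 L), Ty1 l T → Ty2 l T →
  (((Ideal.Quotient.mk (Ideal.span {(l : 𝓞 L)}) '' T).ncard : ℕ) : ℝ) ≤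
    (l : ℝ) ^ Module.finrank ℚ L *
      (1 - (N1 L l - tau L l) / l + (Module.finrank ℚ L : ℝ) ^ 2 / (l : ℝ) ^ 2)

/-- JOB RAM. Only finitely many primes ramify (different or discriminant; many library files), and
`N1 L l ≤ [L : ℚ]`. -/
def S_RAM : Prop := ∀ (L : Type) [Field L] [NumberField L],
  (∃ B : ℕ, B ≠ 0 ∧ ∀ l : ℕ, l.Prime → ¬ l ∣ B → Squarefree (Ideal.span {(l : 𝓞 L)})) ∧
  ∀ l : ℕ, l.Prime → N1 L l ≤ Module.finrank ℚ L

/-! ## Part B: Mertens' theorem and Chebotarev's theorem -/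

/-- JOB M1. Mertens' theorem for the primes of degree one, weak form.
Proof: `Q282.MN.tA1` (`Pool/Agent/Q282/MN/Mert.lean`): `∑_{p ≤ n} ν(p) log p / p ~ log n`, `ν(p)` the
number of the ideals of norm `p` (`Q282.MN.card_norm`), and partial summation with the weight
`1 / log p`.  (`N1 L l` is the number of the ideals of norm `l`: an ideal of prime norm is prime.) -/
def S_M1 : Prop := ∀ (L : Type) [Field L] [NumberField L] (ε : ℝ), 0 < ε → ∃ C : ℝ, ∀ Y : ℝ, 3 ≤ Y →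
  (1 - ε) * Real.log (Real.log Y) - C ≤ ∑ l ∈ pr Y, (N1 L l : ℝ) / l

open Classical in
/-- JOB M2. Many primes split completely in `L`.
Proof: apply `Q282.MN.tA1` or `Pool.Agent.W401.Cheb.chebotarev` to the Galois closure `M` of `L`: a prime
`l` (outside a finite set) which has a prime of norm `l` in `M` splits completely in `M`, so also in `L`,
so `N1 L l = [L : ℚ]`; and `∑_{l ≤ Y} N1 M l / l ≥ (1/2) log log Y - C` by `S_M1`, where
`N1 M l ≤ [M : ℚ]`. -/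
def S_M2 : Prop := ∀ (L : Type) [Field L] [NumberField L], ∃ c C : ℝ, 0 < c ∧ ∀ Y : ℝ, 3 ≤ Y →
  c * Real.log (Real.log Y) - C ≤
    ∑ l ∈ (pr Y).filter (fun l => N1 L l = Module.finrank ℚ L), (1 : ℝ) / l

/-- JOB CORE. The main upper bound.
Proof (from `S_SIEVE`, `S_SUMS`, `S_CNT`, `S_RAM`, `S_M1`, `S_M2`).  Let `n = [L : ℚ] ≥ 5`, replace `B` by a
multiple divisible by `2` and by the ramified primes.  Let `P` be the set of the primes `l`,
`n² < l`, `l ≤ √Y`, `l ∤ B`, with `N1 L l ≥ 2`, and `η l = (N1 L l - tau L l) / l - n² / l²`; here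
`N1 L l - tau L l ≥ 1` (if `2 ≤ N1 < n`, `tau = 1`; if `N1 = n`, `tau = 4 n / 2^n ≤ 5/8`), so
`0 < η l ≤ n / l`.  By `S_CNT` and `S_SIEVE` the number times `∑_D ∏ η` is `≤ C Y^n`, and by `S_SUMS`
(`Q = ⌊√Y⌋₊`) the sum is `≥ c exp (∑_{l ∈ P} η l)`.  The primes `l` with `N1 = 0` or `N1 = 1` have
`N1 - tau = 0`; the primes dividing `B`, those `≤ n²` and the terms `n²/l²` contribute `O(1)`; so
`∑_{l ∈ P} η l ≥ ∑_{l ≤ √Y} (N1 l - tau l)/l - C ≥ ∑ N1 l / l - ∑_{N1 l ≥ 1} 1/l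
  + (3/8) ∑_{N1 l = n} 1 / l - C ≥ (1 - ε) log log √Y - GN L Y + (3/8) c log log √Y - C`; choose
`ε = c / 8`. -/
def S_CORE : Prop := ∀ (L : Type) [Field L] [NumberField L], 5 ≤ Module.finrank ℚ L → ∀ B : ℕ, B ≠ 0 →
  ∃ c C : ℝ, 0 < c ∧ ∀ T : Set (𝓞 L), (∀ l : ℕ, l.Prime → ¬ l ∣ B → Ty1 l T ∧ Ty2 l T) →
  ∀ Y : ℝ, 3 ≤ Y → {β ∈ T | ∀ σ : L →+* ℂ, ‖σ (β : L)‖ ≤ Y}.Finite ∧
    (({β ∈ T | ∀ σ : L →+* ℂ, ‖σ (β : L)‖ ≤ Y}.ncard : ℕ) : ℝ) ≤
      C * Y ^ Module.finrank ℚ L * Real.exp (GN L Y) * Real.log Y ^ (-(1 + c))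

/-! ## Part C: descent -/

/-- JOB UN. Units.
Proof: Dirichlet's unit theorem (Mathlib: the logarithms `(mult w * log w(u))_{w ≠ w0}` of the units form a
lattice of full rank in `ℝ^(r1+r2-1)`), so also the logarithms of the squares of the units; so for
every `α ≠ 0` there is a `u` such that `|log w(α u²) - (1/n) log |N α|| ≤ C` for all `w ≠ w0`, and by the
product formula for the remaining one. -/
def S_UN : Prop := ∀ (L : Type) [Field L] [NumberField L], ∃ C : ℝ, 0 < C ∧ ∀ α : 𝓞 L, α ≠ 0 →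
  ∃ u : (𝓞 L)ˣ, ∀ σ : L →+* ℂ, ‖σ (((α * (u : 𝓞 L) ^ 2 : 𝓞 L)) : L)‖ ≤
    C * ((Ideal.absNorm (Ideal.span {α}) : ℕ) : ℝ) ^ ((1 : ℝ) / Module.finrank ℚ L)

/-- JOB CL. Class group.
Proof.  Let `𝔠_1, .., 𝔠_h ⊆ 𝓞` be nonzero ideals, one in each ideal class, and `B` divisible by their norms.
`(δ) = ∏ v ^ a_v`; write `a_v = s_v + 2 b_v`, `s_v ∈ {0, 1}`; for `v ∤ B` we have `s_v = 1` iff `v ∈ S`.
Put `𝔞 = ∏ v ^ b_v`; there are an `i` and an `η ∈ L^*` with `(η) = 𝔠_i 𝔞⁻¹`; so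
`(δ η²) = ∏ v ^ s_v * 𝔠_i²` is an integral ideal, of norm `≤ ∏_{v ∈ S} N v * ∏_{v ∣ B} N v * N 𝔠_i²`. -/
def S_CL : Prop := ∀ (L : Type) [Field L] [NumberField L], ∃ (B : ℕ) (C : ℝ), B ≠ 0 ∧ 0 < C ∧
  ∀ (δ : L) (S : Finset (HeightOneSpectrum (𝓞 L))), δ ≠ 0 →
  (∀ v : HeightOneSpectrum (𝓞 L), (B : 𝓞 L) ∉ v.asIdeal → (v ∈ S → Par v δ 1) ∧
    (v ∉ S → Par v δ 0)) →
  ∃ (η : L) (α : 𝓞 L), η ≠ 0 ∧ (α : L) = δ * η ^ 2 ∧
    (∀ v : HeightOneSpectrum (𝓞 L), (B : 𝓞 L) ∉ v.asIdeal →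
      (v ∈ S → v.valuation L (α : L) = WithZero.exp (-1 : ℤ)) ∧
      (v ∉ S → v.valuation L (α : L) = 1)) ∧
    ((Ideal.absNorm (Ideal.span {α}) : ℕ) : ℝ) ≤ C * ∏ v ∈ S, ((Ideal.absNorm v.asIdeal : ℕ) : ℝ)

/-- JOB AP. Approximation of an `l`-adic point of a covering by elements of `L`.
Proof.  `B` = leading coefficient of `f`.  `x = l^k x0`, `w = l^k w0`, `x0, w0 ∈ ℤ_l`, one of them a unit;
`k = e + 2 k'`, `e ∈ {0, 1}`; replace `g` by `l^(-k') g`.  So `l^e (x0 - w0 X) - d g² = f h` in `ℚ_l[X]`.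
Approximate `x0, w0` by integers `x, w`, and `g, h` by `G, H ∈ ℚ[X]` (same degree bounds): all
coefficients of `E = l^e (x - w X) - d G² - f H ∈ ℚ[X]` have `l`-adic norm `≤ l^(-K)` if the
approximation is good enough.  Evaluate at `θ`: `E(θ) = l^e (x - w θ) - d(θ) G(θ)²`, and `θ` is integral at
the primes above `l` (`a θ` is integral, `l ∤ a`), so `v(E(θ)) ≤ exp (-K)`. -/
def S_AP : Prop := ∀ (f : ℤ[X]) (L : Type) [Field L] [NumberField L] (θ : L), Setup f L θ →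
  ∀ (l : ℕ) [Fact l.Prime], ¬ (l : ℤ) ∣ f.leadingCoeff → ∀ d : ℚ[X], CovPt f d ℚ_[l] → ∀ K : ℕ,
  ∃ (x w : ℤ) (e : ℕ) (g : L), e < 2 ∧ (¬ (l : ℤ) ∣ x ∨ ¬ (l : ℤ) ∣ w) ∧
    ∀ v : HeightOneSpectrum (𝓞 L), Abv v l →
      v.valuation L ((l : L) ^ e * ((x : L) - w * θ) - aeval θ d * g ^ 2) ≤ WithZero.exp (-(K : ℤ))

/-- JOB ROOT. The primes above `l` containing a value `x - w θ`, for `l` outside a finite set.
Proof.  `a` the leading coefficient, `n = deg f`, `B = 2 * a * disc f` (or: `2 a` times a nonzero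
integer of the form `U f + V f'` with `U, V ∈ ℤ[X]`), and the primes ramified in `L`.  Let `l ∤ B` and let
`x - w θ` be non-integral-unit at `v` above `l`, i.e. `v.valuation (x - w θ) < 1` (note that `θ` is
integral at `v`).  If `l ∣ w` then `x ∈ v`, so `l ∣ x`.  So there is an `r ∈ ℤ` with `w r ≡ x mod l`, and
`θ ≡ r mod v`, hence `f(r) ≡ f(θ) = 0 mod v`, so `l ∣ f(r)`.  `r` may be replaced by `r + l`, and
`f(r + l) ≡ f(r) + l f'(r) mod l²`, `l ∤ f'(r)`; so we may assume `l² ∤ f(r)`.  Now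
`|N(a r - a θ)| = |a^(n-1) f(r)|` is divisible by `l` exactly once, so exactly one prime above `l` contains
`a r - a θ`, and it has norm `l`.  (`N(a r - a θ) = a^n ∏ (r - θ_i) = a^(n-1) f(r)`.) -/
def S_ROOT : Prop := ∀ (f : ℤ[X]) (L : Type) [Field L] [NumberField L] (θ : L), Setup f L θ →
  ∃ B : ℕ, B ≠ 0 ∧ f.leadingCoeff ∣ (B : ℤ) ∧ ∀ l : ℕ, l.Prime → ¬ l ∣ B →
  (∀ v : HeightOneSpectrum (𝓞 L), Abv v l → v.valuation L θ ≤ 1 ∧
    v.valuation L (l : L) = WithZero.exp (-1 : ℤ)) ∧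
  ∀ x w : ℤ, (¬ (l : ℤ) ∣ x ∨ ¬ (l : ℤ) ∣ w) →
    (∀ v : HeightOneSpectrum (𝓞 L), Abv v l → v.valuation L ((x : L) - w * θ) = 1) ∨
    ∃ v0 : HeightOneSpectrum (𝓞 L), Abv v0 l ∧ Ideal.absNorm v0.asIdeal = l ∧ ¬ (l : ℤ) ∣ w ∧
      v0.valuation L ((x : L) - w * θ) < 1 ∧
      ∀ v : HeightOneSpectrum (𝓞 L), Abv v l → v ≠ v0 → v.valuation L ((x : L) - w * θ) = 1

/-- JOB NV. Norm and valuations: if the valuations of `x` at the primes above `l` have the parities `e v`,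
then the `l`-adic valuation of the norm of `x` has the parity of `∑ e v * (residue degree of v)`.
Statement in the two forms needed: (1) all parities are `e`, and `n` is even: the valuation of the norm
is even; (2) the parity is `e0` at a prime `v0` of norm `l` and `e` at all others, `n` even: the
valuation of the norm has the parity of `e0 - e = e0 + e`.
Proof: `|N x| = ∏ (N v)^(v(x))` (for integral `x`: `Ideal.absNorm` and the factorisation; in general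
multiply by the square of an integer), `∑_{v | l} f_v = n` if `l` is unramified. -/
def S_NV : Prop := ∀ (L : Type) [Field L] [NumberField L], Even (Module.finrank ℚ L) →
  ∀ l : ℕ, l.Prime → Squarefree (Ideal.span {(l : 𝓞 L)}) → ∀ x : L, x ≠ 0 →
  (∀ e : ℤ, (∀ v : HeightOneSpectrum (𝓞 L), Abv v l → Par v x e) →
    Even (padicValRat l (Algebra.norm ℚ x))) ∧
  ∀ (e0 e : ℤ) (v0 : HeightOneSpectrum (𝓞 L)), Abv v0 l → Ideal.absNorm v0.asIdeal = l →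
    Par v0 x e0 → (∀ v : HeightOneSpectrum (𝓞 L), Abv v l → v ≠ v0 → Par v x e) →
    Even (padicValRat l (Algebra.norm ℚ x) + e0 + e)

/-- JOB SC. Parities of the valuations of `δ = d(θ)` at the primes above `l`.
Proof (from `S_AP` with `K = 2`, `S_ROOT`, `S_NV`, `S_RAM`).  `ρ = l^e (x - w θ) - δ g²`,
`v(ρ) ≤ exp (-2)`.  Where `v(x - w θ) = 1`, `v(l^e (x - w θ)) = exp (-e) > v(ρ)`, so
`v(δ g²) = exp (-e)` (ultrametric inequality) and `Par v δ e`.  In the first case of `S_ROOT` this holds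
for all `v`; then the norm of `δ` has even valuation at `l`, and `D a N(δ)` is a square, `l ∤ a`, so
the valuation of `D` at `l` is even, `D` squarefree: `l ∤ D`.  In the second case it holds for all
`v ≠ v0`; let `e0` be the parity of `δ` at `v0`; by `S_NV` the valuation of `D` has the parity
of `e0 + e`; so `e0 ≡ e` if `l ∤ D`, `e0 ≡ e + 1` if `l ∣ D`. -/
def S_SC : Prop := ∀ (f : ℤ[X]) (L : Type) [Field L] [NumberField L] (θ : L), Setup f L θ →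
  Even f.natDegree → ∃ B : ℕ, B ≠ 0 ∧ ∀ (l : ℕ) [Fact l.Prime], ¬ l ∣ B → ∀ (d : ℚ[X]) (D : ℤ),
  aeval θ d ≠ 0 → Squarefree D →
  IsSquare (((D * f.leadingCoeff : ℤ) : ℚ) * Algebra.norm ℚ (aeval θ d)) → CovPt f d ℚ_[l] →
  ∃ e : ℤ,
    (¬ (l : ℤ) ∣ D ∧ ∀ v : HeightOneSpectrum (𝓞 L), Abv v l → Par v (aeval θ d) e) ∨
    ((l : ℤ) ∣ D ∧ ∃ v0 : HeightOneSpectrum (𝓞 L), Abv v0 l ∧ Ideal.absNorm v0.asIdeal = l ∧
      Par v0 (aeval θ d) (e + 1) ∧
      ∀ v : HeightOneSpectrum (𝓞 L), Abv v l → v ≠ v0 → Par v (aeval θ d) e)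

/-- JOB SD. The classes of `α = d(θ)` at the primes above `l`, `l ∣ D`.
Proof (from `S_AP` with `K = 2`, `S_ROOT`).  `ρ = l^e (x - w θ) - α g²`, `v(ρ) ≤ exp (-2)`.
Let `v0` be the given prime; by the norm condition there is a third prime: as `n ≥ 3`, `l` unramified,
`N v0 = l`, there is a prime `≠ v0` above `l`, and if `v1 ≠ v0` has norm `l` then there is a prime
`≠ v0, v1`.  Suppose that `v0(x - w θ) = 1`: then `v0(α g²) = exp (-e)`, `v0(α) = exp (-1)`, so `e = 1`; there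
is a `v ≠ v0` with `v(x - w θ) = 1` (`S_ROOT`: at most one prime, of norm `l`, is an exception), and
`v(α g²) = v(g)² = exp (-1)`, a contradiction.  So `v0(x - w θ) < 1` and `v(x - w θ) = 1` for `v ≠ v0`; so
`v(g)² = exp (-e)` for these `v`, `e = 0`, `v(g) = 1`.  Let `t = a θ ∈ 𝓞`, `r ∈ ℤ` with
`w r ≡ a x mod l` (`l ∤ w`): `w (t - r) ≡ a (w θ - x) mod v0`, so `t - r ∈ v0`.  For `v ≠ v0`:
`w (r - t) ≡ a (x - w θ) ≡ a α g² mod v`; `c = a w`: `c α g² ≡ w² (r - t)`; there is a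
`g' ∈ 𝓞` with `g' g ≡ w mod v` (valuation `≤` something; `v(g) = 1`), so
`c α ≡ (r - t) g'² mod v`. -/
def S_SD : Prop := ∀ (f : ℤ[X]) (L : Type) [Field L] [NumberField L] (θ : L), Setup f L θ →
  3 ≤ f.natDegree → ∃ B : ℕ, B ≠ 0 ∧ ∀ t : 𝓞 L, (t : L) = f.leadingCoeff * θ →
  ∀ (l : ℕ) [Fact l.Prime], ¬ l ∣ B → ∀ (d : ℚ[X]) (α : 𝓞 L), aeval θ d = (α : L) →
  CovPt f d ℚ_[l] → ∀ v0 : HeightOneSpectrum (𝓞 L), Abv v0 l → Ideal.absNorm v0.asIdeal = l →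
  v0.valuation L (α : L) = WithZero.exp (-1 : ℤ) →
  (∀ v : HeightOneSpectrum (𝓞 L), Abv v l → v ≠ v0 → v.valuation L (α : L) = 1) →
  ∃ c r : ℤ, ¬ (l : ℤ) ∣ c ∧ t - (r : 𝓞 L) ∈ v0.asIdeal ∧
    ∀ v : HeightOneSpectrum (𝓞 L), Abv v l → v ≠ v0 →
      ∃ g : 𝓞 L, (c : 𝓞 L) * α - ((r : 𝓞 L) - t) * g ^ 2 ∈ v.asIdeal

/-- JOB CH. Changing the representative: if `d'(θ) = c d(θ) η(θ)²` with `c ∈ ℚ^*`, `η(θ) ≠ 0`, the coverings
of `d` and of `d'` have points over the same fields.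
Proof: `f ∣ d' - c d η²` in `ℚ[X]`, and `η` is invertible modulo `f` (`f` is irreducible): `f ∣ η ζ - 1`.
`x - w X ≡ d g²` gives `c x - c w X ≡ c d g² ≡ d' (ζ g)²`. -/
def S_CH : Prop := ∀ (f : ℤ[X]) (L : Type) [Field L] [NumberField L] (θ : L), Setup f L θ →
  ∀ (d d' η : ℚ[X]) (c : ℚ), c ≠ 0 → aeval θ η ≠ 0 →
  aeval θ d' = (c : L) * aeval θ d * aeval θ η ^ 2 →
  ∀ (F : Type) [Field F] [CharZero F], CovPt f d F → CovPt f d' F

/-- JOB DESC. The descent.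
Proof (from `S_UN`, `S_CL`, `S_SC`, `S_SD`, `S_CH`, `S_RAM`).  `B` is a common multiple of the finite bad
numbers, even, divisible by the ramified primes.  Let `δ = d(θ)` belong to an everywhere locally
soluble covering of `C_D`.  By `S_SC` there is for every prime `l ∤ B` an `e_l ∈ {0, 1}`; `e_l = 0` for
all but finitely many `l` (if all valuations of `δ` above `l` are `0` and `l ∤ D`, `e_l` is even;
note that there is at least one `v ≠ v0` above `l`, as `n ≥ 2`).  Put `c = ∏ l^(e_l)`; then `c δ` has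
even valuation at all `v ∤ B` except the primes `v0 = v0(l)`, `l ∣ D`, `l ∤ B` (at `v` above `l`,
`v(l) = exp (-1)`).  `S` = the set of these; `∏_{v ∈ S} N v ≤ |D|`.  `S_CL` gives `η`, `α0 = c δ η²`, and
`S_UN` a unit `u`: `α = α0 u²`, `|σ α| ≤ C |D|^(1/n)`.  `α = d'(θ)` with a polynomial `d'`, and
`η u = η'(θ)`, so by `S_CH` the covering of `d'` has points over all `ℚ_l`, and `D a N(α)` is a square
(`c^n` is one).  `S_SD` gives `Good`. -/
def S_DESC : Prop := ∀ (f : ℤ[X]) (L : Type) [Field L] [NumberField L] (θ : L), Setup f L θ →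
  Even f.natDegree → 3 ≤ f.natDegree → ∀ t : 𝓞 L, (t : L) = f.leadingCoeff * θ →
  ∃ (B : ℕ) (C : ℝ), B ≠ 0 ∧ 0 < C ∧ ∀ D : ℤ, Squarefree D →
  (∃ d : ℚ[X], aeval θ d ≠ 0 ∧
    IsSquare (((D * f.leadingCoeff : ℤ) : ℚ) * Algebra.norm ℚ (aeval θ d)) ∧
    ∀ (p : ℕ) [Fact p.Prime], CovPt f d ℚ_[p]) →
  ∃ α : 𝓞 L, α ≠ 0 ∧ Good B t α ∧
    IsSquare (((D * f.leadingCoeff : ℤ) : ℚ) * Algebra.norm ℚ (α : L)) ∧
    ∀ σ : L →+* ℂ, ‖σ (α : L)‖ ≤ C * (D.natAbs : ℝ) ^ ((1 : ℝ) / f.natDegree)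

/-- JOB TY. The good elements satisfy the hypotheses of the sieve.
Proof.  `Ty1` is part of `Good`.  `Ty2`: let `α, α'` lie in `v0`, with data `c, r`, `c', r'` (their `v0`s are
equal, since only one prime above `l` contains `α`): `t - r, t - r' ∈ v0`, so `l ∣ r - r'`.  For `v ≠ v0`:
`c c' α α' ≡ (r - t)(r' - t) (g g')² ≡ ((r - t) g g')² mod v`. -/
def S_TY : Prop := ∀ (L : Type) [Field L] [NumberField L] (B : ℕ) (t : 𝓞 L),
  ∀ l : ℕ, l.Prime → ¬ l ∣ B → Ty1 l {α | Good B t α} ∧ Ty2 l {α | Good B t α}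

/-! ## Part D: everywhere locally soluble twists -/

/-- JOB SOLV. Twists which are everywhere locally soluble.
Proof.  `W` is divisible by `8`, `D0`, the leading coefficient `a` of `f`, a nonzero integer of the form
`U f + V f'`, `U, V ∈ ℤ[X]`, and by all primes `≤ 100 n²`.  Let `m` be as in the statement.  Over `ℝ`:
`m > 0` is a square.  Over `ℚ_p`, `p ∣ W`: `m` is a square in `ℤ_p` (it is a square modulo `p`, a unit, and
for `p = 2` it is `≡ 1 mod 8`), so `C_{D0 m}` and `C_{D0}` are isomorphic.  Over `ℚ_q`, `q ∣ m`: `f` has a zero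
modulo `q`, which is simple, so it has a zero `ρ ∈ ℤ_q` (Hensel), and `(ρ, 1, 0)` is a point.  Other
`p`: `D = D0 m` is a unit at `p`, `f mod p` has degree `n ≥ 1` and is squarefree, by Weil's bound
(`Pool/Agent/H341R2/Stepanov.lean`, `weil_bound`, or `WeilSharp.lean`) for `D f(x)` there is an
`x ∈ ℤ` such that `D f(x)` is a nonzero square modulo `p`; so `f(x) / D` is a square in `ℚ_p`. -/
def S_SOLV : Prop := ∀ f : ℤ[X], Irreducible (f.map (Int.castRingHom ℚ)) → ∀ D0 : ℤ, D0 ≠ 0 →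
  ELS f D0 → ∃ W : ℕ, W ≠ 0 ∧ D0 ∣ (W : ℤ) ∧ ∀ m : ℕ, 0 < m → m.Coprime W →
    (∃ t : ℤ, (W : ℤ) ∣ m - t ^ 2) → (∀ q : ℕ, q.Prime → q ∣ m → ∃ r : ℤ, (q : ℤ) ∣ f.eval r) →
    ELS f (D0 * m)

open Classical in
/-- JOB CH1. Many primes `p ≡ 1 mod W` modulo which `f` has a zero.
Proof: Chebotarev's theorem (`Pool.Agent.W401.Cheb.chebotarev`, natural density) for the identity of the
Galois group of the splitting field `M` of `f * (X^W - 1)`: a prime `p` (outside a finite set) with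
`xp M 1 p ≠ 0` has a homomorphism `𝓞 M → F̄_p` with image in `F_p`; so `f` (which splits in `M`, `p ∤ a`) has a zero
modulo `p`, and `F_p` contains a primitive `W`-th root of unity (`p ∤ W`), so `p ≡ 1 mod W`.
`xp M 1 p ≤ [M : ℚ]`; so the number of these `p ≤ Y` is `≥ (1/(2 [M : ℚ])) π(Y)` for large `Y`; Chebyshev. -/
def S_CH1 : Prop := ∀ f : ℤ[X], Irreducible (f.map (Int.castRingHom ℚ)) → ∀ W : ℕ, W ≠ 0 →
  ∃ c Y0 : ℝ, 0 < c ∧ ∀ Y : ℝ, Y0 ≤ Y → c * Y / Real.log Y ≤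
    (((pr Y).filter (fun p => p % W = 1 % W ∧ ∃ r : ℤ, (p : ℤ) ∣ f.eval r)).card : ℝ)

open Classical in
/-- JOB CNTL. Lower bound for the number of integers composed of the primes of a set `P`, in a square
class modulo `W`.
Proof (from `S_SUMS`).  Classes: for each class `κ` in the finite group `G = (ℤ/W)^* / squares` which
contains a squarefree product of primes of `P` not dividing `W`, fix such a product `m_κ`; let `E` be the product
of `W` and of all `m_κ`.  For large `X` put `Q = ⌊X^(1/4)⌋₊`; for every squarefree `m' ≤ Q` composed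
of primes of `P` not dividing `E`, let `κ` be the class of `m'` (so `m' m_κ` is a square modulo `W`), and
let `p ∈ S` with `Q < p ≤ X / (m' m_κ)` (`p ≡ 1 mod W`): `m = m' m_κ p ≤ X` is squarefree (`p > Q` does not divide
`m'`, nor `m_κ` if `X` is large), prime to `W`, composed of primes of `P`, and a square modulo
`W`.  `m` determines `p` (its largest prime factor, for large `X`), then `m'` (the part of `m/p` prime to
`E`).  Number of the `p`: `≥ c0 (X/(m' m_κ)) / log X - Q ≥ c1 X / (m' log X)`.  By `S_SUMS` (`η t = 1/t`,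
`A = 1`), `∑ 1/m' ≥ c exp (∑_{q ∈ P, q ∤ E, q ≤ Q} 1/q) ≥ c' exp (∑_{q ∈ P, q ≤ X} 1/q)` (the primes dividing
`E` and those in `(X^(1/4), X]` contribute `O(1)`, Mertens). -/
def S_CNTL : Prop := ∀ (W : ℕ) (P S : Set ℕ), W ≠ 0 → S ⊆ P → (∀ p ∈ P, p.Prime) →
  (∀ p ∈ S, p % W = 1 % W) → (∃ c0 Y0 : ℝ, 0 < c0 ∧ ∀ Y : ℝ, Y0 ≤ Y →
    c0 * Y / Real.log Y ≤ (((pr Y).filter (fun p => p ∈ S)).card : ℝ)) →
  ∃ c X0 : ℝ, 0 < c ∧ ∀ X : ℝ, X0 ≤ X →
    c * X / Real.log X * Real.exp (∑ q ∈ (pr X).filter (fun q => q ∈ P), (1 : ℝ) / q) ≤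
    (((Icc 1 ⌊X⌋₊).filter (fun m : ℕ => Squarefree m ∧ m.Coprime W ∧
      (∀ q : ℕ, q.Prime → q ∣ m → q ∈ P) ∧ ∃ t : ℤ, (W : ℤ) ∣ m - t ^ 2)).card : ℝ)

/-- JOB LOW. Lower bound for the number of everywhere locally soluble twists.
Proof (from `S_SOLV`, `S_CH1`, `S_CNTL`).  There is an integer `x0` with `f(x0) ≠ 0`; `f(x0) = D0 s²`, `D0`
squarefree, so `(x0, 1, s)` is a rational point of `C_{D0}`, and `ELS f D0`.  `D = D0 m` with the `m ≤ X/|D0|`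
of `S_CNTL`, `P` = the primes modulo which `f` has a zero, `S` = those `≡ 1 mod W`, `W` from `S_SOLV`;
`D` is squarefree, since `m` is prime to `W`, which is divisible by `D0`.  (`Gf f X - Gf f (X/|D0|) = O(1)`, by
Mertens, or trivially: the primes in `(X/|D0|, X]` number at most `X`, with `1/q ≤ |D0|/X`.) -/
def S_LOW : Prop := ∀ f : ℤ[X], Irreducible (f.map (Int.castRingHom ℚ)) → ∃ c X0 : ℝ, 0 < c ∧
  ∀ X : ℝ, X0 ≤ X → c * X / Real.log X * Real.exp (Gf f X) ≤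
    (({D : ℤ | (D.natAbs : ℝ) ≤ X ∧ Squarefree D ∧ ELS f D}.ncard : ℕ) : ℝ)

/-- JOB GG. `GN L ≤ Gf f + C`.
Proof: if `v` has norm `l` and `l ∤ a`, the image `r` of `t = a θ` in `𝓞/v = F_l` satisfies
`a^(n-1) f(r / a) = 0`, so `f` has a zero modulo `l`. -/
def S_GG : Prop := ∀ (f : ℤ[X]) (L : Type) [Field L] [NumberField L] (θ : L), Setup f L θ →
  ∃ C : ℝ, ∀ Y : ℝ, GN L Y ≤ Gf f Y + C

/-- JOB LIFT. A rational point lifts to a covering.
Proof.  `f` has no rational zero (`n ≥ 2`), so `F(x, w) ≠ 0` and `y ≠ 0`.  `d = x - w X` is prime to `f`;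
`N(x - w θ) = F(x, w) / a` (`a` the leading coefficient; `N(x - w θ) = ∏ (x - w θ_i)`), so
`D a N(d(θ)) = D F(x, w) = (D y)²`; `(x, w, 1)` is a point of the covering over every field. -/
def S_LIFT : Prop := ∀ f : ℤ[X], Irreducible (f.map (Int.castRingHom ℚ)) → 2 ≤ f.natDegree →
  ∀ D : ℤ, CurvePt f D ℚ → Sel f D

/-- JOB S2E. The coverings lie over `C_D`.
Proof.  Let `x - w X ≡ d g² mod f` over `F`.  Norms from `F[X]/(f)`: `F(x, w) = a N(x - w θ) = a N(d(θ)) N(g(θ))²`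
(the norm of `d(θ)` from `F[X]/(f)` is the norm from `ℚ[X]/(f)`; one can also use resultants,
`Res(f, x - w X)` is `± F(x, w)`, and `Res(f, d) = a^(deg d) N(d(θ))`), and `D a N(d(θ)) = s²`, so
`D F(x, w) = (s N(g))²`, `F(x, w) = D (s N(g) / D)²`. -/
def S_S2E : Prop := ∀ f : ℤ[X], Irreducible (f.map (Int.castRingHom ℚ)) → ∀ (D : ℤ) (d : ℚ[X]), D ≠ 0 →
  IsSquare (((D * f.leadingCoeff : ℤ) : ℚ) *
    Algebra.norm ℚ (AdjoinRoot.mk (f.map (Int.castRingHom ℚ)) d)) →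
  ∀ (F : Type) [Field F] [CharZero F], CovPt f d F → CurvePt f D F

/-- GOAL. -/
def S_MAIN : Prop := ∀ f : ℤ[X], Irreducible (f.map (Int.castRingHom ℚ)) → Even f.natDegree →
  6 ≤ f.natDegree →
  (∀ D : ℤ, D ≠ 0 → Sel f D → ELS f D) ∧ (∀ D : ℤ, CurvePt f D ℚ → Sel f D) ∧
  (∃ δ C : ℝ, 0 < δ ∧ ∀ X : ℝ, 3 ≤ X →
    (({D : ℤ | (D.natAbs : ℝ) ≤ X ∧ Squarefree D ∧ Sel f D}.ncard : ℕ) : ℝ) ≤
    C * Real.log X ^ (-δ) *
      (({D : ℤ | (D.natAbs : ℝ) ≤ X ∧ Squarefree D ∧ ELS f D}.ncard : ℕ) : ℝ)) ∧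
  ∃ c X0 : ℝ, 0 < c ∧ ∀ X : ℝ, X0 ≤ X → c * X / Real.log X * Real.exp (Gf f X) ≤
    (({D : ℤ | (D.natAbs : ℝ) ≤ X ∧ Squarefree D ∧ ELS f D}.ncard : ℕ) : ℝ)

end Pool.Agent.Q51.EL
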