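import Mathlib
import Pool.Agent.H11.V.R_pool_sql_team_seeded_3997aac3_Q247_EL_CNT1

set_option autoImplicit false

/-!
Project EL (helper51), job CNT: the number of the residue classes modulo `l` allowed by the local conditions.
-/

namespace Pool.Agent.Q247.EL

open Finset NumberField IsDedekindDomain
open Pool.Agent.Q51.EL

section

variable (L : Type) [Field L] [NumberField L] {l : ℕ}

theorem int_mem (hl : l.Prime) (v : VV L l) (z : ℤ) (hz : (z : 𝓞 L) ∈ v.1.asIdeal) : (l : ℤ) ∣ z := by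
  by_contra h
  have hc : IsCoprime (l : ℤ) z := by
    rw [Int.isCoprime_iff_gcd_eq_one]
    have h1 : Nat.Coprime l z.natAbs := (Nat.Prime.coprime_iff_not_dvd hl).2 (fun h2 => h (Int.natCast_dvd.2 h2))
    have h2 : Int.gcd (l : ℤ) z = Nat.gcd l z.natAbs := rfl
    rw [h2]
    exact h1
  obtain ⟨a, b, hab⟩ := hc
  have h1 : (1 : 𝓞 L) = (a : 𝓞 L) * (l : 𝓞 L) + (b : 𝓞 L) * (z : 𝓞 L) := by
    have : (1 : 𝓞 L) = ((a * (l : ℤ) + b * z : ℤ) : 𝓞 L) := by rw [hab]; simp
    rw [this]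
    push_cast
    ring
  have h2 : (1 : 𝓞 L) ∈ v.1.asIdeal := by
    rw [h1]
    exact v.1.asIdeal.add_mem (v.1.asIdeal.mul_mem_left _ v.2) (v.1.asIdeal.mul_mem_left _ hz)
  exact v.1.isPrime.ne_top ((Ideal.eq_top_iff_one _).2 h2)

theorem finite_k (v : VV L l) : Finite (𝓞 L ⧸ v.1.asIdeal) :=
  Ideal.finiteQuotientOfFreeOfNeBot _ v.1.ne_bot

theorem card_eq_norm (v : VV L l) : Nat.card (𝓞 L ⧸ v.1.asIdeal) = Ideal.absNorm v.1.asIdeal := by
  rw [Ideal.absNorm_apply, Submodule.cardQuot_apply]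

/-- reductions modulo all primes above `l` -/
def Th (β : 𝓞 L) : ∀ v : VV L l, 𝓞 L ⧸ v.1.asIdeal := fun v => Ideal.Quotient.mk v.1.asIdeal β

/-- the classes of the second kind -/
def S2 (T : Set (𝓞 L)) (v0 : VV L l) : Set (∀ v : VV L l, 𝓞 L ⧸ v.1.asIdeal) :=
  {x | Ideal.absNorm v0.1.asIdeal = l ∧ ∃ β ∈ T, β ∈ v0.1.asIdeal ∧
    (∀ v : VV L l, v ≠ v0 → β ∉ v.1.asIdeal) ∧ Th L β = x}

/-- the classes of the first kind -/
def S1 (L : Type) [Field L] [NumberField L] (l : ℕ) : Set (∀ v : VV L l, 𝓞 L ⧸ v.1.asIdeal) :=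
  {x | ∀ v, x v ≠ 0}

open Classical in
theorem S1_card (hl : l.Prime) [Fintype (VV L l)] : ((S1 L l).ncard : ℝ) ≤
    ∏ v : VV L l, ((Nat.card (𝓞 L ⧸ v.1.asIdeal) : ℝ) *
      (if Ideal.absNorm v.1.asIdeal = l then (1 - 1 / (l : ℝ)) else 1)) := by
  haveI : ∀ v : VV L l, Finite (𝓞 L ⧸ v.1.asIdeal) := finite_k L
  haveI : ∀ v : VV L l, Fintype (𝓞 L ⧸ v.1.asIdeal) := fun v => Fintype.ofFinite _
  have h1 : S1 L l = (Fintype.piFinset (fun v : VV L l =>
      (univ : Finset (𝓞 L ⧸ v.1.asIdeal)).filter (fun x => x ≠ 0)) : Set _) := by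
    ext x
    rw [Finset.mem_coe, Fintype.mem_piFinset]
    simp [S1]
  rw [h1, Set.ncard_coe_finset, Fintype.card_piFinset]
  push_cast
  refine prod_le_prod (fun v _ => Nat.cast_nonneg _) fun v _ => ?_
  have h2 : ((univ : Finset (𝓞 L ⧸ v.1.asIdeal)).filter (fun x => x ≠ 0)).card =
      Nat.card (𝓞 L ⧸ v.1.asIdeal) - 1 := by
    rw [filter_ne', card_erase_of_mem (mem_univ _), card_univ, Nat.card_eq_fintype_card]
  rw [h2]
  have h3 := le_card L hl v
  have h4 : 1 ≤ Nat.card (𝓞 L ⧸ v.1.asIdeal) := hl.one_lt.le.trans h3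
  rw [Nat.cast_sub h4]
  have hl0 : (0 : ℝ) < l := by exact_mod_cast hl.pos
  split_ifs with h
  · have h5 : Nat.card (𝓞 L ⧸ v.1.asIdeal) = l := (card_eq_norm L v).trans h
    rw [h5]
    field_simp
    push_cast
    exact le_refl _
  · push_cast
    linarith

open Classical in
theorem S2_card (hl : l.Prime) (hl2 : l ≠ 2) [Fintype (VV L l)] (T : Set (𝓞 L)) (hT2 : Ty2 l T)
    (v0 : VV L l) : ((S2 L T v0).ncard : ℝ) ≤ if Ideal.absNorm v0.1.asIdeal = l then
      2 * ∏ v : VV L l, (if v = v0 then (1 : ℝ) else (Nat.card (𝓞 L ⧸ v.1.asIdeal) : ℝ) / 2) else 0 := by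
  haveI : ∀ v : VV L l, Finite (𝓞 L ⧸ v.1.asIdeal) := finite_k L
  haveI : ∀ v : VV L l, Fintype (𝓞 L ⧸ v.1.asIdeal) := fun v => Fintype.ofFinite _
  haveI : ∀ v : VV L l, IsDomain (𝓞 L ⧸ v.1.asIdeal) := fun v => by
    haveI := v.1.isPrime
    infer_instance
  by_cases hn : Ideal.absNorm v0.1.asIdeal = l
  swap
  · rw [if_neg hn]
    have : S2 L T v0 = ∅ := by
      ext x
      simp [S2, hn]
    rw [this]
    simp
  rw [if_pos hn]
  have hprod0 : 0 ≤ ∏ v : VV L l, (if v = v0 then (1 : ℝ) else (Nat.card (𝓞 L ⧸ v.1.asIdeal) : ℝ) / 2) := by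
    refine prod_nonneg fun v _ => ?_
    split_ifs <;> positivity
  by_cases hne : (S2 L T v0).Nonempty
  swap
  · rw [Set.not_nonempty_iff_eq_empty] at hne
    rw [hne, Set.ncard_empty, Nat.cast_zero]
    exact mul_nonneg (by norm_num) hprod0
  obtain ⟨x', _, β', hβ'T, hβ'0, hβ'v, _⟩ := hne
  obtain ⟨u, hu, heps⟩ := eps l hl hl2
  let Q : ∀ v : VV L l, Finset (𝓞 L ⧸ v.1.asIdeal) := fun v =>
    if v = v0 then {0} else (Set.toFinite ({x : 𝓞 L ⧸ v.1.asIdeal | x ≠ 0 ∧ ∃ s, x = s * s})).toFinset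
  let F : ℤ → (∀ v : VV L l, 𝓞 L ⧸ v.1.asIdeal) → (∀ v : VV L l, 𝓞 L ⧸ v.1.asIdeal) := fun e q v =>
    Ideal.Quotient.mk v.1.asIdeal β' * Ideal.Quotient.mk v.1.asIdeal (e : 𝓞 L) * q v
  have hsub : S2 L T v0 ⊆ ((Fintype.piFinset Q).image (F 1) ∪ (Fintype.piFinset Q).image (F u) :
      Finset (∀ v : VV L l, 𝓞 L ⧸ v.1.asIdeal)) := by
    rintro x ⟨_, β, hβT, hβ0, hβv, rfl⟩
    obtain ⟨c, hc, hg⟩ := hT2 β hβT β' hβ'T v0.1 v0.2 hβ0 hβ'0
    obtain ⟨e, d, he, hle, hld, hlc⟩ := heps c hc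
    have key : ∀ v : VV L l, ∃ q : 𝓞 L ⧸ v.1.asIdeal, q ∈ Q v ∧
        Ideal.Quotient.mk v.1.asIdeal β' * Ideal.Quotient.mk v.1.asIdeal (e : 𝓞 L) * q =
          Ideal.Quotient.mk v.1.asIdeal β := by
      intro v
      by_cases hv : v = v0
      · refine ⟨0, ?_, ?_⟩
        · simp only [Q, if_pos hv]
          simp
        · rw [mul_zero, hv]
          exact ((Ideal.Quotient.eq_zero_iff_mem).2 hβ0).symm
      · haveI := v.1.isMaximal
        have hB' : Ideal.Quotient.mk v.1.asIdeal β' ≠ 0 := fun h =>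
          hβ'v v hv ((Ideal.Quotient.eq_zero_iff_mem).1 h)
        have hB : Ideal.Quotient.mk v.1.asIdeal β ≠ 0 := fun h =>
          hβv v hv ((Ideal.Quotient.eq_zero_iff_mem).1 h)
        have hE : Ideal.Quotient.mk v.1.asIdeal (e : 𝓞 L) ≠ 0 := fun h =>
          hle (int_mem L hl v e ((Ideal.Quotient.eq_zero_iff_mem).1 h))
        have hD : Ideal.Quotient.mk v.1.asIdeal (d : 𝓞 L) ≠ 0 := fun h =>
          hld (int_mem L hl v d ((Ideal.Quotient.eq_zero_iff_mem).1 h))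
        obtain ⟨W, hW⟩ := Ideal.Quotient.exists_inv (mul_ne_zero (mul_ne_zero hE hD) hB')
        obtain ⟨g, hg'⟩ := hg v.1 v.2 (fun h => hv (Subtype.ext h))
        have h1 : Ideal.Quotient.mk v.1.asIdeal (c : 𝓞 L) * Ideal.Quotient.mk v.1.asIdeal β *
            Ideal.Quotient.mk v.1.asIdeal β' = Ideal.Quotient.mk v.1.asIdeal g ^ 2 := by
          rw [← map_mul, ← map_mul, ← map_pow]
          exact (Ideal.Quotient.eq).2 hg'
        have h2 : Ideal.Quotient.mk v.1.asIdeal (c : 𝓞 L) =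
            Ideal.Quotient.mk v.1.asIdeal (e : 𝓞 L) * Ideal.Quotient.mk v.1.asIdeal (d : 𝓞 L) ^ 2 := by
          rw [← map_pow, ← map_mul, Ideal.Quotient.eq]
          obtain ⟨m, hm⟩ := hlc
          have h3 : (c : 𝓞 L) - (e : 𝓞 L) * (d : 𝓞 L) ^ 2 = (m : 𝓞 L) * (l : 𝓞 L) := by
            have : ((c - e * d ^ 2 : ℤ) : 𝓞 L) = ((l * m : ℤ) : 𝓞 L) := by rw [hm]
            push_cast at this
            rw [this, mul_comm]
          rw [h3]
          exact v.1.asIdeal.mul_mem_left _ v.2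
        have h3 : Ideal.Quotient.mk v.1.asIdeal β' * Ideal.Quotient.mk v.1.asIdeal (e : 𝓞 L) *
            ((Ideal.Quotient.mk v.1.asIdeal g * W) * (Ideal.Quotient.mk v.1.asIdeal g * W)) =
              Ideal.Quotient.mk v.1.asIdeal β := by
          rw [h2] at h1
          calc Ideal.Quotient.mk v.1.asIdeal β' * Ideal.Quotient.mk v.1.asIdeal (e : 𝓞 L) *
              ((Ideal.Quotient.mk v.1.asIdeal g * W) * (Ideal.Quotient.mk v.1.asIdeal g * W))
              = Ideal.Quotient.mk v.1.asIdeal β' * Ideal.Quotient.mk v.1.asIdeal (e : 𝓞 L) *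
                (Ideal.Quotient.mk v.1.asIdeal g ^ 2) * (W * W) := by ring
            _ = Ideal.Quotient.mk v.1.asIdeal β * (Ideal.Quotient.mk v.1.asIdeal (e : 𝓞 L) *
                  Ideal.Quotient.mk v.1.asIdeal (d : 𝓞 L) * Ideal.Quotient.mk v.1.asIdeal β' * W) ^ 2 := by
                rw [← h1]
                ring
            _ = _ := by rw [hW, one_pow, mul_one]
        refine ⟨(Ideal.Quotient.mk v.1.asIdeal g * W) * (Ideal.Quotient.mk v.1.asIdeal g * W), ?_, h3⟩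
        simp only [Q, if_neg hv]
        rw [Set.Finite.mem_toFinset]
        refine ⟨?_, _, rfl⟩
        intro h0
        rw [h0, mul_zero] at h3
        exact hB h3.symm
    choose q hq1 hq2 using key
    have hqF : F e q = Th L β := by
      funext v
      exact hq2 v
    have hqQ : q ∈ Fintype.piFinset Q := Fintype.mem_piFinset.2 hq1
    rw [Finset.coe_union, Finset.coe_image, Finset.coe_image]
    rcases he with rfl | rfl
    · left
      exact ⟨q, hqQ, hqF⟩
    · right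
      exact ⟨q, hqQ, hqF⟩
  have h1 : (S2 L T v0).ncard ≤ (Fintype.piFinset Q).card + (Fintype.piFinset Q).card := by
    refine (Set.ncard_le_ncard hsub (Set.toFinite _)).trans ?_
    rw [Set.ncard_coe_finset]
    refine (card_union_le _ _).trans ?_
    exact Nat.add_le_add card_image_le card_image_le
  have h2 : ((Fintype.piFinset Q).card : ℝ) ≤
      ∏ v : VV L l, (if v = v0 then (1 : ℝ) else (Nat.card (𝓞 L ⧸ v.1.asIdeal) : ℝ) / 2) := by
    rw [Fintype.card_piFinset]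
    push_cast
    refine prod_le_prod (fun v _ => Nat.cast_nonneg _) fun v _ => ?_
    by_cases hv : v = v0
    · simp only [Q, if_pos hv]
      simp
    · simp only [Q, if_neg hv]
      have h20 : (2 : 𝓞 L ⧸ v.1.asIdeal) ≠ 0 := by
        intro h0
        have h3 : Ideal.Quotient.mk v.1.asIdeal ((2 : ℤ) : 𝓞 L) = 0 := by
          rw [Int.cast_ofNat, map_ofNat]
          exact h0
        have h4 := int_mem L hl v 2 ((Ideal.Quotient.eq_zero_iff_mem).1 h3)
        have h5 : l ∣ 2 := by exact_mod_cast h4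
        exact hl2 ((Nat.prime_dvd_prime_iff_eq hl Nat.prime_two).1 h5)
      have h3 := card_sq (𝓞 L ⧸ v.1.asIdeal) h20
      rw [Set.ncard_eq_toFinset_card _ (Set.toFinite _)] at h3
      exact h3
  have h3 : ((S2 L T v0).ncard : ℝ) ≤ ((Fintype.piFinset Q).card : ℝ) + ((Fintype.piFinset Q).card : ℝ) := by
    exact_mod_cast h1
  linarith

theorem bern (x : ℝ) (h0 : 0 ≤ x) (h1 : x ≤ 1) (N : ℕ) : (1 - x) ^ N ≤ 1 - N * x + (N : ℝ) ^ 2 * x ^ 2 := by
  induction N with
  | zero => simp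
  | succ N ih =>
    rw [pow_succ]
    have h2 : (1 - x) ^ N * (1 - x) ≤ (1 - N * x + (N : ℝ) ^ 2 * x ^ 2) * (1 - x) :=
      mul_le_mul_of_nonneg_right ih (by linarith)
    refine h2.trans ?_
    push_cast
    have h3 : 0 ≤ (N : ℝ) * x ^ 2 := by positivity
    have h4 : 0 ≤ (N : ℝ) ^ 2 * x ^ 3 := by positivity
    nlinarith [sq_nonneg x]

end

open Classical in
theorem cnt : S_CNT := by
  intro L _ _ l hl hl2 hsq T hT1 hT2
  haveI := finite_VV L hl
  haveI : Fintype (VV L l) := Fintype.ofFinite _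
  haveI : ∀ v : VV L l, Finite (𝓞 L ⧸ v.1.asIdeal) := finite_k L
  obtain ⟨n, hn⟩ : ∃ n, n = Module.finrank ℚ L := ⟨_, rfl⟩
  obtain ⟨r, hr⟩ : ∃ r, r = Fintype.card (VV L l) := ⟨_, rfl⟩
  obtain ⟨N, hN⟩ : ∃ N, N = N1 L l := ⟨_, rfl⟩
  rw [← hn]
  have hl0 : (0 : ℝ) < l := by exact_mod_cast hl.pos
  have hl1 : (1 : ℝ) ≤ l := by exact_mod_cast hl.one_lt.le
  have hn0 : 0 < n := by
    rw [hn]
    exact Module.finrank_pos
  have hcardk := prod_card L hl hsq
  have hcardk' : ∏ v : VV L l, (Nat.card (𝓞 L ⧸ v.1.asIdeal) : ℝ) = (l : ℝ) ^ n := by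
    rw [hn]
    exact_mod_cast hcardk
  -- number of the primes of norm `l`
  have hNW : N = (univ.filter (fun v : VV L l => Ideal.absNorm v.1.asIdeal = l)).card := by
    rw [hN]
    unfold N1
    rw [← Fintype.card_subtype, ← Nat.card_eq_fintype_card]
    refine Nat.card_congr
      { toFun := fun v => ⟨⟨v.1, ?_⟩, v.2⟩
        invFun := fun v => ⟨v.1.1, v.2⟩
        left_inv := fun v => rfl
        right_inv := fun v => rfl }
    have h := Ideal.absNorm_mem v.1.asIdeal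
    rw [v.2] at h
    exact h
  have hNr : N ≤ r := by
    rw [hNW, hr]
    exact card_filter_le _ _
  have hrn : r ≤ n := by
    have h1 : l ^ r ≤ l ^ n := by
      rw [hn, ← hcardk, hr, ← Finset.card_univ, ← prod_const]
      exact prod_le_prod' fun v _ => le_card L hl v
    exact (Nat.pow_le_pow_iff_right hl.one_lt).1 h1
  have hNrn : N = r → N = n := by
    intro h
    have h1 : univ.filter (fun v : VV L l => Ideal.absNorm v.1.asIdeal = l) = univ := by
      apply Finset.eq_univ_of_card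
      rw [← hNW, h, hr]
    have h2 : ∏ v : VV L l, Nat.card (𝓞 L ⧸ v.1.asIdeal) = ∏ _v : VV L l, l := by
      refine prod_congr rfl fun v _ => ?_
      have h3 : v ∈ univ.filter (fun v : VV L l => Ideal.absNorm v.1.asIdeal = l) := by
        rw [h1]
        exact mem_univ _
      rw [mem_filter] at h3
      exact (card_eq_norm L v).trans h3.2
    rw [hcardk, prod_const, card_univ, ← hr, ← hn] at h2
    rw [h]
    exact (Nat.pow_right_injective hl.two_le h2).symm
  -- pass to the product of the residue fields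
  have hA : (Ideal.Quotient.mk (Ideal.span {(l : 𝓞 L)}) '' T).ncard ≤ (Th L (l := l) '' T).ncard := by
    let h : (∀ v : VV L l, 𝓞 L ⧸ v.1.asIdeal) → 𝓞 L ⧸ Ideal.span {(l : 𝓞 L)} := fun y =>
      if hy : ∃ β, Th L β = y then Ideal.Quotient.mk _ hy.choose else 0
    have h1 : ∀ β, h (Th L β) = Ideal.Quotient.mk (Ideal.span {(l : 𝓞 L)}) β := by
      intro β
      have hy : ∃ β', Th L (l := l) β' = Th L β := ⟨β, rfl⟩
      simp only [h]
      rw [dif_pos hy]
      have h2 := hy.choose_spec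
      rw [Ideal.Quotient.eq, ← iInf_VV L hl hsq, Ideal.mem_iInf]
      intro v
      exact (Ideal.Quotient.eq).1 (congrFun h2 v)
    have h2 : Ideal.Quotient.mk (Ideal.span {(l : 𝓞 L)}) '' T = h '' (Th L (l := l) '' T) := by
      rw [Set.image_image]
      exact Set.image_congr fun β _ => (h1 β).symm
    rw [h2]
    exact Set.ncard_image_le (Set.toFinite _)
  have hB : Th L (l := l) '' T ⊆ S1 L l ∪ ⋃ v0 : VV L l, S2 L T v0 := by
    rintro _ ⟨β, hβ, rfl⟩
    rcases hT1 β hβ with h | ⟨v0, hv0, hn0, hβ0, h⟩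
    · left
      intro v h0
      exact h v.1 v.2 ((Ideal.Quotient.eq_zero_iff_mem).1 h0)
    · right
      rw [Set.mem_iUnion]
      refine ⟨⟨v0, hv0⟩, hn0, β, hβ, hβ0, ?_, rfl⟩
      intro v hv
      exact h v.1 v.2 (fun h' => hv (Subtype.ext h'))
  have hC : ((Ideal.Quotient.mk (Ideal.span {(l : 𝓞 L)}) '' T).ncard : ℝ) ≤
      (S1 L l).ncard + ∑ v0 : VV L l, ((S2 L T v0).ncard : ℝ) := by
    have h1 : (Ideal.Quotient.mk (Ideal.span {(l : 𝓞 L)}) '' T).ncard ≤
        (S1 L l).ncard + ∑ v0 : VV L l, (S2 L T v0).ncard := by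
      refine hA.trans ((Set.ncard_le_ncard hB (Set.toFinite _)).trans ?_)
      refine (Set.ncard_union_le _ _).trans ?_
      exact Nat.add_le_add_left (Set.ncard_iUnion_le_of_fintype _) _
    exact_mod_cast h1
  -- first kind
  have hD : ((S1 L l).ncard : ℝ) ≤ (l : ℝ) ^ n * (1 - 1 / (l : ℝ)) ^ N := by
    refine (S1_card L hl).trans (le_of_eq ?_)
    rw [prod_mul_distrib, hcardk', ← prod_filter, prod_const, ← hNW]
  -- second kind
  have hE : ∑ v0 : VV L l, ((S2 L T v0).ncard : ℝ) ≤ N * ((l : ℝ) ^ n * (4 / 2 ^ r / l)) := by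
    have h1 : ∀ v0 : VV L l, ((S2 L T v0).ncard : ℝ) ≤
        if Ideal.absNorm v0.1.asIdeal = l then (l : ℝ) ^ n * (4 / 2 ^ r / l) else 0 := by
      intro v0
      refine (S2_card L hl hl2 T hT2 v0).trans ?_
      split_ifs with h
      · have h5 : (Nat.card (𝓞 L ⧸ v0.1.asIdeal) : ℝ) = l := by
          exact_mod_cast (card_eq_norm L v0).trans h
        have h2 : (∏ v : VV L l, (if v = v0 then (1 : ℝ) else (Nat.card (𝓞 L ⧸ v.1.asIdeal) : ℝ) / 2)) *
            ((l : ℝ) / 2) = (l : ℝ) ^ n / 2 ^ r := by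
          have h3 : ∏ v : VV L l, ((Nat.card (𝓞 L ⧸ v.1.asIdeal) : ℝ) / 2) = (l : ℝ) ^ n / 2 ^ r := by
            rw [prod_div_distrib, hcardk', prod_const, card_univ, hr]
          rw [← h3, ← h5]
          have h4 : ∏ v : VV L l, (if v = v0 then (Nat.card (𝓞 L ⧸ v.1.asIdeal) : ℝ) / 2 else 1) =
              (Nat.card (𝓞 L ⧸ v0.1.asIdeal) : ℝ) / 2 := by
            rw [prod_ite_eq' univ v0]
            simp
          rw [← h4, ← prod_mul_distrib]
          refine prod_congr rfl fun v _ => ?_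
          split_ifs <;> ring
        have h6 : ∏ v : VV L l, (if v = v0 then (1 : ℝ) else (Nat.card (𝓞 L ⧸ v.1.asIdeal) : ℝ) / 2) =
            (l : ℝ) ^ n / 2 ^ r / (l / 2) := by
          rw [eq_div_iff (by positivity)]
          exact h2
        rw [h6]
        apply le_of_eq
        field_simp
        ring
      · exact le_refl _
    refine (sum_le_sum fun v0 _ => h1 v0).trans (le_of_eq ?_)
    rw [← sum_filter, sum_const, ← hNW, nsmul_eq_mul]
  -- the constant
  have hF : (N : ℝ) * (4 / 2 ^ r) ≤ tau L l := by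
    unfold tau
    rw [← hN, ← hn]
    split_ifs with h1 h2
    · rw [h1]
      simp
    · rw [h2]
      have h3 : (2 : ℝ) ^ n ≤ 2 ^ r := pow_le_pow_right₀ (by norm_num) (by omega)
      rw [mul_div_assoc]
      refine mul_le_mul_of_nonneg_left ?_ (Nat.cast_nonneg _)
      exact div_le_div_of_nonneg_left (by norm_num) (by positivity) h3
    · have h3 : N + 1 ≤ r := by
        rcases lt_or_eq_of_le hNr with h4 | h4
        · exact h4
        · exact absurd (hNrn h4) h2
      have h4 : (2 : ℝ) ^ (N + 1) ≤ 2 ^ r := pow_le_pow_right₀ (by norm_num) h3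
      have h5 : (N : ℝ) * 2 ≤ 2 ^ N := by
        have h6 : ∀ m : ℕ, 1 ≤ m → m * 2 ≤ 2 ^ m := by
          intro m hm
          induction m, hm using Nat.le_induction with
          | base => norm_num
          | succ m hm ih =>
            rw [pow_succ]
            omega
        exact_mod_cast h6 N (by omega)
      rw [mul_div_assoc', div_le_one (by positivity)]
      calc (N : ℝ) * 4 = 2 * ((N : ℝ) * 2) := by ring
        _ ≤ 2 * 2 ^ N := by linarith
        _ = 2 ^ (N + 1) := by ring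
        _ ≤ 2 ^ r := h4
  have hG := bern (1 / (l : ℝ)) (by positivity) (by rw [div_le_one hl0]; exact hl1) N
  have hNn : (N : ℝ) ^ 2 ≤ (n : ℝ) ^ 2 := by
    have : (N : ℝ) ≤ n := by exact_mod_cast hNr.trans hrn
    exact pow_le_pow_left₀ (Nat.cast_nonneg _) this 2
  refine (hC.trans (add_le_add hD hE)).trans ?_
  have e1 : (N : ℝ) * ((l : ℝ) ^ n * (4 / 2 ^ r / l)) = (l : ℝ) ^ n * (((N : ℝ) * (4 / 2 ^ r)) / l) := by ring
  rw [e1, ← mul_add]
  refine mul_le_mul_of_nonneg_left ?_ (by positivity)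
  have h7 : ((N : ℝ) * (4 / 2 ^ r)) / l ≤ tau L l / l := div_le_div_of_nonneg_right hF hl0.le
  have h8 : (N : ℝ) ^ 2 * (1 / (l : ℝ)) ^ 2 ≤ (n : ℝ) ^ 2 / (l : ℝ) ^ 2 := by
    rw [one_div, inv_pow, ← div_eq_mul_inv]
    exact div_le_div_of_nonneg_right hNn (by positivity)
  rw [← hN]
  have e2 : ((N : ℝ) - tau L l) / l = N * (1 / l) - tau L l / l := by ring
  rw [e2]
  linarith

end Pool.Agent.Q247.EL
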