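import Mathlib
import Pool.Agent.H11.V.R_pool_sql_team_seeded_3997aac3_Q51_EL_Def

/-!
# Project EB (helper51): the Brauer-Manin set of the everywhere locally soluble twists, definitions

`f ∈ ℤ[X]` is irreducible over `ℚ`, of even degree, `L = ℚ[X]/(f) = ℚ(θ)`, `C_D : D y² = F(x, w)`.  For
`ε ∈ L^*` with `N(ε)` a square the class `A_ε = Cor_{L/ℚ} (x - θ w, ε)` lies in `Br(C_D)`.  Its local
invariant at a point is computed from the Hasse-Witt invariants of trace forms (Serre):
for `a, b` in an etale algebra `A` over a local field `F` and `q_u(z) = Tr (u z²)`,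
`inv Cor_{A/F} (a, b) = s(q_{ab}) s(q_a) s(q_b) s(q_1) (N a, N b)`.
-/

set_option autoImplicit false

namespace Pool.Agent.Q51.EB

open Polynomial NumberField IsDedekindDomain Finset Pool.Agent.Q51.EL

section local_

variable {F : Type} [Field F]




/-- the matrix of the quadratic form `Tr (u z²)` on `F[X]/(f)` in the basis `1, X, .., X^(n-1)` -/
noncomputable def gram (f u : F[X]) : Matrix (Fin f.natDegree) (Fin f.natDegree) F :=
  fun i j => Algebra.trace F (AdjoinRoot f) (AdjoinRoot.mk f (u * X ^ ((i : ℕ) + j)))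


end local_

/-- `f` as a polynomial over `F` -/
noncomputable abbrev up (f : ℤ[X]) (F : Type) [Field F] : F[X] := f.map (Int.castRingHom F)

/-- the element `a(θ)` of `F[X]/(f)` is the value of `x - θ w` at a point of `C_D` over `F`; at the
branch points, where `x - θ w` vanishes in one component, this component is determined up to squares
by the condition that `D * lc * N(a(θ))` is a square -/
def Val (f : ℤ[X]) (D : ℤ) (F : Type) [Field F] (a : F[X]) : Prop :=
  ∃ x w y : F, (x ≠ 0 ∨ w ≠ 0) ∧ (D : F) * y ^ 2 = hom f x w ∧ IsCoprime (up f F) a ∧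
    up f F ∣ (C x - C w * X) * (a - (C x - C w * X)) ∧
    IsSquare (((D * f.leadingCoeff : ℤ) : F) * Algebra.norm F (AdjoinRoot.mk (up f F) a))



/-- `ε(θ)` is invertible and has square norm -/
def SqN (f : ℤ[X]) (ε : ℚ[X]) : Prop :=
  IsCoprime (up f ℚ) ε ∧ IsSquare (Algebra.norm ℚ (AdjoinRoot.mk (up f ℚ) ε))


end Pool.Agent.Q51.EB
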