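import Mathlib
import Pool.Agent.H11.V.R_pool_sql_team_seeded_3997aac3_Q51_EB_Def

/-!
# Project EB, job BC (helper247): base change of norm and trace of `F[X]/(f)`
-/

set_option autoImplicit false

namespace Pool.Agent.Q247.EB

open Pool.Agent.Q51.EB Polynomial

section pb

variable {K : Type*} [Field K] {f : K[X]}

lemma pb_basis (hf : f ≠ 0) (i : Fin f.natDegree) :
    AdjoinRoot.powerBasisAux hf i = AdjoinRoot.root f ^ (i : ℕ) := by
  simp [AdjoinRoot.powerBasisAux]

lemma mk_mod (u : K[X]) : AdjoinRoot.mk f (u % f) = AdjoinRoot.mk f u := by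
  rw [AdjoinRoot.mk_eq_mk, EuclideanDomain.mod_eq_sub_mul_div, sub_sub_cancel_left, dvd_neg]
  exact dvd_mul_right _ _

lemma pb_repr (hf : f ≠ 0) (u : K[X]) (i : Fin f.natDegree) :
    (AdjoinRoot.powerBasisAux hf).repr (AdjoinRoot.mk f u) i = (u % f).coeff i := by
  have hn : f.natDegree ≠ 0 := by
    have := i.2
    omega
  have h1 : AdjoinRoot.mk f u = ∑ j : Fin f.natDegree, (u % f).coeff j • AdjoinRoot.powerBasisAux hf j := by
    rw [← mk_mod u]
    nth_rewrite 1 [as_sum_range' (u % f) f.natDegree (natDegree_mod_lt u hn)]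
    rw [map_sum, Finset.sum_range]
    refine Finset.sum_congr rfl fun j _ => ?_
    rw [pb_basis, ← C_mul_X_pow_eq_monomial, map_mul, map_pow, AdjoinRoot.mk_X, AdjoinRoot.mk_C, Algebra.smul_def]
    rfl
  rw [h1]
  have := (AdjoinRoot.powerBasisAux hf).repr_sum_self (fun j : Fin f.natDegree => (u % f).coeff j)
  exact congrFun this i

lemma lm_apply (hf : f ≠ 0) (u : K[X]) (i j : Fin f.natDegree) :
    Algebra.leftMulMatrix (AdjoinRoot.powerBasisAux hf) (AdjoinRoot.mk f u) i j = ((u * X ^ (j : ℕ)) % f).coeff i := by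
  rw [Algebra.leftMulMatrix_eq_repr_mul, pb_basis, ← AdjoinRoot.mk_X, ← map_pow, ← map_mul, pb_repr]

lemma norm_det (hf : f ≠ 0) (u : K[X]) : Algebra.norm K (AdjoinRoot.mk f u) =
    (Matrix.of fun i j : Fin f.natDegree => ((u * X ^ (j : ℕ)) % f).coeff i).det := by
  rw [Algebra.norm_eq_matrix_det (AdjoinRoot.powerBasisAux hf)]
  congr 1
  ext i j
  rw [lm_apply]; rfl

lemma trace_sum (hf : f ≠ 0) (u : K[X]) : Algebra.trace K (AdjoinRoot f) (AdjoinRoot.mk f u) =
    ∑ i : Fin f.natDegree, ((u * X ^ (i : ℕ)) % f).coeff i := by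
  rw [Algebra.trace_eq_matrix_trace (AdjoinRoot.powerBasisAux hf), Matrix.trace]
  refine Finset.sum_congr rfl fun i _ => ?_
  rw [Matrix.diag_apply, lm_apply]

end pb

section bc

variable {K : Type*} {F : Type*} [Field K] [Field F]

lemma norm_bc (φ : K →+* F) {f : K[X]} (hf : f ≠ 0) (u : K[X]) :
    Algebra.norm F (AdjoinRoot.mk (f.map φ) (u.map φ)) = φ (Algebra.norm K (AdjoinRoot.mk f u)) := by
  have hf' : f.map φ ≠ 0 := (Polynomial.map_ne_zero_iff φ.injective).2 hf
  rw [norm_det hf', norm_det hf, RingHom.map_det]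
  have hd : (f.map φ).natDegree = f.natDegree := natDegree_map φ
  have key : ∀ i j : ℕ, ((u.map φ * X ^ j) % (f.map φ)).coeff i = φ (((u * X ^ j) % f).coeff i) := by
    intro i j
    have : u.map φ * X ^ j = (u * X ^ j).map φ := by
      rw [Polynomial.map_mul, Polynomial.map_pow, map_X]
    rw [this, ← Polynomial.map_mod, coeff_map]
  have := Matrix.det_submatrix_equiv_self (finCongr hd)
    (Matrix.of fun i j : Fin f.natDegree => φ (((u * X ^ (j : ℕ)) % f).coeff i))
  have e1 : (Matrix.of fun i j : Fin (f.map φ).natDegree => ((u.map φ * X ^ (j : ℕ)) % (f.map φ)).coeff i) =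
      (Matrix.of fun i j : Fin f.natDegree => φ (((u * X ^ (j : ℕ)) % f).coeff i)).submatrix (finCongr hd) (finCongr hd) := by
    ext i j
    rw [Matrix.submatrix_apply, Matrix.of_apply, Matrix.of_apply, key]
    rfl
  rw [e1, this]
  congr 1

lemma trace_bc (φ : K →+* F) {f : K[X]} (hf : f ≠ 0) (u : K[X]) :
    Algebra.trace F (AdjoinRoot (f.map φ)) (AdjoinRoot.mk (f.map φ) (u.map φ)) =
      φ (Algebra.trace K (AdjoinRoot f) (AdjoinRoot.mk f u)) := by
  have hf' : f.map φ ≠ 0 := (Polynomial.map_ne_zero_iff φ.injective).2 hf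
  rw [trace_sum hf', trace_sum hf, map_sum]
  have hd : (f.map φ).natDegree = f.natDegree := natDegree_map φ
  refine Fintype.sum_equiv (finCongr hd) _ _ fun i => ?_
  have : u.map φ * X ^ (i : ℕ) = (u * X ^ (i : ℕ)).map φ := by
    rw [Polynomial.map_mul, Polynomial.map_pow, map_X]
  rw [this, ← Polynomial.map_mod, coeff_map]
  rfl

end bc

lemma up_map (f : ℤ[X]) (F : Type) [Field F] [CharZero F] : up f F = (up f ℚ).map (Rat.castHom F) := by
  unfold up
  rw [Polynomial.map_map]
  congr 1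
  exact RingHom.ext_int _ _


end Pool.Agent.Q247.EB
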