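import Mathlib
import Pool.Agent.H11.V.R_pool_sql_team_seeded_3997aac3_Q51_EB_Def

/-!
# Project EB, jobs EV and RP: values at local and global points
-/

set_option autoImplicit false
set_option linter.unusedSectionVars false

namespace Pool.Agent.Q58.EB

open Polynomial Finset Pool.Agent.Q51.EL Pool.Agent.Q51.EB

section general

variable {F : Type} [Field F]

theorem norm_sub_gen (P : F[X]) (hP : P ≠ 0) (c : F) :
    P.leadingCoeff * Algebra.norm F (AdjoinRoot.mk P (C c - X)) = P.eval c := by
  set pb := AdjoinRoot.powerBasis hP with hpb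
  have : Module.Finite F (AdjoinRoot P) := pb.finite
  have : Module.Free F (AdjoinRoot P) := Module.Free.of_basis pb.basis
  have h1 : (Algebra.lmul F (AdjoinRoot P) pb.gen).charpoly = minpoly F pb.gen := by
    rw [← charpoly_leftMulMatrix pb, Algebra.leftMulMatrix_apply, LinearMap.charpoly_toMatrix]
  have h2 := LinearMap.eval_charpoly (f := (Algebra.lmul F (AdjoinRoot P) pb.gen)) c
  have hgen : pb.gen = AdjoinRoot.root P := AdjoinRoot.powerBasis_gen hP
  rw [h1, hgen, AdjoinRoot.minpoly_root hP] at h2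
  rw [Algebra.norm_apply]
  have h3 : (Algebra.lmul F (AdjoinRoot P)) (AdjoinRoot.mk P (C c - X)) =
      algebraMap F (Module.End F (AdjoinRoot P)) c -
        (Algebra.lmul F (AdjoinRoot P)) (AdjoinRoot.root P) := by
    rw [map_sub, map_sub, AdjoinRoot.mk_X, AdjoinRoot.mk_C]
    congr 1
    rw [← AdjoinRoot.algebraMap_eq, AlgHom.commutes]
  have hlc : P.leadingCoeff ≠ 0 := leadingCoeff_ne_zero.2 hP
  rw [h3, ← h2, eval_mul, eval_C]
  field_simp

theorem norm_C (P : F[X]) (hP : P ≠ 0) (c : F) :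
    Algebra.norm F (AdjoinRoot.mk P (C c)) = c ^ P.natDegree := by
  rw [AdjoinRoot.mk_C, ← AdjoinRoot.algebraMap_eq, Algebra.norm_algebraMap_of_basis
    (AdjoinRoot.powerBasis hP).basis]
  rw [Fintype.card_fin, AdjoinRoot.powerBasis_dim]

/-- the norm of `1 + (u - 1) e`, `e` an idempotent of rank one -/
theorem norm_one_add (g : F[X]) (r u : F) (hg : g.eval r ≠ 0) :
    Algebra.norm F (AdjoinRoot.mk ((X - C r) * g) (1 + C (u - 1) * (C (g.eval r)⁻¹ * g))) = u := by
  have hg0 : g ≠ 0 := by
    rintro rfl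
    simp at hg
  have hP : (X - C r) * g ≠ 0 := mul_ne_zero (X_sub_C_ne_zero r) hg0
  have hfin : Module.Finite F (AdjoinRoot ((X - C r) * g)) := (AdjoinRoot.powerBasis hP).finite
  have hfree : Module.Free F (AdjoinRoot ((X - C r) * g)) :=
    Module.Free.of_basis (AdjoinRoot.powerBasis hP).basis
  have hr : eval₂ ((Algebra.ofId F F : F →ₐ[F] F) : F →+* F) r ((X - C r) * g) = 0 := by
    simp [eval₂_mul]
  set ev : AdjoinRoot ((X - C r) * g) →ₐ[F] F :=
    AdjoinRoot.liftAlgHom ((X - C r) * g) (Algebra.ofId F F) r hr with hev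
  have hevmk : ∀ q : F[X], ev (AdjoinRoot.mk _ q) = q.eval r := by
    intro q
    rw [hev, AdjoinRoot.liftAlgHom_mk]
    exact (eval₂_eq_eval_map _).trans (by
      congr 1
      exact Polynomial.map_id)
  set e : F[X] := C (g.eval r)⁻¹ * g with he
  have hee : e.eval r = 1 := by
    rw [he, eval_mul, eval_C, inv_mul_cancel₀ hg]
  have hmul : ∀ q : F[X], AdjoinRoot.mk ((X - C r) * g) (e * q) =
      AdjoinRoot.mk ((X - C r) * g) (C (q.eval r) * e) := by
    intro q
    rw [AdjoinRoot.mk_eq_mk]
    have h1 : X - C r ∣ q - C (q.eval r) := X_sub_C_dvd_sub_C_eval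
    obtain ⟨k, hk⟩ := h1
    refine ⟨C (g.eval r)⁻¹ * k, ?_⟩
    have h2 : e * q - C (q.eval r) * e = e * (q - C (q.eval r)) := by ring
    rw [h2, hk, he]
    ring
  have hlin : Algebra.lmul F (AdjoinRoot ((X - C r) * g))
      (AdjoinRoot.mk ((X - C r) * g) (1 + C (u - 1) * e)) =
      LinearMap.transvection ((u - 1) • ev.toLinearMap) (AdjoinRoot.mk ((X - C r) * g) e) := by
    ext z
    induction z using AdjoinRoot.induction_on with
    | ih q =>
      rw [LinearMap.transvection.apply]
      simp only [Algebra.coe_lmul_eq_mul, LinearMap.mul_apply', LinearMap.smul_apply,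
        AlgHom.toLinearMap_apply, hevmk, smul_eq_mul]
      rw [map_add, map_one, add_mul, one_mul, map_mul, mul_assoc, ← map_mul _ e q, hmul,
        map_mul, AdjoinRoot.mk_C, AdjoinRoot.mk_C, ← AdjoinRoot.algebraMap_eq,
        ← Algebra.smul_def, ← Algebra.smul_def, smul_smul]
  rw [Algebra.norm_apply, hlin, LinearMap.transvection.det]
  simp only [LinearMap.smul_apply, AlgHom.toLinearMap_apply, hevmk, hee, smul_eq_mul, mul_one]
  ring

theorem norm_ne_zero_of_coprime (P : F[X]) (a : F[X]) (h : IsCoprime P a) :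
    Algebra.norm F (AdjoinRoot.mk P a) ≠ 0 := by
  obtain ⟨s, t, hst⟩ := h
  have h1 : AdjoinRoot.mk P t * AdjoinRoot.mk P a = 1 := by
    rw [← map_mul, ← map_one (AdjoinRoot.mk P), AdjoinRoot.mk_eq_mk, ← hst]
    exact ⟨-s, by ring⟩
  have h2 := congrArg (Algebra.norm F) h1
  rw [map_mul, map_one] at h2
  exact right_ne_zero_of_mul (by rw [h2]; exact one_ne_zero)

end general

section hom

variable {F : Type} [Field F] [CharZero F]

theorem up_ne_zero {f : ℤ[X]} (hf : f ≠ 0) : up f F ≠ 0 := by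
  intro h
  apply hf
  exact (Polynomial.map_injective _ (RingHom.injective_int (Int.castRingHom F)))
    (by rw [Polynomial.map_zero]; exact h)

theorem up_deg (f : ℤ[X]) : (up f F).natDegree = f.natDegree :=
  natDegree_map_eq_of_injective (RingHom.injective_int (Int.castRingHom F)) _

theorem up_lc (f : ℤ[X]) : (up f F).leadingCoeff = (f.leadingCoeff : F) := by
  rw [leadingCoeff_map_of_injective (RingHom.injective_int (Int.castRingHom F)), eq_intCast]

theorem hom_eq (f : ℤ[X]) (x w : F) (hw : w ≠ 0) :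
    hom f x w = w ^ f.natDegree * (up f F).eval (x / w) := by
  rw [eval_eq_sum_range, up_deg, hom, Finset.mul_sum]
  refine Finset.sum_congr rfl fun i hi => ?_
  have hi' : i ≤ f.natDegree := Nat.lt_succ_iff.1 (Finset.mem_range.1 hi)
  rw [coeff_map, div_pow, eq_intCast]
  have h : w ^ f.natDegree = w ^ (f.natDegree - i) * w ^ i := by
    rw [← pow_add, Nat.sub_add_cancel hi']
  rw [h]
  field_simp

theorem hom_zero' (f : ℤ[X]) (x : F) : hom f x 0 = f.leadingCoeff * x ^ f.natDegree := by
  rw [hom, Finset.sum_eq_single f.natDegree]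
  · simp
  · intro i hi hne
    have hi' : i ≤ f.natDegree := Nat.lt_succ_iff.1 (Finset.mem_range.1 hi)
    rw [zero_pow (by omega), mul_zero]
  · intro h
    exact absurd (Finset.mem_range.2 (Nat.lt_succ_self _)) h

theorem norm_lin {f : ℤ[X]} (hf : f ≠ 0) (x w : F) :
    (f.leadingCoeff : F) * Algebra.norm F (AdjoinRoot.mk (up f F) (C x - C w * X)) =
      hom f x w := by
  have h0 := up_ne_zero (F := F) hf
  by_cases hw : w = 0
  · subst hw
    rw [hom_zero', C_0, zero_mul, sub_zero, norm_C _ h0, up_deg]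
  · have h1 : (C x - C w * X : F[X]) = C w * (C (x / w) - X) := by
      rw [mul_sub, ← C_mul, mul_div_cancel₀ _ hw]
    rw [h1, map_mul, map_mul, norm_C _ h0, up_deg, hom_eq f x w hw, ← norm_sub_gen _ h0, up_lc]
    ring

/-- a point of the curve has a value -/
theorem val_of_pt {f : ℤ[X]} (hf : f ≠ 0) (hsep : (up f F).Separable) {D : ℤ} (hD : D ≠ 0)
    (hp : CurvePt f D F) : ∃ a, Val f D F a := by
  obtain ⟨x, w, y, hxw, hy⟩ := hp
  have hlc : (f.leadingCoeff : F) ≠ 0 := by
    exact_mod_cast leadingCoeff_ne_zero.2 hf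
  have hD' : (D : F) ≠ 0 := by exact_mod_cast hD
  by_cases hc : IsCoprime (up f F) (C x - C w * X)
  · refine ⟨C x - C w * X, x, w, y, hxw, hy, hc, by rw [sub_self, mul_zero]; exact dvd_zero _, ?_⟩
    refine ⟨D * y, ?_⟩
    push_cast
    rw [mul_assoc, norm_lin hf, ← hy]
    ring
  · have hw : w ≠ 0 := by
      rintro rfl
      apply hc
      have hx : x ≠ 0 := by simpa using hxw
      rw [C_0, zero_mul, sub_zero]
      exact ⟨0, C x⁻¹, by rw [zero_mul, zero_add, ← C_mul, inv_mul_cancel₀ hx, C_1]⟩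
    set r : F := x / w with hr
    have hlin : (C x - C w * X : F[X]) = -(C w) * (X - C r) := by
      have : (C x : F[X]) = C w * C r := by
        rw [← C_mul, hr, mul_div_cancel₀ _ hw]
      rw [this]
      ring
    have hdvd : X - C r ∣ up f F := by
      by_contra hnd
      apply hc
      have h1 : IsCoprime (X - C r) (up f F) :=
        (irreducible_X_sub_C r).coprime_iff_not_dvd.2 hnd
      rw [hlin]
      refine IsCoprime.mul_right ?_ h1.symm
      exact ⟨0, -C w⁻¹, by
        rw [zero_mul, zero_add, neg_mul_neg, ← C_mul, inv_mul_cancel₀ hw, C_1]⟩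
    obtain ⟨g, hg⟩ := hdvd
    have hcop : IsCoprime (X - C r) g := by
      rw [hg] at hsep
      exact hsep.isCoprime
    have hgr : g.eval r ≠ 0 := by
      intro h0
      have h1 : X - C r ∣ g := dvd_iff_isRoot.2 h0
      exact ((irreducible_X_sub_C r).coprime_iff_not_dvd.1 hcop) h1
    set e : F[X] := C (g.eval r)⁻¹ * g with he
    have hgC : IsCoprime g (-(C w : F[X])) := ⟨0, -C w⁻¹, by
        rw [zero_mul, zero_add, neg_mul_neg, ← C_mul, inv_mul_cancel₀ hw, C_1]⟩
    -- the first element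
    set a₁ : F[X] := (C x - C w * X) + e with ha₁
    have hev1 : a₁.eval r = 1 := by
      rw [ha₁, hlin, he]
      simp [inv_mul_cancel₀ hgr]
    have hcr : ∀ q : F[X], q.eval r ≠ 0 → IsCoprime (X - C r) q := by
      intro q hq
      rw [(irreducible_X_sub_C r).coprime_iff_not_dvd, dvd_iff_isRoot]
      exact hq
    have hcop1 : IsCoprime (up f F) a₁ := by
      rw [hg]
      refine IsCoprime.mul_left (hcr _ (by rw [hev1]; exact one_ne_zero)) ?_
      have h1 : IsCoprime g (-(C w) * (X - C r)) := IsCoprime.mul_right hgC hcop.symm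
      rw [ha₁, hlin, he]
      exact IsCoprime.add_mul_right_right h1 _
    set κ : F := Algebra.norm F (AdjoinRoot.mk (up f F) a₁) with hκ
    have hκ0 : κ ≠ 0 := norm_ne_zero_of_coprime _ _ hcop1
    set u : F := ((D * f.leadingCoeff : ℤ) : F) * κ with hu
    have hu0 : u ≠ 0 := by
      rw [hu]
      push_cast
      exact mul_ne_zero (mul_ne_zero hD' hlc) hκ0
    set b : F[X] := 1 + C (u - 1) * e with hb
    have hevb : b.eval r = u := by
      rw [hb, he]
      simp [inv_mul_cancel₀ hgr]
    have hcopb : IsCoprime (up f F) b := by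
      rw [hg]
      refine IsCoprime.mul_left (hcr _ (by rw [hevb]; exact hu0)) ?_
      rw [hb, he, ← mul_assoc]
      exact IsCoprime.add_mul_right_right isCoprime_one_right _
    have hnb : Algebra.norm F (AdjoinRoot.mk (up f F) b) = u := by
      rw [hg, hb, he]
      exact norm_one_add g r u hgr
    refine ⟨a₁ * b, x, w, y, hxw, hy, hcop1.mul_right hcopb, ?_, ?_⟩
    · have h1 : a₁ * b - (C x - C w * X) = g * (C (g.eval r)⁻¹ * (b + C (u - 1) *
          (C x - C w * X))) := by
        rw [ha₁, hb, he]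
        ring
      rw [h1, hlin, hg]
      exact ⟨-C w * (C (g.eval r)⁻¹ * (b + C (u - 1) * (-C w * (X - C r)))), by ring⟩
    · rw [map_mul, map_mul, hnb, ← hκ, ← mul_assoc, ← hu]
      exact ⟨u, rfl⟩

end hom


theorem hom_cast (f : ℤ[X]) (x w : ℚ) (F : Type) [Field F] [CharZero F] :
    hom f (x : F) (w : F) = ((hom f x w : ℚ) : F) := by
  unfold hom
  push_cast
  rfl


end Pool.Agent.Q58.EB
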