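import Mathlib
import Pool.Agent.H11.V.R_pool_sql_team_seeded_3997aac3_Q51_EL_Stm
import Pool.Agent.H11.V.R_seed8_W401_Cheb_Defs

/-!
# EL: primes which split completely in a Galois field
-/

set_option autoImplicit false

namespace Pool.Agent.Q154.EL

open NumberField IsDedekindDomain Finset
open Pool.Agent.Q51.EL
open Pool.Agent.W401.Cheb (TaskTor HasFrob)

/-- a homomorphism to the prime field is determined by its kernel -/
theorem hom_ext {R : Type} [CommRing R] {l : ℕ} (φ ψ : R →+* ZMod l)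
    (h : RingHom.ker φ = RingHom.ker ψ) : φ = ψ := by
  ext x
  obtain ⟨n, hn⟩ := ZMod.intCast_surjective (φ x)
  have h1 : x - (n : R) ∈ RingHom.ker φ := by
    rw [RingHom.mem_ker, map_sub, map_intCast, hn, sub_self]
  rw [h, RingHom.mem_ker, map_sub, map_intCast, hn, sub_eq_zero] at h1
  exact h1.symm

variable {L : Type} [Field L] [NumberField L]

theorem N1_eq {l : ℕ} (hl : l.Prime) : N1 L l = Nat.card (𝓞 L →+* ZMod l) := by
  haveI : Fact l.Prime := ⟨hl⟩
  have hker : ∀ φ : 𝓞 L →+* ZMod l, Ideal.absNorm (RingHom.ker φ) = l := by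
    intro φ
    have h1 : Function.Surjective φ := ZMod.ringHom_surjective φ
    have h2 := RingHom.quotientKerEquivOfSurjective h1
    rw [Ideal.absNorm_apply, Submodule.cardQuot_apply]
    show Nat.card (𝓞 L ⧸ RingHom.ker φ) = l
    rw [Nat.card_congr h2.toEquiv, Nat.card_zmod]
  have hne : ∀ φ : 𝓞 L →+* ZMod l, RingHom.ker φ ≠ ⊥ := by
    intro φ h
    have h1 := hker φ
    rw [h, Ideal.absNorm_bot] at h1
    exact hl.ne_zero h1.symm
  symm
  unfold N1
  refine Nat.card_congr (Equiv.ofBijective (fun φ => ⟨⟨RingHom.ker φ, RingHom.ker_isPrime φ, hne φ⟩,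
    hker φ⟩) ⟨?_, ?_⟩)
  · intro φ ψ h
    have h1 := congrArg (fun v => v.1.asIdeal) h
    exact hom_ext φ ψ h1
  · rintro ⟨v, hv⟩
    haveI : v.asIdeal.IsMaximal := v.isMaximal
    have hcard : Nat.card (𝓞 L ⧸ v.asIdeal) = l := by
      rw [Ideal.absNorm_apply, Submodule.cardQuot_apply] at hv
      exact hv
    haveI : Finite (𝓞 L ⧸ v.asIdeal) := Nat.finite_of_card_ne_zero (by rw [hcard]; exact hl.ne_zero)
    haveI : Fintype (𝓞 L ⧸ v.asIdeal) := Fintype.ofFinite _
    have h2 : Fintype.card (𝓞 L ⧸ v.asIdeal) = l := by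
      rw [← Nat.card_eq_fintype_card]
      exact hcard
    let e := ZMod.ringEquivOfPrime (𝓞 L ⧸ v.asIdeal) hl h2
    refine ⟨(e.symm : (𝓞 L ⧸ v.asIdeal) →+* ZMod l).comp (Ideal.Quotient.mk v.asIdeal), ?_⟩
    apply Subtype.ext
    apply HeightOneSpectrum.ext
    show RingHom.ker _ = v.asIdeal
    ext x
    rw [RingHom.mem_ker, RingHom.comp_apply]
    show e.symm _ = 0 ↔ _
    rw [map_eq_zero_iff _ e.symm.injective, Ideal.Quotient.eq_zero_iff_mem]

/-- if a Galois field containing `L` has a homomorphism to the prime field, then `L` has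
`[L : ℚ]` of them -/
theorem split (hTor : TaskTor) (M : Type) [Field M] [NumberField M] [IsGalois ℚ M] (i : L →+* M) :
    ∃ D : ℕ, 0 < D ∧ ∀ l : ℕ, l.Prime → ¬ l ∣ D → Nonempty (𝓞 M →+* ZMod l) →
      N1 L l = Module.finrank ℚ L := by
  obtain ⟨D, hD0, hD⟩ := hTor M
  refine ⟨D, hD0, fun l hl hlD hne => ?_⟩
  haveI : Fact l.Prime := ⟨hl⟩
  obtain ⟨h1, h2, h3⟩ := hD l hlD
  obtain ⟨ψ⟩ := hne
  let i' : L →ₐ[ℚ] M := RingHom.toRatAlgHom i
  obtain ⟨E, hE⟩ : ∃ E : IntermediateField ℚ M, E = i'.fieldRange := ⟨_, rfl⟩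
  have h4 := h3 E.fixingSubgroup
  rw [IsGalois.fixedField_fixingSubgroup] at h4
  -- every homomorphism has trivial Frobenius
  have h5 : ∀ φ : 𝓞 M →+* AlgebraicClosure (ZMod l), HasFrob l φ 1 := by
    intro φ x
    obtain ⟨σ, hσ, -⟩ := h2 ((algebraMap (ZMod l) (AlgebraicClosure (ZMod l))).comp ψ) φ
    rw [one_smul, hσ, RingHom.comp_apply, ← map_pow, ZMod.pow_card]
  have h6 : Nat.card {φ : 𝓞 M →+* AlgebraicClosure (ZMod l) // ∃ h ∈ E.fixingSubgroup,
      HasFrob l φ h} = Nat.card (𝓞 M →+* AlgebraicClosure (ZMod l)) :=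
    Nat.card_congr (Equiv.subtypeUnivEquiv fun φ => ⟨1, E.fixingSubgroup.one_mem, h5 φ⟩)
  rw [h6, h1] at h4
  have h7 : Nat.card (𝓞 E →+* ZMod l) = Module.finrank ℚ E := by
    have h8 : Module.finrank ℚ E * Nat.card E.fixingSubgroup = Nat.card Gal(M/ℚ) := by
      rw [IsGalois.card_fixingSubgroup_eq_finrank, Module.finrank_mul_finrank,
        IsGalois.card_aut_eq_finrank]
    rw [← h8, mul_comm] at h4
    exact Nat.eq_of_mul_eq_mul_right Nat.card_pos h4
  have e : L ≃ₐ[ℚ] E := by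
    rw [hE]
    exact AlgEquiv.ofInjectiveField i'
  rw [N1_eq hl, e.toLinearEquiv.finrank_eq, ← h7]
  let e' : 𝓞 L ≃+* 𝓞 E := RingOfIntegers.mapRingEquiv e.toRingEquiv
  exact Nat.card_congr ⟨fun φ => φ.comp (e'.symm : 𝓞 E →+* 𝓞 L), fun φ => φ.comp (e' : 𝓞 L →+* 𝓞 E),
    fun φ => by
      ext x
      show φ (e'.symm (e' x)) = φ x
      rw [e'.symm_apply_apply],
    fun φ => by
      ext x
      show φ (e' (e'.symm x)) = φ x
      rw [e'.apply_symm_apply]⟩

theorem exists_gal (L : Type) [Field L] [NumberField L] :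
    ∃ (M : Type) (_ : Field M) (_ : NumberField M) (_ : IsGalois ℚ M), Nonempty (L →+* M) := by
  have hN : IsNormalClosure ℚ L (IntermediateField.normalClosure ℚ L ℂ) :=
    Algebra.IsAlgebraic.isNormalClosure_normalClosure (fun x => IsAlgClosed.splits _)
  have hn : Normal ℚ (IntermediateField.normalClosure ℚ L ℂ) := hN.normal
  have hfd : FiniteDimensional ℚ (IntermediateField.normalClosure ℚ L ℂ) := inferInstance
  have hnf : NumberField (IntermediateField.normalClosure ℚ L ℂ) :=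
    { to_charZero := inferInstance
      to_finiteDimensional := by convert hfd }
  have hg : IsGalois ℚ (IntermediateField.normalClosure ℚ L ℂ) := {}
  refine ⟨IntermediateField.normalClosure ℚ L ℂ, inferInstance, hnf, by convert hg, ?_⟩
  obtain ⟨σ⟩ : Nonempty (L →+* ℂ) := inferInstance
  let σ' : L →ₐ[ℚ] ℂ := RingHom.toRatAlgHom σ
  let τ : L →ₐ[ℚ] (IntermediateField.normalClosure ℚ L ℂ).toSubalgebra :=
    σ'.codRestrict _ (fun x => σ'.fieldRange_le_normalClosure ⟨x, rfl⟩)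
  exact ⟨τ.toRingHom⟩

end Pool.Agent.Q154.EL
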