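import Mathlib
import Pool.Agent.H11.EM.Stm
import Pool.Agent.H11.V.R_pool_sql_team_seeded_3997aac3_Q154_EL_Spl

/-!
# Project EM (helper11), job EM-M2: many primes split completely in all the fields `L k`

Author: helper29, after the model `Q154/EL/M2a.lean` (one field).
-/

set_option autoImplicit false

namespace Pool.Agent.H29.EM

open NumberField IsDedekindDomain Finset
open Pool.Agent.Q51.EL (Abv N1 pr S_M1 S_RAM)
open Pool.Agent.H11.EM
open Pool.Agent.W401.Cheb (TaskTor)

theorem exists_gal (K : Type) [Finite K] (L : K → Type) [∀ k, Field (L k)]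
    [∀ k, NumberField (L k)] :
    ∃ (M : Type) (_ : Field M) (_ : NumberField M) (_ : IsGalois ℚ M),
      ∀ k, Nonempty (L k →+* M) := by
  have hσ : ∀ k, Nonempty (L k →+* ℂ) := fun k => inferInstance
  let σ : ∀ k, L k →ₐ[ℚ] ℂ := fun k => RingHom.toRatAlgHom (hσ k).some
  obtain ⟨E, hE⟩ : ∃ E : IntermediateField ℚ ℂ, E = ⨆ k, (σ k).fieldRange := ⟨_, rfl⟩
  haveI : ∀ k, FiniteDimensional ℚ (σ k).fieldRange := fun k =>
    LinearMap.finiteDimensional_range (σ k).toLinearMap
  haveI hfd : FiniteDimensional ℚ E := by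
    rw [hE]
    exact IntermediateField.finiteDimensional_iSup_of_finite
  haveI : NumberField E :=
    { to_charZero := inferInstance
      to_finiteDimensional := by convert hfd }
  obtain ⟨M, i1, i2, i3, ⟨j⟩⟩ := Pool.Agent.Q154.EL.exists_gal E
  refine ⟨M, i1, i2, i3, fun k => ?_⟩
  have hle : (σ k).fieldRange ≤ E := by
    rw [hE]
    exact le_iSup (fun k => (σ k).fieldRange) k
  let τ : L k →ₐ[ℚ] E.toSubalgebra :=
    (σ k).codRestrict _ (fun x => hle ⟨x, rfl⟩)
  let τ' : L k →+* E := τ.toRingHom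
  exact ⟨j.comp τ'⟩

theorem m2_of (hTor : TaskTor) (h : S_M1) (h' : S_RAM) : S_M2 := by
  classical
  intro K _ _ L _ _
  obtain ⟨M, _, _, _, hi⟩ := exists_gal K L
  have hsp := fun k => Pool.Agent.Q154.EL.split hTor M (hi k).some
  choose D1 hD1 hD2 using hsp
  obtain ⟨D, hDdef⟩ : ∃ D : ℕ, D = ∏ k, D1 k := ⟨_, rfl⟩
  have hD0 : 0 < D := by
    rw [hDdef]
    exact Finset.prod_pos fun k _ => hD1 k
  have hD : ∀ l : ℕ, l.Prime → ¬ l ∣ D → Nonempty (𝓞 M →+* ZMod l) → NN L l = dg L := by
    intro l hl hlD hne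
    unfold NN dg
    refine Finset.sum_congr rfl fun k _ => hD2 k l hl ?_ hne
    intro h
    apply hlD
    rw [hDdef]
    exact h.trans (Finset.dvd_prod_of_mem D1 (Finset.mem_univ k))
  obtain ⟨C, hC⟩ := h M (1 / 2) (by norm_num)
  obtain ⟨-, hN⟩ := h' M
  obtain ⟨n, hn⟩ : ∃ n : ℝ, n = Module.finrank ℚ M := ⟨_, rfl⟩
  have hn0 : 0 < n := by
    rw [hn]
    exact_mod_cast Module.finrank_pos
  refine ⟨1 / (2 * n), (C + n * D) / n, by positivity, fun Y hY => ?_⟩
  have h1 := hC Y hY
  -- the primes dividing `D`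
  have h2 : ∑ l ∈ pr Y, (N1 M l : ℝ) / l ≤
      ∑ l ∈ (pr Y).filter (fun l => NN L l = dg L), n * ((1 : ℝ) / l) + n * D := by
    have h3 : ∀ l ∈ pr Y, (N1 M l : ℝ) / l ≤
        (if NN L l = dg L then n * ((1 : ℝ) / l) else 0) +
          (if l ∣ D then n else 0) := by
      intro l hl
      have hlp : l.Prime := (mem_filter.1 hl).2
      have hl1 : (1 : ℝ) ≤ l := by exact_mod_cast hlp.one_le
      have h4 : (N1 M l : ℝ) ≤ n := by
        rw [hn]
        exact_mod_cast hN l hlp
      have h5 : (N1 M l : ℝ) / l ≤ n * ((1 : ℝ) / l) := by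
        rw [mul_one_div]
        gcongr
      have h6 : n * ((1 : ℝ) / l) ≤ n := by
        rw [mul_one_div]
        exact div_le_self hn0.le hl1
      have h7 : 0 ≤ n * ((1 : ℝ) / l) := by positivity
      by_cases h8 : l ∣ D
      · rw [if_pos h8]
        split_ifs <;> linarith
      · rw [if_neg h8, add_zero]
        by_cases h9 : N1 M l = 0
        · rw [h9, Nat.cast_zero, zero_div]
          split_ifs
          · exact h7
          · exact le_rfl
        · rw [if_pos]
          · exact h5
          · refine hD l hlp h8 ?_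
            rw [Pool.Agent.Q154.EL.N1_eq hlp] at h9
            exact (Nat.card_ne_zero.1 h9).1
    calc ∑ l ∈ pr Y, (N1 M l : ℝ) / l ≤ ∑ l ∈ pr Y,
          ((if NN L l = dg L then n * ((1 : ℝ) / l) else 0) +
            (if l ∣ D then n else 0)) := sum_le_sum h3
      _ = ∑ l ∈ (pr Y).filter (fun l => NN L l = dg L), n * ((1 : ℝ) / l) +
          ∑ l ∈ (pr Y).filter (fun l => l ∣ D), n := by
            rw [sum_add_distrib, sum_filter, sum_filter]
      _ ≤ _ := by
            gcongr
            rw [sum_const, nsmul_eq_mul, mul_comm]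
            gcongr
            have h4 : (pr Y).filter (fun l => l ∣ D) ⊆ Nat.divisors D := by
              intro l hl
              rw [Nat.mem_divisors]
              exact ⟨(mem_filter.1 hl).2, hD0.ne'⟩
            exact (card_le_card h4).trans (Nat.card_divisors_le_self D)
  rw [← mul_sum] at h2
  have h3 : (1 - 1 / 2) * Real.log (Real.log Y) - C ≤
      n * ∑ l ∈ (pr Y).filter (fun l => NN L l = dg L), ((1 : ℝ) / l) + n * D :=
    h1.trans h2
  have h4 : 1 / (2 * n) * Real.log (Real.log Y) - (C + n * D) / n =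
      ((1 - 1 / 2) * Real.log (Real.log Y) - C - n * D) / n := by
    field_simp
    ring
  rw [h4, div_le_iff₀ hn0]
  linarith

end Pool.Agent.H29.EM
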