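import Mathlib
import Pool.Agent.H11.V.R_seed8_Erdos456_Mertens

/-!
# The law of the partial sums over primes for almost all points of a box
-/

set_option autoImplicit false

namespace Q282.BP

open Finset

/-- the primes up to `m` -/
abbrev PP (m : ℕ) : Finset ℕ := (Icc 1 m).filter Nat.Prime

/-- the partial sums -/
noncomputable def sm {d : ℕ} (g : ℕ → (Fin d → ℕ) → ℝ) (m : ℕ) (n : Fin d → ℕ) : ℝ := ∑ p ∈ PP m, g p n

lemma sm_sub {d : ℕ} (g : ℕ → (Fin d → ℕ) → ℝ) {a b : ℕ} (hab : a ≤ b) (n : Fin d → ℕ) :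
    sm g b n - sm g a n = ∑ p ∈ (Ioc a b).filter Nat.Prime, g p n := by
  unfold sm
  rw [sub_eq_iff_eq_add]
  have h : PP b = (Ioc a b).filter Nat.Prime ∪ PP a := by
    ext p
    simp only [mem_union, mem_filter, mem_Icc, mem_Ioc]
    constructor
    · rintro ⟨h1, h2⟩
      by_cases h3 : p ≤ a
      · exact Or.inr ⟨⟨h1.1, h3⟩, h2⟩
      · exact Or.inl ⟨⟨by omega, h1.2⟩, h2⟩
    · rintro (⟨h1, h2⟩ | ⟨h1, h2⟩)
      · exact ⟨⟨h2.one_lt.le, h1.2⟩, h2⟩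
      · exact ⟨⟨h1.1, h1.2.trans hab⟩, h2⟩
  rw [h, sum_union]
  rw [disjoint_left]
  intro p hp hp'
  rw [mem_filter, mem_Ioc] at hp
  rw [mem_filter, mem_Icc] at hp'
  omega

/-- the sums of the reciprocals -/
noncomputable def GG (B : ℝ) (m : ℕ) : ℝ := ∑ p ∈ PP m, B ^ 2 / p

lemma GG_mono (B : ℝ) : Monotone (GG B) := by
  intro a b hab
  unfold GG
  refine sum_le_sum_of_subset_of_nonneg ?_ fun p _ _ => by positivity
  intro p hp
  rw [mem_filter, mem_Icc] at hp ⊢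
  exact ⟨⟨hp.1.1, hp.1.2.trans hab⟩, hp.2⟩

lemma GG_sub (B : ℝ) {a b : ℕ} (hab : a ≤ b) : GG B b - GG B a = ∑ p ∈ (Ioc a b).filter Nat.Prime, B ^ 2 / (p : ℝ) :=
  sm_sub (d := 0) (fun p _ => B ^ 2 / (p : ℝ)) hab (fun _ => 0)

lemma GG_zero (B : ℝ) : GG B 0 = 0 := by
  unfold GG
  rw [sum_eq_zero]
  intro p hp
  rw [mem_filter, mem_Icc] at hp
  omega


end Q282.BP
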