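import Mathlib
import Pool.Agent.H11.V.R_seed8_Helper112_LS
import Pool.Agent.H11.V.R_seed8_Helper256_KM_Mertens
import Pool.Agent.H11.V.R_seed8_H341R2_Stepanov
import Pool.Agent.H11.V.R_pool_sql_team_seeded_3997aac3_Q282_BP_Law
import Pool.Agent.H11.V.R_seed8_H474R2_GE_HomsUpper

/-!
# The logarithm of the product as a sum over the rational primes
-/

set_option autoImplicit false

namespace Q282.NF

open Finset NumberField IsDedekindDomain
open Pool.Agent.H921R2.TatePole (below deg nm nm_eq)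

/-- the integral part of the root -/
def rt (f X : ℕ) : ℕ := Nat.findGreatest (fun y => y ^ f ≤ X) X

lemma le_rt {f X y : ℕ} (hf : 1 ≤ f) : y ≤ rt f X ↔ y ^ f ≤ X := by
  constructor
  · intro h
    have h1 : (rt f X) ^ f ≤ X := Nat.findGreatest_spec (P := fun y => y ^ f ≤ X) (m := 0) (Nat.zero_le _) (by
      rw [zero_pow (by omega)]
      exact Nat.zero_le _)
    exact (Nat.pow_le_pow_left h f).trans h1
  · intro h
    exact Nat.le_findGreatest ((Nat.le_self_pow (by omega) y).trans h) h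

variable {K : Type} [Field K] [NumberField K]

lemma deg_le (v : HeightOneSpectrum (𝓞 K)) : deg v ≤ Module.finrank ℚ K := by
  obtain ⟨h1, h2, h3⟩ := nm_eq v
  have hdvd : v.asIdeal ∣ Ideal.span {(((below v : ℕ) : ℕ) : 𝓞 K)} := by
    rw [Ideal.dvd_iff_le, Ideal.span_singleton_le_iff_mem]
    exact h3
  have h4 := map_dvd Ideal.absNorm hdvd
  rw [Ideal.absNorm_span_natCast, RingOfIntegers.rank] at h4
  have h5 : (below v : ℕ) ^ deg v ∣ (below v : ℕ) ^ Module.finrank ℚ K := by
    rw [← h1]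
    exact h4
  exact (Nat.pow_dvd_pow_iff_le_right (below v).prop.one_lt).1 h5

lemma norm_eq (v : HeightOneSpectrum (𝓞 K)) : Ideal.absNorm v.asIdeal = (below v : ℕ) ^ deg v := (nm_eq v).1

lemma fin_le (X : ℕ) : {v : HeightOneSpectrum (𝓞 K) | Ideal.absNorm v.asIdeal ≤ X}.Finite := by
  have h1 : ({I : Ideal (𝓞 K) | Ideal.absNorm I ≤ X}).Finite := Ideal.finite_setOfPred_absNorm_le X
  refine Set.Finite.of_finite_image (f := fun v : HeightOneSpectrum (𝓞 K) => v.asIdeal) (h1.subset ?_) ?_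
  · rintro _ ⟨v, hv, rfl⟩
    exact hv
  · intro v _ w _ h
    exact HeightOneSpectrum.ext h

end Q282.NF
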