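import Mathlib
import Pool.Agent.H11.V.R_pool_sql_team_seeded_3997aac3_Q282_NF_Sum

/-!
# The local means over the rational primes
-/

set_option autoImplicit false

namespace Q282.NF

open Finset NumberField IsDedekindDomain
open Pool.Agent.H921R2.TatePole (below deg nm nm_eq)

variable {K : Type} [Field K] [NumberField K]

lemma fib_card (p : Nat.Primes) : (Fintype.card {v : HeightOneSpectrum (𝓞 K) // below v = p} : ℝ) ≤ Module.finrank ℚ K := by
  exact_mod_cast Pool.Agent.H921R2.TatePole.fiber_card_le (K := K) p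




/-- the number of the primes of degree one -/
noncomputable def nu (K : Type) [Field K] [NumberField K] (p : ℕ) : ℝ := (Nat.card (𝓞 K →+* ZMod p) : ℝ)

lemma nu_eq (p : Nat.Primes) : nu K p = (Pool.Agent.H921R2.TatePole.R K p : ℝ) := by
  unfold nu
  rw [Pool.Agent.H921R2.TatePole.R_eq_hc]
  rfl

lemma nu_sum (K : Type) [Field K] [NumberField K] : ∃ M : ℝ, 0 ≤ M ∧ ∀ X : ℕ, 3 ≤ X →
    |∑ p ∈ BP.PP X, nu K p / p - Real.log (Real.log X)| ≤ M := by
  obtain ⟨C1, h1⟩ := Pool.Agent.H474R2.PG.homs_lower K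
  obtain ⟨C2, h2⟩ := Pool.Agent.H474R2.GE.homs_upper K
  refine ⟨max |C1| |C2|, le_max_of_le_left (abs_nonneg _), fun X hX => ?_⟩
  have hX' : (3 : ℝ) ≤ X := by exact_mod_cast hX
  have h3 := h1 X hX'
  have h4 := h2 X hX'
  have e : Pool.Agent.H474R2.PG.PR (X : ℝ) = BP.PP X := by
    unfold Pool.Agent.H474R2.PG.PR BP.PP
    rw [Nat.floor_natCast]
  rw [e] at h3 h4
  have e2 : ∑ p ∈ BP.PP X, nu K p / p = ∑ p ∈ BP.PP X, (Nat.card (𝓞 K →+* ZMod p) : ℝ) / (p : ℝ) := rfl
  rw [e2, abs_le]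
  have h5 := le_abs_self C1
  have h6 := le_abs_self C2
  have h7 := le_max_left |C1| |C2|
  have h8 := le_max_right |C1| |C2|
  constructor <;> linarith

/-- the local means -/
noncomputable def mu (K : Type) [Field K] [NumberField K] (r f p : ℕ) : ℝ := if f = 1 then (r + 1 / 2) * (nu K p / p) else 0


end Q282.NF
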