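import Mathlib
import Pool.Agent.H11.V.R_seed8_H484R2_Zeta

/-!
# The logarithmic derivative of the Dedekind zeta function near `s = 1`
-/

set_option autoImplicit false

open NumberField Complex Filter Topology Ideal

namespace Pool.Agent.Y772.NZ


open Classical in
/-- the trivial character -/
noncomputable def one (K : Type) [Field K] [NumberField K] : Ideal (𝓞 K) →*₀ ℂ where
  toFun 𝔞 := if 𝔞 = 0 then 0 else 1
  map_zero' := if_pos rfl
  map_one' := if_neg one_ne_zero
  map_mul' 𝔞 𝔟 := by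
    by_cases h1 : 𝔞 = 0
    · rw [h1, zero_mul, if_pos rfl, zero_mul]
    · by_cases h2 : 𝔟 = 0
      · rw [h2, mul_zero, if_pos rfl, mul_zero]
      · rw [if_neg h1, if_neg h2, if_neg (mul_ne_zero h1 h2), one_mul]

variable (K : Type) [Field K] [NumberField K]

lemma one_ne {𝔞 : Ideal (𝓞 K)} (h : 𝔞 ≠ 0) : one K 𝔞 = 1 := if_neg h

lemma one_norm (𝔞 : Ideal (𝓞 K)) : ‖one K 𝔞‖ ≤ 1 := by
  by_cases h : 𝔞 = 0
  · rw [h, map_zero]; simp
  · rw [one_ne K h]; simp





end Pool.Agent.Y772.NZ
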