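import Mathlib
import Pool.Agent.H11.V.R_seed8_Y772_NZ_Zeta
import Pool.Agent.H11.V.R_seed8_H484R2_Zeta
import Pool.Agent.H11.V.R_pool_sql_team_seeded_3997aac3_Q282_NF_Means

/-!
# Mertens' theorem for the primes of degree one of a number field
-/

set_option autoImplicit false

namespace Q282.MN

open Finset NumberField IsDedekindDomain Filter Topology
open Q282.NF
open Q282.BP (PP)
open Pool.Agent.H921R2.TatePole (below deg nm nm_eq)
open Pool.Agent.Y772.NZ

variable (K : Type) [Field K] [NumberField K]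

/-- the number of the ideals of norm `p` -/
lemma card_norm (p : Nat.Primes) : (nu K p : ℝ) = ((Ideal.finite_setOfPred_absNorm_eq (S := 𝓞 K) p).toFinset.card : ℝ) := by
  classical
  have h1 := nu_eq (K := K) p
  rw [h1]
  unfold Pool.Agent.H921R2.TatePole.R
  congr 1
  refine card_bij (fun v _ => v.1.asIdeal) ?_ ?_ ?_
  · rintro ⟨v, hv⟩ h
    rw [mem_filter] at h
    rw [Set.Finite.mem_toFinset]
    show Ideal.absNorm v.asIdeal = p
    have h2 : deg v = 1 := h.2
    rw [norm_eq, hv, h2, pow_one]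
  · rintro ⟨v, hv⟩ _ ⟨w, hw⟩ _ h
    exact Subtype.ext (HeightOneSpectrum.ext h)
  · intro 𝔞 h
    rw [Set.Finite.mem_toFinset] at h
    have h3 : Ideal.absNorm 𝔞 = p := h
    have h4 : 𝔞.IsPrime := Ideal.isPrime_of_irreducible_absNorm (by rw [h3]; exact p.prop)
    have h5 : 𝔞 ≠ ⊥ := by
      rintro rfl
      rw [Ideal.absNorm_bot] at h3
      exact p.prop.ne_zero h3.symm
    have h6 : (((p : ℕ) : ℕ) : 𝓞 K) ∈ 𝔞 := by
      have := Ideal.absNorm_mem 𝔞
      rw [h3] at this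
      exact this
    have h7 : below (⟨𝔞, h4, h5⟩ : HeightOneSpectrum (𝓞 K)) = p := Pool.Agent.H921R2.TatePole.below_eq_of_mem h6
    refine ⟨⟨⟨𝔞, h4, h5⟩, h7⟩, ?_, rfl⟩
    rw [mem_filter]
    refine ⟨mem_univ _, ?_⟩
    have h8 := norm_eq (⟨𝔞, h4, h5⟩ : HeightOneSpectrum (𝓞 K))
    rw [h7] at h8
    have h9 : Ideal.absNorm (⟨𝔞, h4, h5⟩ : HeightOneSpectrum (𝓞 K)).asIdeal = p := h3
    rw [h9] at h8
    have h10 : (p : ℕ) ^ 1 = (p : ℕ) ^ deg (⟨𝔞, h4, h5⟩ : HeightOneSpectrum (𝓞 K)) := by rw [pow_one]; exact h8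
    exact (Nat.pow_right_injective p.prop.two_le h10).symm


/-- the sum of `log p / p` over the primes of degree one -/
noncomputable def A1 (n : ℕ) : ℝ := ∑ p ∈ PP n, nu K p * (Real.log p / p)

/-- the sum of `log p ^ 2 / p` over the primes of degree one -/
noncomputable def A2 (n : ℕ) : ℝ := ∑ p ∈ PP n, nu K p * (Real.log p ^ 2 / p)


lemma PP_succ (n : ℕ) (F : ℕ → ℝ) : ∑ p ∈ PP (n + 1), F p = ∑ p ∈ PP n, F p + if (n + 1).Prime then F (n + 1) else 0 := by
  classical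
  unfold BP.PP
  rw [sum_filter, sum_filter, sum_Icc_succ_top (by omega)]

/-- partial summation -/
lemma abel (n : ℕ) : A2 K (n + 1) = A1 K (n + 1) * Real.log (n + 1 : ℕ) - ∑ m ∈ range n, A1 K (m + 1) * (Real.log (m + 2 : ℕ) - Real.log (m + 1 : ℕ)) := by
  induction n with
  | zero =>
    unfold A2 A1 BP.PP
    simp [sum_filter, Nat.not_prime_one]
  | succ n ih =>
    rw [sum_range_succ, show n + 1 + 1 = (n + 1) + 1 from rfl]
    have e1 : A2 K (n + 1 + 1) = A2 K (n + 1) + (if (n + 1 + 1).Prime then nu K (n + 1 + 1 : ℕ) * (Real.log (n + 1 + 1 : ℕ) ^ 2 / (n + 1 + 1 : ℕ)) else 0) := by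
      unfold A2
      exact PP_succ (n + 1) _
    have e2 : A1 K (n + 1 + 1) = A1 K (n + 1) + (if (n + 1 + 1).Prime then nu K (n + 1 + 1 : ℕ) * (Real.log (n + 1 + 1 : ℕ) / (n + 1 + 1 : ℕ)) else 0) := by
      unfold A1
      exact PP_succ (n + 1) _
    rw [e1, ih, e2]
    have e3 : n + 2 = n + 1 + 1 := rfl
    rw [e3]
    split_ifs <;> ring

lemma tele (n : ℕ) : ∑ m ∈ range n, ((1 : ℝ) / (m + 1) - 1 / (m + 2)) = 1 - 1 / (n + 1) := by
  induction n with
  | zero => simp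
  | succ n ih =>
    rw [sum_range_succ, ih]
    push_cast
    field_simp
    ring

/-- the sum of the squares of the logarithms -/
lemma abel_log (n : ℕ) : |∑ m ∈ range n, Real.log (m + 1 : ℕ) * (Real.log (m + 2 : ℕ) - Real.log (m + 1 : ℕ)) - Real.log (n + 1 : ℕ) ^ 2 / 2| ≤ 1 := by
  have h1 : ∑ m ∈ range n, Real.log (m + 1 : ℕ) * (Real.log (m + 2 : ℕ) - Real.log (m + 1 : ℕ)) - Real.log (n + 1 : ℕ) ^ 2 / 2 =
      -(1 / 2) * ∑ m ∈ range n, (Real.log (m + 2 : ℕ) - Real.log (m + 1 : ℕ)) ^ 2 := by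
    induction n with
    | zero => simp
    | succ n ih =>
      rw [sum_range_succ, sum_range_succ, mul_add, ← ih]
      have e3 : n + 2 = n + 1 + 1 := rfl
      rw [e3]
      ring
  have h2 : ∀ m : ℕ, (Real.log (m + 2 : ℕ) - Real.log (m + 1 : ℕ)) ^ 2 ≤ 1 / (m + 1) - 1 / (m + 2) + (1 / (m + 1) ^ 2 - 1 / (m + 1) + 1 / (m + 2)) := by
    intro m
    have h3 : 0 ≤ Real.log (m + 2 : ℕ) - Real.log (m + 1 : ℕ) := by
      rw [sub_nonneg]
      refine Real.log_le_log (by positivity) ?_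
      push_cast
      linarith
    have h4 : Real.log (m + 2 : ℕ) - Real.log (m + 1 : ℕ) ≤ 1 / (m + 1) := by
      rw [← Real.log_div (by positivity) (by positivity)]
      refine (Real.log_le_sub_one_of_pos (by positivity)).trans (le_of_eq ?_)
      push_cast
      field_simp
      ring
    have h5 := pow_le_pow_left₀ h3 h4 2
    rw [div_pow, one_pow] at h5
    linarith
  have h3 : ∑ m ∈ range n, (Real.log (m + 2 : ℕ) - Real.log (m + 1 : ℕ)) ^ 2 ≤ 2 := by
    have h4 : ∀ m ∈ range n, (Real.log (m + 2 : ℕ) - Real.log (m + 1 : ℕ)) ^ 2 ≤ 2 * (1 / (m + 1) - 1 / (m + 2)) := by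
      intro m _
      have h5 := h2 m
      have h6 : (1 : ℝ) / (m + 1) ^ 2 ≤ 2 * (1 / (m + 1) - 1 / (m + 2)) := by
        have e : 2 * (1 / ((m : ℝ) + 1) - 1 / (m + 2)) = 2 / ((m + 1) * (m + 2)) := by
          field_simp
          ring
        rw [e, div_le_div_iff₀ (by positivity) (by positivity)]
        have : (0 : ℝ) ≤ m := Nat.cast_nonneg m
        nlinarith
      linarith
    refine (sum_le_sum h4).trans ?_
    rw [← mul_sum]
    rw [tele]
    have : (0 : ℝ) ≤ 1 / (n + 1) := by positivity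
    linarith
  have h4 : 0 ≤ ∑ m ∈ range n, (Real.log (m + 2 : ℕ) - Real.log (m + 1 : ℕ)) ^ 2 := sum_nonneg fun m _ => sq_nonneg _
  rw [h1, abs_le]
  constructor <;> linarith


end Q282.MN
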