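import Mathlib
import Pool.Agent.H11.V.R_pool_sql_team_seeded_3997aac3_Q51_EL_Stm
import Pool.Agent.H11.V.R_pool_sql_team_seeded_3997aac3_Q282_MN_Mert

set_option autoImplicit false

/-!
Project EL (helper51), job M1: Mertens' theorem for the primes of degree one.
-/

namespace Pool.Agent.Q247.EL

open Finset NumberField IsDedekindDomain
open Pool.Agent.Q51.EL

theorem N1_nu (L : Type) [Field L] [NumberField L] (l : ℕ) (hl : l.Prime) :
    (N1 L l : ℝ) = Q282.NF.nu L l := by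
  classical
  have h := Q282.MN.card_norm L ⟨l, hl⟩
  have h' : Q282.NF.nu L l =
      ((Ideal.finite_setOfPred_absNorm_eq (S := 𝓞 L) l).toFinset.card : ℝ) := h
  rw [h']
  congr 1
  unfold N1
  rw [← Nat.card_eq_card_finite_toFinset]
  refine Nat.card_congr
    { toFun := fun v => ⟨v.1.asIdeal, v.2⟩
      invFun := fun I => ⟨⟨I.1, Ideal.isPrime_of_irreducible_absNorm (by
          have h3 : Ideal.absNorm I.1 = l := I.2
          rw [h3]
          exact hl), by
          intro h0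
          have h3 : Ideal.absNorm I.1 = l := I.2
          rw [h0, Ideal.absNorm_bot] at h3
          exact hl.ne_zero h3.symm⟩, I.2⟩
      left_inv := fun v => rfl
      right_inv := fun I => rfl }

theorem m1 : S_M1 := by
  intro L _ _ ε hε
  obtain ⟨M, hM0, hM⟩ := Q282.NF.nu_sum L
  refine ⟨M + Real.log 2, fun Y hY => ?_⟩
  have hfl : 3 ≤ ⌊Y⌋₊ := Nat.le_floor (by exact_mod_cast hY)
  have h1 := hM ⌊Y⌋₊ hfl
  have h2 : ∑ l ∈ pr Y, (N1 L l : ℝ) / l = ∑ p ∈ Q282.BP.PP ⌊Y⌋₊, Q282.NF.nu L p / p := by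
    unfold pr Q282.BP.PP
    refine sum_congr rfl fun p hp => ?_
    rw [N1_nu L p (mem_filter.1 hp).2]
  rw [h2]
  have h3 := (abs_le.1 h1).1
  have hfl' : (3 : ℝ) ≤ (⌊Y⌋₊ : ℝ) := by exact_mod_cast hfl
  have hY2 : Y < (⌊Y⌋₊ : ℝ) + 1 := Nat.lt_floor_add_one Y
  have hlog3 : 1 < Real.log 3 := by
    rw [Real.lt_log_iff_exp_lt (by norm_num)]
    exact Real.exp_one_lt_d9.trans (by norm_num)
  have hl1 : 1 < Real.log ⌊Y⌋₊ := hlog3.trans_le (Real.log_le_log (by norm_num) hfl')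
  have hl2 : Real.log Y ≤ 2 * Real.log ⌊Y⌋₊ := by
    have : Real.log Y ≤ Real.log ((⌊Y⌋₊ : ℝ) ^ 2) := Real.log_le_log (by linarith) (by nlinarith)
    rw [Real.log_pow] at this
    exact_mod_cast this
  have hl3 : 1 < Real.log Y := hlog3.trans_le (Real.log_le_log (by norm_num) hY)
  have hl4 : Real.log (Real.log Y) ≤ Real.log 2 + Real.log (Real.log ⌊Y⌋₊) := by
    rw [← Real.log_mul (by norm_num) (by linarith)]
    exact Real.log_le_log (by linarith) hl2
  have hl5 : 0 ≤ Real.log (Real.log Y) := Real.log_nonneg hl3.le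
  have hl6 : 0 ≤ ε * Real.log (Real.log Y) := by positivity
  nlinarith

end Pool.Agent.Q247.EL
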