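import Mathlib
import Pool.Agent.H11.V.R_pool_sql_team_seeded_3997aac3_Q51_EL_Stm
import Pool.Agent.H11.V.R_seed8_H58P_Rad

/-!
# Project EL, jobs RAM, CH, TY, GG
-/

set_option autoImplicit false
set_option linter.deprecated false

namespace Pool.Agent.Q91.EL

open Pool.Agent.Q51.EL Polynomial NumberField IsDedekindDomain Finset

/-! ### RAM -/

lemma abv_liesOver {L : Type} [Field L] [NumberField L] {v : HeightOneSpectrum (𝓞 L)} {l : ℕ}
    (hl : l.Prime) (h : Abv v l) : v.asIdeal.LiesOver (Ideal.span {(l : ℤ)}) := by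
  have ha' : Prime (l : ℤ) := Nat.prime_iff_prime_int.mp hl
  have hamem : ((l : ℤ) : 𝓞 L) ∈ v.asIdeal := by
    rw [Int.cast_natCast]; exact h
  exact (Ideal.liesOver_span_iff v.isPrime.ne_top ha').mpr hamem

/-- integers in a prime above `l` are divisible by `l` -/
lemma int_mem {L : Type} [Field L] [NumberField L] {v : HeightOneSpectrum (𝓞 L)} {l : ℕ}
    (hl : l.Prime) (h : Abv v l) {r : ℤ} (hr : (r : 𝓞 L) ∈ v.asIdeal) : (l : ℤ) ∣ r := by
  by_contra hd
  have h1 : IsCoprime (l : ℤ) r :=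
    (Nat.prime_iff_prime_int.mp hl).coprime_iff_not_dvd.2 hd
  obtain ⟨a, b, hab⟩ := h1
  refine v.isPrime.ne_top ((Ideal.eq_top_iff_one _).2 ?_)
  have h2 : (1 : 𝓞 L) = (a : 𝓞 L) * (l : 𝓞 L) + (b : 𝓞 L) * (r : 𝓞 L) := by
    exact_mod_cast hab.symm
  rw [h2]
  exact v.asIdeal.add_mem (v.asIdeal.mul_mem_left _ h) (v.asIdeal.mul_mem_left _ hr)

lemma mem_int {L : Type} [Field L] [NumberField L] {v : HeightOneSpectrum (𝓞 L)} {l : ℕ}
    (h : Abv v l) {r : ℤ} (hr : (l : ℤ) ∣ r) : (r : 𝓞 L) ∈ v.asIdeal := by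
  obtain ⟨k, rfl⟩ := hr
  push_cast
  exact v.asIdeal.mul_mem_right _ h

lemma abv_of_norm {L : Type} [Field L] [NumberField L] {v : HeightOneSpectrum (𝓞 L)} {l : ℕ}
    (h : Ideal.absNorm v.asIdeal = l) : Abv v l := by
  have := Ideal.absNorm_mem v.asIdeal
  rw [h] at this
  exact this

theorem ram : S_RAM := by
  intro L _ _
  refine ⟨⟨(discr L).natAbs, by simpa using discr_ne_zero L, fun l hl h =>
    Pool.Agent.H58P.squarefree_span l hl (fun h' => h (Int.natCast_dvd.1 h'))⟩, ?_⟩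
  intro l hl
  have hl' : Prime (l : ℤ) := Nat.prime_iff_prime_int.mp hl
  have hp0 : (Ideal.span {(l : ℤ)} : Ideal ℤ) ≠ ⊥ := by
    rw [Ne, Ideal.span_singleton_eq_bot]; exact hl'.ne_zero
  have : (Ideal.span {(l : ℤ)} : Ideal ℤ).IsMaximal :=
    PrincipalIdealRing.isMaximal_of_irreducible hl'.irreducible
  have h1 := Ideal.card_primesOverFinset_le_finrank (𝓞 L) ℚ L hp0
  refine le_trans ?_ h1
  unfold N1
  let F : {v : HeightOneSpectrum (𝓞 L) // Ideal.absNorm v.asIdeal = l} →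
      {P : Ideal (𝓞 L) // P ∈ IsDedekindDomain.primesOverFinset (Ideal.span {(l : ℤ)}) (𝓞 L)} :=
    fun v => ⟨v.1.asIdeal, (IsDedekindDomain.mem_primesOverFinset_iff hp0 _).mpr
      ⟨v.1.isPrime, abv_liesOver hl (abv_of_norm v.2)⟩⟩
  have hF : Function.Injective F := by
    intro v w h
    have h2 : v.1.asIdeal = w.1.asIdeal := congrArg Subtype.val h
    exact Subtype.ext (HeightOneSpectrum.ext h2)
  have h3 := Nat.card_le_card_of_injective F hF
  rw [Nat.card_eq_fintype_card (α := {P : Ideal (𝓞 L) // P ∈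
    IsDedekindDomain.primesOverFinset (Ideal.span {(l : ℤ)}) (𝓞 L)}), Fintype.card_coe] at h3
  exact h3

/-! ### TY -/

theorem ty : S_TY := by
  intro L _ _ B t l hl hB
  refine ⟨?_, ?_⟩
  · intro β hβ
    rcases hβ l hl hB with h | ⟨v0, h1, h2, h3, h4, -⟩
    · exact Or.inl h
    · exact Or.inr ⟨v0, h1, h2, h3, h4⟩
  · intro β hβ β' hβ' v0 hv0 hm hm'
    have key : ∀ β : 𝓞 L, Good B t β → β ∈ v0.asIdeal → ∃ c r : ℤ, ¬ (l : ℤ) ∣ c ∧
        t - (r : 𝓞 L) ∈ v0.asIdeal ∧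
        ∀ v : HeightOneSpectrum (𝓞 L), Abv v l → v ≠ v0 →
          ∃ g : 𝓞 L, (c : 𝓞 L) * β - ((r : 𝓞 L) - t) * g ^ 2 ∈ v.asIdeal := by
      intro β hβ hm
      rcases hβ l hl hB with h | ⟨v1, h1, h2, h3, h4, c, r, h5, h6, h7⟩
      · exact absurd hm (h v0 hv0)
      · have hv : v0 = v1 := by
          by_contra hne
          exact h4 v0 hv0 hne hm
        subst hv
        exact ⟨c, r, h5, h6, h7⟩
    obtain ⟨c, r, k1, k2, k3⟩ := key β hβ hm
    obtain ⟨c', r', k1', k2', k3'⟩ := key β' hβ' hm'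
    have hr : (l : ℤ) ∣ r' - r := by
      refine int_mem hl hv0 ?_
      have : ((r' - r : ℤ) : 𝓞 L) = (t - (r : 𝓞 L)) - (t - (r' : 𝓞 L)) := by push_cast; ring
      rw [this]
      exact v0.asIdeal.sub_mem k2 k2'
    refine ⟨c * c', fun h => ?_, fun v hv hne => ?_⟩
    · rcases (Nat.prime_iff_prime_int.mp hl).dvd_or_dvd h with h | h
      · exact k1 h
      · exact k1' h
    · obtain ⟨g, hg⟩ := k3 v hv hne
      obtain ⟨g', hg'⟩ := k3' v hv hne
      refine ⟨((r : 𝓞 L) - t) * g * g', ?_⟩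
      have hrv := mem_int hv hr
      have e : ((c * c' : ℤ) : 𝓞 L) * β * β' - (((r : 𝓞 L) - t) * g * g') ^ 2 =
          ((r : 𝓞 L) - t) * g ^ 2 * g' ^ 2 * ((r' - r : ℤ) : 𝓞 L) +
          ((r : 𝓞 L) - t) * g ^ 2 * ((c' : 𝓞 L) * β' - ((r' : 𝓞 L) - t) * g' ^ 2) +
          (c' : 𝓞 L) * β' * ((c : 𝓞 L) * β - ((r : 𝓞 L) - t) * g ^ 2) := by
        push_cast; ring
      rw [e]
      exact v.asIdeal.add_mem (v.asIdeal.add_mem (v.asIdeal.mul_mem_left _ hrv)
        (v.asIdeal.mul_mem_left _ hg')) (v.asIdeal.mul_mem_left _ hg)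

/-! ### CH -/

/-- `f` divides the polynomials which vanish at `θ` -/
lemma setup_dvd {f : ℤ[X]} {L : Type} [Field L] [NumberField L] {θ : L} (h : Setup f L θ)
    {p : ℚ[X]} (hp : aeval θ p = 0) : f.map (Int.castRingHom ℚ) ∣ p := by
  have h0 : aeval θ (f.map (Int.castRingHom ℚ)) = 0 := by
    have := h.root
    rw [← Polynomial.aeval_map_algebraMap ℚ θ f] at this
    exact this
  have h1 : minpoly ℚ θ ∣ f.map (Int.castRingHom ℚ) := minpoly.dvd ℚ θ h0
  have h2 : Irreducible (minpoly ℚ θ) := minpoly.irreducible (Algebra.IsIntegral.isIntegral θ)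
  have h3 : Associated (minpoly ℚ θ) (f.map (Int.castRingHom ℚ)) :=
    h2.associated_of_dvd h.irr h1
  exact h3.symm.dvd.trans (minpoly.dvd ℚ θ hp)

theorem ch : S_CH := by
  intro f L _ _ θ hS d d' η c hc hη hd F _ _ hcov
  obtain ⟨x, w, g, hxw, hdvd⟩ := hcov
  have h1 : f.map (Int.castRingHom ℚ) ∣ d' - C c * d * η ^ 2 := by
    refine setup_dvd hS ?_
    rw [map_sub, map_mul, map_mul, map_pow, aeval_C, hd]
    simp
  have h2 : IsCoprime (f.map (Int.castRingHom ℚ)) η := by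
    rw [hS.irr.coprime_iff_not_dvd]
    rintro ⟨q, hq⟩
    apply hη
    have h0 : aeval θ (f.map (Int.castRingHom ℚ)) = 0 := by
      have := hS.root
      rw [← Polynomial.aeval_map_algebraMap ℚ θ f] at this
      exact this
    rw [hq, map_mul, h0, zero_mul]
  obtain ⟨u, ζ, huζ⟩ := h2
  obtain ⟨q, hq⟩ := h1
  obtain ⟨s, hs⟩ := hdvd
  have hmap : (f.map (Int.castRingHom ℚ)).map (Rat.castHom F) = f.map (Int.castRingHom F) := by
    rw [Polynomial.map_map]
    congr 1
    exact RingHom.ext_int _ _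
  have hq' : d'.map (Rat.castHom F) = C (c : F) * d.map (Rat.castHom F) *
      η.map (Rat.castHom F) ^ 2 + f.map (Int.castRingHom F) * q.map (Rat.castHom F) := by
    have : d' = C c * d * η ^ 2 + f.map (Int.castRingHom ℚ) * q := by rw [← hq]; ring
    rw [this, Polynomial.map_add, Polynomial.map_mul, Polynomial.map_mul, Polynomial.map_pow,
      Polynomial.map_mul, hmap, Polynomial.map_C]
    rfl
  have hu' : u.map (Rat.castHom F) * f.map (Int.castRingHom F) +
      ζ.map (Rat.castHom F) * η.map (Rat.castHom F) = 1 := by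
    have := congrArg (Polynomial.map (Rat.castHom F)) huζ
    rwa [Polynomial.map_add, Polynomial.map_mul, Polynomial.map_mul, hmap,
      Polynomial.map_one] at this
  have hc' : (c : F) ≠ 0 := by exact_mod_cast hc
  refine ⟨c * x, c * w, ζ.map (Rat.castHom F) * g, ?_, ?_⟩
  · rcases hxw with h | h
    · exact Or.inl (mul_ne_zero hc' h)
    · exact Or.inr (mul_ne_zero hc' h)
  · set fF := f.map (Int.castRingHom F)
    set dF := d.map (Rat.castHom F)
    set ηF := η.map (Rat.castHom F)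
    set ζF := ζ.map (Rat.castHom F)
    set uF := u.map (Rat.castHom F)
    set qF := q.map (Rat.castHom F)
    have e1 : ζF * ηF = 1 - uF * fF := by rw [← hu']; ring
    have e2 : dF * g ^ 2 = C x - C w * X - fF * s := by rw [← hs]; ring
    rw [hq', C_mul, C_mul]
    refine ⟨C (c : F) * s + C (c : F) * (dF * g ^ 2) * uF * (2 - uF * fF) - qF * (ζF * g) ^ 2, ?_⟩
    have e3 : (C (c : F) * dF * ηF ^ 2 + fF * qF) * (ζF * g) ^ 2 =
        C (c : F) * (dF * g ^ 2) * (ζF * ηF) ^ 2 + fF * qF * (ζF * g) ^ 2 := by ring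
    rw [e3, e1, e2]
    ring

/-! ### GG -/

/-- a prime which is the norm of a prime of `L` divides a value of `f` -/
lemma root_of_norm {f : ℤ[X]} {L : Type} [Field L] [NumberField L] {θ : L} (hS : Setup f L θ)
    {l : ℕ} (hl : l.Prime) (ha : ¬ (l : ℤ) ∣ f.leadingCoeff) (v : HeightOneSpectrum (𝓞 L))
    (hv : Ideal.absNorm v.asIdeal = l) : ∃ r : ℤ, (l : ℤ) ∣ f.eval r := by
  have habv := abv_of_norm hv
  set a := f.leadingCoeff with hadef
  set n := f.natDegree with hn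
  -- a θ is integral
  have hint : IsIntegral ℤ ((a : L) * θ) := by
    have := isIntegral_leadingCoeff_smul f θ hS.root
    rwa [zsmul_eq_mul] at this
  set t : 𝓞 L := ⟨(a : L) * θ, hint⟩ with ht
  have htL : (t : L) = (a : L) * θ := rfl
  -- the residue field has l elements
  have hsurj : ∃ r0 : ℤ, t - (r0 : 𝓞 L) ∈ v.asIdeal := by
    have hcard : Nat.card (𝓞 L ⧸ v.asIdeal) = l := by
      rw [← hv, Ideal.absNorm_apply, Submodule.cardQuot_apply]
    have : Fact l.Prime := ⟨hl⟩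
    have : Finite (𝓞 L ⧸ v.asIdeal) := Nat.finite_of_card_ne_zero (by
      rw [hcard]; exact hl.ne_zero)
    have : Nontrivial (𝓞 L ⧸ v.asIdeal) := Ideal.Quotient.nontrivial_iff.2 v.isPrime.ne_top
    have h1 : (1 : 𝓞 L ⧸ v.asIdeal) ≠ 0 := one_ne_zero
    have h2 := mem_zmultiples_of_prime_card (G := 𝓞 L ⧸ v.asIdeal) (p := l) hcard
      (g := 1) (g' := Ideal.Quotient.mk v.asIdeal t) h1
    obtain ⟨k, hk⟩ := h2
    refine ⟨k, ?_⟩
    rw [← Ideal.Quotient.eq, ← hk]
    simp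
  obtain ⟨r0, hr0⟩ := hsurj
  -- the equation for t
  have hS0 : ∑ i ∈ range (n + 1), (f.coeff i : 𝓞 L) * (a : 𝓞 L) ^ (n - i) * t ^ i = 0 := by
    apply RingOfIntegers.coe_injective (K := L)
    have e : ∀ i ∈ range (n + 1), (f.coeff i : L) * (a : L) ^ (n - i) * ((a : L) * θ) ^ i =
        (a : L) ^ n * ((f.coeff i : L) * θ ^ i) := by
      intro i hi
      have hi' : i ≤ n := by rw [mem_range] at hi; omega
      have : (a : L) ^ n = (a : L) ^ (n - i) * (a : L) ^ i := by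
        rw [← pow_add]; congr 1; omega
      rw [this, mul_pow]; ring
    have h3 := hS.root
    rw [aeval_eq_sum_range] at h3
    simp only [zsmul_eq_mul] at h3
    have h4 : ((∑ i ∈ range (n + 1), (f.coeff i : 𝓞 L) * (a : 𝓞 L) ^ (n - i) * t ^ i : 𝓞 L) : L)
        = ∑ i ∈ range (n + 1), (f.coeff i : L) * (a : L) ^ (n - i) * ((a : L) * θ) ^ i := by
      push_cast
      rfl
    rw [map_zero]
    refine h4.trans ?_
    rw [Finset.sum_congr rfl e, ← Finset.mul_sum, h3, mul_zero]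
  -- reduce modulo v
  have hZ : (l : ℤ) ∣ ∑ i ∈ range (n + 1), f.coeff i * a ^ (n - i) * r0 ^ i := by
    refine int_mem hl habv ?_
    rw [← Ideal.Quotient.eq_zero_iff_mem]
    have h5 : Ideal.Quotient.mk v.asIdeal t = Ideal.Quotient.mk v.asIdeal (r0 : 𝓞 L) :=
      Ideal.Quotient.eq.2 hr0
    have h6 := congrArg (Ideal.Quotient.mk v.asIdeal) hS0
    rw [map_sum, map_zero] at h6
    rw [← h6]
    push_cast
    rw [map_sum]
    refine Finset.sum_congr rfl fun i _ => ?_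
    rw [map_mul, map_mul, map_mul, map_mul, map_pow (Ideal.Quotient.mk v.asIdeal) t, h5]
    simp
  -- divide by a
  have hcop : IsCoprime a (l : ℤ) :=
    ((Nat.prime_iff_prime_int.mp hl).coprime_iff_not_dvd.2 ha).symm
  obtain ⟨b, k, hbk⟩ := hcop
  refine ⟨b * r0, ?_⟩
  have hl' := Nat.prime_iff_prime_int.mp hl
  have h7 : (l : ℤ) ∣ a ^ n * f.eval (b * r0) := by
    have h8 : a ^ n * f.eval (b * r0) = ∑ i ∈ range (n + 1), f.coeff i * a ^ (n - i) *
        (a * (b * r0)) ^ i := by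
      rw [eval_eq_sum_range, Finset.mul_sum]
      refine Finset.sum_congr rfl fun i hi => ?_
      have hi' : i ≤ n := by rw [mem_range] at hi; omega
      have : a ^ n = a ^ (n - i) * a ^ i := by rw [← pow_add]; congr 1; omega
      rw [this, mul_pow]; ring
    have h9 : ∀ i, (l : ℤ) ∣ (a * (b * r0)) ^ i - r0 ^ i := by
      intro i
      refine dvd_trans ?_ (sub_dvd_pow_sub_pow _ _ i)
      refine ⟨-(k * r0), ?_⟩
      have : a * (b * r0) = (b * a) * r0 := by ring
      rw [this, show b * a = 1 - k * l by rw [← hbk]; ring]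
      ring
    have h10 : (l : ℤ) ∣ ∑ i ∈ range (n + 1), f.coeff i * a ^ (n - i) *
        ((a * (b * r0)) ^ i - r0 ^ i) :=
      Finset.dvd_sum fun i _ => dvd_mul_of_dvd_right (h9 i) _
    rw [h8]
    have h11 : ∑ i ∈ range (n + 1), f.coeff i * a ^ (n - i) * (a * (b * r0)) ^ i =
        ∑ i ∈ range (n + 1), f.coeff i * a ^ (n - i) * ((a * (b * r0)) ^ i - r0 ^ i) +
        ∑ i ∈ range (n + 1), f.coeff i * a ^ (n - i) * r0 ^ i := by
      rw [← Finset.sum_add_distrib]
      exact Finset.sum_congr rfl fun i _ => by ring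
    rw [h11]
    exact dvd_add h10 hZ
  rcases hl'.dvd_or_dvd h7 with h | h
  · exact absurd (hl'.dvd_of_dvd_pow h) ha
  · exact h

open Classical in
lemma Gf_eq (f : ℤ[X]) (Y : ℝ) :
    Gf f Y = ∑ q ∈ (pr Y).filter (fun q : ℕ => ∃ r : ℤ, (q : ℤ) ∣ f.eval r), (1 : ℝ) / q := by
  unfold Gf
  symm
  refine Finset.sum_bij (fun (q : ℕ) _ => (q : ℤ)) ?_ ?_ ?_ ?_
  · intro q hq
    rw [mem_filter] at hq ⊢
    refine ⟨?_, hq.2⟩
    simp only [Finset.bind_def, Finset.pure_def, Finset.mem_sup, Finset.mem_singleton]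
    exact ⟨q, hq.1, rfl⟩
  · intro a _ b _ h
    exact_mod_cast h
  · intro b hb
    rw [mem_filter] at hb
    obtain ⟨h1, h2⟩ := hb
    simp only [Finset.bind_def, Finset.pure_def, Finset.mem_sup, Finset.mem_singleton] at h1
    obtain ⟨q, hq, rfl⟩ := h1
    exact ⟨q, mem_filter.2 ⟨hq, h2⟩, rfl⟩
  · intro q _
    simp
theorem gg : S_GG := by
  classical
  intro f L _ _ θ hS
  set a := f.leadingCoeff with hadef
  have ha0 : a ≠ 0 := by
    intro h
    have : f = 0 := leadingCoeff_eq_zero.1 h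
    have h1 := hS.irr.ne_zero
    rw [this] at h1
    simp at h1
  refine ⟨∑ q ∈ range (a.natAbs + 1), (1 : ℝ) / q, fun Y => ?_⟩
  rw [Gf_eq]
  unfold GN
  have hsub : (pr Y).filter (fun q => 1 ≤ N1 L q) ⊆
      (pr Y).filter (fun q : ℕ => ∃ r : ℤ, (q : ℤ) ∣ f.eval r) ∪ range (a.natAbs + 1) := by
    intro q hq
    rw [mem_filter] at hq
    rw [mem_union, mem_filter, mem_range]
    have hqp : q.Prime := by
      have := hq.1; unfold pr at this; rw [mem_filter] at this; exact this.2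
    by_cases hd : (q : ℤ) ∣ a
    · right
      have := Nat.le_of_dvd (Int.natAbs_pos.2 ha0) (Int.natCast_dvd.1 hd)
      omega
    · left
      refine ⟨hq.1, ?_⟩
      have h1 : 0 < N1 L q := hq.2
      unfold N1 at h1
      have := (Nat.card_pos_iff.1 h1).1
      obtain ⟨v, hv⟩ := ‹Nonempty {v : HeightOneSpectrum (𝓞 L) // Ideal.absNorm v.asIdeal = q}›
      exact root_of_norm hS hqp hd v hv
  calc ∑ q ∈ (pr Y).filter (fun q => 1 ≤ N1 L q), (1 : ℝ) / q
      ≤ ∑ q ∈ (pr Y).filter (fun q : ℕ => ∃ r : ℤ, (q : ℤ) ∣ f.eval r) ∪ range (a.natAbs + 1),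
        (1 : ℝ) / q := Finset.sum_le_sum_of_subset_of_nonneg hsub fun q _ _ => by positivity
    _ ≤ _ := by
      rw [← Finset.sum_union_inter]
      have : 0 ≤ ∑ q ∈ (pr Y).filter (fun q : ℕ => ∃ r : ℤ, (q : ℤ) ∣ f.eval r) ∩
        range (a.natAbs + 1), (1 : ℝ) / (q : ℝ) := Finset.sum_nonneg fun q _ => by positivity
      linarith

end Pool.Agent.Q91.EL
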