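import Mathlib
import Pool.Agent.H11.V.R_pool_sql_team_seeded_3997aac3_Q51_EL_Stm

set_option autoImplicit false
set_option linter.unusedSectionVars false

/-! Tools for project EL: multiplicities of places in ideals, norms. -/

open Polynomial NumberField IsDedekindDomain Pool.Agent.Q51.EL

noncomputable section

namespace Pool.Agent.Q239.EL

variable {L : Type} [Field L] [NumberField L]

/-- the exponent of `v` in the ideal `A` -/
def mu (v : HeightOneSpectrum (𝓞 L)) (A : Ideal (𝓞 L)) : ℕ := multiplicity v.asIdeal A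

lemma mu_mul (v : HeightOneSpectrum (𝓞 L)) {A B : Ideal (𝓞 L)} (hA : A ≠ 0) (hB : B ≠ 0) :
    mu v (A * B) = mu v A + mu v B :=
  multiplicity_mul v.prime (FiniteMultiplicity.of_prime_left v.prime (mul_ne_zero hA hB))

lemma mu_pow (v : HeightOneSpectrum (𝓞 L)) {A : Ideal (𝓞 L)} (hA : A ≠ 0) (n : ℕ) :
    mu v (A ^ n) = n * mu v A := by
  induction n with
  | zero => rw [pow_zero, zero_mul]; exact multiplicity_of_isUnit_right v.prime.not_isUnit isUnit_one
  | succ n ih => rw [pow_succ, mu_mul v (pow_ne_zero n hA) hA, ih]; ring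

lemma mu_one (v : HeightOneSpectrum (𝓞 L)) : mu v (1 : Ideal (𝓞 L)) = 0 := by
  exact multiplicity_of_isUnit_right v.prime.not_isUnit isUnit_one

lemma mu_self (v : HeightOneSpectrum (𝓞 L)) : mu v v.asIdeal = 1 := multiplicity_self

lemma not_dvd_of_ne {v w : HeightOneSpectrum (𝓞 L)} (h : v ≠ w) : ¬ v.asIdeal ∣ w.asIdeal := by
  intro hd
  apply h
  have h1 : w.asIdeal ≤ v.asIdeal := Ideal.dvd_iff_le.mp hd
  exact HeightOneSpectrum.ext (w.isMaximal.eq_of_le v.isPrime.ne_top h1).symm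

lemma mu_eq_zero {v : HeightOneSpectrum (𝓞 L)} {A : Ideal (𝓞 L)} (h : ¬ v.asIdeal ∣ A) :
    mu v A = 0 := multiplicity_eq_zero.mpr h

lemma mu_pos_iff {v : HeightOneSpectrum (𝓞 L)} {A : Ideal (𝓞 L)} (hA : A ≠ 0) :
    v.asIdeal ∣ A ↔ mu v A ≠ 0 := by
  constructor
  · rintro ⟨B, rfl⟩
    have hB : B ≠ 0 := right_ne_zero_of_mul hA
    rw [mu_mul v v.ne_bot hB, mu_self]
    omega
  · intro h
    by_contra hn
    exact h (mu_eq_zero hn)

lemma mu_ne {v w : HeightOneSpectrum (𝓞 L)} (h : v ≠ w) : mu v w.asIdeal = 0 :=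
  mu_eq_zero (not_dvd_of_ne h)

open Classical in
lemma mu_prod (v : HeightOneSpectrum (𝓞 L)) (T : Finset (HeightOneSpectrum (𝓞 L))) :
    mu v (∏ w ∈ T, w.asIdeal) = if v ∈ T then 1 else 0 := by
  induction T using Finset.induction_on with
  | empty => rw [Finset.prod_empty, mu_one, if_neg (Finset.notMem_empty v)]
  | insert a s ha ih =>
    have h0 : ∏ w ∈ s, w.asIdeal ≠ 0 := Finset.prod_ne_zero_iff.mpr fun w _ => w.ne_bot
    rw [Finset.prod_insert ha, mu_mul v a.ne_bot h0, ih]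
    by_cases h : v = a
    · subst h
      rw [mu_self, if_neg ha, if_pos (Finset.mem_insert_self _ _)]
    · rw [mu_ne h, zero_add]
      by_cases h2 : v ∈ s
      · rw [if_pos h2, if_pos (Finset.mem_insert_of_mem h2)]
      · rw [if_neg h2, if_neg]
        intro h3
        rcases Finset.mem_insert.mp h3 with h4 | h4
        · exact h h4
        · exact h2 h4

lemma span_ne {x : 𝓞 L} (hx : x ≠ 0) : Ideal.span {x} ≠ 0 := by
  rw [Ideal.zero_eq_bot, Ne, Ideal.span_singleton_eq_bot]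
  exact hx

lemma val_int (v : HeightOneSpectrum (𝓞 L)) {x : 𝓞 L} (hx : x ≠ 0) :
    v.valuation L (x : L) = WithZero.exp (-(mu v (Ideal.span {x}) : ℤ)) := by
  have h1 : v.valuation L (algebraMap (𝓞 L) L x) = v.intValuation x :=
    HeightOneSpectrum.valuation_of_algebraMap v x
  exact h1.trans (HeightOneSpectrum.intValuation_eq_exp_neg_multiplicity v hx)

lemma span_mul_ne {x y : 𝓞 L} (hx : x ≠ 0) (hy : y ≠ 0) (v : HeightOneSpectrum (𝓞 L)) :
    mu v (Ideal.span {x * y}) = mu v (Ideal.span {x}) + mu v (Ideal.span {y}) := by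
  rw [← Ideal.span_singleton_mul_span_singleton, mu_mul v (span_ne hx) (span_ne hy)]

/-- two integral ideals with the same multiplicities -/
lemma place_of_prime {P : Ideal (𝓞 L)} (hP : Prime P) :
    ∃ v : HeightOneSpectrum (𝓞 L), v.asIdeal = P :=
  ⟨⟨P, Ideal.isPrime_of_prime hP, hP.ne_zero⟩, rfl⟩

/-- a square times a product of different places -/
lemma sq_decomp (A : Ideal (𝓞 L)) (hA : A ≠ 0) :
    ∃ (I : Ideal (𝓞 L)) (T : Finset (HeightOneSpectrum (𝓞 L))), I ≠ 0 ∧
      A = I ^ 2 * ∏ v ∈ T, v.asIdeal := by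
  classical
  induction A using UniqueFactorizationMonoid.induction_on_prime with
  | h₁ => exact absurd rfl hA
  | h₂ x hx =>
    refine ⟨1, ∅, one_ne_zero, ?_⟩
    rw [Finset.prod_empty, one_pow, mul_one]
    exact (Ideal.isUnit_iff.mp hx).trans Ideal.one_eq_top.symm
  | h₃ a p ha hp ih =>
    obtain ⟨I, T, hI, h⟩ := ih ha
    obtain ⟨v, rfl⟩ := place_of_prime hp
    by_cases hv : v ∈ T
    · refine ⟨v.asIdeal * I, T.erase v, mul_ne_zero v.ne_bot hI, ?_⟩
      rw [h, ← Finset.mul_prod_erase T _ hv]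
      ring
    · refine ⟨I, insert v T, hI, ?_⟩
      rw [h, Finset.prod_insert hv]
      ring

/-- parity of an integral element -/
lemma par_int {v : HeightOneSpectrum (𝓞 L)} {x : 𝓞 L} (hx : x ≠ 0) {e : ℤ}
    (h : Par v (x : L) e) : Even ((mu v (Ideal.span {x}) : ℤ) + e) := by
  obtain ⟨k, hk⟩ := h
  rw [val_int v hx, WithZero.exp_inj] at hk
  exact ⟨-k, by linarith⟩

lemma par_mul_sq {v : HeightOneSpectrum (𝓞 L)} {x y : L} (hy : y ≠ 0) {e : ℤ}
    (h : Par v x e) : Par v (x * y ^ 2) e := by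
  obtain ⟨k, hk⟩ := h
  have h1 : v.valuation L y ≠ 0 := (Valuation.ne_zero_iff _).mpr hy
  obtain ⟨m, hm⟩ : ∃ m : ℤ, v.valuation L y = WithZero.exp m :=
    ⟨WithZero.log (v.valuation L y), (WithZero.exp_log h1).symm⟩
  refine ⟨k + m, ?_⟩
  rw [map_mul, map_pow, hk, hm, ← WithZero.exp_nsmul, ← WithZero.exp_add]
  congr 1
  simp
  ring

end Pool.Agent.Q239.EL
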