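import Mathlib
import Pool.Agent.H11.V.R_pool_sql_team_seeded_3997aac3_Q239_EL_Base

set_option autoImplicit false
set_option linter.unusedSectionVars false

/-! Job CL of project EL: class group. -/

open Polynomial NumberField IsDedekindDomain Pool.Agent.Q51.EL

noncomputable section

namespace Pool.Agent.Q239.EL

lemma exists_ratio {L : Type} [Field L] [NumberField L] (δ : L) : ∃ x y : 𝓞 L, y ≠ 0 ∧
    δ * (y : L) = x := by
  obtain ⟨x, y, hy, hxy⟩ := IsFractionRing.div_surjective (A := 𝓞 L) δ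
  have hy0 : y ≠ 0 := nonZeroDivisors.ne_zero hy
  have h1 : algebraMap (𝓞 L) L y ≠ 0 := by
    rw [Ne, FaithfulSMul.algebraMap_eq_zero_iff]
    exact hy0
  refine ⟨x, y, hy0, ?_⟩
  rw [← hxy]
  exact div_mul_cancel₀ _ h1

lemma coe_ne {L : Type} [Field L] [NumberField L] {x : 𝓞 L} (h : x ≠ 0) : (x : L) ≠ 0 := by
  intro h1
  exact h (RingOfIntegers.coe_eq_zero_iff.mp h1)

lemma one_le_norm' {L : Type} [Field L] [NumberField L] (v : HeightOneSpectrum (𝓞 L)) :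
    1 ≤ Ideal.absNorm v.asIdeal := by
  have h : Ideal.absNorm v.asIdeal ≠ 0 := by
    rw [Ne, Ideal.absNorm_eq_zero_iff]
    exact v.ne_bot
  exact Nat.one_le_iff_ne_zero.mpr h

lemma one_le_norm {L : Type} [Field L] [NumberField L] (v : HeightOneSpectrum (𝓞 L)) :
    (1 : ℝ) ≤ ((Ideal.absNorm v.asIdeal : ℕ) : ℝ) := by
  exact_mod_cast one_le_norm' v

theorem cl : S_CL := by
  classical
  intro L _ _
  have hsur : ∀ g : ClassGroup (𝓞 L), ∃ I : nonZeroDivisors (Ideal (𝓞 L)), ClassGroup.mk0 I = g :=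
    ClassGroup.mk0_surjective
  choose c hc using hsur
  have hc0 : ∀ g, (c g : Ideal (𝓞 L)) ≠ 0 := fun g => nonZeroDivisors.ne_zero (c g).2
  have hcn : ∀ g, Ideal.absNorm (c g : Ideal (𝓞 L)) ≠ 0 := fun g => by
    rw [Ne, Ideal.absNorm_eq_zero_iff]
    exact hc0 g
  set B : ℕ := ∏ g : ClassGroup (𝓞 L), Ideal.absNorm (c g : Ideal (𝓞 L)) with hB
  have hB0 : B ≠ 0 := Finset.prod_ne_zero_iff.mpr fun g _ => hcn g
  have hcv : ∀ v : HeightOneSpectrum (𝓞 L), (B : 𝓞 L) ∉ v.asIdeal → ∀ g, mu v (c g) = 0 := by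
    intro v hv g
    apply mu_eq_zero
    intro hd
    apply hv
    have h1 : (c g : Ideal (𝓞 L)) ≤ v.asIdeal := Ideal.dvd_iff_le.mp hd
    have h2 := h1 (Ideal.absNorm_mem (c g : Ideal (𝓞 L)))
    obtain ⟨m, hm⟩ : Ideal.absNorm (c g : Ideal (𝓞 L)) ∣ B := Finset.dvd_prod_of_mem _ (Finset.mem_univ g)
    rw [hm, Nat.cast_mul]
    exact Ideal.mul_mem_right _ _ h2
  have hW : {v : HeightOneSpectrum (𝓞 L) | (B : 𝓞 L) ∈ v.asIdeal}.Finite := by
    have h1 := Ideal.finite_factors (R := 𝓞 L) (I := Ideal.span {(B : 𝓞 L)})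
      (span_ne (by exact_mod_cast hB0))
    refine h1.subset ?_
    intro v hv
    rw [Set.mem_ofPred_eq, Ideal.dvd_iff_le, Ideal.span_singleton_le_iff_mem]
    exact hv
  set W := hW.toFinset with hWd
  refine ⟨B, (∏ v ∈ W, ((Ideal.absNorm v.asIdeal : ℕ) : ℝ)) *
    ∏ g : ClassGroup (𝓞 L), ((Ideal.absNorm (c g : Ideal (𝓞 L)) : ℕ) : ℝ) ^ 2, hB0, ?_, ?_⟩
  · refine mul_pos (Finset.prod_pos fun v _ => lt_of_lt_of_le one_pos (one_le_norm v))
      (Finset.prod_pos fun g _ => ?_)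
    have := hcn g
    positivity
  intro δ S hδ hpar
  obtain ⟨x, y, hy, hxy⟩ := exists_ratio δ
  have hyL := coe_ne hy
  have hx : x ≠ 0 := by
    rintro rfl
    exact mul_ne_zero hδ hyL (by simpa using hxy)
  set d : 𝓞 L := x * y with hd
  have hd0 : d ≠ 0 := mul_ne_zero hx hy
  have hdL : (d : L) = δ * (y : L) ^ 2 := by
    have e1 : ((x * y : 𝓞 L) : L) = (x : L) * (y : L) := map_mul (algebraMap (𝓞 L) L) x y
    rw [hd, e1, ← hxy]
    ring
  obtain ⟨I, T, hI, hIT⟩ := sq_decomp (Ideal.span {d}) (span_ne hd0)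
  set g := ClassGroup.mk0 (⟨I, mem_nonZeroDivisors_of_ne_zero hI⟩ : nonZeroDivisors (Ideal (𝓞 L)))
    with hg
  obtain ⟨x', y', hx', hy', hI'⟩ := ClassGroup.mk0_eq_mk0_iff.mp (hc g).symm
  have hI'' : Ideal.span {x'} * I = Ideal.span {y'} * (c g : Ideal (𝓞 L)) := hI'
  set J : Ideal (𝓞 L) := ∏ v ∈ T, v.asIdeal with hJ
  have hJ0 : J ≠ 0 := Finset.prod_ne_zero_iff.mpr fun w _ => w.ne_bot
  have key : Ideal.span {d * x' ^ 2} = Ideal.span {y' ^ 2} * ((c g : Ideal (𝓞 L)) ^ 2 * J) := by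
    rw [← Ideal.span_singleton_mul_span_singleton, ← Ideal.span_singleton_pow,
      ← Ideal.span_singleton_pow, hIT]
    calc I ^ 2 * J * Ideal.span {x'} ^ 2 = (Ideal.span {x'} * I) ^ 2 * J := by ring
      _ = (Ideal.span {y'} * (c g : Ideal (𝓞 L))) ^ 2 * J := by rw [hI'']
      _ = _ := by ring
  obtain ⟨α, hα⟩ : y' ^ 2 ∣ d * x' ^ 2 := by
    rw [← Ideal.span_singleton_le_span_singleton, key]
    exact Ideal.mul_le_left
  have hα0 : α ≠ 0 := by
    rintro rfl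
    rw [mul_zero] at hα
    exact mul_ne_zero hd0 (pow_ne_zero 2 hx') hα
  have hy2 : Ideal.span {y' ^ 2} ≠ 0 := span_ne (pow_ne_zero 2 hy')
  have hαs : Ideal.span {α} = (c g : Ideal (𝓞 L)) ^ 2 * J := by
    rw [hα, ← Ideal.span_singleton_mul_span_singleton] at key
    exact mul_left_cancel₀ hy2 key
  have hmuα : ∀ v : HeightOneSpectrum (𝓞 L), (B : 𝓞 L) ∉ v.asIdeal →
      mu v (Ideal.span {α}) = if v ∈ T then 1 else 0 := by
    intro v hv
    rw [hαs, mu_mul v (pow_ne_zero 2 (hc0 g)) hJ0, mu_pow v (hc0 g), hcv v hv, mul_zero, zero_add,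
      hJ, mu_prod]
  have hmud : ∀ v : HeightOneSpectrum (𝓞 L),
      mu v (Ideal.span {d}) = 2 * mu v I + if v ∈ T then 1 else 0 := by
    intro v
    rw [hIT, mu_mul v (pow_ne_zero 2 hI) hJ0, mu_pow v hI, hJ, mu_prod]
  have hT1 : ∀ v : HeightOneSpectrum (𝓞 L), (B : 𝓞 L) ∉ v.asIdeal → v ∈ S → v ∈ T := by
    intro v hv hvS
    have h1 := par_mul_sq hyL ((hpar v hv).1 hvS)
    rw [← hdL] at h1
    have h2 := par_int hd0 h1
    by_contra hn
    rw [hmud v, if_neg hn] at h2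
    obtain ⟨k, hk⟩ := h2
    push_cast at hk
    omega
  have hT2 : ∀ v : HeightOneSpectrum (𝓞 L), (B : 𝓞 L) ∉ v.asIdeal → v ∉ S → v ∉ T := by
    intro v hv hvS
    have h1 := par_mul_sq hyL ((hpar v hv).2 hvS)
    rw [← hdL] at h1
    have h2 := par_int hd0 h1
    intro hn
    rw [hmud v, if_pos hn] at h2
    obtain ⟨k, hk⟩ := h2
    push_cast at hk
    omega
  have hx'L := coe_ne hx'
  have hy'L := coe_ne hy'
  refine ⟨(y : L) * ((x' : L) / (y' : L)), α, mul_ne_zero hyL (div_ne_zero hx'L hy'L), ?_, ?_, ?_⟩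
  · have h1 : (d : L) * (x' : L) ^ 2 = (y' : L) ^ 2 * (α : L) := by
      have := congrArg (fun z : 𝓞 L => (z : L)) hα
      simpa using this
    rw [hdL] at h1
    field_simp
    linear_combination -h1
  · intro v hv
    rw [val_int v hα0, hmuα v hv]
    constructor
    · intro hvS
      rw [if_pos (hT1 v hv hvS)]
      norm_num
    · intro hvS
      rw [if_neg (hT2 v hv hvS)]
      simp
  · rw [hαs, map_mul, map_pow, hJ, map_prod]
    push_cast
    have hTsub : T ⊆ S ∪ W := by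
      intro v hv
      rw [Finset.mem_union]
      by_contra hcon
      push Not at hcon
      have h1 : (B : 𝓞 L) ∉ v.asIdeal := fun h => hcon.2 (hW.mem_toFinset.mpr h)
      exact hT2 v h1 hcon.1 hv
    have h1 : ∏ v ∈ T, Ideal.absNorm v.asIdeal ≤
        (∏ v ∈ W, Ideal.absNorm v.asIdeal) * ∏ v ∈ S, Ideal.absNorm v.asIdeal := by
      calc ∏ v ∈ T, Ideal.absNorm v.asIdeal
          ≤ ∏ v ∈ S ∪ W, Ideal.absNorm v.asIdeal :=
            Finset.prod_le_prod_of_subset_of_one_le' hTsub fun v _ _ => one_le_norm' v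
        _ ≤ (∏ v ∈ S ∪ W, Ideal.absNorm v.asIdeal) *
              ∏ v ∈ S ∩ W, Ideal.absNorm v.asIdeal := by
            refine Nat.le_mul_of_pos_right _ ?_
            exact Finset.prod_pos fun v _ => one_le_norm' v
        _ = _ := by rw [Finset.prod_union_inter, mul_comm]
    have h2 : Ideal.absNorm (c g : Ideal (𝓞 L)) ^ 2 ≤
        ∏ g : ClassGroup (𝓞 L), Ideal.absNorm (c g : Ideal (𝓞 L)) ^ 2 := by
      refine Finset.single_le_prod' (f := fun g : ClassGroup (𝓞 L) =>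
        Ideal.absNorm (c g : Ideal (𝓞 L)) ^ 2) (fun g _ => ?_) (Finset.mem_univ g)
      exact Nat.one_le_iff_ne_zero.mpr (pow_ne_zero 2 (hcn g))
    have h3 : Ideal.absNorm (c g : Ideal (𝓞 L)) ^ 2 * ∏ v ∈ T, Ideal.absNorm v.asIdeal ≤
        ((∏ v ∈ W, Ideal.absNorm v.asIdeal) *
          ∏ g : ClassGroup (𝓞 L), Ideal.absNorm (c g : Ideal (𝓞 L)) ^ 2) *
          ∏ v ∈ S, Ideal.absNorm v.asIdeal := by
      calc Ideal.absNorm (c g : Ideal (𝓞 L)) ^ 2 * ∏ v ∈ T, Ideal.absNorm v.asIdeal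
          ≤ (∏ g : ClassGroup (𝓞 L), Ideal.absNorm (c g : Ideal (𝓞 L)) ^ 2) *
            ((∏ v ∈ W, Ideal.absNorm v.asIdeal) * ∏ v ∈ S, Ideal.absNorm v.asIdeal) :=
            Nat.mul_le_mul h2 h1
        _ = _ := by ring
    exact_mod_cast h3

end Pool.Agent.Q239.EL
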