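import Mathlib
import Pool.Agent.H11.V.R_pool_sql_team_seeded_3997aac3_Q239_EL_AP

set_option autoImplicit false
set_option linter.unusedSectionVars false

/-! Job ROOT of project EL: the primes above `l` dividing `x - w θ`. -/

open Polynomial NumberField IsDedekindDomain Pool.Agent.Q51.EL

noncomputable section

namespace Pool.Agent.Q239.EL

/-- a Bezout relation with integral coefficients -/
lemma bezout {f : ℤ[X]} (hf : Irreducible (f.map (Int.castRingHom ℚ))) :
    ∃ (U V : ℤ[X]) (m : ℤ), m ≠ 0 ∧ U * f + V * derivative f = C m := by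
  have hsep : (f.map (Int.castRingHom ℚ)).Separable := hf.separable
  obtain ⟨U', V', h⟩ := hsep
  obtain ⟨M1, hM1, hU⟩ := IsLocalization.integerNormalization_spec (nonZeroDivisors ℤ) U'
  obtain ⟨M2, hM2, hV⟩ := IsLocalization.integerNormalization_spec (nonZeroDivisors ℤ) V'
  set U := IsLocalization.integerNormalization (nonZeroDivisors ℤ) U'
  set V := IsLocalization.integerNormalization (nonZeroDivisors ℤ) V'
  have hM1' : M1 ≠ 0 := nonZeroDivisors.ne_zero hM1
  have hM2' : M2 ≠ 0 := nonZeroDivisors.ne_zero hM2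
  refine ⟨C M2 * U, C M1 * V, M1 * M2, mul_ne_zero hM1' hM2', ?_⟩
  apply Polynomial.map_injective (Int.castRingHom ℚ) (Int.cast_injective)
  have hU' : U.map (Int.castRingHom ℚ) = C (M1 : ℚ) * U' := by
    have : U.map (Int.castRingHom ℚ) = M1 • U' := hU
    rw [this, zsmul_eq_mul]
    simp
  have hV' : V.map (Int.castRingHom ℚ) = C (M2 : ℚ) * V' := by
    have : V.map (Int.castRingHom ℚ) = M2 • V' := hV
    rw [this, zsmul_eq_mul]
    simp
  rw [Polynomial.map_add, Polynomial.map_mul, Polynomial.map_mul, Polynomial.map_mul,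
    Polynomial.map_mul, hU', hV', ← derivative_map, map_C, map_C, map_C]
  simp only [eq_intCast]
  rw [Int.cast_mul, C_mul]
  linear_combination (C (M1 : ℚ) * C (M2 : ℚ)) * h

/-- the choice of a residue with a simple value -/
lemma pick_r {f U V : ℤ[X]} {m : ℤ} (hUV : U * f + V * derivative f = C m) {l : ℕ} (hl : l.Prime)
    (hm : ¬ (l : ℤ) ∣ m) {r0 : ℤ} (h : (l : ℤ) ∣ f.eval r0) :
    ∃ r : ℤ, (l : ℤ) ∣ r - r0 ∧ (l : ℤ) ∣ f.eval r ∧ ¬ (l : ℤ) ^ 2 ∣ f.eval r := by
  by_cases h2 : (l : ℤ) ^ 2 ∣ f.eval r0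
  · obtain ⟨k, hk⟩ := f.binomExpansion r0 l
    have h3 : ¬ (l : ℤ) ∣ (derivative f).eval r0 := by
      intro hd
      apply hm
      have h4 := congrArg (eval r0) hUV
      rw [eval_add, eval_mul, eval_mul, eval_C] at h4
      rw [← h4]
      exact dvd_add (Dvd.dvd.mul_left h _) (Dvd.dvd.mul_left hd _)
    refine ⟨r0 + l, by simp, ?_, ?_⟩
    · rw [hk]
      refine dvd_add (dvd_add h (Dvd.intro_left _ rfl)) ?_
      exact Dvd.dvd.mul_left (Dvd.intro_left _ (sq (l : ℤ)).symm) _
    · intro h4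
      rw [hk] at h4
      apply h3
      have h5 : (l : ℤ) ^ 2 ∣ (derivative f).eval r0 * l := by
        have h6 : (derivative f).eval r0 * (l : ℤ) =
            (f.eval r0 + (derivative f).eval r0 * l + k * (l : ℤ) ^ 2) - f.eval r0 -
              k * (l : ℤ) ^ 2 := by ring
        rw [h6]
        exact dvd_sub (dvd_sub h4 h2) (Dvd.intro_left _ rfl)
      rw [sq] at h5
      exact Int.dvd_of_mul_dvd_mul_right (by exact_mod_cast hl.ne_zero) h5
  · exact ⟨r0, by simp, h, h2⟩

section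

variable {L : Type} [Field L] [NumberField L] {f : ℤ[X]} {θ : L}

lemma theta_minpoly (hs : Setup f L θ) :
    f.map (Int.castRingHom ℚ) = C (f.leadingCoeff : ℚ) * minpoly ℚ θ := by
  have h3 : aeval θ (f.map (Int.castRingHom ℚ)) = 0 := by
    rw [← hs.root]
    exact aeval_map_algebraMap ℚ θ f
  have h1 := minpoly.eq_of_irreducible hs.irr h3
  have h2 : (f.map (Int.castRingHom ℚ)).leadingCoeff = f.leadingCoeff := by
    rw [leadingCoeff_map_of_injective Int.cast_injective]
    rfl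
  have h4 : f ≠ 0 := by
    rintro rfl
    exact hs.irr.ne_zero (Polynomial.map_zero _)
  have h5 : (f.leadingCoeff : ℚ) ≠ 0 := by
    exact_mod_cast leadingCoeff_ne_zero.mpr h4
  rw [← h1, h2, mul_comm, mul_assoc, ← C_mul, inv_mul_cancel₀ h5, C_1, mul_one]

lemma lead_ne (hs : Setup f L θ) : f.leadingCoeff ≠ 0 := by
  have h4 : f ≠ 0 := by
    rintro rfl
    exact hs.irr.ne_zero (Polynomial.map_zero _)
  exact leadingCoeff_ne_zero.mpr h4

lemma theta_deg (hs : Setup f L θ) : (minpoly ℚ θ).natDegree = Module.finrank ℚ L := by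
  have h1 := theta_minpoly hs
  have h2 := congrArg natDegree h1
  rw [natDegree_map_eq_of_injective Int.cast_injective, natDegree_C_mul
    (by exact_mod_cast lead_ne hs)] at h2
  rw [hs.deg, h2]

lemma norm_theta (hs : Setup f L θ) (r : ℤ) :
    (f.leadingCoeff : ℚ) * Algebra.norm ℚ ((r : L) - θ) = (f.eval r : ℤ) := by
  classical
  have hint : IsIntegral ℚ θ := Algebra.IsIntegral.isIntegral θ
  have htop : IntermediateField.adjoin ℚ {θ} = ⊤ :=
    (Field.primitive_element_iff_minpoly_natDegree_eq ℚ θ).mpr (theta_deg hs)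
  have htop' : Algebra.adjoin ℚ {θ} = ⊤ := by
    rw [← IntermediateField.adjoin_simple_toSubalgebra_of_isAlgebraic hint.isAlgebraic, htop]
    rfl
  let B := PowerBasis.ofAdjoinEqTop hint htop'
  have hB : B.gen = θ := PowerBasis.ofAdjoinEqTop_gen hint htop'
  have h1 : Algebra.norm ℚ (algebraMap ℚ L r - B.gen) = (minpoly ℚ B.gen).eval (r : ℚ) := by
    rw [Algebra.norm_eq_matrix_det B.basis, map_sub, ← charpoly_leftMulMatrix B,
      Matrix.eval_charpoly]
    congr 2
    rw [AlgHom.commutes]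
    rfl
  rw [hB, map_intCast] at h1
  rw [h1]
  have h2 := congrArg (eval (r : ℚ)) (theta_minpoly hs)
  rw [eval_mul, eval_C] at h2
  rw [← h2, eval_intCast_map]
  simp


variable {v : HeightOneSpectrum (𝓞 L)} {l : ℕ} [hl : Fact l.Prime]

lemma val_aeval_int (hθ : v.valuation L θ ≤ 1) (q : ℤ[X]) : v.valuation L (aeval θ q) ≤ 1 := by
  rw [aeval_eq_sum_range]
  refine Valuation.map_sum_le _ fun i _ => ?_
  rw [zsmul_eq_mul, map_mul, map_pow]
  exact mul_le_one' (val_int_le _) (pow_le_one' hθ i)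

/-- a residue of `θ` is a zero of `f` modulo `l` -/
lemma dvd_eval (hs : Setup f L θ) (hv : Abv v l) (hθ : v.valuation L θ ≤ 1) {r : ℤ}
    (h : v.valuation L (θ - r) < 1) : (l : ℤ) ∣ f.eval r := by
  obtain ⟨q, hq⟩ := Polynomial.X_sub_C_dvd_sub_C_eval (p := f) (a := r)
  have h1 := congrArg (aeval θ) hq
  rw [map_sub, hs.root, map_mul, map_sub, aeval_X, aeval_C, aeval_C, zero_sub] at h1
  simp only [algebraMap_int_eq, eq_intCast] at h1
  have h2 : v.valuation L ((f.eval r : ℤ) : L) < 1 := by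
    have h3 : ((f.eval r : ℤ) : L) = -((θ - r) * aeval θ q) := by
      rw [← h1, neg_neg]
    rw [h3, Valuation.map_neg, map_mul]
    exact mul_lt_one_of_lt_of_le h (val_aeval_int hθ q)
  by_contra hn
  rw [val_int_eq hv hn] at h2
  exact lt_irrefl _ h2

lemma ph_pos (hv : Abv v l) : 1 ≤ ph l v.asIdeal := by
  obtain ⟨p, f, hp, hpv, hf, hpf⟩ := below v
  have h1 : p = l := prime_unique hp hl.out hpv hv
  unfold ph
  rw [hpf, h1, padicValNat.prime_pow]
  exact hf

lemma norm_of_ph (hv : Abv v l) (h : ph l v.asIdeal = 1) : Ideal.absNorm v.asIdeal = l := by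
  obtain ⟨p, f, hp, hpv, hf, hpf⟩ := below v
  have h1 : p = l := prime_unique hp hl.out hpv hv
  unfold ph at h
  rw [hpf, h1, padicValNat.prime_pow] at h
  rw [hpf, h1, h, pow_one]

end

theorem root (hram : S_RAM) : S_ROOT := by
  classical
  intro f L _ _ θ hs
  obtain ⟨U, V, m, hm0, hUV⟩ := bezout hs.irr
  obtain ⟨⟨B1, hB1, hB1'⟩, -⟩ := hram L
  have ha0 := lead_ne hs
  refine ⟨f.leadingCoeff.natAbs * m.natAbs * B1, mul_ne_zero (mul_ne_zero
    (Int.natAbs_ne_zero.mpr ha0) (Int.natAbs_ne_zero.mpr hm0)) hB1, ?_, ?_⟩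
  · push_cast
    rw [mul_assoc]
    exact Dvd.dvd.mul_right (self_dvd_abs _) _
  intro l hl hlB
  have : Fact l.Prime := ⟨hl⟩
  have ha : ¬ (l : ℤ) ∣ f.leadingCoeff := fun h => hlB
    (Dvd.dvd.mul_right (Dvd.dvd.mul_right (Int.natCast_dvd.mp h) _) _)
  have hm : ¬ (l : ℤ) ∣ m := fun h => hlB
    (Dvd.dvd.mul_right (Dvd.dvd.mul_left (Int.natCast_dvd.mp h) _) _)
  have hlB1 : ¬ l ∣ B1 := fun h => hlB (Dvd.dvd.mul_left h _)
  have hsq := hB1' l hl hlB1
  have hl0 : (l : 𝓞 L) ≠ 0 := by exact_mod_cast hl.ne_zero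
  have hθ : ∀ v : HeightOneSpectrum (𝓞 L), Abv v l → v.valuation L θ ≤ 1 := fun v hv =>
    val_theta hs hv ha
  refine ⟨fun v hv => ⟨hθ v hv, ?_⟩, ?_⟩
  · have h1 := val_int v hl0
    have e : ((l : 𝓞 L) : L) = (l : L) := by simp
    rw [e, mu_l hsq hv] at h1
    exact_mod_cast h1
  intro x w hxw
  by_cases hall : ∀ v : HeightOneSpectrum (𝓞 L), Abv v l → v.valuation L ((x : L) - w * θ) = 1
  · exact Or.inl hall
  right
  push Not at hall
  obtain ⟨v1, hv1, hne⟩ := hall
  have hle1 : v1.valuation L ((x : L) - w * θ) ≤ 1 := by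
    refine (Valuation.map_sub _ _ _).trans (max_le (val_int_le x) ?_)
    rw [map_mul]
    exact mul_le_one' (val_int_le w) (hθ v1 hv1)
  have hlt1 : v1.valuation L ((x : L) - w * θ) < 1 := lt_of_le_of_ne hle1 hne
  have hw : ¬ (l : ℤ) ∣ w := by
    intro hw
    have h1 : v1.valuation L ((w : L) * θ) < 1 := by
      rw [map_mul]
      exact mul_lt_one_of_lt_of_le (val_int_lt hv1 hw) (hθ v1 hv1)
    have h2 : v1.valuation L (x : L) < 1 := by
      have e : (x : L) = ((x : L) - w * θ) + w * θ := by ring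
      rw [e]
      exact lt_of_le_of_lt (Valuation.map_add _ _ _) (max_lt hlt1 h1)
    rcases hxw with h3 | h3
    · rw [val_int_eq hv1 h3] at h2
      exact lt_irrefl _ h2
    · exact h3 hw
  obtain ⟨r0, hr0⟩ : ∃ r0 : ℤ, (l : ℤ) ∣ w * r0 - x := by
    have h3 : IsCoprime (l : ℤ) w :=
      Int.isCoprime_iff_gcd_eq_one.mpr (Int.isCoprime_iff_gcd_eq_one.mp
        ((Nat.prime_iff_prime_int.mp hl).coprime_iff_not_dvd.mpr hw))
    obtain ⟨a', b', hab⟩ := h3
    refine ⟨b' * x, ⟨-a' * x, ?_⟩⟩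
    linear_combination x * hab
  have hvw : ∀ v : HeightOneSpectrum (𝓞 L), Abv v l → v.valuation L (w : L) = 1 := fun v hv =>
    val_int_eq hv hw
  have hres : ∀ r : ℤ, (l : ℤ) ∣ w * r - x → v1.valuation L (θ - r) < 1 := by
    intro r hr
    have h1 : v1.valuation L ((w : L) * (θ - r)) < 1 := by
      have e : (w : L) * (θ - r) = -(((x : L) - w * θ) + ((w * r - x : ℤ) : L)) := by
        push_cast; ring
      rw [e, Valuation.map_neg]
      exact lt_of_le_of_lt (Valuation.map_add _ _ _) (max_lt hlt1 (val_int_lt hv1 hr))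
    rw [map_mul, hvw v1 hv1, one_mul] at h1
    exact h1
  have hf0 := dvd_eval hs hv1 (hθ v1 hv1) (hres r0 hr0)
  obtain ⟨r, hr1, hr2, hr3⟩ := pick_r hUV hl hm hf0
  have hr : (l : ℤ) ∣ w * r - x := by
    have e : w * r - x = w * (r - r0) + (w * r0 - x) := by ring
    rw [e]
    exact dvd_add (Dvd.dvd.mul_left hr1 _) hr0
  have hv1r := hres r hr
  -- the element `a r - a θ`
  have hint : IsIntegral ℤ (f.leadingCoeff • θ) := isIntegral_leadingCoeff_smul f θ hs.root
  let t : 𝓞 L := ⟨f.leadingCoeff • θ, hint⟩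
  have ht : (t : L) = (f.leadingCoeff : L) * θ := by
    change f.leadingCoeff • θ = _
    rw [zsmul_eq_mul]
  set β : 𝓞 L := ((f.leadingCoeff * r : ℤ) : 𝓞 L) - t with hβ
  have hβL : (β : L) = (f.leadingCoeff : L) * ((r : L) - θ) := by
    have e : (β : L) = (((f.leadingCoeff * r : ℤ) : 𝓞 L) : L) - (t : L) :=
      map_sub (algebraMap (𝓞 L) L) _ _
    rw [e, ht, int_coe]
    push_cast
    ring
  have haQ : (f.leadingCoeff : ℚ) ≠ 0 := by exact_mod_cast ha0
  have hNβ : (f.leadingCoeff : ℚ) * Algebra.norm ℚ (β : L) =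
      (f.leadingCoeff : ℚ) ^ Module.finrank ℚ L * (f.eval r : ℤ) := by
    have h1 : Algebra.norm ℚ (f.leadingCoeff : L) =
        (f.leadingCoeff : ℚ) ^ Module.finrank ℚ L := by
      have := Algebra.norm_algebraMap (S := L) (f.leadingCoeff : ℚ)
      rwa [map_intCast] at this
    rw [hβL, map_mul, h1, ← norm_theta hs r]
    ring
  have hfr0 : f.eval r ≠ 0 := by
    intro h
    rw [h] at hr3
    exact hr3 (dvd_zero _)
  have hfrQ : ((f.eval r : ℤ) : ℚ) ≠ 0 := by exact_mod_cast hfr0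
  have hNβ0 : Algebra.norm ℚ (β : L) ≠ 0 := by
    intro h
    rw [h, mul_zero] at hNβ
    exact mul_ne_zero (pow_ne_zero _ haQ) hfrQ hNβ.symm
  have hβ0 : β ≠ 0 := by
    intro h
    apply hNβ0
    rw [h]
    simp
  have hva : padicValRat l (f.leadingCoeff : ℚ) = 0 := by
    rw [padicValRat.of_int]
    exact_mod_cast padicValInt.eq_zero_of_not_dvd ha
  have hvf : padicValRat l ((f.eval r : ℤ) : ℚ) = 1 := by
    obtain ⟨z, hz⟩ := hr2
    have hz0 : z ≠ 0 := by
      rintro rfl
      rw [mul_zero] at hz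
      exact hfr0 hz
    have hzl : ¬ (l : ℤ) ∣ z := by
      intro h
      apply hr3
      rw [hz, sq]
      exact mul_dvd_mul_left _ h
    rw [hz]
    push_cast
    rw [padicValRat.mul (by exact_mod_cast hl.ne_zero) (by exact_mod_cast hz0)]
    have h1 : padicValRat l (l : ℚ) = 1 := padicValRat.self hl.one_lt
    have h2 : padicValRat l (z : ℚ) = 0 := by
      rw [padicValRat.of_int]
      exact_mod_cast padicValInt.eq_zero_of_not_dvd hzl
    rw [h1, h2, add_zero]
  have hph : ph l (Ideal.span {β}) = 1 := by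
    have h1 := congrArg (padicValRat l) hNβ
    rw [padicValRat.mul haQ hNβ0, padicValRat.mul (pow_ne_zero _ haQ) hfrQ, padicValRat.pow,
      hva, hvf, norm_int_val] at h1
    simp only [mul_zero, zero_add] at h1
    exact_mod_cast h1
  have hform := ph_formula (l := l) (Ideal.span {β}) (span_ne hβ0)
  rw [hph] at hform
  have hmem : v1 ∈ (ab_finite (L := L) hl.ne_zero).toFinset :=
    (ab_finite hl.ne_zero).mem_toFinset.mpr hv1
  rw [← Finset.add_sum_erase _ _ hmem] at hform
  have hmu1 : 1 ≤ mu v1 (Ideal.span {β}) := by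
    have h1 : v1.valuation L (β : L) < 1 := by
      rw [hβL, map_mul]
      have h2 : v1.valuation L ((r : L) - θ) < 1 := by
        rw [Valuation.map_sub_swap]
        exact hv1r
      rw [mul_comm]
      exact mul_lt_one_of_lt_of_le h2 (val_int_le _)
    rw [val_int v1 hβ0] at h1
    by_contra hcon
    have h2 : mu v1 (Ideal.span {β}) = 0 := by omega
    rw [h2] at h1
    simp at h1
  have hph1 := ph_pos (l := l) hv1
  have hprod : 1 ≤ mu v1 (Ideal.span {β}) * ph l v1.asIdeal := Nat.mul_pos hmu1 hph1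
  have hrest : ∑ v ∈ (ab_finite (L := L) hl.ne_zero).toFinset.erase v1,
      mu v (Ideal.span {β}) * ph l v.asIdeal = 0 := by omega
  have hp1 : mu v1 (Ideal.span {β}) * ph l v1.asIdeal = 1 := by omega
  refine ⟨v1, hv1, norm_of_ph hv1 (Nat.eq_one_of_mul_eq_one_left hp1), hw, hlt1, ?_⟩
  intro v hv hvne
  have h1 := (Finset.sum_eq_zero_iff.mp hrest) v
    (Finset.mem_erase.mpr ⟨hvne, (ab_finite hl.ne_zero).mem_toFinset.mpr hv⟩)
  have h2 : mu v (Ideal.span {β}) = 0 := by
    rcases mul_eq_zero.mp h1 with h3 | h3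
    · exact h3
    · have := ph_pos (l := l) hv
      omega
  have h3 : v.valuation L (β : L) = 1 := by
    rw [val_int v hβ0, h2]
    simp
  rw [hβL, map_mul, val_int_eq hv ha, one_mul] at h3
  have h4 : v.valuation L ((w : L) * ((r : L) - θ)) = 1 := by
    rw [map_mul, hvw v hv, h3, one_mul]
  have h5 : v.valuation L ((x - w * r : ℤ) : L) < 1 := by
    apply val_int_lt hv
    have e : x - w * r = -(w * r - x) := by ring
    rw [e, dvd_neg]
    exact hr
  have e : (x : L) - w * θ = ((x - w * r : ℤ) : L) + (w : L) * ((r : L) - θ) := by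
    push_cast; ring
  rw [e, Valuation.map_add_eq_of_lt_right _ (by rw [h4]; exact h5), h4]

end Pool.Agent.Q239.EL
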