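import Mathlib
import Pool.Agent.H11.V.R_pool_sql_team_seeded_3997aac3_Q239_EL_ROOT

set_option autoImplicit false
set_option linter.unusedSectionVars false

/-! Jobs SC and SD of project EL: local conditions on the coverings. -/

open Polynomial NumberField IsDedekindDomain Pool.Agent.Q51.EL

noncomputable section

namespace Pool.Agent.Q239.EL

section

variable {L : Type} [Field L] [NumberField L] {v : HeightOneSpectrum (𝓞 L)}

lemma par_congr {x : L} {e e' : ℤ} (h : Par v x e) (he : Even (e - e')) : Par v x e' := by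
  obtain ⟨k, hk⟩ := h
  obtain ⟨m, hm⟩ := he
  refine ⟨k + m, ?_⟩
  rw [hk]
  congr 1
  linarith

lemma val_exp {x : L} (hx : x ≠ 0) : ∃ m : ℤ, v.valuation L x = WithZero.exp m := by
  have h1 : v.valuation L x ≠ 0 := (Valuation.ne_zero_iff _).mpr hx
  exact ⟨WithZero.log (v.valuation L x), (WithZero.exp_log h1).symm⟩

/-- comparison of two close elements -/
lemma val_close {a b : L} {r : WithZero (Multiplicative ℤ)} (h : v.valuation L (a - b) ≤ r)
    (hr : r < v.valuation L a) : v.valuation L b = v.valuation L a := by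
  have e : b = a + -(a - b) := by ring
  rw [e]
  apply Valuation.map_add_eq_of_lt_left
  rw [Valuation.map_neg]
  exact lt_of_le_of_lt h hr

/-- the main computation at a place where `x - w θ` is a unit -/
lemma at_unit {l : ℕ} {δ g z : L} {e : ℕ} (he : e < 2)
    (hl : v.valuation L (l : L) = WithZero.exp (-1 : ℤ))
    (hz : v.valuation L z = 1)
    (h : v.valuation L ((l : L) ^ e * z - δ * g ^ 2) ≤ WithZero.exp (-((2 : ℕ) : ℤ))) :
    v.valuation L (δ * g ^ 2) = WithZero.exp (-(e : ℤ)) := by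
  have h1 : v.valuation L ((l : L) ^ e * z) = WithZero.exp (-(e : ℤ)) := by
    rw [map_mul, map_pow, hl, hz, mul_one, ← WithZero.exp_nsmul]
    congr 1
    simp
  rw [← h1]
  apply val_close h
  rw [h1, WithZero.exp_lt_exp]
  push_cast
  omega

lemma par_of_val {δ g : L} {e : ℤ} (hδ : δ ≠ 0) (h : v.valuation L (δ * g ^ 2) = WithZero.exp (-e)) :
    Par v δ e := by
  have hg : g ≠ 0 := by
    rintro rfl
    rw [zero_pow (by norm_num), mul_zero, map_zero] at h
    exact WithZero.exp_ne_zero h.symm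
  obtain ⟨m, hm⟩ := val_exp (v := v) hg
  obtain ⟨d, hd⟩ := val_exp (v := v) hδ
  rw [map_mul, map_pow, hm, hd, ← WithZero.exp_nsmul, ← WithZero.exp_add, WithZero.exp_inj] at h
  refine ⟨-e - m, ?_⟩
  rw [hd]
  congr 1
  simp at h
  linarith

end

theorem sc (hap : S_AP) (hroot : S_ROOT) (hnv : S_NV) (hram : S_RAM) : S_SC := by
  intro f L _ _ θ hs heven
  obtain ⟨B0, hB0, hB0a, hB0'⟩ := hroot f L θ hs
  obtain ⟨⟨B1, hB1, hB1'⟩, -⟩ := hram L
  refine ⟨B0 * B1, mul_ne_zero hB0 hB1, ?_⟩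
  intro l hl hlB d D hd hD hsq hcov
  have hl0 : ¬ l ∣ B0 := fun h => hlB (Dvd.dvd.mul_right h _)
  have hl1 : ¬ l ∣ B1 := fun h => hlB (Dvd.dvd.mul_left h _)
  obtain ⟨hθ, hxw⟩ := hB0' l hl.out hl0
  have hsqf := hB1' l hl.out hl1
  have ha : ¬ (l : ℤ) ∣ f.leadingCoeff := fun h => hl0 (by exact_mod_cast h.trans hB0a)
  obtain ⟨x, w, e, g, he, hxw1, hval⟩ := hap f L θ hs l ha d hcov 2
  set δ := aeval θ d with hδ
  have hn : Even (Module.finrank ℚ L) := by rw [hs.deg]; exact heven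
  have hnv' := hnv L hn l hl.out hsqf δ hd
  -- the valuation of `D`
  have hD0 : D ≠ 0 := hD.ne_zero
  have haQ : (f.leadingCoeff : ℚ) ≠ 0 := by exact_mod_cast lead_ne hs
  have hDQ : (D : ℚ) ≠ 0 := by exact_mod_cast hD0
  have hNδ : Algebra.norm ℚ δ ≠ 0 := Algebra.norm_ne_zero_iff.mpr hd
  have hva : padicValRat l (f.leadingCoeff : ℚ) = 0 := by
    rw [padicValRat.of_int]
    exact_mod_cast padicValInt.eq_zero_of_not_dvd ha
  have hpar : Even (padicValRat l (D : ℚ) + padicValRat l (Algebra.norm ℚ δ)) := by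
    obtain ⟨s, hs'⟩ := hsq
    have h1 := congrArg (padicValRat l) hs'
    have hs0 : s ≠ 0 := by
      rintro rfl
      rw [mul_zero] at hs'
      push_cast at hs'
      exact mul_ne_zero (mul_ne_zero hDQ haQ) hNδ hs'
    push_cast at h1
    rw [padicValRat.mul (mul_ne_zero hDQ haQ) hNδ, padicValRat.mul hDQ haQ, hva,
      padicValRat.mul hs0 hs0, add_zero] at h1
    exact ⟨_, h1⟩
  have hvD0 : ¬ (l : ℤ) ∣ D → padicValRat l (D : ℚ) = 0 := by
    intro h
    rw [padicValRat.of_int]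
    exact_mod_cast padicValInt.eq_zero_of_not_dvd h
  have hvD1 : (l : ℤ) ∣ D → padicValRat l (D : ℚ) = 1 := by
    rintro ⟨z, rfl⟩
    have hz0 : z ≠ 0 := right_ne_zero_of_mul hD0
    have hzl : ¬ (l : ℤ) ∣ z := by
      intro h
      have h1 := hD l (mul_dvd_mul_left _ h)
      exact (Nat.prime_iff_prime_int.mp hl.out).not_isUnit h1
    push_cast
    rw [padicValRat.mul (by exact_mod_cast hl.out.ne_zero) (by exact_mod_cast hz0)]
    have h1 : padicValRat l (l : ℚ) = 1 := padicValRat.self hl.out.one_lt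
    have h2 : padicValRat l (z : ℚ) = 0 := by
      rw [padicValRat.of_int]
      exact_mod_cast padicValInt.eq_zero_of_not_dvd hzl
    rw [h1, h2, add_zero]
  have hun : ∀ v : HeightOneSpectrum (𝓞 L), Abv v l → v.valuation L ((x : L) - w * θ) = 1 →
      Par v δ e := by
    intro v hv h1
    exact par_of_val hd (at_unit he (hθ v hv).2 h1 (hval v hv))
  rcases hxw x w hxw1 with h1 | ⟨v0, hv0, hN0, hw, hlt, hoth⟩
  · refine ⟨e, Or.inl ⟨?_, fun v hv => hun v hv (h1 v hv)⟩⟩
    intro hlD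
    have h2 := hnv'.1 e (fun v hv => hun v hv (h1 v hv))
    rw [hvD1 hlD] at hpar
    obtain ⟨a, ha'⟩ := hpar
    obtain ⟨b, hb'⟩ := h2
    omega
  · obtain ⟨e0, he0⟩ := val_exp (v := v0) hd
    have hp0 : Par v0 δ e0 := ⟨0, by rw [he0]; congr 1; ring⟩
    have h2 := hnv'.2 e0 e v0 hv0 hN0 hp0 (fun v hv hne => hun v hv (hoth v hv hne))
    by_cases hlD : (l : ℤ) ∣ D
    · refine ⟨e, Or.inr ⟨hlD, v0, hv0, hN0, ?_, fun v hv hne => hun v hv (hoth v hv hne)⟩⟩
      rw [hvD1 hlD] at hpar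
      apply par_congr hp0
      obtain ⟨a, ha'⟩ := hpar
      obtain ⟨b, hb'⟩ := h2
      exact ⟨b - a - e, by linarith⟩
    · refine ⟨e, Or.inl ⟨hlD, fun v hv => ?_⟩⟩
      by_cases hne : v = v0
      · subst hne
        rw [hvD0 hlD] at hpar
        apply par_congr hp0
        obtain ⟨a, ha'⟩ := hpar
        obtain ⟨b, hb'⟩ := h2
        exact ⟨b - a - e, by linarith⟩
      · exact hun v hv (hoth v hv hne)

end Pool.Agent.Q239.EL
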