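import Mathlib
import Pool.Agent.H11.V.R_pool_sql_team_seeded_3997aac3_Q239_EL_SC

set_option autoImplicit false
set_option linter.unusedSectionVars false

/-! Job SD of project EL: the classes at the primes dividing `D`. -/

open Polynomial NumberField IsDedekindDomain Pool.Agent.Q51.EL

noncomputable section

namespace Pool.Agent.Q239.EL

section

variable {L : Type} [Field L] [NumberField L]

/-- a third prime -/
lemma third {l : ℕ} [hl : Fact l.Prime] (hs : Squarefree (Ideal.span {(l : 𝓞 L)}))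
    (hn : 3 ≤ Module.finrank ℚ L) (v0 v1 : HeightOneSpectrum (𝓞 L)) (h0 : ph l v0.asIdeal = 1)
    (h1 : ph l v1.asIdeal = 1) : ∃ v, Abv v l ∧ v ≠ v0 ∧ v ≠ v1 := by
  classical
  by_contra hcon
  push Not at hcon
  have hsum := sum_ph (L := L) (l := l) hs
  have hsub : (ab_finite (L := L) hl.out.ne_zero).toFinset ⊆ {v0, v1} := by
    intro v hv
    have hv' := (ab_finite (L := L) hl.out.ne_zero).mem_toFinset.mp hv
    rw [Finset.mem_insert, Finset.mem_singleton]
    by_cases h : v = v0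
    · exact Or.inl h
    · exact Or.inr (hcon v hv' h)
  have h2 : ∑ v ∈ (ab_finite (L := L) hl.out.ne_zero).toFinset, ph l v.asIdeal ≤
      ∑ v ∈ ({v0, v1} : Finset (HeightOneSpectrum (𝓞 L))), ph l v.asIdeal :=
    Finset.sum_le_sum_of_subset hsub
  have h3 : ∑ v ∈ ({v0, v1} : Finset (HeightOneSpectrum (𝓞 L))), ph l v.asIdeal ≤ 2 := by
    by_cases h : v0 = v1
    · subst h
      rw [Finset.pair_eq_singleton, Finset.sum_singleton, h0]
      norm_num
    · rw [Finset.sum_pair h, h0, h1]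
  omega

lemma ph_of_norm {l : ℕ} [hl : Fact l.Prime] {v : HeightOneSpectrum (𝓞 L)}
    (h : Ideal.absNorm v.asIdeal = l) : ph l v.asIdeal = 1 := by
  unfold ph
  rw [h, padicValNat.self hl.out.one_lt]

end

theorem sd (hap : S_AP) (hroot : S_ROOT) (hram : S_RAM) : S_SD := by
  intro f L _ _ θ hs hn3
  obtain ⟨B0, hB0, hB0a, hB0'⟩ := hroot f L θ hs
  obtain ⟨⟨B1, hB1, hB1'⟩, -⟩ := hram L
  refine ⟨B0 * B1, mul_ne_zero hB0 hB1, ?_⟩
  intro t ht l hl hlB d α hd hcov v0 hv0 hN0 hα0 hα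
  have hl0 : ¬ l ∣ B0 := fun h => hlB (Dvd.dvd.mul_right h _)
  have hl1 : ¬ l ∣ B1 := fun h => hlB (Dvd.dvd.mul_left h _)
  obtain ⟨hθ, hxw⟩ := hB0' l hl.out hl0
  have hsqf := hB1' l hl.out hl1
  have ha : ¬ (l : ℤ) ∣ f.leadingCoeff := fun h => hl0 (by exact_mod_cast h.trans hB0a)
  obtain ⟨x, w, e, g, he, hxw1, hval⟩ := hap f L θ hs l ha d hcov 2
  rw [hd] at hval
  have hun : ∀ v : HeightOneSpectrum (𝓞 L), Abv v l → v.valuation L ((x : L) - w * θ) = 1 →
      v.valuation L ((α : L) * g ^ 2) = WithZero.exp (-(e : ℤ)) := fun v hv h1 =>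
    at_unit he (hθ v hv).2 h1 (hval v hv)
  have hg0 : ∀ v : HeightOneSpectrum (𝓞 L), Abv v l → v.valuation L ((x : L) - w * θ) = 1 →
      g ≠ 0 := by
    intro v hv h1
    rintro rfl
    have h2 := hun v hv h1
    rw [zero_pow (by norm_num), mul_zero, map_zero] at h2
    exact WithZero.exp_ne_zero h2.symm
  -- away from `v0`
  have hoff : ∀ v : HeightOneSpectrum (𝓞 L), Abv v l → v ≠ v0 →
      v.valuation L ((x : L) - w * θ) = 1 → e = 0 ∧ v.valuation L g = 1 := by
    intro v hv hne h1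
    have h2 := hun v hv h1
    obtain ⟨m, hm⟩ := val_exp (v := v) (hg0 v hv h1)
    rw [map_mul, hα v hv hne, one_mul, map_pow, hm, ← WithZero.exp_nsmul, WithZero.exp_inj] at h2
    simp at h2
    have hm0 : m = 0 := by omega
    refine ⟨by omega, ?_⟩
    rw [hm, hm0]
    rfl
  have hlt0 : v0.valuation L ((x : L) - w * θ) ≠ 1 := by
    intro h1
    have h2 := hun v0 hv0 h1
    obtain ⟨m, hm⟩ := val_exp (v := v0) (hg0 v0 hv0 h1)
    rw [map_mul, hα0, map_pow, hm, ← WithZero.exp_nsmul, ← WithZero.exp_add,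
      WithZero.exp_inj] at h2
    simp at h2
    have he1 : e = 1 := by omega
    have hph0 := ph_of_norm (l := l) hN0
    have hn3' : 3 ≤ Module.finrank ℚ L := by rw [hs.deg]; exact hn3
    rcases hxw x w hxw1 with h3 | ⟨v1, hv1, hN1, -, hlt1, hoth⟩
    · obtain ⟨v, hv, hne, -⟩ := third hsqf hn3' v0 v0 hph0 hph0
      have := (hoff v hv hne (h3 v hv)).1
      omega
    · obtain ⟨v, hv, hne, hne1⟩ := third hsqf hn3' v0 v1 hph0 (ph_of_norm (l := l) hN1)
      have := (hoff v hv hne (hoth v hv hne1)).1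
      omega
  rcases hxw x w hxw1 with h3 | ⟨v1, hv1, hN1, hw, hlt1, hoth⟩
  · exact absurd (h3 v0 hv0) hlt0
  have hv01 : v1 = v0 := by
    by_contra hne
    exact hlt0 (hoth v0 hv0 (fun h => hne h.symm))
  subst hv01
  obtain ⟨r, hr⟩ : ∃ r : ℤ, (l : ℤ) ∣ w * r - f.leadingCoeff * x := by
    have h3 : IsCoprime (l : ℤ) w :=
      Int.isCoprime_iff_gcd_eq_one.mpr (Int.isCoprime_iff_gcd_eq_one.mp
        ((Nat.prime_iff_prime_int.mp hl.out).coprime_iff_not_dvd.mpr hw))
    obtain ⟨a', b', hab⟩ := h3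
    refine ⟨b' * (f.leadingCoeff * x), ⟨-a' * (f.leadingCoeff * x), ?_⟩⟩
    linear_combination (f.leadingCoeff * x) * hab
  have hmem : ∀ {v : HeightOneSpectrum (𝓞 L)} {y : 𝓞 L}, v.valuation L (y : L) < 1 →
      y ∈ v.asIdeal := fun h => (HeightOneSpectrum.valuation_lt_one_iff_mem _ _).mp h
  have hcoe : ∀ y z : 𝓞 L, ((y - z : 𝓞 L) : L) = (y : L) - (z : L) := fun y z =>
    map_sub (algebraMap (𝓞 L) L) y z
  have hcoem : ∀ y z : 𝓞 L, ((y * z : 𝓞 L) : L) = (y : L) * (z : L) := fun y z =>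
    map_mul (algebraMap (𝓞 L) L) y z
  have hac : ¬ (l : ℤ) ∣ f.leadingCoeff * w := by
    intro h
    rcases (Nat.prime_iff_prime_int.mp hl.out).dvd_or_dvd h with h4 | h4
    · exact ha h4
    · exact hw h4
  refine ⟨f.leadingCoeff * w, r, hac, ?_, ?_⟩
  · apply hmem
    rw [hcoe, ht, int_coe]
    have h1 : v1.valuation L ((w : L) * ((f.leadingCoeff : L) * θ - r)) < 1 := by
      have e1 : (w : L) * ((f.leadingCoeff : L) * θ - r) =
          -((f.leadingCoeff : L) * ((x : L) - w * θ) + ((w * r - f.leadingCoeff * x : ℤ) : L)) := by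
        push_cast; ring
      rw [e1, Valuation.map_neg]
      refine lt_of_le_of_lt (Valuation.map_add _ _ _) (max_lt ?_ (val_int_lt hv1 hr))
      rw [map_mul, mul_comm]
      exact mul_lt_one_of_lt_of_le hlt1 (val_int_le _)
    rw [map_mul, val_int_eq hv1 hw, one_mul] at h1
    exact h1
  · intro v hv hne
    have hxv := hoth v hv hne
    obtain ⟨he0, hgv⟩ := hoff v hv hne hxv
    have hρ := hval v hv
    rw [he0, pow_zero, one_mul] at hρ
    have hρ1 : v.valuation L ((x : L) - w * θ - (α : L) * g ^ 2) < 1 := by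
      refine lt_of_le_of_lt hρ ?_
      rw [← WithZero.exp_zero, WithZero.exp_lt_exp]
      norm_num
    have hgne := hg0 v hv hxv
    have hwg : v.valuation L ((w : L) / g) ≤ 1 := by
      rw [map_div₀, hgv, div_one]
      exact val_int_le w
    obtain ⟨g', hg'⟩ := HeightOneSpectrum.exists_valuation_sub_lt_of_integer v hwg 1
    rw [Units.val_one] at hg'
    have hg'' : v.valuation L ((g' : L) - (w : L) / g) < 1 := hg'
    refine ⟨g', ?_⟩
    apply hmem
    rw [hcoe, hcoem, hcoem, hcoe, ht, int_coe, int_coe]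
    have hg2 : ((g' ^ 2 : 𝓞 L) : L) = (g' : L) ^ 2 := map_pow (algebraMap (𝓞 L) L) g' 2
    rw [hg2]
    have hal : v.valuation L (α : L) = 1 := hα v hv hne
    have hale : v.valuation L (f.leadingCoeff : L) ≤ 1 := val_int_le _
    have hwle : v.valuation L (w : L) ≤ 1 := val_int_le _
    have htv : v.valuation L ((r : L) - (f.leadingCoeff : L) * θ) ≤ 1 := by
      refine (Valuation.map_sub _ _ _).trans (max_le (val_int_le r) ?_)
      rw [map_mul]
      exact mul_le_one' hale (hθ v hv).1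
    have hg'le : v.valuation L (g' : L) ≤ 1 := HeightOneSpectrum.valuation_le_one v g'
    have hginv : v.valuation L (g⁻¹) = 1 := by rw [map_inv₀, hgv, inv_one]
    -- the three small terms
    have t1 : v.valuation L (((w : L) * g⁻¹ ^ 2) * ((f.leadingCoeff : L) *
        ((x : L) - w * θ - (α : L) * g ^ 2))) < 1 := by
      have e1 : v.valuation L (((w : L) * g⁻¹ ^ 2) * ((f.leadingCoeff : L) *
        ((x : L) - w * θ - (α : L) * g ^ 2))) = v.valuation L ((x : L) - w * θ - (α : L) * g ^ 2) *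
          (v.valuation L (w : L) * v.valuation L (f.leadingCoeff : L)) := by
        rw [map_mul, map_mul, map_mul, map_pow, hginv, one_pow, mul_one, ← mul_assoc, mul_comm]
      rw [e1]
      exact mul_lt_one_of_lt_of_le hρ1 (mul_le_one' hwle hale)
    have t2 : v.valuation L (((w : L) * g⁻¹ ^ 2) * ((w * r - f.leadingCoeff * x : ℤ) : L)) < 1 := by
      rw [map_mul, map_mul, map_pow, hginv, one_pow, mul_one, mul_comm]
      exact mul_lt_one_of_lt_of_le (val_int_lt hv hr) hwle
    have t3 : v.valuation L (((g' : L) - (w : L) / g) * (((g' : L) + (w : L) / g) *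
        ((r : L) - (f.leadingCoeff : L) * θ))) < 1 := by
      rw [map_mul]
      refine mul_lt_one_of_lt_of_le hg'' ?_
      rw [map_mul]
      refine mul_le_one' ?_ htv
      exact (Valuation.map_add _ _ _).trans (max_le hg'le hwg)
    have e2 : ((f.leadingCoeff * w : ℤ) : L) * (α : L) -
        ((r : L) - (f.leadingCoeff : L) * θ) * (g' : L) ^ 2 =
        -((((w : L) * g⁻¹ ^ 2) * ((f.leadingCoeff : L) *
          ((x : L) - w * θ - (α : L) * g ^ 2)) +
        (((w : L) * g⁻¹ ^ 2) * ((w * r - f.leadingCoeff * x : ℤ) : L))) +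
        (((g' : L) - (w : L) / g) * (((g' : L) + (w : L) / g) *
        ((r : L) - (f.leadingCoeff : L) * θ)))) := by
      have hgi : g * g⁻¹ = 1 := mul_inv_cancel₀ hgne
      push_cast
      rw [div_eq_mul_inv]
      linear_combination (-((f.leadingCoeff : L) * w * (α : L)) * (g * g⁻¹ + 1)) * hgi
    rw [e2, Valuation.map_neg]
    refine lt_of_le_of_lt (Valuation.map_add _ _ _) (max_lt ?_ t3)
    exact lt_of_le_of_lt (Valuation.map_add _ _ _) (max_lt t1 t2)

end Pool.Agent.Q239.EL
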