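import Mathlib
import Pool.Agent.H11.V.R_pool_sql_team_seeded_3997aac3_Q239_EL_SD

set_option autoImplicit false
set_option linter.unusedSectionVars false

/-! Job DESC of project EL: the descent. -/

open Polynomial NumberField IsDedekindDomain Pool.Agent.Q51.EL

noncomputable section

namespace Pool.Agent.Q239.EL

section

variable {L : Type} [Field L] [NumberField L]

lemma par_or (v : HeightOneSpectrum (𝓞 L)) {x : L} (hx : x ≠ 0) : Par v x 0 ∨ Par v x 1 := by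
  obtain ⟨m, hm⟩ := val_exp (v := v) hx
  rcases Int.even_or_odd m with ⟨k, hk⟩ | ⟨k, hk⟩
  · left
    exact ⟨k, by rw [hm]; congr 1; linarith⟩
  · right
    exact ⟨k, by rw [hm]; congr 1; linarith⟩

lemma par_excl {v : HeightOneSpectrum (𝓞 L)} {x : L} (h0 : Par v x 0) (h1 : Par v x 1) : False := by
  obtain ⟨k, hk⟩ := h0
  obtain ⟨m, hm⟩ := h1
  rw [hk, WithZero.exp_inj] at hm
  omega

lemma par_mul {v : HeightOneSpectrum (𝓞 L)} {x y : L} {e m : ℤ}
    (hy : v.valuation L y = WithZero.exp m) (h : Par v x e) : Par v (y * x) (e + m) := by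
  obtain ⟨k, hk⟩ := h
  refine ⟨k, ?_⟩
  rw [map_mul, hy, hk, ← WithZero.exp_add]
  congr 1
  ring

lemma mem_finite {x : 𝓞 L} (hx : x ≠ 0) :
    {v : HeightOneSpectrum (𝓞 L) | x ∈ v.asIdeal}.Finite := by
  have h1 := Ideal.finite_factors (R := 𝓞 L) (I := Ideal.span {x}) (span_ne hx)
  refine h1.subset ?_
  intro v hv
  rw [Set.mem_ofPred_eq, Ideal.dvd_iff_le, Ideal.span_singleton_le_iff_mem]
  exact hv

lemma supp_finite {x : L} (hx : x ≠ 0) :
    {v : HeightOneSpectrum (𝓞 L) | v.valuation L x ≠ 1}.Finite := by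
  obtain ⟨a, b, hb, hab⟩ := exists_ratio x
  have hbL := coe_ne hb
  have ha : a ≠ 0 := by
    rintro rfl
    exact mul_ne_zero hx hbL (by simpa using hab)
  refine ((mem_finite ha).union (mem_finite hb)).subset ?_
  intro v hv
  by_contra hcon
  rw [Set.mem_union, not_or] at hcon
  apply hv
  have h1 : v.valuation L (a : L) = 1 :=
    (HeightOneSpectrum.valuation_eq_one_iff_notMem v).mpr hcon.1
  have h2 : v.valuation L (b : L) = 1 :=
    (HeightOneSpectrum.valuation_eq_one_iff_notMem v).mpr hcon.2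
  rw [← hab, map_mul, h2, mul_one] at h1
  exact h1

/-- the prime below -/
def bl (v : HeightOneSpectrum (𝓞 L)) : ℕ := (below v).choose

lemma bl_prime (v : HeightOneSpectrum (𝓞 L)) : (bl v).Prime := (below v).choose_spec.choose_spec.1

lemma bl_abv (v : HeightOneSpectrum (𝓞 L)) : Abv v (bl v) :=
  (below v).choose_spec.choose_spec.2.1

lemma exists_above {l : ℕ} [hl : Fact l.Prime] (hs : Squarefree (Ideal.span {(l : 𝓞 L)})) :
    ∃ v : HeightOneSpectrum (𝓞 L), Abv v l := by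
  have hsum := sum_ph (L := L) (l := l) hs
  have hpos : 0 < Module.finrank ℚ L := Module.finrank_pos
  rw [← hsum] at hpos
  obtain ⟨v, hv, -⟩ := Finset.exists_ne_zero_of_sum_ne_zero hpos.ne'
  exact ⟨v, (ab_finite (L := L) hl.out.ne_zero).mem_toFinset.mp hv⟩

lemma nat_coe (z : ℕ) : ((z : 𝓞 L) : L) = (z : L) := by simp

lemma val_prod_primes {l : ℕ} (hl : l.Prime) {v : HeightOneSpectrum (𝓞 L)} (hv : Abv v l)
    (hvl : v.valuation L (l : L) = WithZero.exp (-1 : ℤ)) (S : Finset ℕ)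
    (hS : ∀ q ∈ S, q.Prime) : v.valuation L ((∏ q ∈ S, q : ℕ) : L) =
      WithZero.exp (-(if l ∈ S then (1 : ℤ) else 0)) := by
  have h1 : ∀ q ∈ S, q ≠ l → v.valuation L (q : L) = 1 := by
    intro q hq hne
    rw [← nat_coe]
    apply (HeightOneSpectrum.valuation_eq_one_iff_notMem v).mpr
    intro h
    exact hne (prime_unique (hS q hq) hl h hv)
  push_cast
  rw [map_prod]
  by_cases h : l ∈ S
  · rw [Finset.prod_eq_single_of_mem l h h1, hvl, if_pos h]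
  · rw [if_neg h, neg_zero, WithZero.exp_zero]
    apply Finset.prod_eq_one
    intro q hq
    exact h1 q hq (fun hql => h (hql ▸ hq))

lemma theta_surj {f : ℤ[X]} {θ : L} (hs : Setup f L θ) (x : L) : ∃ d : ℚ[X], aeval θ d = x := by
  have hint : IsIntegral ℚ θ := Algebra.IsIntegral.isIntegral θ
  have htop : IntermediateField.adjoin ℚ {θ} = ⊤ :=
    (Field.primitive_element_iff_minpoly_natDegree_eq ℚ θ).mpr (theta_deg hs)
  have htop' : Algebra.adjoin ℚ {θ} = ⊤ := by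
    rw [← IntermediateField.adjoin_simple_toSubalgebra_of_isAlgebraic hint.isAlgebraic, htop]
    rfl
  have hx : x ∈ Algebra.adjoin ℚ {θ} := by rw [htop']; trivial
  rw [Algebra.adjoin_singleton_eq_range_aeval] at hx
  exact hx

end

theorem desc (hun : S_UN) (hcl : S_CL) (hsc : S_SC) (hsd : S_SD) (hch : S_CH) (hram : S_RAM) :
    S_DESC := by
  classical
  intro f L _ _ θ hs heven hn3 t ht
  obtain ⟨Cu, hCu, hun'⟩ := hun L
  obtain ⟨Bc, Cc, hBc, hCc, hcl'⟩ := hcl L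
  obtain ⟨Bs, hBs, hsc'⟩ := hsc f L θ hs heven
  obtain ⟨Bd, hBd, hsd'⟩ := hsd f L θ hs hn3
  obtain ⟨⟨Br, hBr, hBr'⟩, -⟩ := hram L
  set B : ℕ := Bc * Bs * Bd * Br with hB
  have hB0 : B ≠ 0 := mul_ne_zero (mul_ne_zero (mul_ne_zero hBc hBs) hBd) hBr
  have hn : Module.finrank ℚ L = f.natDegree := hs.deg
  have hn0 : 0 < f.natDegree := by omega
  have hWf : {v : HeightOneSpectrum (𝓞 L) | (B : 𝓞 L) ∈ v.asIdeal}.Finite :=
    mem_finite (by exact_mod_cast hB0)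
  set W := hWf.toFinset with hW
  set W0 : ℕ := ∏ v ∈ W, Ideal.absNorm v.asIdeal with hW0
  have hW0pos : 0 < W0 := Finset.prod_pos fun v _ => one_le_norm' v
  refine ⟨B, Cu * (Cc * W0) ^ ((1 : ℝ) / f.natDegree), hB0, by positivity, ?_⟩
  rintro D hD ⟨d, hd, hsq, hcov⟩
  have hD0 : D ≠ 0 := hD.ne_zero
  set δ := aeval θ d with hδ
  have hB1 : ∀ l : ℕ, ¬ l ∣ B → ¬ l ∣ Bc ∧ ¬ l ∣ Bs ∧ ¬ l ∣ Bd ∧ ¬ l ∣ Br := fun l h =>
    ⟨fun h1 => h (Dvd.dvd.mul_right (Dvd.dvd.mul_right (Dvd.dvd.mul_right h1 _) _) _),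
      fun h1 => h (Dvd.dvd.mul_right (Dvd.dvd.mul_right (Dvd.dvd.mul_left h1 _) _) _),
      fun h1 => h (Dvd.dvd.mul_right (Dvd.dvd.mul_left h1 _) _),
      fun h1 => h (Dvd.dvd.mul_left h1 _)⟩
  have hBmem : ∀ (l : ℕ) (v : HeightOneSpectrum (𝓞 L)) (m : ℕ), l.Prime → Abv v l → ¬ l ∣ m →
      (m : 𝓞 L) ∉ v.asIdeal := by
    intro l v m hl hv hm h
    apply hm
    have h1 := (int_mem_iff hl hv (m : ℤ)).mp (by exact_mod_cast h)
    exact_mod_cast h1
  -- the parities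
  have hSC : ∀ l : ℕ, l.Prime → ¬ l ∣ B → ∃ e : ℕ, e < 2 ∧
      ((¬ (l : ℤ) ∣ D ∧ ∀ v : HeightOneSpectrum (𝓞 L), Abv v l → Par v δ e) ∨
      ((l : ℤ) ∣ D ∧ ∃ v0 : HeightOneSpectrum (𝓞 L), Abv v0 l ∧ Ideal.absNorm v0.asIdeal = l ∧
        Par v0 δ (e + 1) ∧ ∀ v : HeightOneSpectrum (𝓞 L), Abv v l → v ≠ v0 → Par v δ e)) := by
    intro l hl hlB
    have : Fact l.Prime := ⟨hl⟩
    obtain ⟨e, he⟩ := hsc' l (hB1 l hlB).2.1 d D hd hD hsq (hcov l)
    have h1 : ∀ (v : HeightOneSpectrum (𝓞 L)) (x : L), Par v x e →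
        Par v x ((e % 2).toNat : ℕ) := fun v x h =>
      par_congr h ⟨e / 2, by omega⟩
    have h2 : ∀ (v : HeightOneSpectrum (𝓞 L)) (x : L), Par v x (e + 1) →
        Par v x (((e % 2).toNat : ℕ) + 1) := fun v x h =>
      par_congr h ⟨e / 2, by omega⟩
    refine ⟨(e % 2).toNat, by omega, ?_⟩
    rcases he with ⟨h3, h4⟩ | ⟨h3, v0, h4, h5, h6, h7⟩
    · exact Or.inl ⟨h3, fun v hv => h1 v δ (h4 v hv)⟩
    · exact Or.inr ⟨h3, v0, h4, h5, h2 v0 δ h6, fun v hv hne => h1 v δ (h7 v hv hne)⟩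
  let ee : ℕ → ℕ := fun l => if h : l.Prime ∧ ¬ l ∣ B then (hSC l h.1 h.2).choose else 0
  have hee : ∀ l (hl : l.Prime) (hlB : ¬ l ∣ B), ee l < 2 ∧
      ((¬ (l : ℤ) ∣ D ∧ ∀ v : HeightOneSpectrum (𝓞 L), Abv v l → Par v δ (ee l)) ∨
      ((l : ℤ) ∣ D ∧ ∃ v0 : HeightOneSpectrum (𝓞 L), Abv v0 l ∧ Ideal.absNorm v0.asIdeal = l ∧
        Par v0 δ (ee l + 1) ∧ ∀ v : HeightOneSpectrum (𝓞 L), Abv v l → v ≠ v0 →
          Par v δ (ee l))) := by
    intro l hl hlB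
    have h1 : ee l = (hSC l hl hlB).choose := dif_pos ⟨hl, hlB⟩
    rw [h1]
    exact (hSC l hl hlB).choose_spec
  have hfin : {l : ℕ | l.Prime ∧ ¬ l ∣ B ∧ ee l = 1}.Finite := by
    refine ((D.natAbs.divisors.finite_toSet).union ((supp_finite hd).image bl)).subset ?_
    rintro l ⟨hl, hlB, he⟩
    have : Fact l.Prime := ⟨hl⟩
    rcases (hee l hl hlB).2 with ⟨h3, h4⟩ | ⟨h3, -⟩
    · right
      obtain ⟨v, hv⟩ := exists_above (L := L) (hBr' l hl (hB1 l hlB).2.2.2)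
      refine ⟨v, ?_, prime_unique (bl_prime v) hl (bl_abv v) hv⟩
      intro h5
      have h6 := h4 v hv
      rw [he] at h6
      obtain ⟨k, hk⟩ := h6
      rw [h5, ← WithZero.exp_zero, WithZero.exp_inj] at hk
      push_cast at hk
      omega
    · left
      rw [Finset.mem_coe, Nat.mem_divisors]
      exact ⟨Int.natCast_dvd.mp h3, Int.natAbs_ne_zero.mpr hD0⟩
  set S1 := hfin.toFinset with hS1
  have hS1m : ∀ l, l ∈ S1 ↔ l.Prime ∧ ¬ l ∣ B ∧ ee l = 1 := fun l => hfin.mem_toFinset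
  set c : ℕ := ∏ q ∈ S1, q with hc
  have hc0 : c ≠ 0 := Finset.prod_ne_zero_iff.mpr fun q hq => ((hS1m q).mp hq).1.ne_zero
  have hcL : (c : L) ≠ 0 := by exact_mod_cast hc0
  have hvl : ∀ (l : ℕ) (v : HeightOneSpectrum (𝓞 L)), l.Prime → ¬ l ∣ B → Abv v l →
      v.valuation L (l : L) = WithZero.exp (-1 : ℤ) := by
    intro l v hl hlB hv
    have : Fact l.Prime := ⟨hl⟩
    have hl0 : (l : 𝓞 L) ≠ 0 := by exact_mod_cast hl.ne_zero
    have h1 := val_int v hl0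
    rw [nat_coe, mu_l (hBr' l hl (hB1 l hlB).2.2.2) hv] at h1
    exact_mod_cast h1
  have hvc : ∀ (l : ℕ) (v : HeightOneSpectrum (𝓞 L)), l.Prime → ¬ l ∣ B → Abv v l →
      v.valuation L (c : L) = WithZero.exp (-(ee l : ℤ)) := by
    intro l v hl hlB hv
    rw [hc, val_prod_primes hl hv (hvl l v hl hlB hv) S1 fun q hq => ((hS1m q).mp hq).1]
    congr 2
    have := (hee l hl hlB).1
    by_cases h : ee l = 1
    · rw [if_pos ((hS1m l).mpr ⟨hl, hlB, h⟩), h]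
      rfl
    · rw [if_neg (fun h2 => h ((hS1m l).mp h2).2.2)]
      have : ee l = 0 := by omega
      rw [this]
      rfl
  have hkey : ∀ l : ℕ, l.Prime → ¬ l ∣ B →
      ((¬ (l : ℤ) ∣ D ∧ ∀ v : HeightOneSpectrum (𝓞 L), Abv v l → Par v ((c : L) * δ) 0) ∨
      ((l : ℤ) ∣ D ∧ ∃ v0 : HeightOneSpectrum (𝓞 L), Abv v0 l ∧ Ideal.absNorm v0.asIdeal = l ∧
        Par v0 ((c : L) * δ) 1 ∧ ∀ v : HeightOneSpectrum (𝓞 L), Abv v l → v ≠ v0 →
          Par v ((c : L) * δ) 0)) := by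
    intro l hl hlB
    have h1 : ∀ v, Abv v l → Par v δ (ee l) → Par v ((c : L) * δ) 0 := by
      intro v hv h
      have := par_mul (hvc l v hl hlB hv) h
      rwa [add_neg_cancel] at this
    rcases (hee l hl hlB).2 with ⟨h3, h4⟩ | ⟨h3, v0, h4, h5, h6, h7⟩
    · exact Or.inl ⟨h3, fun v hv => h1 v hv (h4 v hv)⟩
    · refine Or.inr ⟨h3, v0, h4, h5, ?_, fun v hv hne => h1 v hv (h7 v hv hne)⟩
      have := par_mul (hvc l v0 hl hlB h4) h6
      rwa [show (ee l : ℤ) + 1 + -(ee l : ℤ) = 1 by ring] at this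
  have hcδ : (c : L) * δ ≠ 0 := mul_ne_zero hcL hd
  -- the set `S`
  have hSfin : {v : HeightOneSpectrum (𝓞 L) | (Bc : 𝓞 L) ∉ v.asIdeal ∧
      Par v ((c : L) * δ) 1}.Finite := by
    refine (supp_finite hcδ).subset ?_
    rintro v ⟨-, hv⟩ h5
    obtain ⟨k, hk⟩ := hv
    rw [h5, ← WithZero.exp_zero, WithZero.exp_inj] at hk
    omega
  set S := hSfin.toFinset with hS
  have hSm : ∀ v, v ∈ S ↔ (Bc : 𝓞 L) ∉ v.asIdeal ∧ Par v ((c : L) * δ) 1 := fun v =>
    hSfin.mem_toFinset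
  obtain ⟨η, α0, hη, hα0, hval0, hnorm0⟩ := hcl' ((c : L) * δ) S hcδ (fun v hv =>
    ⟨fun h => ((hSm v).mp h).2, fun h => by
      rcases par_or v hcδ with h1 | h1
      · exact h1
      · exact absurd ((hSm v).mpr ⟨hv, h1⟩) h⟩)
  have hα0L : (α0 : L) ≠ 0 := by
    rw [hα0]
    exact mul_ne_zero hcδ (pow_ne_zero 2 hη)
  have hα00 : α0 ≠ 0 := by
    rintro rfl
    exact hα0L (by simp)
  -- the norms
  have hprodS : ∏ v ∈ S, Ideal.absNorm v.asIdeal ≤ W0 * D.natAbs := by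
    have h1 : S ⊆ (S.filter fun v => (B : 𝓞 L) ∉ v.asIdeal) ∪ W := by
      intro v hv
      rw [Finset.mem_union, Finset.mem_filter]
      by_cases h : (B : 𝓞 L) ∈ v.asIdeal
      · exact Or.inr (hWf.mem_toFinset.mpr h)
      · exact Or.inl ⟨hv, h⟩
    set S' := S.filter fun v => (B : 𝓞 L) ∉ v.asIdeal with hS'
    have hS'm : ∀ v ∈ S', ¬ bl v ∣ B ∧ ((bl v : ℕ) : ℤ) ∣ D ∧ Ideal.absNorm v.asIdeal = bl v ∧
        ∀ v' ∈ S', bl v' = bl v → v' = v := by
      intro v hv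
      obtain ⟨hv1, hv2⟩ := Finset.mem_filter.mp hv
      have hv3 := ((hSm v).mp hv1).2
      have h2 : ¬ bl v ∣ B := by
        rintro ⟨m, hm⟩
        apply hv2
        rw [hm, Nat.cast_mul]
        exact Ideal.mul_mem_right _ _ (bl_abv v)
      rcases hkey (bl v) (bl_prime v) h2 with ⟨-, h4⟩ | ⟨h3, v0, h4, h5, h6, h7⟩
      · exact absurd hv3 (fun h => par_excl (h4 v (bl_abv v)) h)
      · have h8 : v = v0 := by
          by_contra hne
          exact par_excl (h7 v (bl_abv v) hne) hv3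
        refine ⟨h2, h3, by rw [h8]; rw [h8] at h5; exact h5, ?_⟩
        intro v' hv' hbl
        have hv3' := ((hSm v').mp (Finset.mem_filter.mp hv').1).2
        have h9 : v' = v0 := by
          by_contra hne
          exact par_excl (h7 v' (by rw [← hbl]; exact bl_abv v') hne) hv3'
        rw [h9, h8]
    have h2 : ∏ v ∈ S', Ideal.absNorm v.asIdeal ∣ D.natAbs := by
      have h3 : ∏ v ∈ S', Ideal.absNorm v.asIdeal = ∏ q ∈ S'.image bl, q := by
        rw [Finset.prod_image (fun v hv v' hv' h => (hS'm v' hv').2.2.2 v hv h)]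
        exact Finset.prod_congr rfl fun v hv => (hS'm v hv).2.2.1
      rw [h3]
      apply Finset.prod_primes_dvd
      · intro q hq
        obtain ⟨v, hv, rfl⟩ := Finset.mem_image.mp hq
        exact (bl_prime v).prime
      · intro q hq
        obtain ⟨v, hv, rfl⟩ := Finset.mem_image.mp hq
        exact Int.natCast_dvd.mp (hS'm v hv).2.1
    calc ∏ v ∈ S, Ideal.absNorm v.asIdeal ≤ ∏ v ∈ S' ∪ W, Ideal.absNorm v.asIdeal :=
          Finset.prod_le_prod_of_subset_of_one_le' h1 fun v _ _ => one_le_norm' v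
      _ ≤ (∏ v ∈ S' ∪ W, Ideal.absNorm v.asIdeal) * ∏ v ∈ S' ∩ W, Ideal.absNorm v.asIdeal :=
          Nat.le_mul_of_pos_right _ (Finset.prod_pos fun v _ => one_le_norm' v)
      _ = (∏ v ∈ S', Ideal.absNorm v.asIdeal) * W0 := Finset.prod_union_inter
      _ ≤ D.natAbs * W0 := Nat.mul_le_mul_right _
          (Nat.le_of_dvd (Nat.pos_of_ne_zero (Int.natAbs_ne_zero.mpr hD0)) h2)
      _ = W0 * D.natAbs := mul_comm _ _
  obtain ⟨u, hu⟩ := hun' α0 hα00
  set α : 𝓞 L := α0 * (u : 𝓞 L) ^ 2 with hα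
  have huL : ((u : 𝓞 L) : L) ≠ 0 := coe_ne u.ne_zero
  have hαL : (α : L) = (c : L) * δ * (η * ((u : 𝓞 L) : L)) ^ 2 := by
    have e1 : ((α0 * (u : 𝓞 L) ^ 2 : 𝓞 L) : L) = (α0 : L) * ((u : 𝓞 L) : L) ^ 2 := by
      have e2 : ((α0 * (u : 𝓞 L) ^ 2 : 𝓞 L) : L) = (α0 : L) * (((u : 𝓞 L) ^ 2 : 𝓞 L) : L) :=
        map_mul (algebraMap (𝓞 L) L) _ _
      rw [e2]
      congr 1
    rw [hα, e1, hα0]
    ring
  have hηu : η * ((u : 𝓞 L) : L) ≠ 0 := mul_ne_zero hη huL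
  have hαL0 : (α : L) ≠ 0 := by
    rw [hαL]
    exact mul_ne_zero hcδ (pow_ne_zero 2 hηu)
  have hvu : ∀ v : HeightOneSpectrum (𝓞 L), v.valuation L ((u : 𝓞 L) : L) = 1 := by
    intro v
    apply (HeightOneSpectrum.valuation_eq_one_iff_notMem v).mpr
    intro h
    exact v.isPrime.ne_top (Ideal.eq_top_of_isUnit_mem _ h u.isUnit)
  have hvα : ∀ v : HeightOneSpectrum (𝓞 L), v.valuation L (α : L) = v.valuation L (α0 : L) := by
    intro v
    have e1 : (α : L) = (α0 : L) * ((u : 𝓞 L) : L) ^ 2 := by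
      rw [hαL, hα0]
      ring
    rw [e1, map_mul, map_pow, hvu, one_pow, mul_one]
  obtain ⟨d', hd'⟩ := theta_surj hs (α : L)
  obtain ⟨η', hη'⟩ := theta_surj hs (η * ((u : 𝓞 L) : L))
  have hcQ : (c : ℚ) ≠ 0 := by exact_mod_cast hc0
  have hcov' : ∀ (p : ℕ) [Fact p.Prime], CovPt f d' ℚ_[p] := by
    intro p hp
    refine hch f L θ hs d d' η' (c : ℚ) hcQ (by rw [hη']; exact hηu) ?_ ℚ_[p] (hcov p)
    rw [hd', hη', hαL, Rat.cast_natCast]
  refine ⟨α, ?_, ?_, ?_, ?_⟩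
  · rintro h
    rw [h] at hαL0
    exact hαL0 (by simp)
  · intro l hl hlB
    have : Fact l.Prime := ⟨hl⟩
    have hBcv : ∀ v : HeightOneSpectrum (𝓞 L), Abv v l → (Bc : 𝓞 L) ∉ v.asIdeal := fun v hv =>
      hBmem l v Bc hl hv (hB1 l hlB).1
    have hv1 : ∀ v : HeightOneSpectrum (𝓞 L), Abv v l → Par v ((c : L) * δ) 0 →
        v.valuation L (α : L) = 1 := by
      intro v hv h
      rw [hvα]
      exact (hval0 v (hBcv v hv)).2 (fun h2 => par_excl h ((hSm v).mp h2).2)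
    rcases hkey l hl hlB with ⟨h3, h4⟩ | ⟨h3, v0, h4, h5, h6, h7⟩
    · left
      intro v hv
      exact (HeightOneSpectrum.valuation_eq_one_iff_notMem v).mp (hv1 v hv (h4 v hv))
    · right
      have hv0 : v0.valuation L (α : L) = WithZero.exp (-1 : ℤ) := by
        rw [hvα]
        exact (hval0 v0 (hBcv v0 h4)).1 ((hSm v0).mpr ⟨hBcv v0 h4, h6⟩)
      have hother : ∀ v : HeightOneSpectrum (𝓞 L), Abv v l → v ≠ v0 →
          v.valuation L (α : L) = 1 := fun v hv hne => hv1 v hv (h7 v hv hne)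
      refine ⟨v0, h4, h5, ?_, ?_, ?_⟩
      · apply (HeightOneSpectrum.valuation_lt_one_iff_mem (K := L) v0 α).mp
        have h8 : v0.valuation L (α : L) < 1 := by
          rw [hv0, ← WithZero.exp_zero, WithZero.exp_lt_exp]
          norm_num
        exact h8
      · intro v hv hne
        exact (HeightOneSpectrum.valuation_eq_one_iff_notMem v).mp (hother v hv hne)
      · exact hsd' t ht l (hB1 l hlB).2.2.1 d' α hd' (hcov' l) v0 h4 h5 hv0 hother
  · obtain ⟨s, hs'⟩ := hsq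
    obtain ⟨m, hm⟩ := heven
    refine ⟨s * ((c : ℚ) ^ m * Algebra.norm ℚ (η * ((u : 𝓞 L) : L))), ?_⟩
    have hNc : Algebra.norm ℚ (c : L) = (c : ℚ) ^ Module.finrank ℚ L := by
      have := Algebra.norm_algebraMap (S := L) (c : ℚ)
      rwa [map_natCast] at this
    rw [hαL, map_mul, map_mul, map_pow, hNc, hn, hm]
    calc ((D * f.leadingCoeff : ℤ) : ℚ) * ((c : ℚ) ^ (m + m) * Algebra.norm ℚ δ *
          Algebra.norm ℚ (η * ((u : 𝓞 L) : L)) ^ 2)
        = (((D * f.leadingCoeff : ℤ) : ℚ) * Algebra.norm ℚ δ) * ((c : ℚ) ^ m *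
          Algebra.norm ℚ (η * ((u : 𝓞 L) : L))) ^ 2 := by
          rw [pow_add]; ring
      _ = _ := by rw [hs']; ring
  · intro σ
    have hN : ((Ideal.absNorm (Ideal.span {α0}) : ℕ) : ℝ) ≤ (Cc * W0) * (D.natAbs : ℝ) := by
      refine hnorm0.trans ?_
      have h1 : (∏ v ∈ S, ((Ideal.absNorm v.asIdeal : ℕ) : ℝ)) ≤ (W0 : ℝ) * (D.natAbs : ℝ) := by
        exact_mod_cast hprodS
      calc Cc * ∏ v ∈ S, ((Ideal.absNorm v.asIdeal : ℕ) : ℝ) ≤ Cc * ((W0 : ℝ) * (D.natAbs : ℝ)) :=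
            mul_le_mul_of_nonneg_left h1 hCc.le
        _ = _ := by ring
    have h2 := hu σ
    rw [hn] at h2
    refine h2.trans ?_
    have hexp : (0 : ℝ) ≤ (1 : ℝ) / f.natDegree := by positivity
    calc Cu * ((Ideal.absNorm (Ideal.span {α0}) : ℕ) : ℝ) ^ ((1 : ℝ) / f.natDegree)
        ≤ Cu * ((Cc * W0) * (D.natAbs : ℝ)) ^ ((1 : ℝ) / f.natDegree) :=
          mul_le_mul_of_nonneg_left (Real.rpow_le_rpow (by positivity) hN hexp) hCu.le
      _ = _ := by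
          rw [Real.mul_rpow (by positivity) (by positivity)]
          ring

end Pool.Agent.Q239.EL
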