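import Mathlib
import Pool.Agent.H11.V.R_seed8_Helper112_LS

/-!
Project BL (helper194): sums and differences of two coprime elements of the multiplicative
semigroup generated by `k` integers are almost never (a smooth number times) a perfect power.
Interface statements.
-/

namespace Pool.Agent.TH194.BL

open Finset

open Classical in
/-- LOC: the local count. `t` a prime with `q ∣ t - 1`. For exponent vectors `x`, `y` with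
`gcd (y_i - x_i, t - 1) ∣ 2` at most three quarters of the `A` modulo `t` have a vanishing
coordinate or satisfy `∏ A_i ^ x_i + s ∏ A_i ^ y_i = c z ^ q` for some `z`. -/
def S_LOC : Prop := ∀ (k q t : ℕ) [Fact t.Prime], q.Prime → q ∣ t - 1 → 16 * (k + 4) ^ 2 ≤ t →
  ∀ (x y : Fin k → ℕ) (s c : ZMod t), (s = 1 ∨ s = -1) →
  (∀ r : ℕ, r ∣ t - 1 → (∀ i, (r : ℤ) ∣ (y i : ℤ) - x i) → r ∣ 2) →
  (((univ : Finset (Fin k → ZMod t)).filter (fun A => (∃ i, A i = 0) ∨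
    ∃ z, ∏ i, A i ^ x i + s * ∏ i, A i ^ y i = c * z ^ q)).card : ℝ) ≤ 3 / 4 * (t : ℝ) ^ k

/-- DESC: the descent. -/
def S_DESC : Prop := ∀ (k q lam : ℕ) (Sm : ℕ → Prop), q.Prime → 0 < lam → ¬ 4 ∣ lam →
  (∀ p : ℕ, p.Prime → p ∣ lam → Sm p) →
  ∀ (A x y : Fin k → ℕ) (c w : ℕ), (∀ i, 0 < A i) →
  Nat.Coprime (∏ i, A i ^ x i) (∏ i, A i ^ y i) →
  (∏ i, A i ^ x i) * (∏ i, A i ^ y i) ≠ 1 →
  0 < c → (∀ p : ℕ, p.Prime → p ∣ c → Sm p) →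
  (∏ i, A i ^ x i + ∏ i, A i ^ y i = c * w ^ q ∨ ∏ i, A i ^ x i = ∏ i, A i ^ y i + c * w ^ q) →
  ∃ (x' y' : Fin k → ℕ) (c' w' : ℕ), 0 < c' ∧ (∀ p : ℕ, p.Prime → p ∣ c' → Sm p) ∧
    (∀ p : ℕ, c'.factorization p < q) ∧
    (∀ r : ℕ, r ∣ lam → (∀ i, (r : ℤ) ∣ (y' i : ℤ) - x' i) → r ∣ 2) ∧
    (∏ i, A i ^ x' i + ∏ i, A i ^ y' i = c' * w' ^ q ∨
      ∏ i, A i ^ x' i = ∏ i, A i ^ y' i + c' * w' ^ q)

open Classical in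
/-- SSP: many primes `t ≤ T`, `t ≡ 3 (mod 4)`, `t ≡ 1 (mod q)`, with all prime factors of `t - 1`
at most `T ^ θ`, `θ > 1 / 2`, uniformly for primes `q ≤ (log T) ^ B`. -/
def S_SSP : Prop := ∀ (θ ε : ℝ), 1 / 2 < θ → θ < 1 → 0 < ε → ∀ B : ℕ, ∃ T₀ : ℕ, ∀ T : ℕ, T₀ ≤ T →
  ∀ q : ℕ, q.Prime → (q : ℝ) ≤ Real.log T ^ B →
  (T : ℝ) ^ (1 - ε) ≤ (((Icc 1 T).filter (fun t : ℕ => t.Prime ∧ t % 4 = 3 ∧ q ∣ t - 1 ∧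
    ∀ p : ℕ, p.Prime → p ∣ t - 1 → (p : ℝ) ≤ (T : ℝ) ^ θ)).card : ℝ)

/-- LSK: the arithmetic large sieve in dimension `k`, for moduli with exactly `j` prime factors. -/
def S_LSK : Prop := ∀ (k N Q j : ℕ) (a : Fin k → ℕ) (P : Finset ℕ) (Z : Finset (Fin k → ℕ))
  (Om : (t : ℕ) → Finset (Fin k → ZMod t)), 1 ≤ N → Q ^ 2 ≤ N → (∀ t ∈ P, t.Prime) →
  (∀ z ∈ Z, ∀ i, z i ∈ Ioc (a i) (a i + N)) →
  (∀ t ∈ P, ((Om t).card : ℝ) ≤ 3 / 4 * (t : ℝ) ^ k) →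
  (∀ z ∈ Z, ∀ t ∈ P, (fun i => ((z i : ℕ) : ZMod t)) ∈ Om t) →
  (∀ D ∈ P.powersetCard j, ∏ t ∈ D, t ≤ Q) →
  (Z.card : ℝ) * ((P.card.choose j : ℝ) / 3 ^ j) ≤ (12 * (N : ℝ)) ^ k

/-- the Farey fractions `b / f`, `f ≤ F`, as pairs `(f, b)` -/
def Far (F : ℕ) : Finset (ℕ × ℕ) :=
  ((Icc 1 F) ×ˢ (range F)).filter (fun r => r.2 < r.1 ∧ Nat.Coprime r.2 r.1)

open Pool.Agent.Helper112 (ee)

/-- ADD: the additive large sieve in dimension `k` -/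
def S_ADD : Prop := ∀ (k N F : ℕ) (c : (Fin k → ℕ) → ℂ),
  ∑ r ∈ Fintype.piFinset (fun _ : Fin k => Far F),
    ‖∑ z ∈ Fintype.piFinset (fun _ : Fin k => Icc 1 N),
      c z * ee (∑ i, (z i : ℝ) * (r i).2 / (r i).1)‖ ^ 2 ≤
    (6 * (N + (F : ℝ) ^ 2)) ^ k * ∑ z ∈ Fintype.piFinset (fun _ : Fin k => Icc 1 N), ‖c z‖ ^ 2

open Classical in
/-- LOW: the lower bound for one modulus `m = ∏ t ∈ D, t` -/
def S_LOW : Prop := ∀ (k : ℕ) (D : Finset ℕ) (Z : Finset (Fin k → ℕ))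
  (Om : (t : ℕ) → Finset (Fin k → ZMod t)), (∀ t ∈ D, t.Prime) →
  (∀ t ∈ D, ((Om t).card : ℝ) ≤ 3 / 4 * (t : ℝ) ^ k) →
  (∀ z ∈ Z, ∀ t ∈ D, (fun i => ((z i : ℕ) : ZMod t)) ∈ Om t) → ∀ c : (Fin k → ℕ) → ℂ,
  (1 / 3 : ℝ) ^ D.card * ‖∑ z ∈ Z, c z‖ ^ 2 ≤
    ∑ b ∈ (Fintype.piFinset (fun _ : Fin k => range (∏ t ∈ D, t))).filter
      (fun b => ∀ t ∈ D, ∃ i, ¬ t ∣ b i),
      ‖∑ z ∈ Z, c z * ee (∑ i, (z i : ℝ) * (b i : ℝ) / ((∏ t ∈ D, t : ℕ) : ℝ))‖ ^ 2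

end Pool.Agent.TH194.BL
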