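import Mathlib
import Pool.Agent.H11.V.R_seed8_TH194_BL_Stmts

set_option autoImplicit false

/-! Project BL (helper194): the additive large sieve in dimension `k`. -/

namespace Pool.Agent.TH194.BL

open Finset

namespace AddX

open Pool.Agent.Helper112 (ee)

theorem ee_add (x y : ℝ) : ee (x + y) = ee x * ee y := by
  unfold ee
  rw [← Complex.exp_add]
  congr 1
  push_cast
  ring

theorem sum_pi_succ {α M : Type*} [AddCommMonoid M] [DecidableEq α] (k : ℕ) (S : Finset α)
    (f : (Fin (k + 1) → α) → M) :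
    ∑ z ∈ Fintype.piFinset (fun _ : Fin (k + 1) => S), f z =
      ∑ a ∈ S, ∑ z' ∈ Fintype.piFinset (fun _ : Fin k => S), f (Fin.cons a z') := by
  rw [← Finset.sum_product']
  refine Finset.sum_bij' (fun z _ => (z 0, Fin.tail z)) (fun p _ => Fin.cons p.1 p.2) ?_ ?_ ?_ ?_ ?_
  · intro z hz
    rw [Fintype.mem_piFinset] at hz
    rw [Finset.mem_product, Fintype.mem_piFinset]
    exact ⟨hz 0, fun i => hz i.succ⟩
  · intro p hp
    rw [Finset.mem_product, Fintype.mem_piFinset] at hp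
    rw [Fintype.mem_piFinset]
    intro i
    refine Fin.cases ?_ (fun j => ?_) i
    · simpa using hp.1
    · simpa using hp.2 j
  · intro z _; exact Fin.cons_self_tail z
  · intro p _; simp
  · intro z _; rw [Fin.cons_self_tail z]

theorem far_sum (F : ℕ) (g : ℕ × ℕ → ℝ) :
    ∑ r ∈ Far F, g r = ∑ f ∈ Icc 1 F, ∑ a ∈ (range f).filter (fun a => a.Coprime f), g (f, a) := by
  unfold Far
  rw [Finset.sum_filter, Finset.sum_product]
  apply Finset.sum_congr rfl
  intro f hf
  rw [← Finset.sum_filter]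
  apply Finset.sum_congr _ (fun _ _ => rfl)
  ext a
  have := Finset.mem_Icc.1 hf
  simp only [Finset.mem_filter, Finset.mem_range]
  constructor
  · rintro ⟨h1, h2, h3⟩; exact ⟨h2, h3⟩
  · rintro ⟨h1, h2⟩; exact ⟨by omega, h1, h2⟩

theorem one_dim (N F : ℕ) (α : ℕ → ℂ) :
    ∑ r ∈ Far F, ‖∑ n ∈ Icc 1 N, α n * ee ((n : ℝ) * r.2 / r.1)‖ ^ 2 ≤
      6 * (N + (F : ℝ) ^ 2) * ∑ n ∈ Icc 1 N, ‖α n‖ ^ 2 := by
  rw [far_sum]
  exact Pool.Agent.Helper112.additive_large_sieve N F α

end AddX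

open AddX in
theorem add : S_ADD := by
  intro k
  induction k with
  | zero =>
    intro N F c
    simp [Pool.Agent.Helper112.ee]
  | succ k ih =>
    intro N F c
    set K : ℝ := 6 * (N + (F : ℝ) ^ 2) with hK
    have hK0 : 0 ≤ K := by positivity
    rw [sum_pi_succ, Finset.sum_comm, sum_pi_succ]
    have h1 : ∀ r' ∈ Fintype.piFinset (fun _ : Fin k => Far F),
        ∑ r0 ∈ Far F, ‖∑ z ∈ Fintype.piFinset (fun _ : Fin (k + 1) => Icc 1 N),
          c z * Pool.Agent.Helper112.ee (∑ i, (z i : ℝ) * ((Fin.cons r0 r' : Fin (k + 1) → ℕ × ℕ) i).2 /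
            ((Fin.cons r0 r' : Fin (k + 1) → ℕ × ℕ) i).1)‖ ^ 2 ≤
        K * ∑ a ∈ Icc 1 N, ‖∑ z' ∈ Fintype.piFinset (fun _ : Fin k => Icc 1 N),
          c (Fin.cons a z') * Pool.Agent.Helper112.ee (∑ i, (z' i : ℝ) * (r' i).2 / (r' i).1)‖ ^ 2 := by
      intro r' _
      refine le_trans (le_of_eq ?_) (one_dim N F (fun a => ∑ z' ∈ Fintype.piFinset (fun _ : Fin k => Icc 1 N),
          c (Fin.cons a z') * Pool.Agent.Helper112.ee (∑ i, (z' i : ℝ) * (r' i).2 / (r' i).1)))
      apply Finset.sum_congr rfl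
      intro r0 _
      congr 2
      rw [sum_pi_succ]
      apply Finset.sum_congr rfl
      intro a _
      rw [Finset.sum_mul]
      apply Finset.sum_congr rfl
      intro z' _
      rw [Fin.sum_univ_succ, ee_add]
      simp only [Fin.cons_zero, Fin.cons_succ]
      ring
    refine (Finset.sum_le_sum h1).trans ?_
    rw [← Finset.mul_sum, Finset.sum_comm, show K ^ (k + 1) = K * K ^ k by ring, mul_assoc K (K ^ k)]
    apply mul_le_mul_of_nonneg_left _ hK0
    rw [Finset.mul_sum]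
    apply Finset.sum_le_sum
    intro a _
    exact ih N F (fun z' => c (Fin.cons a z'))

end Pool.Agent.TH194.BL
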