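import Mathlib
import Pool.Agent.H11.V.R_pool_sql_team_seeded_3997aac3_Q51_EL_Stm

/-! # Project EL: assembly of the main theorem -/

set_option autoImplicit false

namespace Pool.Agent.Q51.EL

open Polynomial NumberField IsDedekindDomain Finset

/-- a squarefree integer is determined by its class modulo squares -/
lemma sqf_eq {D D' : ℤ} (h : Squarefree D) (h' : Squarefree D') (hs : IsSquare ((D * D' : ℤ) : ℚ)) :
    D = D' := by
  have h0 : D ≠ 0 := h.ne_zero
  have h0' : D' ≠ 0 := h'.ne_zero
  have hz : IsSquare (D * D') := by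
    exact_mod_cast Rat.isSquare_intCast_iff.mp (by exact_mod_cast hs)
  have hnn : 0 ≤ D * D' := hz.nonneg
  have hn : D.natAbs = D'.natAbs := by
    have hsq : IsSquare (D.natAbs * D'.natAbs) := by
      obtain ⟨r, hr⟩ := hz
      refine ⟨r.natAbs, ?_⟩
      rw [← Int.natAbs_mul, hr, Int.natAbs_mul]
    have hd := Int.squarefree_natAbs.mpr h
    have hd' := Int.squarefree_natAbs.mpr h'
    have key : ∀ a b : ℕ, Squarefree a → Squarefree b → IsSquare (a * b) → a ∣ b := by
      intro a b ha hb hab
      by_cases ha0 : a = 0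
      · subst ha0; exact absurd ha not_squarefree_zero
      by_cases hb0 : b = 0
      · subst hb0; simp
      rw [← Nat.factorization_le_iff_dvd ha0 hb0]
      intro p
      by_cases hp : p.Prime
      · obtain ⟨c, hc⟩ := hab
        have hc0 : c ≠ 0 := by
          rintro rfl; simp at hc; tauto
        have h1 : (a * b).factorization p = 2 * c.factorization p := by
          rw [hc, Nat.factorization_mul hc0 hc0]; simp; ring
        rw [Nat.factorization_mul ha0 hb0] at h1
        simp only [Finsupp.coe_add, Pi.add_apply] at h1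
        have h2 := (Nat.squarefree_iff_factorization_le_one ha0).mp ha p
        have h3 := (Nat.squarefree_iff_factorization_le_one hb0).mp hb p
        omega
      · rw [Nat.factorization_eq_zero_of_not_prime _ hp]; exact Nat.zero_le _
    exact Nat.dvd_antisymm (key _ _ hd hd' hsq) (key _ _ hd' hd (by rwa [mul_comm]))
  rcases Int.natAbs_eq_natAbs_iff.mp hn with h1 | h1
  · exact h1
  · exfalso
    rw [h1] at hnn
    have : 0 < D' * D' := mul_self_pos.mpr h0'
    nlinarith


lemma gf_nonneg_term (q : ℕ) : (0 : ℝ) ≤ 1 / q := by positivity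

lemma Gf_mono (f : ℤ[X]) {Y Z : ℝ} (h : Y ≤ Z) : Gf f Y ≤ Gf f Z := by
  classical
  unfold Gf
  apply Finset.sum_le_sum_of_subset_of_nonneg
  · intro q hq
    simp only [Finset.mem_filter] at hq ⊢
    refine ⟨?_, hq.2⟩
    have h1 := hq.1
    simp only [Finset.bind_def, Finset.mem_sup, Finset.pure_def, Finset.mem_singleton] at h1 ⊢
    obtain ⟨a, ha, hb⟩ := h1
    refine ⟨a, ?_, hb⟩
    unfold pr at ha ⊢
    simp only [Finset.mem_filter, Finset.mem_Icc] at ha ⊢
    exact ⟨⟨ha.1.1, ha.1.2.trans (Nat.floor_mono h)⟩, ha.2⟩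
  · intro q hq _
    simp only [Finset.mem_filter] at hq
    have h1 := hq.1
    simp only [Finset.bind_def, Finset.mem_sup, Finset.pure_def, Finset.mem_singleton] at h1
    obtain ⟨a, ha, hb⟩ := h1
    rw [hb]
    positivity

/-- the set of the squarefree integers up to `X` is finite -/
lemma fin_sq (X : ℝ) (P : ℤ → Prop) : {D : ℤ | (D.natAbs : ℝ) ≤ X ∧ P D}.Finite := by
  apply (Set.finite_Icc (-(⌈X⌉₊ : ℤ)) ⌈X⌉₊).subset
  intro D hD
  have h1 : (D.natAbs : ℝ) ≤ (⌈X⌉₊ : ℝ) := hD.1.trans (Nat.le_ceil X)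
  have h2 : D.natAbs ≤ ⌈X⌉₊ := by exact_mod_cast h1
  simp only [Set.mem_Icc]
  omega


end Pool.Agent.Q51.EL
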