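import Mathlib
import Pool.Agent.H11.V.R_pool_sql_team_seeded_3997aac3_Q51_EL_Main
import Pool.Agent.H11.V.R_pool_sql_team_seeded_3997aac3_Q51_EL_LSV
import Pool.Agent.H11.V.R_pool_sql_team_seeded_3997aac3_Q247_EL_SIEVE
import Pool.Agent.H11.V.R_pool_sql_team_seeded_3997aac3_Q247_EL_CNT
import Pool.Agent.H11.V.R_pool_sql_team_seeded_3997aac3_Q247_EL_M1
import Pool.Agent.H11.V.R_pool_sql_team_seeded_3997aac3_Q91_EL_Sums
import Pool.Agent.H11.V.R_pool_sql_team_seeded_3997aac3_Q91_EL_Small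
import Pool.Agent.H11.V.R_pool_sql_team_seeded_3997aac3_Q51_EL_Stm
import Pool.Agent.H11.V.R_seed8_Erdos456_Mertens
import Pool.Agent.H11.V.R_pool_sql_team_seeded_3997aac3_Q154_EL_Spl
import Pool.Agent.H11.V.R_seed8_W54_Cheb_Tor
import Pool.Agent.H11.V.R_seed8_W401_Cheb_Main
import Pool.Agent.H11.V.R_pool_sql_team_seeded_3997aac3_Q239_EL_UN
import Pool.Agent.H11.V.R_pool_sql_team_seeded_3997aac3_Q239_EL_CL
import Pool.Agent.H11.V.R_pool_sql_team_seeded_3997aac3_Q239_EL_AP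
import Pool.Agent.H11.V.R_pool_sql_team_seeded_3997aac3_Q239_EL_ROOT
import Pool.Agent.H11.V.R_pool_sql_team_seeded_3997aac3_Q239_EL_NV
import Pool.Agent.H11.V.R_pool_sql_team_seeded_3997aac3_Q239_EL_SC
import Pool.Agent.H11.V.R_pool_sql_team_seeded_3997aac3_Q239_EL_SD
import Pool.Agent.H11.V.R_pool_sql_team_seeded_3997aac3_Q239_EL_DESC
import Pool.Agent.H11.V.R_seed8_H341R2_Stepanov
import Pool.Agent.H11.V.R_pool_sql_team_seeded_3997aac3_Q241_EL_Lift

/-!
# Project EL: the main theorem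

`main`: for every `f ∈ ℤ[X]` irreducible over `ℚ` of even degree `≥ 6`, all but a proportion
`O((log X) ^ (-δ))` of the everywhere locally soluble quadratic twists `D y² = f(x)`, `D` squarefree,
`|D| ≤ X`, have empty 2-Selmer set, and so violate the Hasse principle.
-/

set_option autoImplicit false

namespace Pool.Agent.Q51.EL

open Pool.Agent

theorem t_sieve : S_SIEVE := Q247.EL.sieve lsv
theorem t_root : S_ROOT := Q239.EL.root Q91.EL.ram
theorem t_sc : S_SC := Q239.EL.sc Q239.EL.ap t_root Q239.EL.nv Q91.EL.ram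
theorem t_sd : S_SD := Q239.EL.sd Q239.EL.ap t_root Q91.EL.ram
theorem t_desc : S_DESC := Q239.EL.desc Q239.EL.un Q239.EL.cl t_sc t_sd Q91.EL.ch Q91.EL.ram


end Pool.Agent.Q51.EL
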