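import Mathlib

/-! Power sums of size `C r ^ m` force the reciprocal roots to have absolute value at most `r`. -/

set_option autoImplicit false

namespace Pool.Agent.H341R2.Sharp

open Polynomial Finset Filter Topology

theorem key_identity (a : ℂ[X]) (S : ℕ → ℂ) (r C : ℝ) (hr : 0 < r) (hC : 0 ≤ C)
    (hS : ∀ m, 1 ≤ m → ‖S m‖ ≤ C * r ^ m)
    (hid : ∀ n : ℕ, (n : ℂ) * a.coeff n = ∑ m ∈ Icc 1 n, a.coeff (n - m) * S m)
    (u : ℂ) (hu : r * ‖u‖ < 1) :
    ∃ G : ℂ, ‖G‖ ≤ C / (1 - r * ‖u‖) ∧ u * a.derivative.eval u = a.eval u * G := by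
  set s : ℕ → ℂ := fun n => if n = 0 then 0 else S n * u ^ n with hs
  set g : ℕ → ℂ := fun n => a.coeff n * u ^ n with hg
  have hru : 0 ≤ r * ‖u‖ := mul_nonneg hr.le (norm_nonneg _)
  have hsb : ∀ n, ‖s n‖ ≤ C * (r * ‖u‖) ^ n := by
    intro n
    rcases Nat.eq_zero_or_pos n with h0 | h0
    · rw [hs, h0]
      simpa using hC
    · have h1 : s n = S n * u ^ n := if_neg (by omega)
      rw [h1, norm_mul, norm_pow, mul_pow, ← mul_assoc]
      exact mul_le_mul_of_nonneg_right (hS n h0) (pow_nonneg (norm_nonneg _) _)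
  have hgeo : Summable fun n : ℕ => C * (r * ‖u‖) ^ n :=
    (summable_geometric_of_lt_one hru hu).mul_left C
  have hs1 : Summable fun n => ‖s n‖ := Summable.of_nonneg_of_le (fun _ => norm_nonneg _) hsb hgeo
  have hgz : ∀ n ∉ range (a.natDegree + 1), g n = 0 := by
    intro n hn
    rw [mem_range] at hn
    rw [hg]
    simp only
    rw [coeff_eq_zero_of_natDegree_lt (by omega), zero_mul]
  have hg1 : Summable fun n => ‖g n‖ := by
    apply summable_of_ne_finset_zero (s := range (a.natDegree + 1))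
    intro n hn
    rw [hgz n hn, norm_zero]
  have hgt : ∑' n, g n = a.eval u := by
    rw [tsum_eq_sum hgz, eval_eq_sum_range]
  refine ⟨∑' n, s n, ?_, ?_⟩
  · refine (norm_tsum_le_tsum_norm hs1).trans ?_
    refine (hs1.tsum_le_tsum hsb hgeo).trans ?_
    rw [tsum_mul_left, tsum_geometric_of_lt_one hru hu, div_eq_mul_inv]
  · rw [← hgt, tsum_mul_tsum_eq_tsum_sum_antidiagonal_of_summable_norm hg1 hs1]
    have h1 : ∀ n, ∑ kl ∈ antidiagonal n, g kl.1 * s kl.2 = (n : ℂ) * a.coeff n * u ^ n := by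
      intro n
      rw [hid n, Nat.sum_antidiagonal_eq_sum_range_succ_mk, sum_mul]
      have h2 : ∑ k ∈ range (n + 1), g k * s (n - k) =
          ∑ m ∈ range (n + 1), g (n - m) * s m := by
        rw [← sum_range_reflect]
        apply sum_congr rfl
        intro m hm
        rw [mem_range] at hm
        have e1 : n + 1 - 1 - m = n - m := by omega
        have e2 : n - (n - m) = m := by omega
        rw [e1, e2]
      simp only
      rw [h2]
      have h3 : (range (n + 1)).filter (fun m => m ≠ 0) = Icc 1 n := by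
        ext m
        simp only [mem_filter, mem_range, mem_Icc]
        omega
      rw [← h3, sum_filter]
      apply sum_congr rfl
      intro m hm
      rw [mem_range] at hm
      by_cases h0 : m = 0
      · simp [hs, h0]
      · rw [if_pos h0]
        have e1 : s m = S m * u ^ m := if_neg h0
        rw [e1, hg]
        simp only
        have e2 : u ^ n = u ^ (n - m) * u ^ m := by
          rw [← pow_add]
          congr 1
          omega
        rw [e2]
        ring
    rw [tsum_congr h1]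
    have h4 : ∀ n ∉ range (a.natDegree + 1), (n : ℂ) * a.coeff n * u ^ n = 0 := by
      intro n hn
      rw [mem_range] at hn
      rw [coeff_eq_zero_of_natDegree_lt (by omega)]
      simp
    rw [tsum_eq_sum h4, derivative_eval, Polynomial.sum_over_range' _ _ (a.natDegree + 1) (by omega),
      mul_sum]
    · apply sum_congr rfl
      intro n _
      rcases Nat.eq_zero_or_pos n with h0 | h0
      · simp [h0]
      · obtain ⟨k, rfl⟩ : ∃ k, n = k + 1 := ⟨n - 1, by omega⟩
        rw [Nat.add_sub_cancel, pow_succ]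
        ring
    · intro n
      simp

theorem root_norm (a : ℂ[X]) (ha0 : a.coeff 0 = 1) (S : ℕ → ℂ) (r C : ℝ) (hr : 0 < r) (hC : 0 ≤ C)
    (hS : ∀ m, 1 ≤ m → ‖S m‖ ≤ C * r ^ m)
    (hid : ∀ n : ℕ, (n : ℂ) * a.coeff n = ∑ m ∈ Icc 1 n, a.coeff (n - m) * S m)
    (z : ℂ) (hz : a.eval z = 0) : 1 ≤ r * ‖z‖ := by
  by_contra hlt
  push Not at hlt
  have ha : a ≠ 0 := by
    rintro rfl
    simp at ha0
  have hz0 : z ≠ 0 := by
    rintro rfl
    rw [← coeff_zero_eq_eval_zero, ha0] at hz
    exact one_ne_zero hz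
  obtain ⟨b, hb, hbz⟩ := exists_eq_pow_rootMultiplicity_mul_and_not_dvd a ha z
  set k := a.rootMultiplicity z with hk
  have hk1 : 1 ≤ k := (rootMultiplicity_pos ha).2 hz
  have hbz' : b.eval z ≠ 0 := by
    intro h
    exact hbz (dvd_iff_isRoot.2 h)
  obtain ⟨j, hj⟩ : ∃ j, k = j + 1 := ⟨k - 1, by omega⟩
  have hder : ∀ u : ℂ, a.derivative.eval u =
      (u - z) ^ j * ((k : ℂ) * b.eval u + (u - z) * b.derivative.eval u) := by
    intro u
    rw [hb, hj]
    simp only [derivative_mul, derivative_X_sub_C_pow, eval_add, eval_mul, eval_pow, eval_sub,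
      eval_X, eval_C, Nat.add_sub_cancel]
    push_cast
    ring
  have hev : ∀ u : ℂ, a.eval u = (u - z) ^ j * ((u - z) * b.eval u) := by
    intro u
    conv_lhs => rw [hb, hj]
    simp only [eval_mul, eval_pow, eval_sub, eval_X, eval_C]
    ring
  have hineq : ∀ u : ℂ, u ≠ z → r * ‖u‖ < 1 →
      ‖u * ((k : ℂ) * b.eval u + (u - z) * b.derivative.eval u)‖ ≤
        ‖(u - z) * b.eval u‖ * (C / (1 - r * ‖u‖)) := by
    intro u huz hu
    obtain ⟨G, hG, hGe⟩ := key_identity a S r C hr hC hS hid u hu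
    rw [hder u, hev u] at hGe
    have hne : (u - z) ^ j ≠ 0 := pow_ne_zero _ (sub_ne_zero.2 huz)
    have h1 : u * ((k : ℂ) * b.eval u + (u - z) * b.derivative.eval u) =
        (u - z) * b.eval u * G := by
      apply mul_left_cancel₀ hne
      calc (u - z) ^ j * (u * ((k : ℂ) * b.eval u + (u - z) * b.derivative.eval u)) =
          u * ((u - z) ^ j * ((k : ℂ) * b.eval u + (u - z) * b.derivative.eval u)) := by ring
        _ = (u - z) ^ j * ((u - z) * b.eval u) * G := hGe
        _ = _ := by ring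
    rw [h1, norm_mul]
    exact mul_le_mul_of_nonneg_left hG (norm_nonneg _)
  have hcont1 : Continuous fun u : ℂ =>
      ‖u * ((k : ℂ) * b.eval u + (u - z) * b.derivative.eval u)‖ := by
    have h1 : Continuous fun u : ℂ => b.eval u := b.continuous
    have h2 : Continuous fun u : ℂ => b.derivative.eval u := b.derivative.continuous
    fun_prop
  have hcont2 : ContinuousAt (fun u : ℂ => ‖(u - z) * b.eval u‖ * (C / (1 - r * ‖u‖))) z := by
    have h1 : Continuous fun u : ℂ => b.eval u := b.continuous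
    have h3 : 1 - r * ‖z‖ ≠ 0 := by linarith
    have h4 : ContinuousAt (fun u : ℂ => ‖(u - z) * b.eval u‖) z := by fun_prop
    refine h4.mul (continuousAt_const.div ?_ h3)
    fun_prop
  have hev1 : ∀ᶠ u in 𝓝[≠] z, ‖u * ((k : ℂ) * b.eval u + (u - z) * b.derivative.eval u)‖ ≤
        ‖(u - z) * b.eval u‖ * (C / (1 - r * ‖u‖)) := by
    have hopen : ∀ᶠ u : ℂ in 𝓝 z, r * ‖u‖ < 1 := by
      have : Continuous fun u : ℂ => r * ‖u‖ := by fun_prop
      exact this.continuousAt.eventually_lt_const hlt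
    filter_upwards [hopen.filter_mono nhdsWithin_le_nhds, self_mem_nhdsWithin] with u h1 h2
    exact hineq u h2 h1
  have hlim := le_of_tendsto_of_tendsto (hcont1.continuousAt.tendsto.mono_left nhdsWithin_le_nhds)
    (hcont2.tendsto.mono_left nhdsWithin_le_nhds) hev1
  simp only [sub_self, zero_mul, add_zero, norm_zero, norm_mul] at hlim
  have h5 : 0 < ‖z‖ * (‖(k : ℂ)‖ * ‖b.eval z‖) := by
    have h6 : (k : ℂ) ≠ 0 := by exact_mod_cast (by omega : k ≠ 0)
    positivity
  linarith

theorem coeff_one_bound (a : ℂ[X]) (ha0 : a.coeff 0 = 1) (S : ℕ → ℂ) (r C : ℝ) (hr : 0 < r)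
    (hC : 0 ≤ C) (hS : ∀ m, 1 ≤ m → ‖S m‖ ≤ C * r ^ m)
    (hid : ∀ n : ℕ, (n : ℂ) * a.coeff n = ∑ m ∈ Icc 1 n, a.coeff (n - m) * S m)
    (k : ℕ) (hk : a.natDegree ≤ k) : ‖a.coeff 1‖ ≤ k * r := by
  have ha : a ≠ 0 := by
    rintro rfl
    simp at ha0
  have h0 : a.eval 0 = 1 := by rw [← coeff_zero_eq_eval_zero, ha0]
  have h1 := (IsAlgClosed.splits a).eval_derivative_div_eval_of_ne_zero (x := 0)
    (by rw [h0]; exact one_ne_zero)
  have h2 : a.derivative.eval 0 = a.coeff 1 := by
    rw [← coeff_zero_eq_eval_zero, coeff_derivative]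
    simp
  rw [h0, div_one, h2] at h1
  rw [h1]
  refine (Multiset.le_sum_of_subadditive norm norm_zero.le (fun x y => norm_add_le x y) _).trans ?_
  have h3 : ((a.roots.map fun z => 1 / (0 - z)).map norm).sum ≤ (a.roots.map fun _ => r).sum := by
    rw [Multiset.map_map]
    apply Multiset.sum_map_le_sum_map
    intro z hz
    rw [mem_roots ha] at hz
    have h4 := root_norm a ha0 S r C hr hC hS hid z hz
    have hz0 : 0 < ‖z‖ := by
      rcases (norm_nonneg z).eq_or_lt with h | h
      · rw [← h, mul_zero] at h4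
        linarith
      · exact h
    simp only [Function.comp, zero_sub, norm_div, norm_one, norm_neg]
    rw [div_le_iff₀ hz0]
    exact h4
  refine h3.trans ?_
  rw [Multiset.map_const', Multiset.sum_replicate, nsmul_eq_mul]
  refine mul_le_mul_of_nonneg_right ?_ hr.le
  exact_mod_cast (card_roots' a).trans hk

end Pool.Agent.H341R2.Sharp
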