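import Pool.Agent.H11.V.R_seed8_H435R3_Weil_LFun

/-! # Sums over extensions of a finite field -/

set_option autoImplicit false

namespace Pool.Agent.H435R3.Weil

open Polynomial Finset Pool.Agent.H341R2.Sharp IntermediateField

variable {F E : Type*} [Field F] [Fintype F] [DecidableEq F] [Field E] [Fintype E] [DecidableEq E]
  [Algebra F E]

theorem TL_eq_sum (l : F[X] → ℂ) :
    TL l (Module.finrank F E) =
      ∑ x : E, l (minpoly F x) ^ (Module.finrank F E / (minpoly F x).natDegree) := by
  classical
  set m := Module.finrank F E with hm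
  have hm0 : 0 < m := Module.finrank_pos
  unfold TL
  have h1 : ∀ x ∈ (univ : Finset E), minpoly F x ∈ (Irr F m).filter (fun P => P.natDegree ∣ m) := by
    intro x _
    have hx : IsIntegral F x := Algebra.IsIntegral.isIntegral x
    rw [mem_filter, mem_Irr]
    refine ⟨⟨minpoly.monic hx, minpoly.irreducible hx, Nat.le_of_dvd hm0 (finrank_div x).2⟩,
      (finrank_div x).2⟩
  rw [← sum_fiberwise_of_maps_to h1]
  apply sum_congr rfl
  intro P hP
  rw [mem_filter, mem_Irr] at hP
  obtain ⟨⟨hmon, hirr, _⟩, hdvd⟩ := hP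
  have h2 : ∀ x ∈ univ.filter (fun x : E => minpoly F x = P),
      l (minpoly F x) ^ (m / (minpoly F x).natDegree) = l P ^ (m / P.natDegree) := by
    intro x hx
    rw [mem_filter] at hx
    rw [hx.2]
  rw [sum_congr rfl h2, sum_const, nsmul_eq_mul]
  congr 2
  have h3 : univ.filter (fun x : E => minpoly F x = P) = (P.rootSet E).toFinset := by
    ext x
    rw [mem_filter, Set.mem_toFinset, mem_rootSet]
    constructor
    · rintro ⟨_, rfl⟩
      exact ⟨hmon.ne_zero, minpoly.aeval F x⟩
    · rintro ⟨_, h⟩
      exact ⟨mem_univ _, (minpoly.eq_of_irreducible_of_monic hirr h hmon).symm⟩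
  have hsplit : (P.map (algebraMap F E)).Splits := by
    have h4 : P ∣ X ^ (Nat.card F) ^ m - X :=
      (hirr.natDegree_dvd_iff_dvd_X_pow_card_pow_sub_X).1 hdvd
    have h5 : (P.map (algebraMap F E)) ∣ (X ^ (Nat.card F) ^ m - X : E[X]) := by
      have := Polynomial.map_dvd (algebraMap F E) h4
      simpa using this
    have hcard : (Nat.card F) ^ m = Fintype.card E := by
      rw [Nat.card_eq_fintype_card, Module.card_eq_pow_finrank (K := F) (V := E)]
    rw [hcard] at h5
    have h6 : (X ^ Fintype.card E - X : E[X]).Splits := by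
      rw [splits_iff_card_roots, FiniteField.roots_X_pow_card_sub_X,
        FiniteField.X_pow_card_sub_X_natDegree_eq _ Fintype.one_lt_card]
      rfl
    exact h6.of_dvd (FiniteField.X_pow_card_sub_X_ne_zero _ Fintype.one_lt_card) h5
  rw [h3, Set.toFinset_card, card_rootSet_eq_natDegree (PerfectField.separable_of_irreducible hirr)
    hsplit]


end Pool.Agent.H435R3.Weil
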