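import Pool.Agent.H11.V.R_seed8_H435R3_Weil_LSum

/-! # The completely multiplicative function attached to `χ(P) conj χ(R)` -/

set_option autoImplicit false

namespace Pool.Agent.H435R3.Weil

open Polynomial Finset Pool.Agent.H341R2.Sharp IntermediateField

variable {F : Type*} [Field F] [Fintype F] [DecidableEq F]

/-- `χ` of the resultant with `P` times the conjugate of `χ` of the resultant with `R` -/
noncomputable def lamPR (χ : MulChar F ℂ) (P R h : F[X]) : ℂ :=
  χ (resultant h P h.natDegree P.natDegree) *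
    (starRingEnd ℂ) (χ (resultant h R h.natDegree R.natDegree))

theorem lamPR_one (χ : MulChar F ℂ) (P R : F[X]) : lamPR χ P R 1 = 1 := by
  unfold lamPR
  rw [natDegree_one]
  have h1 : ∀ Q : F[X], resultant (1 : F[X]) Q 0 Q.natDegree = 1 := by
    intro Q
    rw [resultant_zero_left_deg]
    simp
  rw [h1, h1]
  simp

theorem lamPR_mul (χ : MulChar F ℂ) (P R : F[X]) (g h : F[X]) (hg : g.Monic) (hh : h.Monic) :
    lamPR χ P R (g * h) = lamPR χ P R g * lamPR χ P R h := by
  unfold lamPR
  rw [hg.natDegree_mul hh, resultant_mul_left _ _ _ _ le_rfl, resultant_mul_left _ _ _ _ le_rfl,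
    map_mul, map_mul, map_mul]
  ring

/-- behaviour of the resultant under the substitution of the next theorem -/
theorem res_shift (P : F[X]) (hP : P.Monic) (r h Ψ t : F[X]) (n m : ℕ) (hr : r.natDegree = m)
    (hh : h.natDegree = n) (hΨ : Ψ.natDegree = n) (e1 : r * h = Ψ + P * t)
    (e2 : t.natDegree + P.natDegree ≤ n + m) :
    resultant Ψ P n P.natDegree =
      (-1) ^ (P.natDegree * m) * (resultant r P m P.natDegree * resultant h P n P.natDegree) := by
  have e3 : resultant (r * h) P (m + n) P.natDegree =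
      resultant r P m P.natDegree * resultant h P n P.natDegree := by
    have := resultant_mul_left r h P P.natDegree le_rfl
    rw [hr, hh] at this
    exact this
  have e4 : resultant (r * h) P (n + m) P.natDegree =
      (-1) ^ (P.natDegree * m) * resultant Ψ P n P.natDegree := by
    rw [e1, resultant_add_mul_left (hk := e2) (hg := le_rfl),
      resultant_add_left_deg (hf := hΨ.le)]
    have : P.coeff P.natDegree = 1 := hP
    rw [this, one_pow, mul_one]
  rw [← e3, add_comm m n, e4, ← mul_assoc, ← pow_add, ← two_mul, pow_mul]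
  simp

/-- vanishing in degree at least `deg P + deg R` -/
theorem AL_eq_zero (χ : MulChar F ℂ) (P R r : F[X]) (hP : P.Monic) (hR : R.Monic) (hr : r.Monic)
    (hev : Even r.natDegree) (hlam0 : lamPR χ P R r ≠ 0) (hlam1 : lamPR χ P R r ≠ 1)
    (n : ℕ) (hn : P.natDegree + R.natDegree ≤ n) : AL (lamPR χ P R) n = 0 := by
  classical
  set f := P * R with hf0
  have hf : f.Monic := hP.mul hR
  have hfd : f.natDegree = P.natDegree + R.natDegree := hP.natDegree_mul hR
  set d := f.natDegree with hd
  have hn' : d ≤ n := by rw [hfd]; exact hn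
  set m := r.natDegree with hm
  have hcopP : IsCoprime P r := by
    by_contra hc
    have h1 : resultant r P = 0 := by
      rw [resultant_eq_zero_iff]
      exact ⟨Or.inl hr.ne_zero, fun h => hc h.symm⟩
    apply hlam0
    unfold lamPR
    rw [h1]
    have : χ 0 = 0 := MulChar.map_zero χ
    rw [this, zero_mul]
  have hcopR : IsCoprime R r := by
    by_contra hc
    have h1 : resultant r R = 0 := by
      rw [resultant_eq_zero_iff]
      exact ⟨Or.inl hr.ne_zero, fun h => hc h.symm⟩
    apply hlam0
    unfold lamPR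
    rw [h1]
    have : χ 0 = 0 := MulChar.map_zero χ
    rw [this, map_zero, mul_zero]
  have hcop : IsCoprime f r := IsCoprime.mul_left hcopP hcopR
  let Φ : F[X] → F[X] := fun h => f * (h /ₘ f) + (r * h) %ₘ f
  have hΦ : ∀ h ∈ Mon F n, Φ h ∈ Mon F n := by
    intro h hh
    rw [mem_Mon] at hh ⊢
    have hdeg1 : ((r * h) %ₘ f).degree < f.degree := degree_modByMonic_lt _ hf
    have hfdeg : f.degree ≤ h.degree := by
      rw [degree_eq_natDegree hf.ne_zero, degree_eq_natDegree hh.1.ne_zero, hh.2]
      exact_mod_cast hn'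
    have hmq : (h /ₘ f).Monic := by
      rw [Monic, leadingCoeff_divByMonic_of_monic hf hfdeg]
      exact hh.1
    have hfq : (f * (h /ₘ f)).Monic := hf.mul hmq
    have hnd : (f * (h /ₘ f)).natDegree = n := by
      rw [hf.natDegree_mul hmq, natDegree_divByMonic _ hf, hh.2]
      omega
    have hdeg2 : ((r * h) %ₘ f).degree < (f * (h /ₘ f)).degree := by
      refine hdeg1.trans_le ?_
      rw [degree_eq_natDegree hf.ne_zero, degree_eq_natDegree hfq.ne_zero, hnd]
      exact_mod_cast hn'
    refine ⟨hfq.add_of_left hdeg2, ?_⟩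
    change (f * (h /ₘ f) + (r * h) %ₘ f).natDegree = n
    rw [natDegree_add_eq_left_of_degree_lt hdeg2, hnd]
  have hinj : Set.InjOn Φ (Mon F n) := by
    intro g hg h hh hgh
    have hg' := mem_Mon.1 (mem_coe.1 hg)
    have hh' := mem_Mon.1 (mem_coe.1 hh)
    have e1 : g /ₘ f = h /ₘ f ∧ (r * g) %ₘ f = (r * h) %ₘ f := by
      have hu1 := div_modByMonic_unique (f := Φ g) (g := f) (g /ₘ f) ((r * g) %ₘ f) hf
        ⟨by change (r * g) %ₘ f + f * (g /ₘ f) = f * (g /ₘ f) + (r * g) %ₘ f; ring,
          degree_modByMonic_lt _ hf⟩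
      have hu2 := div_modByMonic_unique (f := Φ h) (g := f) (h /ₘ f) ((r * h) %ₘ f) hf
        ⟨by change (r * h) %ₘ f + f * (h /ₘ f) = f * (h /ₘ f) + (r * h) %ₘ f; ring,
          degree_modByMonic_lt _ hf⟩
      constructor
      · rw [← hu1.1, ← hu2.1, hgh]
      · rw [← hu1.2, ← hu2.2, hgh]
    have e2 : f ∣ r * (g - h) := by
      have : (r * (g - h)) %ₘ f = 0 := by
        rw [mul_sub, sub_modByMonic, e1.2, sub_self]
      exact (modByMonic_eq_zero_iff_dvd hf).1 this
    have e3 : f ∣ g - h := hcop.dvd_of_dvd_mul_left e2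
    have e4 : g - h = g %ₘ f - h %ₘ f := by
      have h1 := modByMonic_add_div g f
      have h2 := modByMonic_add_div h f
      calc g - h = (g %ₘ f + f * (g /ₘ f)) - (h %ₘ f + f * (h /ₘ f)) := by rw [h1, h2]
        _ = g %ₘ f - h %ₘ f := by rw [e1.1]; ring
    have e5 : (g - h).degree < f.degree := by
      rw [e4]
      exact (degree_sub_le _ _).trans_lt
        (max_lt (degree_modByMonic_lt _ hf) (degree_modByMonic_lt _ hf))
    have e6 : g - h = 0 := eq_zero_of_dvd_of_degree_lt e3 e5
    exact sub_eq_zero.1 e6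
  have hlamΦ : ∀ h ∈ Mon F n, lamPR χ P R (Φ h) = lamPR χ P R r * lamPR χ P R h := by
    intro h hh
    have hΦh := mem_Mon.1 (hΦ h hh)
    rw [mem_Mon] at hh
    set t : F[X] := (r * h) /ₘ f - h /ₘ f with ht
    have e1 : r * h = Φ h + f * t := by
      have h1 := modByMonic_add_div (r * h) f
      calc r * h = (r * h) %ₘ f + f * ((r * h) /ₘ f) := h1.symm
        _ = Φ h + f * t := by
          change _ = f * (h /ₘ f) + (r * h) %ₘ f + f * ((r * h) /ₘ f - h /ₘ f)
          ring
    have e2 : t.natDegree + d ≤ n + m := by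
      have h1 : ((r * h) /ₘ f).natDegree = m + n - d := by
        rw [natDegree_divByMonic _ hf, hr.natDegree_mul hh.1, hh.2]
      have h2 : (h /ₘ f).natDegree = n - d := by
        rw [natDegree_divByMonic _ hf, hh.2]
      have h3 := natDegree_sub_le ((r * h) /ₘ f) (h /ₘ f)
      rw [h1, h2] at h3
      have h4 : max (m + n - d) (n - d) ≤ m + n - d := max_le le_rfl (by omega)
      have h5 : t.natDegree ≤ m + n - d := h3.trans h4
      omega
    have eP := res_shift P hP r h (Φ h) (R * t) n m rfl hh.2 hΦh.2 (by rw [e1, hf0]; ring)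
      (by
        have := natDegree_mul_le (p := R) (q := t)
        omega)
    have eR := res_shift R hR r h (Φ h) (P * t) n m rfl hh.2 hΦh.2 (by rw [e1, hf0]; ring)
      (by
        have := natDegree_mul_le (p := P) (q := t)
        omega)
    have hsgn : ∀ k : ℕ, ((-1 : F)) ^ (k * m) = 1 := by
      intro k
      obtain ⟨j, hj⟩ := hev
      have : k * m = 2 * (k * j) := by rw [hj]; ring
      rw [this, pow_mul]
      simp
    rw [hsgn, one_mul] at eP eR
    unfold lamPR
    rw [hΦh.2, hh.2, eP, eR, map_mul, map_mul, map_mul, ← hm]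
    ring
  have himg : (Mon F n).image Φ = Mon F n := by
    apply eq_of_subset_of_card_le
    · intro g hg
      obtain ⟨h, hh, rfl⟩ := mem_image.1 hg
      exact hΦ h hh
    · rw [card_image_of_injOn hinj]
  have hsum : AL (lamPR χ P R) n = lamPR χ P R r * AL (lamPR χ P R) n := by
    unfold AL
    conv_lhs => rw [← himg, sum_image hinj]
    rw [sum_congr rfl hlamΦ, mul_sum]
  have h1 : (1 - lamPR χ P R r) * AL (lamPR χ P R) n = 0 := by linear_combination hsum
  rcases mul_eq_zero.1 h1 with h2 | h2
  · exact absurd (sub_eq_zero.1 h2).symm hlam1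
  · exact h2

end Pool.Agent.H435R3.Weil
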