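import Pool.Agent.H11.V.R_seed8_H435R3_Weil_CRD

/-!
# Bound for character sums over a finite field from the counting bound
-/

set_option autoImplicit false

namespace Pool.Agent.H435R3.Weil

open Polynomial Finset

namespace WELE

variable {E : Type} [Field E] [Fintype E] [DecidableEq E] {t Q : ℕ}

theorem mc_norm_le_one (χ : MulChar E ℂ) (x : E) : ‖χ x‖ ≤ 1 := by
  by_cases hx : x = 0
  · have h0 : χ x = 0 := by rw [hx]; exact MulChar.map_zero χ
    rw [h0, norm_zero]
    exact zero_le_one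
  · have h1 : χ x ^ (Fintype.card E - 1) = 1 := by
      rw [← map_pow, FiniteField.pow_card_sub_one_eq_one x hx, map_one]
    have h2 : 1 < Fintype.card E := Fintype.one_lt_card
    exact (Complex.norm_eq_one_of_pow_eq_one h1 (by omega)).le

theorem root (ht : 0 < t) (hQ : t * Q + 1 = Fintype.card E) (hQ0 : 0 < Q) (u : Eˣ) (hu : u ^ Q = 1) :
    ∃ v : Eˣ, v ^ t = u := by
  obtain ⟨g, hg⟩ := IsCyclic.exists_generator (α := Eˣ)
  have hord : orderOf g = t * Q := by
    rw [orderOf_eq_card_of_forall_mem_zpowers hg, Nat.card_eq_fintype_card,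
      Fintype.card_units]
    omega
  obtain ⟨k, hk⟩ := (mem_powers_iff_mem_zpowers.2 (hg u))
  have hk' : g ^ k = u := hk
  rw [← hk', ← pow_mul] at hu
  have h1 := orderOf_dvd_of_pow_eq_one hu
  rw [hord] at h1
  obtain ⟨m, hm⟩ := Nat.dvd_of_mul_dvd_mul_right hQ0 h1
  refine ⟨g ^ m, ?_⟩
  rw [← pow_mul, mul_comm, ← hm, hk']

theorem chi_eq (ht : 0 < t) (hQ : t * Q + 1 = Fintype.card E) (hQ0 : 0 < Q) (χ : MulChar E ℂ)
    (hχ : χ ^ t = 1) {z w : E} (hz : z ≠ 0) (hw : w ≠ 0) (h : z ^ Q = w ^ Q) :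
    χ z = χ w := by
  have hu : (Units.mk0 z hz / Units.mk0 w hw) ^ Q = 1 := by
    rw [div_pow, div_eq_one]
    ext
    simpa using h
  obtain ⟨v, hv⟩ := root ht hQ hQ0 _ hu
  have h1 : z = w * ((v ^ t : Eˣ) : E) := by
    rw [hv]
    simp only [Units.val_div_eq_div_val, Units.val_mk0]
    field_simp
  have h2 : χ ((v ^ t : Eˣ) : E) = 1 := by
    rw [Units.val_pow_eq_pow_val, map_pow, ← MulChar.pow_apply_coe, hχ, MulChar.one_apply_coe]
  rw [h1, map_mul, h2, mul_one]

open Classical in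
/-- value of the character on the class -/
noncomputable def cc (χ : MulChar E ℂ) (Q : ℕ) (a : E) : ℂ :=
  if h : ∃ z : E, z ≠ 0 ∧ z ^ Q = a then χ h.choose else 0

theorem cc_spec (ht : 0 < t) (hQ : t * Q + 1 = Fintype.card E) (hQ0 : 0 < Q) (χ : MulChar E ℂ)
    (hχ : χ ^ t = 1) {z : E} (hz : z ≠ 0) : cc χ Q (z ^ Q) = χ z := by
  have h : ∃ w : E, w ≠ 0 ∧ w ^ Q = z ^ Q := ⟨z, hz, rfl⟩
  unfold cc
  rw [dif_pos h]
  exact chi_eq ht hQ hQ0 χ hχ h.choose_spec.1 hz h.choose_spec.2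

theorem cc_norm (χ : MulChar E ℂ) (Q : ℕ) (a : E) : ‖cc χ Q a‖ ≤ 1 := by
  unfold cc
  split_ifs
  · exact mc_norm_le_one χ _
  · simp

/-- the roots of unity -/
def TT (E : Type) [Field E] [Fintype E] [DecidableEq E] (t : ℕ) : Finset E := univ.filter fun a => a ^ t = 1

theorem TT_card (ht : 0 < t) : (TT E t).card ≤ t := by
  classical
  have h1 : TT E t ⊆ (nthRoots t (1 : E)).toFinset := by
    intro a ha
    rw [Multiset.mem_toFinset, mem_nthRoots ht]
    exact (Finset.mem_filter.1 ha).2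
  exact (Finset.card_le_card h1).trans ((Multiset.toFinset_card_le _).trans (card_nthRoots t 1))

theorem pow_mem (hQ : t * Q + 1 = Fintype.card E) {z : E} (hz : z ≠ 0) : z ^ Q ∈ TT E t := by
  refine Finset.mem_filter.2 ⟨Finset.mem_univ _, ?_⟩
  rw [← pow_mul, mul_comm]
  have h1 : t * Q = Fintype.card E - 1 := by omega
  rw [h1]
  exact FiniteField.pow_card_sub_one_eq_one z hz

theorem cc_sum (ht : 0 < t) (hQ : t * Q + 1 = Fintype.card E) (hQ0 : 0 < Q) (χ : MulChar E ℂ)
    (hχ : χ ^ t = 1) (hχ1 : χ ≠ 1) : ∑ a ∈ TT E t, cc χ Q a = 0 := by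
  obtain ⟨u, hu⟩ := MulChar.ne_one_iff.1 hχ1
  have hu0 : (u : E) ≠ 0 := u.ne_zero
  have hb := pow_mem hQ hu0
  have hb0 : (u : E) ^ Q ≠ 0 := pow_ne_zero _ hu0
  have hbt : ((u : E) ^ Q) ^ t = 1 := (Finset.mem_filter.1 hb).2
  have h1 : ∑ a ∈ TT E t, cc χ Q a = ∑ a ∈ TT E t, cc χ Q (a * (u : E) ^ Q) := by
    symm
    refine Finset.sum_nbij' (fun a => a * (u : E) ^ Q) (fun a => a * ((u : E) ^ Q)⁻¹)
      ?_ ?_ ?_ ?_ ?_
    · intro a ha
      refine Finset.mem_filter.2 ⟨Finset.mem_univ _, ?_⟩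
      rw [mul_pow, hbt, mul_one]
      exact (Finset.mem_filter.1 ha).2
    · intro a ha
      refine Finset.mem_filter.2 ⟨Finset.mem_univ _, ?_⟩
      rw [mul_pow, inv_pow, hbt, inv_one, mul_one]
      exact (Finset.mem_filter.1 ha).2
    · intro a _
      exact mul_inv_cancel_right₀ hb0 a
    · intro a _
      exact inv_mul_cancel_right₀ hb0 a
    · intro a _
      rfl
  have h2 : ∀ a ∈ TT E t, cc χ Q (a * (u : E) ^ Q) = cc χ Q a * χ u := by
    intro a _
    by_cases h : ∃ z : E, z ≠ 0 ∧ z ^ Q = a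
    · obtain ⟨z, hz, rfl⟩ := h
      rw [← mul_pow, cc_spec ht hQ hQ0 χ hχ (mul_ne_zero hz hu0), cc_spec ht hQ hQ0 χ hχ hz,
        map_mul]
    · have h' : ¬ ∃ z : E, z ≠ 0 ∧ z ^ Q = a * (u : E) ^ Q := by
        rintro ⟨z, hz, hz'⟩
        refine h ⟨z * (u : E)⁻¹, mul_ne_zero hz (inv_ne_zero hu0), ?_⟩
        rw [mul_pow, inv_pow, hz', mul_inv_cancel_right₀ hb0]
      unfold cc
      rw [dif_neg h, dif_neg h', zero_mul]
  rw [Finset.sum_congr rfl h2, ← Finset.sum_mul] at h1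
  have h3 : (∑ a ∈ TT E t, cc χ Q a) * (1 - χ u) = 0 := by linear_combination h1
  rcases mul_eq_zero.1 h3 with h4 | h4
  · exact h4
  · exact absurd (sub_eq_zero.1 h4).symm hu

/-- the main step, for `f 0 ≠ 0` -/
theorem main {d : ℕ} {K0 : ℝ} (hK0 : 0 ≤ K0) (ht : 0 < t) (hQ : t * Q + 1 = Fintype.card E) (hQ0 : 0 < Q)
    (χ : MulChar E ℂ) (hχ : χ ^ t = 1) (hχ1 : χ ≠ 1) (f : E[X])
    (hf : f ≠ 0) (hd : f.natDegree ≤ d)
    (hN : ∀ a : E, ((univ.filter fun x : E => f.eval x ≠ 0 ∧ f.eval x ^ Q = a).card : ℝ) ≤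
      Fintype.card E / t + K0 * Real.sqrt (Fintype.card E)) :
    ‖∑ x : E, χ (f.eval x)‖ ≤ (t ^ 2 * K0 + t * d) * Real.sqrt (Fintype.card E) := by
  have hq1 : (1 : ℝ) ≤ Real.sqrt (Fintype.card E) := by
    rw [Real.one_le_sqrt]
    exact_mod_cast Fintype.card_pos
  have htR : (0 : ℝ) < t := by exact_mod_cast ht
  have ht1 : (1 : ℝ) ≤ t := by exact_mod_cast ht
  set s : Finset E := univ.filter fun x => f.eval x ≠ 0 with hs
  set N : E → ℕ := fun a => (univ.filter fun x : E => f.eval x ≠ 0 ∧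
    f.eval x ^ Q = a).card with hNdef
  have hmaps : ∀ x ∈ s, f.eval x ^ Q ∈ TT E t := fun x hx =>
    pow_mem hQ (Finset.mem_filter.1 hx).2
  have hfib : ∀ a, s.filter (fun x => f.eval x ^ Q = a) =
      univ.filter fun x : E => f.eval x ≠ 0 ∧ f.eval x ^ Q = a := by
    intro a
    rw [hs, Finset.filter_filter]
  -- the sum
  have h1 : ∑ x : E, χ (f.eval x) = ∑ a ∈ TT E t, (N a : ℂ) * cc χ Q a := by
    have h2 : ∑ x : E, χ (f.eval x) = ∑ x ∈ s, χ (f.eval x) := by
      rw [hs, Finset.sum_filter]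
      refine Finset.sum_congr rfl fun x _ => ?_
      split_ifs with h
      · rfl
      · rw [not_not.1 h]
        exact MulChar.map_zero χ
    rw [h2, ← Finset.sum_fiberwise_of_maps_to hmaps]
    refine Finset.sum_congr rfl fun a _ => ?_
    rw [hfib]
    rw [Finset.sum_congr rfl (g := fun _ => cc χ Q a), Finset.sum_const, nsmul_eq_mul]
    intro x hx
    obtain ⟨-, h3, h4⟩ := Finset.mem_filter.1 hx
    rw [← h4, cc_spec ht hQ hQ0 χ hχ h3]
  -- the counts
  have hcard : ∑ a ∈ TT E t, N a = s.card := by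
    rw [Finset.card_eq_sum_card_fiberwise hmaps]
    refine Finset.sum_congr rfl fun a _ => ?_
    rw [hfib]
  have hs_ge : (Fintype.card E : ℝ) - d ≤ s.card := by
    have h3 : s.card + (univ.filter fun x : E => ¬ (f.eval x ≠ 0)).card = Fintype.card E := by
      rw [hs, Finset.card_filter_add_card_filter_not, Finset.card_univ]
    have h4 : (univ.filter fun x : E => ¬ (f.eval x ≠ 0)).card ≤ d := by
      refine (Finset.card_le_card (t := f.roots.toFinset) ?_).trans
        ((Multiset.toFinset_card_le _).trans ((card_roots' f).trans hd))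
      intro x hx
      rw [Multiset.mem_toFinset, mem_roots hf]
      exact not_not.1 (Finset.mem_filter.1 hx).2
    have h5 : Fintype.card E ≤ s.card + d := by omega
    have : (Fintype.card E : ℝ) ≤ s.card + d := by exact_mod_cast h5
    linarith
  have hB0 : 0 ≤ (Fintype.card E : ℝ) / t + K0 * Real.sqrt (Fintype.card E) := by positivity
  have hdev : ∀ a ∈ TT E t, |(N a : ℝ) - Fintype.card E / t| ≤ t * K0 * Real.sqrt (Fintype.card E) + d := by
    intro a ha
    have hup := hN a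
    have hKs : 0 ≤ K0 * Real.sqrt (Fintype.card E) := by positivity
    rw [abs_le]
    constructor
    · have h3 : ∑ b ∈ TT E t, (N b : ℝ) = s.card := by exact_mod_cast hcard
      rw [← Finset.add_sum_erase _ _ ha] at h3
      have h4 : ∑ b ∈ (TT E t).erase a, (N b : ℝ) ≤
          ((TT E t).erase a).card • ((Fintype.card E : ℝ) / t + K0 * Real.sqrt (Fintype.card E)) :=
        Finset.sum_le_card_nsmul _ _ _ fun b _ => hN b
      rw [nsmul_eq_mul] at h4
      have h5 : ((((TT E t).erase a).card : ℕ) : ℝ) ≤ t - 1 := by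
        have h6 : ((TT E t).erase a).card + 1 ≤ t := by
          rw [Finset.card_erase_add_one ha]
          exact TT_card ht
        have : ((((TT E t).erase a).card : ℕ) : ℝ) + 1 ≤ t := by exact_mod_cast h6
        linarith
      have h6 := mul_le_mul_of_nonneg_right h5 hB0
      have h7 : ((t : ℝ) - 1) * ((Fintype.card E : ℝ) / t + K0 * Real.sqrt (Fintype.card E)) =
          Fintype.card E - Fintype.card E / t + (t - 1) * (K0 * Real.sqrt (Fintype.card E)) := by
        field_simp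
      rw [h7] at h6
      have h8 : ((t : ℝ) - 1) * (K0 * Real.sqrt (Fintype.card E)) ≤ t * K0 * Real.sqrt (Fintype.card E) := by
        nlinarith
      linarith
    · have h8 : K0 * Real.sqrt (Fintype.card E) ≤ t * K0 * Real.sqrt (Fintype.card E) := by nlinarith
      have h9 : (0 : ℝ) ≤ d := Nat.cast_nonneg d
      have h10 : (N a : ℝ) ≤ Fintype.card E / t + K0 * Real.sqrt (Fintype.card E) := hup
      linarith
  have h2 : ∑ x : E, χ (f.eval x) =
      ∑ a ∈ TT E t, ((N a : ℂ) - (Fintype.card E : ℂ) / t) * cc χ Q a := by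
    simp only [sub_mul, Finset.sum_sub_distrib, ← Finset.mul_sum]
    rw [cc_sum ht hQ hQ0 χ hχ hχ1, mul_zero, sub_zero, h1]
  rw [h2]
  have hD0 : 0 ≤ t * K0 * Real.sqrt (Fintype.card E) + d := by positivity
  calc ‖∑ a ∈ TT E t, ((N a : ℂ) - (Fintype.card E : ℂ) / t) * cc χ Q a‖
      ≤ ∑ a ∈ TT E t, ‖((N a : ℂ) - (Fintype.card E : ℂ) / t) * cc χ Q a‖ := norm_sum_le _ _
    _ ≤ ∑ a ∈ TT E t, (t * K0 * Real.sqrt (Fintype.card E) + d) := by
        refine Finset.sum_le_sum fun a ha => ?_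
        rw [norm_mul]
        have h3 : ‖(N a : ℂ) - (Fintype.card E : ℂ) / t‖ = |(N a : ℝ) - Fintype.card E / t| := by
          have : (N a : ℂ) - (Fintype.card E : ℂ) / t = (((N a : ℝ) - Fintype.card E / t : ℝ) : ℂ) := by push_cast; rfl
          rw [this, Complex.norm_real, Real.norm_eq_abs]
        rw [h3]
        have h4 := cc_norm χ Q a
        have h5 := hdev a ha
        calc |(N a : ℝ) - Fintype.card E / t| * ‖cc χ Q a‖ ≤ (t * K0 * Real.sqrt (Fintype.card E) + d) * 1 :=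
              mul_le_mul h5 h4 (norm_nonneg _) hD0
          _ = _ := mul_one _
    _ = (TT E t).card * (t * K0 * Real.sqrt (Fintype.card E) + d) := by rw [Finset.sum_const, nsmul_eq_mul]
    _ ≤ t * (t * K0 * Real.sqrt (Fintype.card E) + d) := by
        refine mul_le_mul_of_nonneg_right ?_ hD0
        exact_mod_cast TT_card ht
    _ ≤ (t ^ 2 * K0 + t * d) * Real.sqrt (Fintype.card E) := by
        have h3 : (t : ℝ) * d ≤ t * d * Real.sqrt (Fintype.card E) := by
          have : (0 : ℝ) ≤ t * d := by positivity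
          nlinarith
        nlinarith

end WELE

end Pool.Agent.H435R3.Weil
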